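import Pool.Agent.Lib.MP_b7851d_lc.Star.Bridge

/-!
# Every pair of variable words with a possible step has a word form
-/

namespace Pool.Agent.QuadEq.Star

variable {α : Type*} [DecidableEq α]
variable {iota : α → α} {e f : α}

/-- **Existence of the word form.** -/
theorem exists_good {x y : α} {P Q : List α} (hI : OkW iota (x :: P, y :: Q)) (hxy : y ≠ iota x) :
    ∃ lam m e f, Good lam iota e f ⟨x :: P, y :: Q, m⟩ := by
  obtain ⟨hinv, hne, hmem, hn⟩ := hI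
  simp only at hinv hne hmem hn
  have hx : x ∈ (x :: P) ++ (y :: Q) := by simp
  have hy : y ∈ (x :: P) ++ (y :: Q) := by simp
  have hnP := (List.nodup_append.mp hn).1
  have hnQ := (List.nodup_append.mp hn).2.1
  have hdj := (List.nodup_append.mp hn).2.2
  -- the last tokens
  obtain ⟨e, he⟩ : ∃ e, (x :: P).getLast? = some e := ⟨_, List.getLast?_eq_some_getLast (by simp)⟩
  obtain ⟨f, hf⟩ : ∃ f, (y :: Q).getLast? = some f := ⟨_, List.getLast?_eq_some_getLast (by simp)⟩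
  have heP : e ∈ x :: P := List.mem_of_getLast? he
  have hfQ : f ∈ y :: Q := List.mem_of_getLast? hf
  have hef : e ≠ f := fun h => hdj e heP f hfQ h
  set N : α → α → Prop := fun p z => nx (x :: P) p = some z ∨ nx (y :: Q) p = some z with hN
  have hNe : ∀ z, ¬ N e z := by
    rintro z (h | h)
    · rw [nx_last he hnP] at h; simp at h
    · exact hdj e heP e (nx_mem h).1 rfl
  have hNf : ∀ z, ¬ N f z := by
    rintro z (h | h)
    · exact hdj f (nx_mem h).1 f hfQ rfl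
    · rw [nx_last hf hnQ] at h; simp at h
  have hNx : ∀ p, ¬ N p x := by
    rintro p (h | h)
    · exact nx_head hnP h
    · exact hdj x (by simp) x (nx_mem h).2 rfl
  have hNy : ∀ p, ¬ N p y := by
    rintro p (h | h)
    · exact hdj y (nx_mem h).2 y (by simp) rfl
    · exact nx_head hnQ h
  have hNm : ∀ p z, N p z → p ∈ (x :: P) ++ (y :: Q) ∧ z ∈ (x :: P) ++ (y :: Q) := by
    rintro p z (h | h)
    · exact ⟨List.mem_append_left _ (nx_mem h).1, List.mem_append_left _ (nx_mem h).2⟩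
    · exact ⟨List.mem_append_right _ (nx_mem h).1, List.mem_append_right _ (nx_mem h).2⟩
  have hNi : ∀ p p' z, N p z → N p' z → p = p' := fun p p' z h h' =>
    Nx.inj (S := ⟨x :: P, y :: Q, x⟩) hn h h'
  have hNu : ∀ p z z', N p z → N p z' → z = z' := fun p z z' h h' =>
    Nx.unique (S := ⟨x :: P, y :: Q, x⟩) hn h h'
  have hNp : ∀ z ∈ (x :: P) ++ (y :: Q), z ≠ x → z ≠ y → ∃ p, N p z := by
    intro z hz h1 h2
    rcases List.mem_append.mp hz with h | h
    · obtain ⟨p, hp⟩ := exists_pred h h1 hnP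
      exact ⟨p, Or.inl hp⟩
    · obtain ⟨p, hp⟩ := exists_pred h h2 hnQ
      exact ⟨p, Or.inr hp⟩
  have hNn : ∀ p ∈ (x :: P) ++ (y :: Q), p ≠ e → p ≠ f → ∃ z, N p z := by
    intro p hp h1 h2
    rcases List.mem_append.mp hp with h | h
    · obtain ⟨z, hz⟩ := exists_next h he h1 hnP
      exact ⟨z, Or.inl hz⟩
    · obtain ⟨z, hz⟩ := exists_next h hf h2 hnQ
      exact ⟨z, Or.inr hz⟩
  -- the partners of the two first tokens
  have hix := hmem x hx
  have hiy := hmem y hy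
  have hxy' : x ≠ iota y := by
    intro h
    apply hxy
    rw [h, hinv y hy]
  obtain ⟨m₀, hm0⟩ := hNp _ hix (hne x hx) (fun h => hxy h.symm)
  obtain ⟨m₁, hm1⟩ := hNp _ hiy (fun h => hxy' h.symm) (hne y hy)
  have hm01 : m₀ ≠ m₁ := by
    rintro rfl
    have h := hNu _ _ _ hm0 hm1
    have h2 : x = y := by rw [← hinv x hx, h, hinv y hy]
    exact hdj x (by simp) y (by simp) h2
  have hm0e : m₀ ≠ e := by rintro rfl; exact hNe _ hm0
  have hm0f : m₀ ≠ f := by rintro rfl; exact hNf _ hm0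
  have hm1e : m₁ ≠ e := by rintro rfl; exact hNe _ hm1
  have hm1f : m₁ ≠ f := by rintro rfl; exact hNf _ hm1
  -- the relation of the gaps
  set R : α → α → Prop := fun p q => (p = e ∧ q = f) ∨ (p = f ∧ q = e) ∨ (p = m₀ ∧ q = m₁) ∨
    (p = m₁ ∧ q = m₀) ∨ (p ≠ e ∧ p ≠ f ∧ p ≠ m₀ ∧ p ≠ m₁ ∧ ∃ z, N p z ∧ N q (iota z)) with hR
  have hex : ∀ p ∈ (x :: P) ++ (y :: Q), ∃ q, R p q := by
    intro p hp
    by_cases h1 : p = e
    · exact ⟨f, Or.inl ⟨h1, rfl⟩⟩
    by_cases h2 : p = f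
    · exact ⟨e, Or.inr (Or.inl ⟨h2, rfl⟩)⟩
    by_cases h3 : p = m₀
    · exact ⟨m₁, Or.inr (Or.inr (Or.inl ⟨h3, rfl⟩))⟩
    by_cases h4 : p = m₁
    · exact ⟨m₀, Or.inr (Or.inr (Or.inr (Or.inl ⟨h4, rfl⟩)))⟩
    obtain ⟨z, hz⟩ := hNn p hp h1 h2
    have hzt := (hNm _ _ hz).2
    obtain ⟨q, hq⟩ := hNp (iota z) (hmem z hzt) (by
      intro h
      apply h3
      have : z = iota x := by rw [← h, hinv z hzt]
      rw [this] at hz
      exact hNi _ _ _ hz hm0) (by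
      intro h
      apply h4
      have : z = iota y := by rw [← h, hinv z hzt]
      rw [this] at hz
      exact hNi _ _ _ hz hm1)
    exact ⟨q, Or.inr (Or.inr (Or.inr (Or.inr ⟨h1, h2, h3, h4, z, hz, hq⟩)))⟩
  have hRm : ∀ p q, R p q → q ∈ (x :: P) ++ (y :: Q) := by
    rintro p q (⟨_, rfl⟩ | ⟨_, rfl⟩ | ⟨_, rfl⟩ | ⟨_, rfl⟩ | ⟨_, _, _, _, z, _, h⟩)
    · exact List.mem_append_right _ hfQ
    · exact List.mem_append_left _ heP
    · exact (hNm _ _ hm1).1
    · exact (hNm _ _ hm0).1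
    · exact (hNm _ _ h).1
  have hRR : ∀ p q r, R p q → R q r → r = p := by
    rintro p q r (⟨rfl, rfl⟩ | ⟨rfl, rfl⟩ | ⟨rfl, rfl⟩ | ⟨rfl, rfl⟩ | ⟨h1, h2, h3, h4, z, hz, hz'⟩) hq
    · rcases hq with ⟨h, _⟩ | ⟨_, h⟩ | ⟨h, _⟩ | ⟨h, _⟩ | ⟨_, h, _⟩
      · exact absurd h.symm hef
      · exact h
      · exact absurd h.symm hm0f
      · exact absurd h.symm hm1f
      · exact absurd rfl h
    · rcases hq with ⟨_, h⟩ | ⟨h, _⟩ | ⟨h, _⟩ | ⟨h, _⟩ | ⟨h, _⟩
      · exact h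
      · exact absurd h hef
      · exact absurd h.symm hm0e
      · exact absurd h.symm hm1e
      · exact absurd rfl h
    · rcases hq with ⟨h, _⟩ | ⟨h, _⟩ | ⟨h, _⟩ | ⟨_, h⟩ | ⟨_, _, _, h, _⟩
      · exact absurd h hm1e
      · exact absurd h hm1f
      · exact absurd h.symm hm01
      · exact h
      · exact absurd rfl h
    · rcases hq with ⟨h, _⟩ | ⟨h, _⟩ | ⟨_, h⟩ | ⟨h, _⟩ | ⟨_, _, h, _⟩
      · exact absurd h hm0e
      · exact absurd h hm0f
      · exact h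
      · exact absurd h hm01
      · exact absurd rfl h
    · have hzt := (hNm _ _ hz).2
      rcases hq with ⟨rfl, _⟩ | ⟨rfl, _⟩ | ⟨rfl, _⟩ | ⟨rfl, _⟩ | ⟨_, _, _, _, z', hz1, hz2⟩
      · exact absurd hz' (hNe _)
      · exact absurd hz' (hNf _)
      · have h5 := hNu _ _ _ hz' hm0
        have h6 : z = x := by rw [← hinv z hzt, h5, hinv x hx]
        rw [h6] at hz
        exact absurd hz (hNx _)
      · have h5 := hNu _ _ _ hz' hm1
        have h6 : z = y := by rw [← hinv z hzt, h5, hinv y hy]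
        rw [h6] at hz
        exact absurd hz (hNy _)
      · have h5 := hNu _ _ _ hz1 hz'
        rw [h5, hinv z hzt] at hz2
        exact hNi _ _ _ hz2 hz
  have hRne : ∀ p q, R p q → q ≠ p := by
    rintro p q (⟨rfl, rfl⟩ | ⟨rfl, rfl⟩ | ⟨rfl, rfl⟩ | ⟨rfl, rfl⟩ | ⟨_, _, _, _, z, hz, hz'⟩)
    · exact fun h => hef h.symm
    · exact hef
    · exact fun h => hm01 h.symm
    · exact hm01
    · rintro rfl
      exact hne z (hNm _ _ hz).2 (hNu _ _ _ hz' hz)
  classical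
  set lam : α → α := fun p => if h : ∃ q, R p q then h.choose else p with hlam
  have hl : ∀ p ∈ (x :: P) ++ (y :: Q), R p (lam p) := by
    intro p hp
    have h := hex p hp
    rw [hlam]
    simp only
    rw [dif_pos h]
    exact h.choose_spec
  have hle : lam e = f := by
    rcases hl e (List.mem_append_left _ heP) with ⟨_, h⟩ | ⟨h, _⟩ | ⟨h, _⟩ | ⟨h, _⟩ | ⟨h, _⟩
    · exact h
    · exact absurd h hef
    · exact absurd h.symm hm0e
    · exact absurd h.symm hm1e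
    · exact absurd rfl h
  have hlm : lam m₀ = m₁ := by
    rcases hl m₀ (hNm _ _ hm0).1 with ⟨h, _⟩ | ⟨h, _⟩ | ⟨_, h⟩ | ⟨h, _⟩ | ⟨_, _, h, _⟩
    · exact absurd h hm0e
    · exact absurd h hm0f
    · exact h
    · exact absurd h hm01
    · exact absurd rfl h
  refine ⟨lam, m₀, e, f, ⟨⟨?_, ?_, ?_, hle, hn, he, hf, (hNm _ _ hm0).1, hm0e, hm0f⟩,
    ⟨hinv, hne, hmem, hn⟩, ⟨?_, ⟨x, rfl, hm0⟩, ⟨y, rfl, ?_⟩⟩⟩⟩
  · intro p hp
    exact hRR _ _ _ (hl p hp) (hl _ (hRm _ _ (hl p hp)))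
  · intro p hp
    exact hRne _ _ (hl p hp)
  · intro p hp
    exact hRm _ _ (hl p hp)
  · intro p z h1 h2 hz
    simp only at h1 h2
    rw [hlm] at h2
    have hz : N p z := hz
    rcases hl p (hNm _ _ hz).1 with ⟨rfl, _⟩ | ⟨rfl, _⟩ | ⟨h, _⟩ | ⟨h, _⟩ | ⟨_, _, _, _, z', hz1, hz2⟩
    · exact absurd hz (hNe _)
    · exact absurd hz (hNf _)
    · exact absurd h h1
    · exact absurd h h2
    · rw [hNu _ _ _ hz hz1]
      exact hz2
  · simp only
    rw [hlm]
    exact hm1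

end Pool.Agent.QuadEq.Star
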