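import Pool.Agent.Lib.MP_b7851d_lc.Star.BridgeE

/-!
# Runs and same-side wins
-/

namespace Pool.Agent.QuadEq.Star

variable {α : Type*} [DecidableEq α]
variable {lam iota : α → α} {e f : α}

/-- There is a path of the variable words with at most `k` same-side wins. -/
inductive PathW (iota : α → α) : ℕ → List α × List α → List α × List α → Prop
  | refl (k : ℕ) (A : List α × List α) : PathW iota k A A
  | step {k : ℕ} {A A' B : List α × List α} (b : Bool) (h : stepW iota b A = some A')
      (hs : ¬ Same iota b A) (hp : PathW iota k A' B) : PathW iota k A B
  | win {k : ℕ} {A A' B : List α × List α} (b : Bool) (h : stepW iota b A = some A')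
      (hp : PathW iota k A' B) : PathW iota (k + 1) A B

theorem PathW.mono {k l : ℕ} {A B : List α × List α} (h : PathW iota k A B) (hkl : k ≤ l) :
    PathW iota l A B := by
  induction h generalizing l with
  | refl k A => exact PathW.refl l A
  | step b h hs hp ih => exact PathW.step b h hs (ih hkl)
  | @win k A A' B b h hp ih =>
    obtain ⟨l', rfl⟩ : ∃ l', l = l' + 1 := ⟨l - 1, by omega⟩
    exact PathW.win b h (ih (by omega))

theorem PathW.trans {k l : ℕ} {A B C : List α × List α} (h : PathW iota k A B)
    (h' : PathW iota l B C) : PathW iota (k + l) A C := by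
  induction h generalizing l with
  | refl k A => exact h'.mono (by omega)
  | step b h hs hp ih => exact PathW.step b h hs (ih h')
  | @win k A A' B b h hp ih =>
    have := PathW.win b h (ih h')
    rwa [show k + l + 1 = k + 1 + l by omega] at this

theorem stepW_swap (b : Bool) (A : List α × List α) :
    stepW iota (!b) A.swap = (stepW iota b A).map Prod.swap := by
  cases b with
  | true => unfold stepW bW; simp
  | false =>
    unfold stepW bW
    simp only [Bool.not_false, cond_true, cond_false, Option.map_map]
    cases tW iota A.swap with
    | none => rfl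
    | some B => simp

theorem same_swap (b : Bool) (A : List α × List α) : Same iota (!b) A.swap ↔ Same iota b A := by
  cases b <;> unfold Same <;> simp

theorem PathW.swap {k : ℕ} {A B : List α × List α} (h : PathW iota k A B) :
    PathW iota k A.swap B.swap := by
  induction h with
  | refl k A => exact PathW.refl k _
  | step b h hs hp ih =>
    exact PathW.step (!b) (by rw [stepW_swap, h]; rfl) (fun h' => hs ((same_swap b _).mp h')) ih
  | win b h hp ih => exact PathW.win (!b) (by rw [stepW_swap, h]; rfl) ih

/-- The T step is a same-side win if and only if the pointer is in the top word. -/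
theorem same_true {S : St α} (h : Good lam iota e f S) :
    Same iota true (S.P, S.Q) ↔ S.m ∈ S.P := by
  obtain ⟨x, hx, hx'⟩ := h.compat.c2
  have hn := h.ok.nd
  unfold Same
  simp only [cond_true]
  constructor
  · rintro ⟨x', P, Q, h1, h2⟩
    simp only [Prod.mk.injEq] at h1
    rw [h1.1, List.head?_cons] at hx
    obtain rfl := Option.some.inj hx
    rcases hx' with h | h
    · exact (nx_mem h).1
    · exact absurd rfl ((List.nodup_append.mp hn).2.2 _ (by rw [h1.1]; simp [h2]) _ (nx_mem h).2)
  · intro hm
    have h3 : nx S.P S.m = some (iota x) := by
      rcases hx' with h | h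
      · exact h
      · exact absurd rfl ((List.nodup_append.mp hn).2.2 _ hm _ (nx_mem h).1)
    have h4 := (nx_mem h3).2
    cases hP : S.P with
    | nil => rw [hP] at hx; simp at hx
    | cons a P =>
      rw [hP, List.head?_cons] at hx
      obtain rfl := Option.some.inj hx
      refine ⟨a, P, S.Q, rfl, ?_⟩
      rw [hP] at h4
      rcases List.mem_cons.mp h4 with h5 | h5
      · exact absurd h5 (h.okW.ne a (by rw [hP]; simp))
      · exact h5

/-- A sequence of T steps is a path with at most `Q.length` same-side wins. -/
theorem trun_path {k : ℕ} {S S' : St α} (h : Good lam iota e f S)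
    (hs : exec lam (List.replicate k true) S = some S') :
    PathW iota S.Q.length (S.P, S.Q) (S'.P, S'.Q) := by
  induction k generalizing S with
  | zero => rw [← Option.some.inj hs]; exact PathW.refl _ _
  | succ k ih =>
    rw [List.replicate_succ, exec] at hs
    obtain ⟨S₁, h1, h2⟩ := Option.bind_eq_some_iff.mp hs
    obtain ⟨h3, h4⟩ := h.step h1
    have h5 := ih h3 h2
    by_cases hm : S.m ∈ S.P
    · obtain ⟨v, Q, h6, h7, h8, h9⟩ := tS_eq_some.mp h1
      have hmQ : S.m ∉ Q := fun h' => (List.nodup_append.mp h.ok.nd).2.2 _ hm _ (by
        rw [h6]; exact List.mem_cons_of_mem _ h') rfl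
      have h10 : S.Q.length = S₁.Q.length + 1 := by
        rw [h9]; simp only; rw [insL_not_mem _ hmQ, h6, List.length_cons]
      rw [h10]
      exact PathW.win true h4 h5
    · obtain ⟨v, Q, h6, h7, h8, h9⟩ := tS_eq_some.mp h1
      have h10 : S₁.Q.length ≤ S.Q.length := by
        have hm' : S.m ∈ Q := by
          have := h.ok.pm
          rw [h6, List.mem_append, List.mem_cons] at this
          rcases this with h | h | h
          · exact absurd h hm
          · exact absurd h.symm h7
          · exact h
        have := (insL_perm [v] hm').length_eq
        rw [h9]; simp only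
        rw [this, h6]; simp
      exact PathW.step true h4 (fun h' => hm ((same_true h).mp h')) (h5.mono h10)

theorem Run.path {S S' : St α} (h : Good lam iota e f S) (hs : Run lam S S') :
    PathW iota (S.P.length + S.Q.length) (S.P, S.Q) (S'.P, S'.Q) := by
  obtain ⟨b, k, hk⟩ := hs
  cases b with
  | true => exact (trun_path h hk).mono (by omega)
  | false =>
    have h1 := exec_swap (w := List.replicate k false) h.ok
    rw [hk, Option.map_some, List.map_replicate] at h1
    have h2 := (trun_path h.swap h1).swap
    exact h2.mono (by unfold St.swap; simp)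

theorem Run.good {S S' : St α} (h : Good lam iota e f S) (hs : Run lam S S') :
    Good lam iota e f S' := by
  obtain ⟨b, k, hk⟩ := hs
  exact (h.exec hk).1

theorem Run.length_eq {S S' : St α} (hS : Ok lam e f S) (hs : Run lam S S') :
    S'.P.length + S'.Q.length = S.P.length + S.Q.length := by
  have h1 := hs.ok hS
  have h2 : List.Perm (S'.P ++ S'.Q) (S.P ++ S.Q) :=
    (List.perm_ext_iff_of_nodup h1.nd hS.nd).mpr fun x => hs.mem_iff hS x
  have := h2.length_eq
  rwa [List.length_append, List.length_append] at this

/-- **Runs and same-side wins.**  A path with `k` runs has at most `k` times the number of tokens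
same-side wins. -/
theorem Runs.path {k : ℕ} {S S' : St α} (h : Good lam iota e f S) (hs : Runs lam k S S') :
    PathW iota (k * (S.P.length + S.Q.length)) (S.P, S.Q) (S'.P, S'.Q) := by
  induction k generalizing S with
  | zero => rw [(show S = S' from hs)]; exact PathW.refl _ _
  | succ k ih =>
    obtain ⟨S₁, h1, h2⟩ := hs
    have h3 := ih (h1.good h) h2
    rw [h1.length_eq h.ok] at h3
    have := (h1.path h).trans h3
    rwa [show (k + 1) * (S.P.length + S.Q.length) =
      S.P.length + S.Q.length + k * (S.P.length + S.Q.length) by ring]

end Pool.Agent.QuadEq.Star
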