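import Pool.Agent.Lib.MP_b7851d_lc.Star.N3b
import Pool.Agent.Lib.MP_b7851d_lc.Star.N3a.Iface
import Pool.Agent.Lib.MP_b7851d_lc.Star.Wins
import Pool.Agent.Lib.MP_b7851d_lc.Star.BridgeE

/-!
# The states between two irreducible living states

`FW iota A`: the variable words `A` have a top pair and a bottom pair, no closed pair of prefixes and
no cut of type one half. A path between two such states consists of such states.
-/

namespace Pool.Agent.QuadEq.Star.Asm

variable {α : Type} [DecidableEq α] {lam iota : α → α} {e f : α}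

/-- No closed pair of prefixes. -/
def IrrW (iota : α → α) (A : List α × List α) : Prop :=
  ∀ U₁ U₂ V₁ V₂, A.1 = U₁ ++ U₂ → A.2 = V₁ ++ V₂ → U₁ ≠ [] → V₁ ≠ [] →
    (∀ x ∈ U₁ ++ V₁, iota x ∈ U₁ ++ V₁) → U₂ = [] ∧ V₂ = []

/-- A top pair and a bottom pair. -/
def Alive (iota : α → α) (A : List α × List α) : Prop :=
  (∃ x ∈ A.1, iota x ∈ A.1) ∧ ∃ y ∈ A.2, iota y ∈ A.2

/-- A cut of type one half. -/
def HCut (iota : α → α) (A : List α × List α) : Prop :=
  ∃ U₁ U₂ V₁ V₂, A.1 = U₁ ++ U₂ ∧ A.2 = V₁ ++ V₂ ∧ (∀ x ∈ U₁, iota x ∈ U₂ ∨ iota x ∈ V₁) ∧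
    (∀ x ∈ U₂, iota x ∈ U₁ ∨ iota x ∈ V₂) ∧ (∀ x ∈ V₁, iota x ∈ V₂ ∨ iota x ∈ U₁) ∧
    ∀ x ∈ V₂, iota x ∈ V₁ ∨ iota x ∈ U₂

/-- The states of the region `F0`. -/
structure FW (iota : α → α) (A : List α × List α) : Prop where
  /-- the conditions on the words -/
  ok : OkW iota A
  /-- no closed pair of prefixes -/
  irr : IrrW iota A
  /-- a top pair and a bottom pair -/
  alive : Alive iota A
  /-- no cut of type one half -/
  nhc : ¬ HCut iota A

omit [DecidableEq α] in
theorem IrrW.swap {A : List α × List α} (h : IrrW iota A) : IrrW iota A.swap := by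
  intro U₁ U₂ V₁ V₂ h1 h2 h3 h4 h5
  have := h V₁ V₂ U₁ U₂ h2 h1 h4 h3 (by
    intro x hx
    have := h5 x (by simpa [or_comm] using hx)
    simpa [or_comm] using this)
  exact ⟨this.2, this.1⟩

omit [DecidableEq α] in
theorem Alive.swap {A : List α × List α} (h : Alive iota A) : Alive iota A.swap := ⟨h.2, h.1⟩

omit [DecidableEq α] in
theorem HCut.swap {A : List α × List α} (h : HCut iota A) : HCut iota A.swap := by
  obtain ⟨U₁, U₂, V₁, V₂, h1, h2, h3, h4, h5, h6⟩ := h
  exact ⟨V₁, V₂, U₁, U₂, h2, h1, h5, h6, h3, h4⟩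

theorem FW.swap {A : List α × List α} (h : FW iota A) : FW iota A.swap :=
  ⟨h.ok.swap, h.irr.swap, h.alive.swap, fun h' => h.nhc (by simpa using h'.swap)⟩

theorem insB_split {u v : α} {A C : List α} (h : u ∉ A) :
    insB u v (A ++ u :: C) = A ++ v :: u :: C := by
  induction A with
  | nil => simp [insB]
  | cons a A ih =>
    rw [List.cons_append, insB, if_neg (fun e => h (by simp [e])),
      ih (fun e => h (List.mem_cons_of_mem _ e))]
    rfl

/-- The two kinds of T steps. -/
theorem tW_cases {A A' : List α × List α} (hA : OkW iota A) (h : tW iota A = some A') :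
    ∃ x P y Q, A = (x :: P, y :: Q) ∧ y ≠ iota x ∧ Q ≠ [] ∧
      ((∃ P₁ P₂, P = P₁ ++ iota x :: P₂ ∧ A' = (x :: (P₁ ++ y :: iota x :: P₂), Q)) ∨
        (∃ Q₁ Q₂, Q = Q₁ ++ iota x :: Q₂ ∧ A' = (x :: P, Q₁ ++ y :: iota x :: Q₂))) := by
  obtain ⟨P0, Q0⟩ := A
  cases P0 with
  | nil => simp [tW] at h
  | cons x P =>
    cases Q0 with
    | nil => simp [tW] at h
    | cons y Q =>
      simp only [tW] at h
      split at h
      · cases h
      · rename_i hc
        rw [not_or] at hc
        have hx := hA.mem x (by simp)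
        have hne := hA.ne x (by simp)
        have hnd := hA.nd
        simp only at hx hnd
        refine ⟨x, P, y, Q, rfl, hc.1, hc.2, ?_⟩
        have hx' : iota x ∈ P ∨ iota x ∈ Q := by
          rcases List.mem_append.mp hx with h1 | h1
          · rcases List.mem_cons.mp h1 with h2 | h2
            · exact absurd h2 hne
            · exact Or.inl h2
          · rcases List.mem_cons.mp h1 with h2 | h2
            · exact absurd h2.symm hc.1
            · exact Or.inr h2
        have hPQ : ∀ z ∈ P, z ∉ Q := by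
          intro z h1 h2
          have := List.nodup_append.mp hnd
          exact this.2.2 z (List.mem_cons_of_mem _ h1) z (List.mem_cons_of_mem _ h2) rfl
        rcases hx' with h1 | h1
        · left
          obtain ⟨P₁, P₂, rfl⟩ := List.append_of_mem h1
          have hP : (P₁ ++ iota x :: P₂).Nodup :=
            ((List.nodup_append.mp hnd).1).of_cons
          have h3 : iota x ∉ P₁ := by
            intro h4
            exact (List.nodup_append.mp hP).2.2 _ h4 _ (by simp) rfl
          refine ⟨P₁, P₂, rfl, ?_⟩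
          rw [insB_split h3, insB_not_mem (hPQ _ h1)] at h
          exact (Option.some.inj h).symm
        · right
          obtain ⟨Q₁, Q₂, rfl⟩ := List.append_of_mem h1
          have hQ : (Q₁ ++ iota x :: Q₂).Nodup :=
            ((List.nodup_append.mp hnd).2.1).of_cons
          have h3 : iota x ∉ Q₁ := by
            intro h4
            exact (List.nodup_append.mp hQ).2.2 _ h4 _ (by simp) rfl
          refine ⟨Q₁, Q₂, rfl, ?_⟩
          rw [insB_split h3, insB_not_mem (fun h5 => hPQ _ h5 h1)] at h
          exact (Option.some.inj h).symm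

theorem tW_perm {A A' : List α × List α} (hA : OkW iota A) (h : tW iota A = some A') :
    List.Perm (A'.1 ++ A'.2) (A.1 ++ A.2) := by
  obtain ⟨x, P, y, Q, rfl, -, -, h⟩ := tW_cases hA h
  rcases h with ⟨P₁, P₂, rfl, rfl⟩ | ⟨Q₁, Q₂, rfl, rfl⟩
  · have h1 : ((P₁ ++ iota x :: P₂) ++ y :: Q).Perm (y :: ((P₁ ++ iota x :: P₂) ++ Q)) :=
      List.perm_middle
    have h2 : (P₁ ++ y :: (iota x :: P₂ ++ Q)).Perm (y :: (P₁ ++ (iota x :: P₂ ++ Q))) :=
      List.perm_middle
    have e1 : (x :: (P₁ ++ y :: iota x :: P₂)) ++ Q = x :: (P₁ ++ y :: (iota x :: P₂ ++ Q)) := by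
      simp
    have e2 : y :: (P₁ ++ (iota x :: P₂ ++ Q)) = y :: ((P₁ ++ iota x :: P₂) ++ Q) := by simp
    have e3 : (x :: (P₁ ++ iota x :: P₂)) ++ y :: Q = x :: ((P₁ ++ iota x :: P₂) ++ y :: Q) := rfl
    simp only
    rw [e1, e3]
    exact List.Perm.cons x (h2.trans (by rw [e2]; exact h1.symm))
  · simp only [List.cons_append]
    refine List.Perm.cons x (List.Perm.append_left P ?_)
    exact List.perm_middle

theorem okW_tW {A A' : List α × List α} (hA : OkW iota A) (h : Star.tW iota A = some A') :
    OkW iota A' := hA.of_perm (tW_perm hA h)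

theorem Alive.of_tW {A A' : List α × List α} (hA : OkW iota A) (h : tW iota A = some A')
    (h' : Alive iota A') : Alive iota A := by
  obtain ⟨x, P, y, Q, rfl, -, -, h⟩ := tW_cases hA h
  obtain ⟨⟨p, hp, hp'⟩, q, hq, hq'⟩ := h'
  rcases h with ⟨P₁, P₂, rfl, rfl⟩ | ⟨Q₁, Q₂, rfl, rfl⟩
  · exact ⟨⟨x, by simp, by simp⟩, q, List.mem_cons_of_mem _ hq, List.mem_cons_of_mem _ hq'⟩
  · refine ⟨⟨p, hp, hp'⟩, q, ?_, ?_⟩
    · simp only [List.mem_append, List.mem_cons] at hq ⊢; tauto
    · simp only [List.mem_append, List.mem_cons] at hq' ⊢; tauto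

omit [DecidableEq α] in
/-- Decomposition of a word at a token of the first part. -/
theorem split_at_mem {a : α} {l₁ l₂ V₁ V₂ : List α} (h : l₁ ++ a :: l₂ = V₁ ++ V₂)
    (ha : a ∉ V₂) : ∃ l, V₁ = l₁ ++ a :: l ∧ l₂ = l ++ V₂ := by
  rcases List.append_eq_append_iff.1 h with ⟨c, h1, h2⟩ | ⟨c, h1, h2⟩
  · cases c with
    | nil =>
      simp only [List.nil_append] at h2
      exact absurd (h2 ▸ List.mem_cons_self) ha
    | cons b c =>
      rw [List.cons_append, List.cons.injEq] at h2
      exact ⟨c, by rw [h1, h2.1], h2.2⟩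
  · exact absurd (by rw [h2]; simp) ha

theorem IrrW.tW {A A' : List α × List α} (hA : OkW iota A) (h : Star.tW iota A = some A')
    (hI : IrrW iota A) : IrrW iota A' := by
  have hA' := okW_tW hA h
  obtain ⟨x, P, y, Q, rfl, hyx, hQ, h⟩ := tW_cases hA h
  intro U₁ U₂ V₁ V₂ h1 h2 h3 h4 h5
  have hnd := hA'.nd
  have hxU : x ∈ U₁ := by
    cases U₁ with
    | nil => exact absurd rfl h3
    | cons u U₁ =>
      rcases h with ⟨P₁, P₂, rfl, rfl⟩ | ⟨Q₁, Q₂, rfl, rfl⟩ <;>
      · simp only [List.cons_append, List.cons.injEq] at h1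
        simp [h1.1]
  have hix := h5 x (List.mem_append_left _ hxU)
  rcases h with ⟨P₁, P₂, rfl, rfl⟩ | ⟨Q₁, Q₂, rfl, rfl⟩
  · simp only at h1 h2 hnd
    rw [h1, h2] at hnd
    have hU2 : iota x ∉ U₂ := by
      intro h6
      rcases List.mem_append.mp hix with h7 | h7
      · exact (List.nodup_append.mp (List.nodup_append.mp hnd).1).2.2 _ h7 _ h6 rfl
      · exact (List.nodup_append.mp hnd).2.2 _ (List.mem_append_right _ h6) _
          (List.mem_append_left _ h7) rfl
    have h1' : (x :: (P₁ ++ [y])) ++ iota x :: P₂ = U₁ ++ U₂ := by rw [← h1]; simp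
    obtain ⟨R, hR1, hR2⟩ := split_at_mem h1' hU2
    have := hI (x :: (P₁ ++ iota x :: R)) U₂ (y :: V₁) V₂ (by rw [hR2]; simp) (by rw [h2]; simp)
      (by simp) (by simp) (by
        intro z hz
        have : z ∈ U₁ ++ V₁ := by
          rw [hR1]; simp only [List.mem_append, List.mem_cons, List.not_mem_nil] at hz ⊢; tauto
        have := h5 z this
        rw [hR1] at this
        simp only [List.mem_append, List.mem_cons, List.not_mem_nil] at this ⊢; tauto)
    exact this
  · simp only at h1 h2 hnd
    rw [h1, h2] at hnd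
    have hV2 : iota x ∉ V₂ := by
      intro h6
      rcases List.mem_append.mp hix with h7 | h7
      · exact (List.nodup_append.mp hnd).2.2 _ (List.mem_append_left _ h7) _
          (List.mem_append_right _ h6) rfl
      · exact (List.nodup_append.mp (List.nodup_append.mp hnd).2.1).2.2 _ h7 _ h6 rfl
    have h2' : (Q₁ ++ [y]) ++ iota x :: Q₂ = V₁ ++ V₂ := by rw [← h2]; simp
    obtain ⟨R, hR1, hR2⟩ := split_at_mem h2' hV2
    have := hI U₁ U₂ (y :: (Q₁ ++ iota x :: R)) V₂ h1 (by rw [hR2]; simp)
      h3 (by simp) (by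
        intro z hz
        have : z ∈ U₁ ++ V₁ := by
          rw [hR1]; simp only [List.mem_append, List.mem_cons, List.not_mem_nil] at hz ⊢; tauto
        have := h5 z this
        rw [hR1] at this
        simp only [List.mem_append, List.mem_cons, List.not_mem_nil] at this ⊢; tauto)
    exact this

theorem HCut.tW {A A' : List α × List α} (hA : OkW iota A) (h : Star.tW iota A = some A')
    (hL : Alive iota A) (hI : HCut iota A) : HCut iota A' := by
  obtain ⟨x, P, y, Q, rfl, hyx, hQ, h⟩ := tW_cases hA h
  obtain ⟨U₁, U₂, V₁, V₂, h1, h2, h3, h4, h5, h6⟩ := hI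
  have hnd := hA.nd
  have hinv := hA.inv
  simp only at h1 h2 hnd hinv
  obtain ⟨⟨p, hp, hp'⟩, q, hq, hq'⟩ := hL
  simp only at hp hp' hq hq'
  -- both prefixes are not empty
  have hU : U₁ ≠ [] := by
    rintro rfl
    rw [List.nil_append] at h1
    rw [h1] at hp hp' hnd
    rcases h4 p hp with h7 | h7
    · simp at h7
    · rw [h2] at hnd
      exact (List.nodup_append.mp hnd).2.2 _ hp' _ (List.mem_append_right _ h7) rfl
  have hV : V₁ ≠ [] := by
    rintro rfl
    rw [List.nil_append] at h2
    rw [h2] at hq hq' hnd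
    rcases h6 q hq with h7 | h7
    · simp at h7
    · rw [h1] at hnd
      exact (List.nodup_append.mp hnd).2.2 _ (List.mem_append_right _ h7) _ hq' rfl
  obtain ⟨u, U₃, rfl⟩ := List.exists_cons_of_ne_nil hU
  obtain ⟨v, V₃, rfl⟩ := List.exists_cons_of_ne_nil hV
  simp only [List.cons_append, List.cons.injEq] at h1 h2
  obtain ⟨rfl, h1⟩ := h1
  obtain ⟨rfl, h2⟩ := h2
  rw [h1, h2] at hnd hinv
  rcases h with ⟨P₁, P₂, rfl, rfl⟩ | ⟨Q₁, Q₂, rfl, rfl⟩
  · -- the partner of `x` is behind the cut
    rcases h3 x (by simp) with h7 | h7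
    · have hU3 : iota x ∉ U₃ := by
        intro h8
        have := (List.nodup_append.mp hnd).1
        exact (List.nodup_append.mp this.of_cons).2.2 _ h8 _ h7 rfl
      obtain ⟨C, h8, h9⟩ : ∃ C, U₂ = C ++ iota x :: P₂ ∧ P₁ = U₃ ++ C := by
        rcases List.append_eq_append_iff.1 h1 with ⟨c, h8, h9⟩ | ⟨c, h8, h9⟩
        · cases c with
          | nil =>
            simp only [List.nil_append] at h9
            exact ⟨[], by rw [List.nil_append, ← h9], by rw [h8]; simp⟩
          | cons b c =>
            rw [List.cons_append, List.cons.injEq] at h9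
            exact absurd (by rw [h8, h9.1]; simp) hU3
        · exact ⟨c, h9, h8⟩
      subst h8 h9
      refine ⟨x :: U₃, C ++ y :: iota x :: P₂, V₃, V₂, by simp, h2, ?_, ?_, ?_, ?_⟩
      · intro z hz
        rcases h3 z hz with h10 | h10
        · left; simp only [List.mem_append, List.mem_cons] at h10 ⊢; tauto
        · rcases List.mem_cons.mp h10 with h11 | h11
          · left; rw [h11]; simp
          · exact Or.inr h11
      · intro z hz
        simp only [List.mem_append, List.mem_cons] at hz
        have hz' : z = y ∨ z ∈ C ++ iota x :: P₂ := by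
          simp only [List.mem_append, List.mem_cons]; tauto
        rcases hz' with rfl | hz'
        · rcases h5 z (by simp) with h10 | h10
          · exact Or.inr h10
          · exact Or.inl h10
        · exact h4 z hz'
      · intro z hz
        rcases h5 z (List.mem_cons_of_mem _ hz) with h10 | h10
        · exact Or.inl h10
        · exact Or.inr h10
      · intro z hz
        rcases h6 z hz with h10 | h10
        · rcases List.mem_cons.mp h10 with h11 | h11
          · right; rw [h11]; simp
          · exact Or.inl h11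
        · right; simp only [List.mem_append, List.mem_cons] at h10 ⊢; tauto
    · exfalso
      have : iota x ∈ x :: (U₃ ++ U₂) := by rw [← h1]; simp
      exact (List.nodup_append.mp hnd).2.2 _ this _ (List.mem_append_left _ h7) rfl
  · rcases h3 x (by simp) with h7 | h7
    · exfalso
      have : iota x ∈ y :: (V₃ ++ V₂) := by rw [← h2]; simp
      exact (List.nodup_append.mp hnd).2.2 _ (by simp [h7]) _ this rfl
    · have h7' : iota x ∈ V₃ := by
        rcases List.mem_cons.mp h7 with h8 | h8
        · exact absurd h8.symm hyx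
        · exact h8
      have hV2 : iota x ∉ V₂ := by
        intro h8
        have := (List.nodup_append.mp hnd).2.1
        exact (List.nodup_append.mp this.of_cons).2.2 _ h7' _ h8 rfl
      obtain ⟨R, hR1, hR2⟩ := split_at_mem h2 hV2
      subst hR1 hR2
      have hm : ∀ z, z ∈ Q₁ ++ y :: iota x :: R ↔ z ∈ y :: (Q₁ ++ iota x :: R) := by
        intro z; simp only [List.mem_append, List.mem_cons]; tauto
      refine ⟨x :: U₃, U₂, Q₁ ++ y :: iota x :: R, V₂, by simp [h1], by simp, ?_, ?_, ?_, ?_⟩
      · intro z hz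
        rcases h3 z hz with h10 | h10
        · exact Or.inl h10
        · exact Or.inr ((hm _).mpr h10)
      · exact h4
      · intro z hz
        exact h5 z ((hm _).mp hz)
      · intro z hz
        rcases h6 z hz with h10 | h10
        · exact Or.inl ((hm _).mpr h10)
        · exact Or.inr h10

/-! ### Steps -/

theorem bW_iff {A A' : List α × List α} : bW iota A = some A' ↔ tW iota A.swap = some A'.swap := by
  unfold bW
  rw [Option.map_eq_some_iff]
  constructor
  · rintro ⟨B, h, rfl⟩; simpa using h
  · intro h; exact ⟨A'.swap, h, by simp⟩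

theorem stepW_induct {A A' : List α × List α} {b : Bool} (h : stepW iota b A = some A') :
    (b = true ∧ tW iota A = some A') ∨ (b = false ∧ tW iota A.swap = some A'.swap) := by
  cases b with
  | true => exact Or.inl ⟨rfl, h⟩
  | false => exact Or.inr ⟨rfl, bW_iff.mp h⟩

theorem stepW_perm {A A' : List α × List α} {b : Bool} (hA : OkW iota A)
    (h : stepW iota b A = some A') : List.Perm (A'.1 ++ A'.2) (A.1 ++ A.2) := by
  rcases stepW_induct h with ⟨-, h⟩ | ⟨-, h⟩
  · exact tW_perm hA h
  · have := tW_perm hA.swap h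
    simp only [Prod.fst_swap, Prod.snd_swap] at this
    exact List.perm_append_comm.trans (this.trans List.perm_append_comm)

theorem okW_stepW {A A' : List α × List α} {b : Bool} (hA : OkW iota A)
    (h : Star.stepW iota b A = some A') : OkW iota A' := hA.of_perm (stepW_perm hA h)

theorem Alive.of_stepW {A A' : List α × List α} {b : Bool} (hA : OkW iota A)
    (h : stepW iota b A = some A') (h' : Alive iota A') : Alive iota A := by
  rcases stepW_induct h with ⟨-, h⟩ | ⟨-, h⟩
  · exact Alive.of_tW hA h h'
  · simpa using (Alive.of_tW hA.swap h h'.swap).swap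

theorem IrrW.stepW {A A' : List α × List α} {b : Bool} (hA : OkW iota A)
    (h : Star.stepW iota b A = some A') (hI : IrrW iota A) : IrrW iota A' := by
  rcases stepW_induct h with ⟨-, h⟩ | ⟨-, h⟩
  · exact hI.tW hA h
  · simpa using (hI.swap.tW hA.swap h).swap

theorem HCut.stepW {A A' : List α × List α} {b : Bool} (hA : OkW iota A)
    (h : Star.stepW iota b A = some A') (hL : Alive iota A) (hI : HCut iota A) :
    HCut iota A' := by
  rcases stepW_induct h with ⟨-, h⟩ | ⟨-, h⟩
  · exact hI.tW hA h hL
  · simpa using (hI.swap.tW hA.swap h hL.swap).swap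

/-! ### Paths -/

theorem execW_append (iota : α → α) (w w' : List Bool) (A : List α × List α) :
    execW iota (w ++ w') A = (execW iota w A).bind (execW iota w') := by
  induction w generalizing A with
  | nil => rfl
  | cons b w ih =>
    rw [List.cons_append, execW, execW]
    cases h : stepW iota b A with
    | none => rfl
    | some A' => simp only [Option.bind_some]; exact ih A'

theorem execW_perm {w : List Bool} {A B : List α × List α} (hA : OkW iota A)
    (h : execW iota w A = some B) : List.Perm (B.1 ++ B.2) (A.1 ++ A.2) := by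
  induction w generalizing A with
  | nil => rw [← Option.some.inj h]
  | cons b w ih =>
    rw [execW] at h
    obtain ⟨A₁, h1, h2⟩ := Option.bind_eq_some_iff.mp h
    exact (ih (okW_stepW hA h1) h2).trans (stepW_perm hA h1)

theorem okW_execW {w : List Bool} {A B : List α × List α} (hA : OkW iota A)
    (h : Star.execW iota w A = some B) : OkW iota B := hA.of_perm (execW_perm hA h)

theorem Alive.of_execW {w : List Bool} {A B : List α × List α} (hA : OkW iota A)
    (h : execW iota w A = some B) (h' : Alive iota B) : Alive iota A := by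
  induction w generalizing A with
  | nil => rwa [Option.some.inj h]
  | cons b w ih =>
    rw [execW] at h
    obtain ⟨A₁, h1, h2⟩ := Option.bind_eq_some_iff.mp h
    exact Alive.of_stepW hA h1 (ih (okW_stepW hA h1) h2)

theorem IrrW.execW {w : List Bool} {A B : List α × List α} (hA : OkW iota A)
    (h : Star.execW iota w A = some B) (hI : IrrW iota A) : IrrW iota B := by
  induction w generalizing A with
  | nil => rwa [← Option.some.inj h]
  | cons b w ih =>
    rw [Star.execW] at h
    obtain ⟨A₁, h1, h2⟩ := Option.bind_eq_some_iff.mp h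
    exact ih (okW_stepW hA h1) h2 (hI.stepW hA h1)

theorem HCut.execW {w : List Bool} {A B : List α × List α} (hA : OkW iota A)
    (h : Star.execW iota w A = some B) (hL : Alive iota B) (hI : HCut iota A) : HCut iota B := by
  induction w generalizing A with
  | nil => rwa [← Option.some.inj h]
  | cons b w ih =>
    have hL' := Alive.of_execW hA h hL
    rw [Star.execW] at h
    obtain ⟨A₁, h1, h2⟩ := Option.bind_eq_some_iff.mp h
    exact ih (okW_stepW hA h1) h2 (hI.stepW hA h1 hL')

/-- A state between two states of the region is in the region. -/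
theorem FW.between {w w' : List Bool} {A B C : List α × List α} (hA : FW iota A) (hC : FW iota C)
    (h : execW iota w A = some B) (h' : execW iota w' B = some C) : FW iota B := by
  have hB := okW_execW hA.ok h
  have hL := Alive.of_execW hB h' hC.alive
  exact ⟨hB, hA.irr.execW hA.ok h, hL, fun hc => hC.nhc (hc.execW hB h' hC.alive)⟩

omit [DecidableEq α] in
/-- Both heads of a state of the region. -/
theorem FW.heads {A : List α × List α} (h : FW iota A) :
    ∃ x P y Q, A = (x :: P, y :: Q) ∧ y ≠ iota x := by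
  obtain ⟨⟨p, hp, hp'⟩, q, hq, hq'⟩ := h.alive
  obtain ⟨P0, Q0⟩ := A
  simp only at hp hp' hq hq'
  cases P0 with
  | nil => simp at hp
  | cons x P =>
    cases Q0 with
    | nil => simp at hq
    | cons y Q =>
      refine ⟨x, P, y, Q, rfl, ?_⟩
      rintro rfl
      have hx := h.ok.inv x (by simp)
      obtain ⟨h1, h2⟩ := h.irr [x] P [iota x] Q rfl rfl (by simp) (by simp) (by
        intro z hz
        simp only [List.mem_append, List.mem_singleton] at hz ⊢
        rcases hz with rfl | rfl
        · exact Or.inr rfl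
        · exact Or.inl hx)
      subst h1 h2
      simp only [List.mem_singleton] at hp hp'
      rw [hp] at hp'
      exact h.ok.ne x (by simp) hp'

end Pool.Agent.QuadEq.Star.Asm
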