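import Pool.Agent.Lib.MP_b7851d_lc.Star.Bridge

/-!
# A pattern of the variable words is a pattern of the word form

If a set of variables contains both heads, then the restriction of the variable words to it is, as
a word form, the restriction of the word form to a closed set of tokens: the token in front of the
next token of the pattern plays the part of a token of the pattern.
-/

set_option linter.unusedSectionVars false
set_option linter.unusedVariables false

namespace Pool.Agent.QuadEq.Star

variable {α β : Type*} [DecidableEq α] [DecidableEq β]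

/-- The tokens in front of the tokens of `Y`, and the last token. -/
def gaps (Y : α → Bool) : List α → List α
  | [] => []
  | [a] => [a]
  | a :: b :: l => if Y b = true then a :: gaps Y (b :: l) else gaps Y (b :: l)

theorem gaps_sublist (Y : α → Bool) : ∀ l : List α, (gaps Y l).Sublist l
  | [] => by simp [gaps]
  | [a] => by simp [gaps]
  | a :: b :: l => by
    rw [gaps]
    split_ifs
    · exact (gaps_sublist Y (b :: l)).cons_cons a
    · exact (gaps_sublist Y (b :: l)).cons a

theorem gaps_length (Y : α → Bool) : ∀ (x : α) (l : List α),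
    (gaps Y (x :: l)).length = (l.filter Y).length + 1
  | x, [] => by simp [gaps]
  | x, b :: l => by
    rw [gaps]
    by_cases hb : Y b = true
    · rw [if_pos hb, List.length_cons, gaps_length Y b l, List.filter_cons_of_pos hb]
      rfl
    · rw [if_neg hb, gaps_length Y b l, List.filter_cons_of_neg hb]

theorem gaps_getLast? (Y : α → Bool) : ∀ l : List α, (gaps Y l).getLast? = l.getLast?
  | [] => by simp [gaps]
  | [a] => by simp [gaps]
  | a :: b :: l => by
    have ih := gaps_getLast? Y (b :: l)
    rw [gaps]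
    split_ifs
    · rw [List.getLast?_cons (a := a) (l := gaps Y (b :: l)), ih, ← List.getLast?_cons]
    · rw [ih, List.getLast?_cons_cons]

theorem gaps_nx {Y : α → Bool} : ∀ {l : List α} {x : α} {i : ℕ} {g z : α}, (x :: l).Nodup →
    (gaps Y (x :: l))[i]? = some g → (l.filter Y)[i]? = some z → nx (x :: l) g = some z
  | [], x, i, g, z, _, _, h => by simp at h
  | b :: l, x, i, g, z, hn, hg, hz => by
    have hn' := (List.nodup_cons.1 hn).2
    have key : ∀ {j : ℕ}, (gaps Y (b :: l))[j]? = some g → (l.filter Y)[j]? = some z →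
        nx (x :: b :: l) g = some z := by
      intro j h1 h2
      have h3 := gaps_nx hn' h1 h2
      have h4 : g ∈ b :: l := (gaps_sublist Y _).subset (List.mem_of_getElem? h1)
      have h5 : x ≠ g := fun h => (List.nodup_cons.1 hn).1 (h ▸ h4)
      rw [nx, if_neg h5]
      exact h3
    rw [gaps] at hg
    by_cases hb : Y b = true
    · rw [if_pos hb] at hg
      rw [List.filter_cons_of_pos hb] at hz
      cases i with
      | zero =>
        simp only [List.getElem?_cons_zero, Option.some.injEq] at hg hz
        rw [← hg, ← hz, nx, if_pos rfl]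
        rfl
      | succ i =>
        rw [List.getElem?_cons_succ] at hg hz
        exact key hg hz
    · rw [if_neg hb] at hg
      rw [List.filter_cons_of_neg hb] at hz
      exact key hg hz

/-- Filtering by the members of a subword. -/
theorem filter_mem_sublist {l l' : List α} (h : l'.Sublist l) (hn : l.Nodup) :
    l.filter (fun z => decide (z ∈ l')) = l' := by
  induction h with
  | slnil => rfl
  | @cons l₁ l₂ a h ih =>
    have h1 := List.nodup_cons.1 hn
    rw [List.filter_cons_of_neg (by simpa using fun h' => h1.1 (h.subset h')), ih h1.2]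
  | @cons_cons l₁ l₂ a h ih =>
    have h1 := List.nodup_cons.1 hn
    rw [List.filter_cons_of_pos (by simp)]
    congr 1
    have h3 := ih h1.2
    refine Eq.trans (List.filter_congr fun z hz => ?_) h3
    simp only [decide_eq_decide, List.mem_cons]
    constructor
    · rintro (h2 | h2)
      · exact absurd hz (h2 ▸ h1.1)
      · exact h2
    · intro h2
      exact Or.inr h2

theorem nx_idx {l : List α} {b c : α} (hn : l.Nodup) (h : nx l b = some c) :
    l[l.idxOf b]? = some b ∧ l[l.idxOf b + 1]? = some c ∧ l.idxOf b < l.length := by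
  obtain ⟨A, C, rfl⟩ := nx_split h
  have hb : b ∉ A := fun h' => (List.nodup_append.1 hn).2.2 _ h' _ (by simp) rfl
  have h1 : (A ++ b :: c :: C).idxOf b = A.length := by
    rw [List.idxOf_append_of_notMem hb, List.idxOf_cons_self]
    simp
  rw [h1]
  refine ⟨?_, ?_, ?_⟩
  · simp
  · rw [List.getElem?_append_right (by omega)]
    simp
  · simp

/-- The naming of the gaps. -/
theorem map_getD_idxOf {l : List β} {g : List α} (hn : l.Nodup) (hl : l.length = g.length) (x : α) :
    l.map (fun b => g.getD (l.idxOf b) x) = g := by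
  refine List.ext_getElem (by simp [hl]) fun i h1 h2 => ?_
  rw [List.getElem_map]
  have h3 : i < l.length := by simpa using h1
  rw [hn.idxOf_getElem i h3, List.getD_eq_getElem _ _ h2]

variable {lam iota : α → α} {e f : α} {lam' iota' : β → β} {e' f' : β}

/-- **Patterns.** -/
theorem res_iota {S : St α} {p : St β} (h : Good lam iota e f S) (h' : Good lam' iota' e' f' p)
    {ψ : β → α} (hinj : ∀ a ∈ p.P ++ p.Q, ∀ b ∈ p.P ++ p.Q, ψ a = ψ b → a = b)
    (hio : ∀ b ∈ p.P ++ p.Q, ψ (iota' b) = iota (ψ b)) {Y : α → Bool}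
    (hP : p.P.map ψ = S.P.filter Y) (hQ : p.Q.map ψ = S.Q.filter Y)
    (hx : ∀ x, S.P.head? = some x → Y x = true) (hy : ∀ y, S.Q.head? = some y → Y y = true) :
    ∃ (A : α → Bool) (φ : β → α), Cl lam e S A ∧ Rel lam' lam p φ ∧ φ e' = e ∧ φ f' = f ∧
      S.res A = p.map φ := by
  obtain ⟨x, hx1, hx2⟩ := h.compat.c2
  obtain ⟨y, hy1, hy2⟩ := h.compat.c3
  obtain ⟨x', hx1', hx2'⟩ := h'.compat.c2
  obtain ⟨y', hy1', hy2'⟩ := h'.compat.c3
  have hS := h.ok
  have hp := h'.ok
  have hn := hS.nd
  have hn' := hp.nd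
  obtain ⟨LP, hLP⟩ : ∃ LP, S.P = x :: LP := by
    cases hc : S.P with
    | nil => rw [hc] at hx1; simp at hx1
    | cons a l => rw [hc] at hx1; simp at hx1; exact ⟨l, by rw [hx1]⟩
  obtain ⟨LQ, hLQ⟩ : ∃ LQ, S.Q = y :: LQ := by
    cases hc : S.Q with
    | nil => rw [hc] at hy1; simp at hy1
    | cons a l => rw [hc] at hy1; simp at hy1; exact ⟨l, by rw [hy1]⟩
  have hYx := hx x hx1
  have hYy := hy y hy1
  have hnP := (List.nodup_append.1 hn).1
  have hnQ := (List.nodup_append.1 hn).2.1
  have hdis := (List.nodup_append.1 hn).2.2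
  have hnP' := (List.nodup_append.1 hn').1
  have hnQ' := (List.nodup_append.1 hn').2.1
  have hdis' := (List.nodup_append.1 hn').2.2
  have hP2 : p.P.map ψ = x :: LP.filter Y := by
    rw [hP, hLP, List.filter_cons_of_pos hYx]
  have hQ2 : p.Q.map ψ = y :: LQ.filter Y := by
    rw [hQ, hLQ, List.filter_cons_of_pos hYy]
  have hlP : p.P.length = (gaps Y S.P).length := by
    have := congrArg List.length hP2
    rw [List.length_map, List.length_cons] at this
    rw [this, hLP, gaps_length]
  have hlQ : p.Q.length = (gaps Y S.Q).length := by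
    have := congrArg List.length hQ2
    rw [List.length_map, List.length_cons] at this
    rw [this, hLQ, gaps_length]
  set φ : β → α := fun b => if b ∈ p.P then (gaps Y S.P).getD (p.P.idxOf b) e else
    (gaps Y S.Q).getD (p.Q.idxOf b) e with hφ
  have hmP : p.P.map φ = gaps Y S.P := by
    rw [← map_getD_idxOf hnP' hlP e]
    refine List.map_congr_left fun b hb => ?_
    simp only [hφ]
    rw [if_pos hb]
  have hmQ : p.Q.map φ = gaps Y S.Q := by
    rw [← map_getD_idxOf hnQ' hlQ e]
    refine List.map_congr_left fun b hb => ?_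
    simp only [hφ]
    rw [if_neg fun hb' => hdis' _ hb' _ hb rfl]
  -- the gaps
  have hNx : ∀ b c, Nx p b c → Nx S (φ b) (ψ c) := by
    rintro b c (hbc | hbc)
    · obtain ⟨h1, h2, h3⟩ := nx_idx hnP' hbc
      left
      have h4 : φ b = (gaps Y S.P).getD (p.P.idxOf b) e := by
        simp only [hφ]; rw [if_pos (nx_mem hbc).1]
      rw [hLP]
      refine gaps_nx (Y := Y) (i := p.P.idxOf b) (by rw [← hLP]; exact hnP) ?_ ?_
      · rw [← hLP, h4, List.getD_eq_getElem _ _ (by rw [← hlP]; exact h3)]
        exact List.getElem?_eq_getElem _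
      · have h5 : (p.P.map ψ)[p.P.idxOf b + 1]? = some (ψ c) := by
          rw [List.getElem?_map, h2]; rfl
        rw [hP2, List.getElem?_cons_succ] at h5
        exact h5
    · obtain ⟨h1, h2, h3⟩ := nx_idx hnQ' hbc
      right
      have h4 : φ b = (gaps Y S.Q).getD (p.Q.idxOf b) e := by
        simp only [hφ]; rw [if_neg fun hb' => hdis' _ hb' _ (nx_mem hbc).1 rfl]
      rw [hLQ]
      refine gaps_nx (Y := Y) (i := p.Q.idxOf b) (by rw [← hLQ]; exact hnQ) ?_ ?_
      · rw [← hLQ, h4, List.getD_eq_getElem _ _ (by rw [← hlQ]; exact h3)]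
        exact List.getElem?_eq_getElem _
      · have h5 : (p.Q.map ψ)[p.Q.idxOf b + 1]? = some (ψ c) := by
          rw [List.getElem?_map, h2]; rfl
        rw [hQ2, List.getElem?_cons_succ] at h5
        exact h5
  have he : φ e' = e := by
    have h1 : (p.P.map φ).getLast? = some e := by rw [hmP, gaps_getLast?, hS.le]
    rw [List.getLast?_map, hp.le] at h1
    simpa using h1
  have hf : φ f' = f := by
    have h1 : (p.Q.map φ).getLast? = some f := by rw [hmQ, gaps_getLast?, hS.lf]
    rw [List.getLast?_map, hp.lf] at h1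
    simpa using h1
  have hsub : (gaps Y S.P ++ gaps Y S.Q).Sublist (S.P ++ S.Q) :=
    (gaps_sublist Y S.P).append (gaps_sublist Y S.Q)
  have hmn : ((p.P ++ p.Q).map φ).Nodup := by
    rw [List.map_append, hmP, hmQ]
    exact hsub.nodup hn
  have hφi : ∀ a ∈ p.P ++ p.Q, ∀ b ∈ p.P ++ p.Q, φ a = φ b → a = b := fun a ha b hb =>
    List.inj_on_of_nodup_map hmn ha hb
  -- the heads
  have hψx : ψ x' = x := by
    have h1 := congrArg List.head? hP2
    rw [List.head?_map, hx1'] at h1
    simpa using h1
  have hψy : ψ y' = y := by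
    have h1 := congrArg List.head? hQ2
    rw [List.head?_map, hy1'] at h1
    simpa using h1
  have hx'm : x' ∈ p.P ++ p.Q := List.mem_append_left _ (List.mem_of_head? hx1')
  have hy'm : y' ∈ p.P ++ p.Q := List.mem_append_right _ (List.mem_of_head? hy1')
  have hm : φ p.m = S.m := by
    have h1 := hNx _ _ hx2'
    rw [hio x' hx'm, hψx] at h1
    exact Nx.inj hn h1 hx2
  have hm1 : φ (lam' p.m) = lam S.m := by
    have h1 := hNx _ _ hy2'
    rw [hio y' hy'm, hψy] at h1
    exact Nx.inj hn h1 hy2
  have hrel : Rel lam' lam p φ := by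
    refine ⟨hφi, fun b hb => ?_⟩
    by_cases hbe : b = e'
    · rw [hbe, hp.lef, he, hf, hS.lef]
    by_cases hbf : b = f'
    · rw [hbf, hp.lfe, he, hf, hS.lfe]
    by_cases hbm : b = p.m
    · rw [hbm, hm, hm1]
    by_cases hbm1 : b = lam' p.m
    · rw [hbm1, hp.inv _ hp.pm, hm, hm1, hS.inv _ hS.pm]
    -- an ordinary gap
    obtain ⟨c, hc⟩ : ∃ c, Nx p b c := by
      rcases List.mem_append.1 hb with h1 | h1
      · obtain ⟨c, hc⟩ := exists_next h1 hp.le hbe hnP'
        exact ⟨c, Or.inl hc⟩
      · obtain ⟨c, hc⟩ := exists_next h1 hp.lf hbf hnQ'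
        exact ⟨c, Or.inr hc⟩
    have h1 := hNx _ _ (h'.compat.c1 b c hbm hbm1 hc)
    rw [hio c hc.mem.2] at h1
    have h2 := h.compat.c1 (φ b) (ψ c) (fun h3 => hbm (hφi b hb _ hp.pm (h3.trans hm.symm)))
      (fun h3 => hbm1 (hφi b hb _ (hp.mem _ hp.pm) (h3.trans hm1.symm))) (hNx _ _ hc)
    exact Nx.inj hn h1 h2
  -- the closed set
  refine ⟨fun z => decide (z ∈ gaps Y S.P ++ gaps Y S.Q), φ, ⟨fun z hz hA => ?_, ?_, ?_⟩, hrel, he,
    hf, ?_⟩
  · rw [decide_eq_true_eq] at hA ⊢
    rw [← hmP, ← hmQ, ← List.map_append] at hA ⊢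
    obtain ⟨b, hb, rfl⟩ := List.mem_map.1 hA
    rw [← hrel.2 b hb]
    exact List.mem_map_of_mem (hp.mem b hb)
  · rw [decide_eq_true_eq, ← hmP, ← hmQ, ← List.map_append, ← he]
    exact List.mem_map_of_mem (List.mem_append_left _ (List.mem_of_getLast? hp.le))
  · rw [decide_eq_true_eq, ← hmP, ← hmQ, ← List.map_append, ← hm]
    exact List.mem_map_of_mem hp.pm
  · have e1 : S.P.filter (fun z => decide (z ∈ gaps Y S.P ++ gaps Y S.Q)) = gaps Y S.P := by
      conv_rhs => rw [← filter_mem_sublist (gaps_sublist Y S.P) hnP]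
      refine List.filter_congr fun z hz => ?_
      simp only [decide_eq_decide, List.mem_append]
      exact ⟨fun h1 => h1.resolve_right fun h2 => hdis _ hz _ ((gaps_sublist Y S.Q).subset h2) rfl,
        Or.inl⟩
    have e2 : S.Q.filter (fun z => decide (z ∈ gaps Y S.P ++ gaps Y S.Q)) = gaps Y S.Q := by
      conv_rhs => rw [← filter_mem_sublist (gaps_sublist Y S.Q) hnQ]
      refine List.filter_congr fun z hz => ?_
      simp only [decide_eq_decide, List.mem_append]
      exact ⟨fun h1 => h1.resolve_left fun h2 => hdis _ ((gaps_sublist Y S.P).subset h2) _ hz rfl,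
        Or.inr⟩
    unfold St.res St.map
    rw [e1, e2, hmP, hmQ, hm]

end Pool.Agent.QuadEq.Star
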