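import Pool.Agent.Lib.MP_b7851d_lc.Star.FW

/-!
# No closed pair of prefixes means no far block
-/

namespace Pool.Agent.QuadEq.Star.Asm

variable {α : Type} [DecidableEq α] {lam iota : α → α} {e f : α}

theorem suc_mem {P₁ E : List α} {e p z : α} (hn : (P₁ ++ E ++ [e]).Nodup) (hp : p ∈ E)
    (h : nx (P₁ ++ E ++ [e]) p = some z) : z ∈ (E ++ [e]).tail := by
  obtain ⟨Ea, Eb, rfl⟩ := List.append_of_mem hp
  have hne : Eb ++ [e] ≠ [] := by simp
  obtain ⟨z', D, hD⟩ := List.exists_cons_of_ne_nil hne
  have he : P₁ ++ (Ea ++ p :: Eb) ++ [e] = (P₁ ++ Ea) ++ p :: z' :: D := by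
    rw [← hD]; simp
  rw [he] at h hn
  have h1 : nx ((P₁ ++ Ea) ++ p :: z' :: D) p = some z' :=
    nx_of_split fun h' => (List.nodup_append.mp hn).2.2 _ h' _ (by simp) rfl
  rw [h1] at h
  have h2 := Option.some.inj h
  subst h2
  have h3 : z' ∈ Eb ++ [e] := by rw [hD]; simp
  cases Ea with
  | nil => simpa using h3
  | cons a Ea => simp only [List.cons_append, List.tail_cons, List.append_assoc]
                 exact List.mem_append_right _ (List.mem_cons_of_mem _ h3)

theorem mem_suc {P₁ E : List α} {e z : α} (hn : (P₁ ++ E ++ [e]).Nodup)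
    (hz : z ∈ (E ++ [e]).tail) : ∃ p ∈ E, nx (P₁ ++ E ++ [e]) p = some z := by
  cases E with
  | nil => simp at hz
  | cons a E =>
    simp only [List.cons_append, List.tail_cons] at hz
    obtain ⟨C, D, hCD⟩ := List.append_of_mem hz
    rcases List.eq_nil_or_concat' C with rfl | ⟨C', p, rfl⟩
    · refine ⟨a, by simp, ?_⟩
      have he : P₁ ++ a :: E ++ [e] = P₁ ++ a :: z :: D := by
        have : P₁ ++ a :: E ++ [e] = P₁ ++ a :: (E ++ [e]) := by simp
        rw [this, hCD]; rfl
      rw [he] at hn ⊢
      exact nx_of_split fun h' => (List.nodup_append.mp hn).2.2 _ h' _ (by simp) rfl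
    · have he : P₁ ++ a :: E ++ [e] = (P₁ ++ a :: C') ++ p :: z :: D := by
        have : P₁ ++ a :: E ++ [e] = P₁ ++ a :: (E ++ [e]) := by simp
        rw [this, hCD]; simp
      refine ⟨p, ?_, ?_⟩
      · have h1 : p ∈ E ++ [e] := by rw [hCD]; simp
        rcases List.mem_append.mp h1 with h2 | h2
        · exact List.mem_cons_of_mem _ h2
        · exfalso
          rw [List.mem_singleton] at h2
          subst h2
          have h3 : (E ++ [p]).Nodup := by
            have := (List.nodup_append.mp (by simpa using hn : (P₁ ++ a :: (E ++ [p])).Nodup)).2.1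
            exact this.of_cons
          have h4 : (E ++ [p]).getLast? = some p := by simp
          have h5 := nx_last h4 h3
          rw [hCD] at h5 h3
          have h6 : nx ((C' ++ [p]) ++ z :: D) p = some z := by
            rw [List.append_assoc]
            exact nx_of_split fun h' => by
              rw [List.append_assoc] at h3
              exact (List.nodup_append.mp h3).2.2 _ h' _ (by simp) rfl
          rw [h5] at h6
          cases h6
      · rw [he] at hn ⊢
        exact nx_of_split fun h' => (List.nodup_append.mp hn).2.2 _ h' _ (by simp) rfl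

omit [DecidableEq α] in
theorem head_tail (P₁ E : List α) (e : α) : ∃ a, P₁ ++ E ++ [e] = (P₁ ++ [a]) ++ (E ++ [e]).tail := by
  cases E with
  | nil => exact ⟨e, by simp⟩
  | cons a E => exact ⟨a, by simp⟩

/-- A good state without closed pair of prefixes has no far block. -/
theorem irr_of_good {S : St α} (h : Good lam iota e f S) (hI : IrrW iota (S.P, S.Q)) :
    N3b.Irr lam e f S := by
  intro P₁ E Q₁ F hP hQ hcl hm
  have hn := h.ok.nd
  have hnP : (P₁ ++ E ++ [e]).Nodup := by rw [← hP]; exact (List.nodup_append.mp hn).1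
  have hnQ : (Q₁ ++ F ++ [f]).Nodup := by rw [← hQ]; exact (List.nodup_append.mp hn).2.1
  have hsub : ∀ x ∈ E ++ F, x ∈ S.P ++ S.Q := by
    intro x hx
    rw [hP, hQ]
    rcases List.mem_append.mp hx with h1 | h1
    · simp [h1]
    · simp [h1]
  have hm' : lam S.m ∉ E ++ F := by
    intro h1
    have := hcl _ h1
    rw [h.ok.inv _ h.ok.pm] at this
    exact hm this
  obtain ⟨a, ha⟩ := head_tail P₁ E e
  obtain ⟨b, hb⟩ := head_tail Q₁ F f
  -- the successors of the tokens of the block
  have key : ∀ z, z ∈ (E ++ [e]).tail ++ (F ++ [f]).tail →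
      iota z ∈ (E ++ [e]).tail ++ (F ++ [f]).tail := by
    intro z hz
    obtain ⟨p, hp, hpz⟩ : ∃ p ∈ E ++ F, Nx S p z := by
      rcases List.mem_append.mp hz with h1 | h1
      · obtain ⟨p, hp, h2⟩ := mem_suc hnP h1
        exact ⟨p, List.mem_append_left _ hp, Or.inl (by rw [hP]; exact h2)⟩
      · obtain ⟨p, hp, h2⟩ := mem_suc hnQ h1
        exact ⟨p, List.mem_append_right _ hp, Or.inr (by rw [hQ]; exact h2)⟩
    have h3 := h.compat.c1 p z (fun h4 => hm (h4 ▸ hp)) (fun h4 => hm' (h4 ▸ hp)) hpz
    have h4 := hcl p hp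
    rcases List.mem_append.mp h4 with h5 | h5
    · rcases h3 with h3 | h3
      · exact List.mem_append_left _ (suc_mem hnP h5 (by rw [← hP]; exact h3))
      · exfalso
        exact (List.nodup_append.mp hn).2.2 (lam p) (by rw [hP]; simp [h5]) (lam p)
          (nx_mem h3).1 rfl
    · rcases h3 with h3 | h3
      · exfalso
        exact (List.nodup_append.mp hn).2.2 (lam p) (nx_mem h3).1 (lam p)
          (by rw [hQ]; simp [h5]) rfl
      · exact List.mem_append_right _ (suc_mem hnQ h5 (by rw [← hQ]; exact h3))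
  have hall : ∀ z, z ∈ S.P ++ S.Q ↔ z ∈ (P₁ ++ [a]) ++ (Q₁ ++ [b]) ∨
      z ∈ (E ++ [e]).tail ++ (F ++ [f]).tail := by
    intro z
    rw [hP, hQ, ha, hb]
    simp only [List.mem_append]
    tauto
  have hdisj : ∀ z, z ∈ (P₁ ++ [a]) ++ (Q₁ ++ [b]) → z ∉ (E ++ [e]).tail ++ (F ++ [f]).tail := by
    intro z h1 h2
    rw [hP, hQ, ha, hb] at hn
    have hnn := List.nodup_append.mp hn
    rcases List.mem_append.mp h1 with h1 | h1
    · rcases List.mem_append.mp h2 with h2 | h2
      · exact (List.nodup_append.mp hnn.1).2.2 _ h1 _ h2 rfl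
      · exact hnn.2.2 _ (List.mem_append_left _ h1) _ (List.mem_append_right _ h2) rfl
    · rcases List.mem_append.mp h2 with h2 | h2
      · exact hnn.2.2 _ (List.mem_append_right _ h2) _ (List.mem_append_left _ h1) rfl
      · exact (List.nodup_append.mp hnn.2.1).2.2 _ h1 _ h2 rfl
  obtain ⟨h1, h2⟩ := hI (P₁ ++ [a]) (E ++ [e]).tail (Q₁ ++ [b]) (F ++ [f]).tail
    (by rw [← ha]; exact hP) (by rw [← hb]; exact hQ) (by simp) (by simp) (by
      intro z hz
      have hzS : z ∈ S.P ++ S.Q := (hall z).mpr (Or.inl hz)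
      have h1 := h.okW.mem z hzS
      simp only at h1
      rcases (hall _).mp h1 with h2 | h2
      · exact h2
      · exfalso
        have h3 := key _ h2
        rw [h.okW.inv z hzS] at h3
        exact hdisj z hz h3)
  cases E with
  | cons x E => simp at h1
  | nil =>
    cases F with
    | cons x F => simp at h2
    | nil => rfl

end Pool.Agent.QuadEq.Star.Asm
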