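import Pool.Agent.Lib.MP_b7851d_lc.Star.Wins

/-!
# Segments of the variable words

A small pair of words, in which every token `b` is replaced with the segment `ψ b :: tl b`. If the
first tokens of the segments are compatible with the partner maps, then a step of the small words is
a run of the big words, and the segments stay the same.
-/

set_option linter.unusedSectionVars false
set_option linter.unusedVariables false

namespace Pool.Agent.QuadEq.Star

variable {α β γ : Type*} [DecidableEq α] [DecidableEq β] [DecidableEq γ]

/-! ### Runs of the variable words -/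

/-- A run. -/
def RunW (iota : α → α) (A B : List α × List α) : Prop :=
  ∃ b k, execW iota (List.replicate k b) A = some B

/-- A path with `k` runs. -/
def RunsW (iota : α → α) : ℕ → List α × List α → List α × List α → Prop
  | 0, A, B => A = B
  | k + 1, A, B => ∃ A₁, RunW iota A A₁ ∧ RunsW iota k A₁ B

section

variable {iota : α → α}

theorem execW_cons (b : Bool) (w : List Bool) (A : List α × List α) :
    execW iota (b :: w) A = (stepW iota b A).bind (execW iota w) := rfl

theorem execW_app (w w' : List Bool) (A : List α × List α) :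
    execW iota (w ++ w') A = (execW iota w A).bind (execW iota w') := by
  induction w generalizing A with
  | nil => rfl
  | cons b w ih =>
    rw [List.cons_append, execW_cons, execW_cons]
    cases h : stepW iota b A with
    | none => rfl
    | some A' => simp only [Option.bind_some]; exact ih A'

theorem RunW.refl (A : List α × List α) : RunW iota A A := ⟨true, 0, rfl⟩

theorem RunW.of_step {b : Bool} {A B : List α × List α} (h : stepW iota b A = some B) :
    RunW iota A B := ⟨b, 1, by
      rw [List.replicate_succ, execW_cons, h]; rfl⟩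

theorem RunsW.refl : ∀ (k : ℕ) (A : List α × List α), RunsW iota k A A
  | 0, _ => rfl
  | k + 1, A => ⟨A, RunW.refl A, RunsW.refl k A⟩

theorem RunsW.single {A B : List α × List α} (h : RunW iota A B) : RunsW iota 1 A B := ⟨B, h, rfl⟩

theorem RunsW.trans : ∀ {k l : ℕ} {A B C : List α × List α}, RunsW iota k A B → RunsW iota l B C →
    RunsW iota (k + l) A C
  | 0, l, A, B, C, h, h' => by
    obtain rfl : A = B := h
    rw [Nat.zero_add]; exact h'
  | k + 1, l, A, B, C, ⟨A₁, h1, h2⟩, h' => by
    rw [Nat.add_right_comm]
    exact ⟨A₁, h1, RunsW.trans h2 h'⟩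

theorem RunsW.mono {k l : ℕ} {A B : List α × List α} (h : RunsW iota k A B) (hk : k ≤ l) :
    RunsW iota l A B := by
  obtain ⟨d, rfl⟩ := Nat.exists_eq_add_of_le hk
  exact h.trans (RunsW.refl d B)

theorem RunsW.of_exec : ∀ {w : List Bool} {A B : List α × List α}, execW iota w A = some B →
    RunsW iota w.length A B
  | [], A, B, h => by
    obtain rfl : A = B := by simpa [execW] using h
    rfl
  | b :: w, A, B, h => by
    rw [execW_cons, Option.bind_eq_some_iff] at h
    obtain ⟨A₁, h1, h2⟩ := h
    exact ⟨A₁, RunW.of_step h1, RunsW.of_exec h2⟩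

theorem RunsW.exec : ∀ {k : ℕ} {A B : List α × List α}, RunsW iota k A B →
    ∃ w, execW iota w A = some B
  | 0, A, B, h => ⟨[], by rw [show A = B from h]; rfl⟩
  | k + 1, A, B, ⟨A₁, ⟨b, j, h1⟩, h2⟩ => by
    obtain ⟨w, hw⟩ := RunsW.exec h2
    exact ⟨List.replicate j b ++ w, by rw [execW_app, h1]; exact hw⟩

theorem execW_swap (w : List Bool) (A : List α × List α) :
    execW iota (w.map (!·)) A.swap = (execW iota w A).map Prod.swap := by
  induction w generalizing A with
  | nil => rfl
  | cons b w ih =>
    rw [List.map_cons, execW_cons, execW_cons, stepW_swap]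
    cases stepW iota b A with
    | none => rfl
    | some B => simp only [Option.map_some, Option.bind_some]; exact ih B

theorem RunW.swap {A B : List α × List α} (h : RunW iota A B) : RunW iota A.swap B.swap := by
  obtain ⟨b, k, h⟩ := h
  refine ⟨!b, k, ?_⟩
  have := execW_swap (iota := iota) (List.replicate k b) A
  rw [List.map_replicate, h] at this
  exact this

theorem RunsW.swap : ∀ {k : ℕ} {A B : List α × List α}, RunsW iota k A B →
    RunsW iota k A.swap B.swap
  | 0, A, B, h => by rw [show A = B from h]; rfl
  | k + 1, A, B, ⟨A₁, h1, h2⟩ => ⟨A₁.swap, h1.swap, RunsW.swap h2⟩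

/-! ### The tokens -/

theorem insB_perm {u v : α} {l : List α} (hu : u ∈ l) : (insB u v l).Perm (v :: l) := by
  induction l with
  | nil => simp at hu
  | cons a l ih =>
    rw [insB]
    by_cases ha : a = u
    · rw [if_pos ha]
    · rw [if_neg ha]
      have : u ∈ l := by
        rcases List.mem_cons.1 hu with h | h
        · exact absurd h.symm ha
        · exact h
      exact ((ih this).cons a).trans (List.Perm.swap v a l)

theorem tW_perm' {A B : List α × List α} (hA : OkW iota A) (h : tW iota A = some B) :
    (B.1 ++ B.2).Perm (A.1 ++ A.2) := by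
  obtain ⟨P0, Q0⟩ := A
  cases P0 with
  | nil => simp [tW] at h
  | cons x P =>
    cases Q0 with
    | nil => simp [tW] at h
    | cons y Q =>
      simp only [tW] at h
      split at h
      · cases h
      · rename_i hc
        rw [not_or] at hc
        have h := (Option.some.inj h).symm
        rw [h]
        have hx := hA.mem x (by simp)
        have hne := hA.ne x (by simp)
        have hnd := hA.nd
        simp only at hx hnd ⊢
        rw [List.cons_append, List.cons_append]
        refine List.Perm.cons x ?_
        have hx' : iota x ∈ P ∨ iota x ∈ Q := by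
          rcases List.mem_append.mp hx with h1 | h1
          · rcases List.mem_cons.mp h1 with h2 | h2
            · exact absurd h2 hne
            · exact Or.inl h2
          · rcases List.mem_cons.mp h1 with h2 | h2
            · exact absurd h2.symm hc.1
            · exact Or.inr h2
        have hPQ : ∀ z ∈ P, z ∉ Q := by
          intro z h1 h2
          have := List.nodup_append.mp hnd
          exact this.2.2 z (List.mem_cons_of_mem _ h1) z (List.mem_cons_of_mem _ h2) rfl
        rcases hx' with h1 | h1
        · rw [insB_not_mem (hPQ _ h1)]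
          exact ((insB_perm h1).append_right Q).trans List.perm_middle.symm
        · have h2 : iota x ∉ P := fun h3 => hPQ _ h3 h1
          rw [insB_not_mem h2]
          exact (insB_perm h1).append_left P

theorem stepW_perm' {b : Bool} {A B : List α × List α} (hA : OkW iota A)
    (h : stepW iota b A = some B) : (B.1 ++ B.2).Perm (A.1 ++ A.2) := by
  cases b with
  | true => exact tW_perm' hA h
  | false =>
    unfold stepW bW at h
    simp only [cond_false, Option.map_eq_some_iff] at h
    obtain ⟨C, h1, rfl⟩ := h
    have := tW_perm' hA.swap h1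
    exact (List.perm_append_comm.trans this).trans List.perm_append_comm

theorem OkW.stepW {b : Bool} {A B : List α × List α} (hA : OkW iota A)
    (h : stepW iota b A = some B) : OkW iota B := hA.of_perm (stepW_perm' hA h)

theorem OkW.execW : ∀ {w : List Bool} {A B : List α × List α}, OkW iota A →
    execW iota w A = some B → OkW iota B ∧ (B.1 ++ B.2).Perm (A.1 ++ A.2)
  | [], A, B, hA, h => by
    obtain rfl : A = B := by simpa [Star.execW] using h
    exact ⟨hA, List.Perm.refl _⟩
  | b :: w, A, B, hA, h => by
    rw [execW_cons, Option.bind_eq_some_iff] at h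
    obtain ⟨A₁, h1, h2⟩ := h
    obtain ⟨h3, h4⟩ := OkW.execW (hA.stepW h1) h2
    exact ⟨h3, h4.trans (stepW_perm' hA h1)⟩

theorem OkW.runsW {k : ℕ} {A B : List α × List α} (hA : OkW iota A) (h : RunsW iota k A B) :
    OkW iota B ∧ (B.1 ++ B.2).Perm (A.1 ++ A.2) := by
  obtain ⟨w, hw⟩ := h.exec
  exact hA.execW hw

/-! ### The insertion of a word -/

/-- Insertion of the word `w` right before `u`. -/
def insBL (u : α) (w : List α) : List α → List α
  | [] => []
  | a :: l => if a = u then w ++ a :: l else a :: insBL u w l

theorem insBL_not_mem {u : α} {w : List α} : ∀ {l : List α}, u ∉ l → insBL u w l = l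
  | [], _ => rfl
  | a :: l, h => by
    rw [insBL, if_neg (fun e => h (by simp [e])),
      insBL_not_mem (fun e => h (List.mem_cons_of_mem _ e))]

theorem insBL_split {u : α} {w A C : List α} (h : u ∉ A) :
    insBL u w (A ++ u :: C) = A ++ (w ++ u :: C) := by
  induction A with
  | nil => simp [insBL]
  | cons a A ih =>
    rw [List.cons_append, insBL, if_neg (fun e => h (by simp [e])),
      ih (fun e => h (List.mem_cons_of_mem _ e))]
    rfl

theorem insBL_insB {u v : α} {w : List α} (hv : v ≠ u) : ∀ l : List α,
    insBL u w (insB u v l) = insBL u (v :: w) l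
  | [] => rfl
  | a :: l => by
    rw [insB, insBL]
    by_cases ha : a = u
    · rw [if_pos ha, if_pos ha, insBL, if_neg hv, insBL, if_pos ha]
      rfl
    · rw [if_neg ha, if_neg ha, insBL, if_neg ha, insBL_insB hv l]

theorem insB_append_left {u v : α} {w l : List α} (h : u ∉ w) :
    insB u v (w ++ l) = w ++ insB u v l := by
  induction w with
  | nil => rfl
  | cons a w ih =>
    rw [List.cons_append, insB, if_neg (fun e => h (by simp [e])),
      ih (fun e => h (List.mem_cons_of_mem _ e))]
    rfl

theorem insB_ne_nil {u v : α} {l : List α} (h : l ≠ []) : insB u v l ≠ [] := by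
  cases l with
  | nil => exact absurd rfl h
  | cons a l =>
    rw [insB]
    split_ifs <;> simp

/-- A run in which the first token of the top word eats the word `w`. -/
theorem runW_T {x : α} : ∀ {w P Q : List α}, Q ≠ [] → iota x ∉ w →
    execW iota (List.replicate w.length true) (x :: P, w ++ Q) =
      some (x :: insBL (iota x) w P, insBL (iota x) w Q)
  | [], P, Q, _, _ => by
    have h : ∀ l : List α, insBL (iota x) [] l = l := by
      intro l
      induction l with
      | nil => rfl
      | cons a l ih =>
        rw [insBL, ih]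
        simp
    rw [h, h]
    rfl
  | v :: w, P, Q, hQ, hw => by
    have hv : v ≠ iota x := fun h => hw (by simp [h])
    have hw' : iota x ∉ w := fun h => hw (List.mem_cons_of_mem _ h)
    rw [List.length_cons, List.replicate_succ, execW_cons]
    have h1 : stepW iota true (x :: P, v :: w ++ Q) =
        some (x :: insB (iota x) v P, w ++ insB (iota x) v Q) := by
      show tW iota (x :: P, v :: w ++ Q) = _
      unfold tW
      simp only [List.cons_append]
      rw [if_neg (not_or.mpr ⟨hv, by simp [hQ]⟩), insB_append_left hw']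
    rw [h1, Option.bind_some, runW_T (insB_ne_nil hQ) hw', insBL_insB hv, insBL_insB hv]

end

/-! ### Runs and same-side wins -/

section

variable {iota : α → α}

theorem length_insB {u v : α} {l : List α} (hu : u ∈ l) : (insB u v l).length = l.length + 1 := by
  rw [(insB_perm hu).length_eq, List.length_cons]

/-- A sequence of T steps has at most as many wins as the bottom word has tokens. -/
theorem trunW_path : ∀ {k : ℕ} {A B : List α × List α}, OkW iota A →
    execW iota (List.replicate k true) A = some B → PathW iota A.2.length A B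
  | 0, A, B, _, h => by
    obtain rfl : A = B := by simpa [execW] using h
    exact PathW.refl _ _
  | k + 1, A, B, hA, h => by
    rw [List.replicate_succ, execW_cons, Option.bind_eq_some_iff] at h
    obtain ⟨A₁, h1, h2⟩ := h
    have h3 := trunW_path (hA.stepW h1) h2
    obtain ⟨P0, Q0⟩ := A
    cases P0 with
    | nil => simp [stepW, tW] at h1
    | cons x P =>
      cases Q0 with
      | nil => simp [stepW, tW] at h1
      | cons y Q =>
        have h1' : tW iota (x :: P, y :: Q) = some A₁ := h1
        simp only [tW] at h1'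
        split at h1'
        · cases h1'
        · rename_i hc
          rw [not_or] at hc
          have h4 := (Option.some.inj h1').symm
          have hx := hA.mem x (by simp)
          have hne := hA.ne x (by simp)
          have hnd := hA.nd
          simp only at hx hnd ⊢
          have hx' : iota x ∈ P ∨ iota x ∈ Q := by
            rcases List.mem_append.mp hx with h5 | h5
            · rcases List.mem_cons.mp h5 with h6 | h6
              · exact absurd h6 hne
              · exact Or.inl h6
            · rcases List.mem_cons.mp h5 with h6 | h6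
              · exact absurd h6.symm hc.1
              · exact Or.inr h6
          have hPQ : ∀ z ∈ P, z ∉ Q := by
            intro z h5 h6
            have := List.nodup_append.mp hnd
            exact this.2.2 z (List.mem_cons_of_mem _ h5) z (List.mem_cons_of_mem _ h6) rfl
          rcases hx' with h5 | h5
          · have h6 : A₁.2.length = Q.length := by
              rw [h4]
              simp only
              rw [insB_not_mem (hPQ _ h5)]
            rw [h6] at h3
            exact PathW.win true h1 h3
          · have h6 : A₁.2.length = Q.length + 1 := by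
              rw [h4]
              simp only
              rw [length_insB h5]
            rw [h6] at h3
            refine PathW.step true h1 ?_ h3
            rintro ⟨x', P', Q', h7, h8⟩
            simp only [cond_true, Prod.mk.injEq, List.cons.injEq] at h7
            rw [← h7.1.1, ← h7.1.2] at h8
            exact hPQ _ h8 h5

/-- A run has at most as many same-side wins as there are tokens. -/
theorem RunW.path {A B : List α × List α} (hA : OkW iota A) (h : RunW iota A B) :
    PathW iota (A.1.length + A.2.length) A B := by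
  obtain ⟨b, k, h⟩ := h
  cases b with
  | true => exact (trunW_path hA h).mono (by omega)
  | false =>
    have h1 := execW_swap (iota := iota) (List.replicate k false) A
    rw [h, List.map_replicate] at h1
    have h2 := (trunW_path hA.swap h1).swap
    rw [Prod.swap_swap, Prod.swap_swap] at h2
    exact h2.mono (by simp)

/-- A path with `k` runs has at most `k` times the number of tokens same-side wins. -/
theorem RunsW.path : ∀ {k : ℕ} {A B : List α × List α}, OkW iota A → RunsW iota k A B →
    PathW iota (k * (A.1.length + A.2.length)) A B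
  | 0, A, B, _, h => by rw [show A = B from h]; exact PathW.refl _ _
  | k + 1, A, B, hA, ⟨A₁, h1, h2⟩ => by
    obtain ⟨b, j, h1'⟩ := h1
    obtain ⟨h3, h4⟩ := hA.execW h1'
    have h5 := RunsW.path h3 h2
    have h6 : A₁.1.length + A₁.2.length = A.1.length + A.2.length := by
      have := h4.length_eq
      rwa [List.length_append, List.length_append] at this
    rw [h6] at h5
    have h7 := (RunW.path hA ⟨b, j, h1'⟩).trans h5
    rwa [show (k + 1) * (A.1.length + A.2.length) =
      A.1.length + A.2.length + k * (A.1.length + A.2.length) by ring]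

end

/-! ### Segments -/

/-- A word of segments. -/
def flL (ψ : β → α) (tl : β → List α) (l : List β) : List α := l.flatMap fun b => ψ b :: tl b

/-- A pair of words of segments. -/
def fl (ψ : β → α) (tl : β → List α) (p : List β × List β) : List α × List α :=
  (flL ψ tl p.1, flL ψ tl p.2)

variable {ψ : β → α} {tl : β → List α} {iota : α → α} {iota' : β → β}

theorem flL_nil : flL ψ tl [] = [] := rfl

theorem flL_cons (b : β) (l : List β) : flL ψ tl (b :: l) = ψ b :: (tl b ++ flL ψ tl l) := by
  simp [flL]

theorem flL_append (l l' : List β) : flL ψ tl (l ++ l') = flL ψ tl l ++ flL ψ tl l' := by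
  simp [flL]

theorem flL_eq_nil {l : List β} : flL ψ tl l = [] ↔ l = [] := by
  cases l with
  | nil => simp [flL_nil]
  | cons a l => simp [flL_cons]

theorem fl_append (p : List β × List β) :
    (fl ψ tl p).1 ++ (fl ψ tl p).2 = flL ψ tl (p.1 ++ p.2) := (flL_append _ _).symm

theorem fl_swap (p : List β × List β) : fl ψ tl p.swap = (fl ψ tl p).swap := rfl

theorem flL_perm {l l' : List β} (h : l.Perm l') : (flL ψ tl l).Perm (flL ψ tl l') :=
  h.flatMap_right _

theorem mem_flL {l : List β} {z : α} : z ∈ flL ψ tl l ↔ ∃ b ∈ l, z = ψ b ∨ z ∈ tl b := by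
  simp [flL]

theorem mem_flL_hd {l : List β} {b : β} (h : b ∈ l) : ψ b ∈ flL ψ tl l :=
  mem_flL.2 ⟨b, h, Or.inl rfl⟩

theorem mem_flL_tl {l : List β} {b : β} {z : α} (h : b ∈ l) (hz : z ∈ tl b) : z ∈ flL ψ tl l :=
  mem_flL.2 ⟨b, h, Or.inr hz⟩

theorem flL_facts {l : List β} (hn : (flL ψ tl l).Nodup) :
    (∀ a ∈ l, ∀ b ∈ l, ψ a = ψ b → a = b) ∧ (∀ a ∈ l, ∀ b ∈ l, ψ b ∉ tl a) ∧ l.Nodup := by
  induction l with
  | nil => simp
  | cons c l ih =>
    rw [flL_cons, List.nodup_cons, List.nodup_append] at hn
    obtain ⟨h1, h2, h3, h4⟩ := hn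
    obtain ⟨i1, i2, i3⟩ := ih h3
    have k1 : ∀ a ∈ l, ψ c ≠ ψ a := fun a ha h => h1 (List.mem_append_right _ (by
      rw [h]; exact mem_flL_hd ha))
    refine ⟨?_, ?_, ?_⟩
    · intro a ha b hb h
      rcases List.mem_cons.1 ha with ha' | ha'
      · rcases List.mem_cons.1 hb with hb' | hb'
        · rw [ha', hb']
        · rw [ha'] at h
          exact absurd h (k1 b hb')
      · rcases List.mem_cons.1 hb with hb' | hb'
        · rw [hb'] at h
          exact absurd h.symm (k1 a ha')
        · exact i1 a ha' b hb' h
    · intro a ha b hb h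
      rcases List.mem_cons.1 ha with ha' | ha'
      · rw [ha'] at h
        rcases List.mem_cons.1 hb with hb' | hb'
        · rw [hb'] at h
          exact h1 (List.mem_append_left _ h)
        · exact h4 _ h _ (mem_flL_hd hb') rfl
      · rcases List.mem_cons.1 hb with hb' | hb'
        · rw [hb'] at h
          exact h1 (List.mem_append_right _ (mem_flL_tl ha' h))
        · exact i2 a ha' b hb' h
    · rw [List.nodup_cons]
      exact ⟨fun h => k1 c h rfl, i3⟩

theorem flL_insB {u y : β} : ∀ {l : List β}, (∀ a ∈ l, ψ a = ψ u → a = u) → (∀ a ∈ l, ψ u ∉ tl a) →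
    flL ψ tl (insB u y l) = insBL (ψ u) (ψ y :: tl y) (flL ψ tl l)
  | [], _, _ => rfl
  | a :: l, h, h' => by
    have ih := flL_insB (u := u) (y := y) (fun b hb => h b (List.mem_cons_of_mem _ hb))
      (fun b hb => h' b (List.mem_cons_of_mem _ hb))
    have key : ∀ {w t s : List α} {v : α}, v ∉ t → insBL v w (t ++ s) = t ++ insBL v w s := by
      intro w t s v ht
      induction t with
      | nil => rfl
      | cons c t ih =>
        rw [List.cons_append, insBL, if_neg (fun e => ht (by simp [e])),
          ih (fun e => ht (List.mem_cons_of_mem _ e))]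
        rfl
    rw [insB, flL_cons, insBL]
    by_cases ha : a = u
    · rw [if_pos ha, if_pos (by rw [ha]), flL_cons, flL_cons]
      simp
    · rw [if_neg ha, if_neg (fun h1 => ha (h a (by simp) h1)), flL_cons, ih,
        key (h' a (by simp))]

theorem tW_lift {p q : List β × List β} (h : tW iota' p = some q) (hp : OkW iota' p)
    (hS : (flL ψ tl (p.1 ++ p.2)).Nodup) (hio : ∀ a ∈ p.1 ++ p.2, ψ (iota' a) = iota (ψ a)) :
    ∃ k, execW iota (List.replicate k true) (fl ψ tl p) = some (fl ψ tl q) := by
  obtain ⟨P0, Q0⟩ := p
  cases P0 with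
  | nil => simp [tW] at h
  | cons x P =>
    cases Q0 with
    | nil => simp [tW] at h
    | cons y Q =>
      simp only [tW] at h
      split at h
      · cases h
      · rename_i hc
        rw [not_or] at hc
        have h := (Option.some.inj h).symm
        rw [h]
        obtain ⟨f1, f2, f3⟩ := flL_facts hS
        simp only at f1 f2 f3 hio hp hS
        have hx := hp.mem x (by simp)
        simp only at hx
        have hix := hio x (by simp)
        refine ⟨(ψ y :: tl y).length, ?_⟩
        have h1 : fl ψ tl (x :: P, y :: Q) =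
            (ψ x :: (tl x ++ flL ψ tl P), (ψ y :: tl y) ++ flL ψ tl Q) := by
          unfold fl
          simp only [flL_cons]
          rfl
        rw [h1, runW_T (by rw [Ne, flL_eq_nil]; exact hc.2) ?_]
        · congr 1
          unfold fl
          simp only [flL_cons]
          have e1 : flL ψ tl (insB (iota' x) y P) =
              insBL (ψ (iota' x)) (ψ y :: tl y) (flL ψ tl P) := flL_insB
            (fun a ha => f1 a (by simp [ha]) _ hx) (fun a ha => f2 a (by simp [ha]) _ hx)
          have e2 : flL ψ tl (insB (iota' x) y Q) =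
              insBL (ψ (iota' x)) (ψ y :: tl y) (flL ψ tl Q) := flL_insB
            (fun a ha => f1 a (by simp [ha]) _ hx) (fun a ha => f2 a (by simp [ha]) _ hx)
          have key : ∀ {w t s : List α} {v : α}, v ∉ t →
              insBL v w (t ++ s) = t ++ insBL v w s := by
            intro w t s v ht
            induction t with
            | nil => rfl
            | cons c t ih =>
              rw [List.cons_append, insBL, if_neg (fun e => ht (by simp [e])),
                ih (fun e => ht (List.mem_cons_of_mem _ e))]
              rfl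
          rw [e1, e2, hix, key (by rw [← hix]; exact f2 x (by simp) _ hx)]
        · rw [← hix]
          intro h2
          rcases List.mem_cons.1 h2 with h2 | h2
          · exact hc.1 (f1 _ hx y (by simp) h2).symm
          · exact f2 y (by simp) _ hx h2

/-- A step of the small words is a run of the big words. -/
theorem stepW_lift {b : Bool} {p q : List β × List β} (h : stepW iota' b p = some q)
    (hp : OkW iota' p) (hS : (flL ψ tl (p.1 ++ p.2)).Nodup)
    (hio : ∀ a ∈ p.1 ++ p.2, ψ (iota' a) = iota (ψ a)) :
    ∃ k, execW iota (List.replicate k b) (fl ψ tl p) = some (fl ψ tl q) := by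
  cases b with
  | true => exact tW_lift h hp hS hio
  | false =>
    unfold stepW bW at h
    simp only [cond_false, Option.map_eq_some_iff] at h
    obtain ⟨q', h1, rfl⟩ := h
    have hS' : (flL ψ tl (p.swap.1 ++ p.swap.2)).Nodup :=
      (flL_perm List.perm_append_comm).nodup_iff.1 hS
    obtain ⟨k, hk⟩ := tW_lift (iota := iota) h1 hp.swap hS' (fun a ha => hio a (by
      simp only [Prod.fst_swap, Prod.snd_swap, List.mem_append] at ha ⊢
      exact ha.symm))
    refine ⟨k, ?_⟩
    have h2 := execW_swap (iota := iota) (List.replicate k true) (fl ψ tl p.swap)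
    rw [hk, List.map_replicate] at h2
    exact h2

theorem execW_lift {b : Bool} : ∀ {n : ℕ} {p q : List β × List β},
    execW iota' (List.replicate n b) p = some q → OkW iota' p → (flL ψ tl (p.1 ++ p.2)).Nodup →
    (∀ a ∈ p.1 ++ p.2, ψ (iota' a) = iota (ψ a)) →
    ∃ k, execW iota (List.replicate k b) (fl ψ tl p) = some (fl ψ tl q)
  | 0, p, q, h, _, _, _ => by
    obtain rfl : p = q := by simpa [execW] using h
    exact ⟨0, rfl⟩
  | n + 1, p, q, h, hp, hS, hio => by
    rw [List.replicate_succ, execW_cons, Option.bind_eq_some_iff] at h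
    obtain ⟨p₁, h1, h2⟩ := h
    obtain ⟨k, hk⟩ := stepW_lift (iota := iota) h1 hp hS hio
    have hperm := stepW_perm' hp h1
    obtain ⟨k', hk'⟩ := execW_lift h2 (hp.stepW h1)
      ((flL_perm hperm).nodup_iff.2 hS) (fun a ha => hio a (hperm.mem_iff.1 ha))
    exact ⟨k + k', by rw [List.replicate_add, execW_app, hk]; exact hk'⟩

/-- Lifting of a run. -/
theorem RunW.lift {p q : List β × List β} (h : RunW iota' p q) (hp : OkW iota' p)
    (hS : (flL ψ tl (p.1 ++ p.2)).Nodup) (hio : ∀ a ∈ p.1 ++ p.2, ψ (iota' a) = iota (ψ a)) :
    RunW iota (fl ψ tl p) (fl ψ tl q) := by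
  obtain ⟨b, n, h⟩ := h
  obtain ⟨k, hk⟩ := execW_lift (iota := iota) h hp hS hio
  exact ⟨b, k, hk⟩

/-- **Lifting of a path.** The number of runs and the segments stay the same. -/
theorem RunsW.lift : ∀ {k : ℕ} {p q : List β × List β}, RunsW iota' k p q → OkW iota' p →
    (flL ψ tl (p.1 ++ p.2)).Nodup → (∀ a ∈ p.1 ++ p.2, ψ (iota' a) = iota (ψ a)) →
    RunsW iota k (fl ψ tl p) (fl ψ tl q)
  | 0, p, q, h, _, _, _ => by
    obtain rfl : p = q := h
    rfl
  | k + 1, p, q, ⟨p₁, h1, h2⟩, hp, hS, hio => by
    obtain ⟨b, n, h1'⟩ := h1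
    obtain ⟨h3, hperm⟩ := hp.execW h1'
    exact ⟨fl ψ tl p₁, RunW.lift ⟨b, n, h1'⟩ hp hS hio, RunsW.lift h2 h3
      ((flL_perm hperm).nodup_iff.2 hS) (fun a ha => hio a (hperm.mem_iff.1 ha))⟩

/-- Segments of segments. -/
theorem flL_flL {ψ' : γ → β} {tl' : γ → List β} (l : List γ) :
    flL ψ tl (flL ψ' tl' l) = flL (ψ ∘ ψ') (fun c => tl (ψ' c) ++ flL ψ tl (tl' c)) l := by
  induction l with
  | nil => rfl
  | cons c l ih =>
    rw [flL_cons, flL_cons, flL_cons, flL_append, ih]
    simp

theorem fl_fl {ψ' : γ → β} {tl' : γ → List β} (p : List γ × List γ) :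
    fl ψ tl (fl ψ' tl' p) = fl (ψ ∘ ψ') (fun c => tl (ψ' c) ++ flL ψ tl (tl' c)) p := by
  unfold fl
  simp only [flL_flL]

theorem flL_congr {ψ₂ : β → α} {tl₂ : β → List α} {l : List β} (h : ∀ b ∈ l, ψ b = ψ₂ b)
    (h' : ∀ b ∈ l, tl b = tl₂ b) : flL ψ tl l = flL ψ₂ tl₂ l := by
  induction l with
  | nil => rfl
  | cons c l ih =>
    rw [flL_cons, flL_cons, h c (by simp), h' c (by simp),
      ih (fun b hb => h b (List.mem_cons_of_mem _ hb)) (fun b hb => h' b (List.mem_cons_of_mem _ hb))]

theorem fl_congr {ψ₂ : β → α} {tl₂ : β → List α} {p : List β × List β}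
    (h : ∀ b ∈ p.1 ++ p.2, ψ b = ψ₂ b) (h' : ∀ b ∈ p.1 ++ p.2, tl b = tl₂ b) :
    fl ψ tl p = fl ψ₂ tl₂ p := by
  unfold fl
  rw [flL_congr (l := p.1) (fun b hb => h b (List.mem_append_left _ hb))
    (fun b hb => h' b (List.mem_append_left _ hb)),
    flL_congr (l := p.2) (fun b hb => h b (List.mem_append_right _ hb))
    (fun b hb => h' b (List.mem_append_right _ hb))]

/-- The segments are determined by their first tokens. -/
theorem flL_unique {tl₂ : β → List α} : ∀ {l : List β}, (flL ψ tl l).Nodup →
    flL ψ tl l = flL ψ tl₂ l → ∀ b ∈ l, tl b = tl₂ b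
  | [], _, _ => by simp
  | [c], _, h => by
    rw [flL_cons, flL_cons] at h
    simp only [flL_nil, List.append_nil, List.cons.injEq, true_and] at h
    intro b hb
    rw [List.mem_singleton] at hb
    rw [hb, h]
  | c :: d :: l, hn, h => by
    have hn2 : (flL ψ tl₂ (c :: d :: l)).Nodup := h ▸ hn
    obtain ⟨-, f2, -⟩ := flL_facts hn
    obtain ⟨-, g2, -⟩ := flL_facts hn2
    have h1 : ψ c :: (tl c ++ flL ψ tl (d :: l)) = ψ c :: (tl₂ c ++ flL ψ tl₂ (d :: l)) := by
      rw [← flL_cons, ← flL_cons, h]
    have h2 := (List.cons.inj h1).2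
    have h3 : tl c = tl₂ c ∧ flL ψ tl (d :: l) = flL ψ tl₂ (d :: l) := by
      rw [flL_cons d, flL_cons d] at h2 ⊢
      have h4 : ψ d ∉ tl d ++ flL ψ tl l := by
        rw [flL_cons c, flL_cons d, List.nodup_cons, List.nodup_append, List.nodup_cons] at hn
        exact hn.2.2.1.1
      have := (List.append_cons_inj_of_notMem (f2 c (by simp) d (by simp)) h4).1 h2
      exact ⟨this.1, by rw [this.2.2]⟩
    have hn' : (flL ψ tl (d :: l)).Nodup := by
      rw [flL_cons c, List.nodup_cons, List.nodup_append] at hn
      exact hn.2.2.1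
    intro b hb
    rcases List.mem_cons.1 hb with rfl | hb
    · exact h3.1
    · exact flL_unique hn' h3.2 b hb

theorem fl_unique {tl₂ : β → List α} {p : List β × List β} (hn : (flL ψ tl (p.1 ++ p.2)).Nodup)
    (h : fl ψ tl p = fl ψ tl₂ p) : ∀ b ∈ p.1 ++ p.2, tl b = tl₂ b := by
  unfold fl at h
  rw [Prod.mk.injEq] at h
  refine flL_unique hn ?_
  rw [flL_append, flL_append, h.1, h.2]

/-- The segments of a word. -/
theorem exists_tl {Y : α → Bool} : ∀ {l : List β} {L : List α}, l.Nodup → l.map ψ = L.filter Y →
    (∀ z, L.head? = some z → Y z = true) →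
    ∃ tl : β → List α, L = flL ψ tl l ∧ ∀ b ∈ l, ∀ z ∈ tl b, Y z = false
  | [], L, _, h, hh => by
    refine ⟨fun _ => [], ?_, by simp⟩
    cases L with
    | nil => rfl
    | cons a L =>
      have := hh a rfl
      rw [List.filter_cons_of_pos this] at h
      simp at h
  | b :: l, L, hn, h, hh => by
    cases L with
    | nil => simp at h
    | cons a L =>
      have ha := hh a rfl
      rw [List.filter_cons_of_pos ha, List.map_cons, List.cons.injEq] at h
      have hn' := List.nodup_cons.1 hn
      set t := L.takeWhile (fun z => !Y z) with ht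
      set L' := L.dropWhile (fun z => !Y z) with hL'
      have hL : t ++ L' = L := List.takeWhile_append_dropWhile
      have ht' : ∀ z ∈ t, Y z = false := by
        intro z hz
        have := List.mem_takeWhile_imp hz
        simpa using this
      have hf : L.filter Y = L'.filter Y := by
        rw [← hL, List.filter_append]
        have : t.filter Y = [] := by
          rw [List.filter_eq_nil_iff]
          intro z hz
          rw [ht' z hz]
          simp
        rw [this, List.nil_append]
      have hh' : ∀ z, L'.head? = some z → Y z = true := by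
        intro z hz
        have := List.head?_dropWhile_not (fun z => !Y z) L
        rw [← hL', hz] at this
        simpa using this
      obtain ⟨tl, h1, h2⟩ := exists_tl hn'.2 (h.2.trans hf) hh'
      refine ⟨Function.update tl b t, ?_, ?_⟩
      · rw [flL_cons, Function.update_self, ← h.1, ← hL, h1]
        congr 2
        refine flL_congr (fun _ _ => rfl) fun c hc => ?_
        rw [Function.update_of_ne]
        rintro rfl
        exact hn'.1 hc
      · intro c hc z hz
        by_cases hcb : c = b
        · rw [hcb, Function.update_self] at hz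
          exact ht' z hz
        · rw [Function.update_of_ne hcb] at hz
          exact h2 c ((List.mem_cons.1 hc).resolve_left hcb) z hz

/-- **The segments of a pattern** which contains both heads. -/
theorem exists_seg {Y : α → Bool} {p : List β × List β} {A : List α × List α}
    (hn : (p.1 ++ p.2).Nodup) (hP : p.1.map ψ = A.1.filter Y) (hQ : p.2.map ψ = A.2.filter Y)
    (hx : ∀ z, A.1.head? = some z → Y z = true) (hy : ∀ z, A.2.head? = some z → Y z = true) :
    ∃ tl : β → List α, A = fl ψ tl p ∧ ∀ b ∈ p.1 ++ p.2, ∀ z ∈ tl b, Y z = false := by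
  rw [List.nodup_append] at hn
  obtain ⟨t1, h1, h1'⟩ := exists_tl (ψ := ψ) hn.1 hP hx
  obtain ⟨t2, h2, h2'⟩ := exists_tl (ψ := ψ) hn.2.1 hQ hy
  have e1 : ∀ b ∈ p.1, (fun b => if b ∈ p.1 then t1 b else t2 b) b = t1 b := fun b hb => by
    simp only
    rw [if_pos hb]
  have e2 : ∀ b ∈ p.2, (fun b => if b ∈ p.1 then t1 b else t2 b) b = t2 b := fun b hb => by
    simp only
    rw [if_neg fun h => hn.2.2 _ h _ hb rfl]
  refine ⟨fun b => if b ∈ p.1 then t1 b else t2 b, ?_, ?_⟩
  · refine Prod.ext ?_ ?_
    · rw [h1]
      exact flL_congr (fun _ _ => rfl) fun b hb => (e1 b hb).symm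
    · rw [h2]
      exact flL_congr (fun _ _ => rfl) fun b hb => (e2 b hb).symm
  · intro b hb z hz
    rcases List.mem_append.1 hb with hb | hb
    · rw [e1 b hb] at hz
      exact h1' b hb z hz
    · rw [e2 b hb] at hz
      exact h2' b hb z hz

/-! ### Runs of the word form -/

section

variable {lam : α → α} {e f : α}

/-- A state is determined by its words. -/
theorem good_ext {S S' : St α} (h : Good lam iota e f S) (h' : Good lam iota e f S')
    (hP : S.P = S'.P) (hQ : S.Q = S'.Q) : S = S' := by
  obtain ⟨x, hx, hx1⟩ := h.compat.c2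
  obtain ⟨x', hx', hx1'⟩ := h'.compat.c2
  have hxx : x = x' := by
    rw [hP, hx'] at hx
    exact (Option.some.inj hx).symm
  rw [← hxx] at hx1'
  have h2 : Nx S S'.m (iota x) := by
    rcases hx1' with h3 | h3
    · left; rw [hP]; exact h3
    · right; rw [hQ]; exact h3
  have h4 := Nx.inj h.ok.nd hx1 h2
  cases S
  cases S'
  simp_all

/-- A run of the variable words is a run of the word form. -/
theorem exec_of_replicate {b : Bool} : ∀ {k : ℕ} {S : St α} {B : List α × List α},
    Good lam iota e f S → execW iota (List.replicate k b) (S.P, S.Q) = some B →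
    ∃ j S', exec lam (List.replicate j b) S = some S' ∧ B = (S'.P, S'.Q)
  | 0, S, B, _, h => by
    obtain rfl : (S.P, S.Q) = B := by simpa [execW] using h
    exact ⟨0, S, rfl, rfl⟩
  | k + 1, S, B, hg, h => by
    rw [List.replicate_succ, execW_cons, Option.bind_eq_some_iff] at h
    obtain ⟨A, h1, h2⟩ := h
    rcases step_of_stepW hg h1 with h3 | ⟨S₁, h3, h4⟩
    · rw [h3] at h2
      exact exec_of_replicate hg h2
    · rw [h4] at h2
      obtain ⟨j, S', h5, h6⟩ := exec_of_replicate (hg.step h3).1 h2
      refine ⟨j + 1, S', ?_, h6⟩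
      rw [List.replicate_succ, Star.exec, h3]
      exact h5

theorem RunW.run {S : St α} {B : List α × List α} (hg : Good lam iota e f S)
    (h : RunW iota (S.P, S.Q) B) : ∃ S', Run lam S S' ∧ B = (S'.P, S'.Q) ∧
      Good lam iota e f S' := by
  obtain ⟨b, k, h⟩ := h
  obtain ⟨j, S', h1, h2⟩ := exec_of_replicate hg h
  exact ⟨S', ⟨b, j, h1⟩, h2, (hg.exec h1).1⟩

/-- A path of the variable words is a path of the word form. -/
theorem RunsW.runs : ∀ {k : ℕ} {S : St α} {B : List α × List α}, Good lam iota e f S →
    RunsW iota k (S.P, S.Q) B → ∃ S', Runs lam k S S' ∧ B = (S'.P, S'.Q) ∧ Good lam iota e f S'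
  | 0, S, B, hg, h => ⟨S, rfl, (show (S.P, S.Q) = B from h).symm, hg⟩
  | k + 1, S, B, hg, ⟨A, h1, h2⟩ => by
    obtain ⟨S₁, h3, h4, h5⟩ := h1.run hg
    rw [h4] at h2
    obtain ⟨S', h6, h7, h8⟩ := RunsW.runs h5 h2
    exact ⟨S', ⟨S₁, h3, h6⟩, h7, h8⟩

/-- A path of the word form is a path of the variable words. -/
theorem Runs.runsW : ∀ {k : ℕ} {S S' : St α}, Good lam iota e f S → Runs lam k S S' →
    RunsW iota k (S.P, S.Q) (S'.P, S'.Q) ∧ Good lam iota e f S'
  | 0, S, S', hg, h => by
    rw [show S = S' from h] at hg ⊢
    exact ⟨rfl, hg⟩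
  | k + 1, S, S', hg, ⟨S₁, ⟨b, j, h1⟩, h2⟩ => by
    obtain ⟨h3, h4⟩ := hg.exec h1
    obtain ⟨h5, h6⟩ := Runs.runsW h3 h2
    exact ⟨⟨_, ⟨b, j, h4⟩, h5⟩, h6⟩

/-- A loop of the variable words is a loop of the word form. -/
theorem loop_runs {k l : ℕ} {S : St α} {B : List α × List α} (hg : Good lam iota e f S)
    (h : RunsW iota k (S.P, S.Q) B) (h' : RunsW iota l B (S.P, S.Q)) :
    ∃ S', B = (S'.P, S'.Q) ∧ Good lam iota e f S' ∧ Runs lam k S S' ∧ Runs lam l S' S := by
  obtain ⟨S', h1, h2, h3⟩ := RunsW.runs hg h
  rw [h2] at h'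
  obtain ⟨S'', h4, h5, h6⟩ := RunsW.runs h3 h'
  rw [Prod.mk.injEq] at h5
  have : S'' = S := (good_ext hg h6 h5.1 h5.2).symm
  rw [this] at h4
  exact ⟨S', h2, h3, h1, h4⟩

end

end Pool.Agent.QuadEq.Star
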