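import Pool.Agent.Lib.MP_b7851d_lc.Star.Count2
import Pool.Agent.Lib.MP_b7851d_lc.Star.Wins

/-!
# The levels theorem: blocks, and the reduction to paths of irreducible states
-/

namespace Pool.Agent.QuadEq.Star

open Relation

variable {α : Type*} [DecidableEq α] {iota : α → α}

/-! ### Blocks -/

/-- The state with the tails `U` and `V`. -/
def appW (a : WS α) (U V : List α) : WS α := (a.1 ++ U, a.2 ++ V)

theorem insB_append {u v : α} {l l' : List α} (h : u ∉ l') :
    insB u v (l ++ l') = insB u v l ++ l' := by
  induction l with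
  | nil => rw [List.nil_append, insB_of_not_mem h]; rfl
  | cons a l ih =>
    rw [List.cons_append, insB, insB, ih]
    split_ifs <;> rfl

theorem tW_app {t s : α} {p q U V : List α} (hU : iota t ∉ U) (hV : iota t ∉ V) :
    tW iota (appW (t :: p, s :: q) U V) = if s = iota t ∨ q ++ V = [] then none else
      some (appW (t :: insB (iota t) s p, insB (iota t) s q) U V) := by
  show tW iota (t :: (p ++ U), s :: (q ++ V)) = _
  simp only [tW, insB_append hU, insB_append hV]
  rfl

/-- The conditions on a block and its tails. -/
structure BkW (iota : α → α) (a : WS α) (U V : List α) : Prop where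
  ok : OkW iota a
  big : OkW iota (appW a U V)

omit [DecidableEq α] in
theorem BkW.not_mem {a : WS α} {U V : List α} (h : BkW iota a U V) {t : α} (ht : t ∈ a.1 ++ a.2) :
    iota t ∉ U ∧ iota t ∉ V := by
  have h1 := h.ok.mem t ht
  have hnd : ((a.1 ++ U) ++ (a.2 ++ V)).Nodup := h.big.nd
  have hnd1 := List.nodup_append.mp hnd
  have hndU := List.nodup_append.mp hnd1.1
  have hndV := List.nodup_append.mp hnd1.2.1
  rcases List.mem_append.1 h1 with h2 | h2
  · exact ⟨fun h3 => hndU.2.2 _ h2 _ h3 rfl,
      fun h3 => hnd1.2.2 _ (List.mem_append_left _ h2) _ (List.mem_append_right _ h3) rfl⟩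
  · exact ⟨fun h3 => hnd1.2.2 _ (List.mem_append_right _ h3) _ (List.mem_append_left _ h2) rfl,
      fun h3 => hndV.2.2 _ h2 _ h3 rfl⟩

omit [DecidableEq α] in
theorem BkW.swap {a : WS α} {U V : List α} (h : BkW iota a U V) : BkW iota a.swap V U :=
  ⟨h.ok.swap', h.big.swap'⟩

theorem app_T {a a' : WS α} {U V : List α} (h : BkW iota a U V) (hs : tW iota a = some a') :
    tW iota (appW a U V) = some (appW a' U V) := by
  obtain ⟨a1, a2⟩ := a
  match a1, a2, h, hs with
  | [], _, _, hs => simp [tW] at hs
  | _ :: _, [], _, hs => simp [tW] at hs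
  | t :: p, s :: q, h, hs =>
    obtain ⟨hU, hV⟩ := h.not_mem (t := t) (by simp)
    rw [tW_app hU hV]
    simp only [tW] at hs
    split_ifs at hs with hc
    rw [not_or] at hc
    rw [if_neg, ← Option.some.inj hs]
    rw [not_or]
    refine ⟨hc.1, ?_⟩
    intro he
    exact hc.2 (List.append_eq_nil_iff.1 he).1

theorem app_step {a a' : WS α} {U V : List α} (h : BkW iota a U V) (hs : Wk iota a a') :
    Wk iota (appW a U V) (appW a' U V) := by
  rcases hs with hs | hs
  · exact Or.inl (app_T h hs)
  · exact Or.inr (app_T h.swap hs)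

theorem BkW.step {a a' : WS α} {U V : List α} (h : BkW iota a U V) (hs : Wk iota a a') :
    BkW iota a' U V :=
  ⟨hs.ok h.ok, (app_step h hs).ok h.big⟩

theorem app_pw {k : ℕ} {a a' : WS α} {U V : List α} (h : PW iota k a a') :
    BkW iota a U V → PW iota k (appW a U V) (appW a' U V) := by
  induction h with
  | refl => exact fun _ => PW.refl _ _
  | step h1 h2 _ ih =>
    intro hb
    refine PW.step (app_step hb h1) ?_ (ih (hb.step h1))
    simp only [appW, List.length_append, h2]
  | win h1 _ ih =>
    intro hb
    exact PW.win (app_step hb h1) (ih (hb.step h1))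

/-- A T step of a state which starts with a block: a step of the block, or the last token of the
second word of the block is moved. -/
theorem restrict_T {a B : WS α} {U V : List α} (h : BkW iota a U V) (h1 : a.1 ≠ []) (h2 : a.2 ≠ [])
    (hs : tW iota (appW a U V) = some B) :
    (∃ a', tW iota a = some a' ∧ B = appW a' U V) ∨
      (a.2.length = 1 ∧ (appW a U V).1.length ≠ B.1.length) := by
  obtain ⟨a1, a2⟩ := a
  obtain ⟨t, p, rfl⟩ := List.exists_cons_of_ne_nil h1
  obtain ⟨s, q, rfl⟩ := List.exists_cons_of_ne_nil h2
  obtain ⟨hU, hV⟩ := h.not_mem (t := t) (by simp)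
  rw [tW_app hU hV] at hs
  split_ifs at hs with hc
  rw [not_or] at hc
  have hB := (Option.some.inj hs).symm
  by_cases hq : q = []
  · right
    subst hq
    refine ⟨rfl, ?_⟩
    have hmem : iota t ∈ (t :: p) ++ [s] := h.ok.mem t (by simp)
    have hp : iota t ∈ p := by
      simp only [List.mem_append, List.mem_cons, List.not_mem_nil, or_false] at hmem
      rcases hmem with (h3 | h3) | h3
      · exact absurd h3 (h.ok.ne t (by simp))
      · exact h3
      · exact absurd h3.symm hc.1
    obtain ⟨p₁, p₂, rfl⟩ := List.append_of_mem hp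
    have hnd : ((t :: (p₁ ++ iota t :: p₂)) ++ [s]).Nodup := h.ok.nd
    have hp1 : iota t ∉ p₁ := by
      intro h3
      have h4 := (List.nodup_cons.mp (List.nodup_append.mp hnd).1).2
      exact (List.nodup_append.mp h4).2.2 _ h3 _ List.mem_cons_self rfl
    rw [hB, insB_mid hp1]
    simp only [appW, List.length_append, List.length_cons]
    omega
  · left
    refine ⟨(t :: insB (iota t) s p, insB (iota t) s q), ?_, hB⟩
    simp only [tW]
    rw [if_neg]
    rw [not_or]
    exact ⟨hc.1, hq⟩

omit [DecidableEq α] in
theorem forms_ne {A B : WS α} (h : Forms iota A B) : B.1 ≠ [] ∧ B.2 ≠ [] := by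
  rcases h with ⟨t, s, P₁, P₂, Q, -, hQ, rfl, rfl⟩ | ⟨t, s, P, Q₁, Q₂, -, rfl, rfl⟩
  · exact ⟨by simp, hQ⟩
  · exact ⟨by simp, by simp⟩

theorem wk_ne {A B : WS α} (hA : OkW iota A) (h : Wk iota A B) : B.1 ≠ [] ∧ B.2 ≠ [] := by
  rcases h with h | h
  · exact forms_ne (tW_forms hA h)
  · exact (forms_ne (tW_forms hA.swap' h)).symm

/-- The whole block is a closed pair of prefixes. -/
theorem blk_mem_cset {a : WS α} {U V : List α} (h : BkW iota a U V) (h1 : a.1 ≠ []) (h2 : a.2 ≠ [])
    (hUV : U ≠ [] ∨ V ≠ []) : (a.1.length, a.2.length) ∈ cset iota (appW a U V) := by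
  rw [mem_cset]
  have l1 := List.length_pos_iff.2 h1
  have l2 := List.length_pos_iff.2 h2
  refine ⟨⟨l1, by simp [appW], l2, by simp [appW]⟩, ?_, ?_⟩
  · intro he
    simp only [appW, List.length_append, Prod.mk.injEq] at he
    rcases hUV with h3 | h3
    · have := List.length_pos_iff.2 h3
      omega
    · have := List.length_pos_iff.2 h3
      omega
  · intro t ht
    have e1 : (appW a U V).1.take a.1.length = a.1 := by simp [appW]
    have e2 : (appW a U V).2.take a.2.length = a.2 := by simp [appW]
    simp only [e1, e2] at ht ⊢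
    exact h.ok.mem t ht

/-- The path inside the block. -/
theorem blk_path {U V : List α} (hUV : U ≠ [] ∨ V ≠ []) {X B : WS α}
    (h : ReflTransGen (Wk iota) X B) : ∀ a : WS α, X = appW a U V → BkW iota a U V →
    a.1 ≠ [] → a.2 ≠ [] →
    (∃ a', ReflTransGen (Wk iota) a a' ∧ B = appW a' U V) ∨
    (∃ a' C, ReflTransGen (Wk iota) a a' ∧ Wk iota (appW a' U V) C ∧
      (cset iota C).card < (cset iota X).card ∧ ReflTransGen (Wk iota) C B ∧ OkW iota C) := by
  induction h using ReflTransGen.head_induction_on with
  | refl => exact fun a e _ _ _ => Or.inl ⟨a, ReflTransGen.refl, e⟩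
  | @head X D h h' ih =>
    intro a e hb h1 h2
    subst e
    have key : (∃ a', Wk iota a a' ∧ D = appW a' U V) ∨
        ((cset iota D).card < (cset iota (appW a U V)).card) := by
      rcases h with h | h
      · rcases restrict_T hb h1 h2 h with ⟨a', h3, h4⟩ | ⟨h3, h4⟩
        · exact Or.inl ⟨a', Or.inl h3, h4⟩
        · right
          have h5 := blk_mem_cset hb h1 h2 hUV
          rw [h3] at h5
          exact (card_cset_T hb.big (tW_forms hb.big h)).2 h4 _ h5
      · rcases restrict_T hb.swap h2 h1 h with ⟨a', h3, h4⟩ | ⟨h3, h4⟩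
        · left
          refine ⟨a'.swap, Or.inr h3, ?_⟩
          have := congrArg Prod.swap h4
          simpa [appW, Prod.swap] using this
        · right
          have h5 := blk_mem_cset hb.swap h2 h1 hUV.symm
          have h3' : a.swap.2.length = 1 := h3
          rw [h3'] at h5
          have h6 := (card_cset_T hb.swap.big (tW_forms hb.swap.big h)).2 h4 _ h5
          have h7 : cset iota (appW a.swap V U) = cset iota (appW a U V).swap := rfl
          rw [h7, card_cset_swap, card_cset_swap] at h6
          exact h6
    rcases key with ⟨a', h3, rfl⟩ | h3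
    · have hne := wk_ne hb.ok h3
      have hcard := card_cset_step hb.big h
      rcases ih a' rfl (hb.step h3) hne.1 hne.2 with ⟨a'', h4, h5⟩ | ⟨a'', C, h4, h5, h6, h7, h8⟩
      · exact Or.inl ⟨a'', ReflTransGen.head h3 h4, h5⟩
      · exact Or.inr ⟨a'', C, ReflTransGen.head h3 h4, h5, by omega, h7, h8⟩
    · exact Or.inr ⟨a, D, ReflTransGen.refl, h, h3, h', h.ok hb.big⟩

omit [DecidableEq α] in
theorem blk_ok {A : WS α} (hA : OkW iota A) {p : ℕ × ℕ} (hp : Cp iota A p) :
    OkW iota (A.1.take p.1, A.2.take p.2) := by
  have hsub : ∀ x ∈ A.1.take p.1 ++ A.2.take p.2, x ∈ A.1 ++ A.2 := by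
    intro x hx
    rw [List.mem_append] at hx ⊢
    exact hx.imp List.mem_of_mem_take List.mem_of_mem_take
  refine ⟨fun x hx => hA.inv x (hsub x hx), fun x hx => hA.ne x (hsub x hx), hp, ?_⟩
  exact hA.nd.sublist ((List.take_sublist _ _).append (List.take_sublist _ _))

/-- THE COUNTING THEOREM, with the number of closed pairs of prefixes. -/
theorem count_main' {f M : ℕ}
    (hf : ∀ A B : WS α, lenW A ≤ M → FW iota A → ReflTransGen (FStep iota) A B →
      PW iota f A B) :
    ∀ (n : ℕ) (A B : WS α), (cset iota A).card = n → OkW iota A → lenW A ≤ M →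
      ReflTransGen (Wk iota) A B → PW iota ((n + 1) * (f + 2 * M + 2)) A B := by
  intro n
  induction n using Nat.strong_induction_on with
  | _ n ih =>
    intro A B hn hA hM h
    by_cases he : cset iota A = ∅
    · refine (irr_main hf hA hM he h).mono ?_
      have : 1 * (f + 2 * M + 2) ≤ (n + 1) * (f + 2 * M + 2) := Nat.mul_le_mul_right _ (by omega)
      omega
    · obtain ⟨⟨i, j⟩, hij, hmin⟩ := Finset.exists_min_image (cset iota A) (fun p => p.1 + p.2)
        (Finset.nonempty_iff_ne_empty.2 he)
      obtain ⟨⟨h1, h2, h3, h4⟩, h5, h6⟩ := mem_cset.1 hij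
      simp only at h1 h2 h3 h4 h5
      set a : WS α := (A.1.take i, A.2.take j) with ha
      set U := A.1.drop i with hU
      set V := A.2.drop j with hV
      have hAe : A = appW a U V := by
        simp only [appW, ha, hU, hV, List.take_append_drop]
      have hok : OkW iota a := blk_ok hA h6
      have hb : BkW iota a U V := ⟨hok, hAe ▸ hA⟩
      have l1 : a.1.length = i := by
        rw [ha]
        simp only [List.length_take]
        omega
      have l2 : a.2.length = j := by
        rw [ha]
        simp only [List.length_take]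
        omega
      have hirr : cset iota a = ∅ := by
        rw [Finset.eq_empty_iff_forall_notMem]
        rintro ⟨i', j'⟩ hp
        obtain ⟨⟨g1, g2, g3, g4⟩, g5, g6⟩ := mem_cset.1 hp
        simp only [l1, l2] at g1 g2 g3 g4 g5
        have hp' : (i', j') ∈ cset iota A := by
          rw [mem_cset]
          refine ⟨⟨g1, by simp only; omega, g3, by simp only; omega⟩, ?_, ?_⟩
          · intro e
            simp only [Prod.mk.injEq] at e
            apply h5
            simp only [Prod.mk.injEq]
            omega
          · intro t ht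
            have e1 : a.1.take i' = A.1.take i' := by
              rw [ha]
              simp only [List.take_take]
              congr 1
              omega
            have e2 : a.2.take j' = A.2.take j' := by
              rw [ha]
              simp only [List.take_take]
              congr 1
              omega
            have := g6 t (by simpa only [e1, e2] using ht)
            simpa only [e1, e2] using this
        have h7 := hmin _ hp'
        simp only at h7
        apply g5
        simp only [Prod.mk.injEq]
        omega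
      have ha1 : a.1 ≠ [] := by
        intro e
        rw [e] at l1
        simp at l1
        omega
      have ha2 : a.2 ≠ [] := by
        intro e
        rw [e] at l2
        simp at l2
        omega
      have hUV : U ≠ [] ∨ V ≠ [] := by
        by_contra hc
        rw [not_or, not_not, not_not, hU, hV, List.drop_eq_nil_iff, List.drop_eq_nil_iff] at hc
        apply h5
        simp only [Prod.mk.injEq]
        omega
      have hlen : lenW a ≤ M := by
        simp only [lenW, l1, l2] at *
        omega
      rcases blk_path hUV h a hAe hb ha1 ha2 with ⟨a', g1, g2⟩ | ⟨a', C, g1, g2, g3, g4, g5⟩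
      · have g3 := app_pw (irr_main hf hok hlen hirr g1) hb
        rw [hAe, g2]
        refine g3.mono ?_
        have : 1 * (f + 2 * M + 2) ≤ (n + 1) * (f + 2 * M + 2) :=
          Nat.mul_le_mul_right _ (by omega)
        omega
      · have g6 := app_pw (irr_main hf hok hlen hirr g1) hb
        rw [← hAe] at g6
        have hlC : lenW A = lenW C := by
          have e1 := rtg_len hA g6.rtg
          have e2 := g2.len (ok_rtg hA g6.rtg)
          omega
        have g7 := ih _ (by rw [← hn]; exact g3) C B rfl g5 (by omega) g4
        have g8 := g6.trans (PW.win g2 g7)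
        refine g8.mono ?_
        have g9 : (cset iota C).card + 1 ≤ n := by omega
        have g10 : ((cset iota C).card + 1) * (f + 2 * M + 2) ≤ n * (f + 2 * M + 2) :=
          Nat.mul_le_mul_right _ g9
        have g11 : (n + 1) * (f + 2 * M + 2) = n * (f + 2 * M + 2) + (f + 2 * M + 2) := by ring
        omega

/-- A path with at most `k` wins. -/
theorem pathW_of_pw {k : ℕ} {A B : WS α} (h : PW iota k A B) : OkW iota A → PathW iota k A B := by
  have nsame : ∀ {A B : WS α}, OkW iota A → tW iota A = some B → A.1.length = B.1.length →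
      ¬ Same iota true A := by
    intro A B hA h hl
    rcases tW_forms hA h with ⟨t, s, P₁, P₂, Q, -, -, rfl, rfl⟩ | ⟨t, s, P, Q₁, Q₂, -, rfl, rfl⟩
    · simp only [List.length_cons, List.length_append] at hl
      omega
    · rintro ⟨x, P', Q', h1, h2⟩
      simp only [cond_true, Prod.mk.injEq, List.cons.injEq] at h1
      obtain ⟨⟨rfl, rfl⟩, rfl⟩ := h1
      have hnd : ((t :: P) ++ (s :: (Q₁ ++ iota t :: Q₂))).Nodup := hA.nd
      exact (List.nodup_append.mp hnd).2.2 _ (List.mem_cons_of_mem _ h2) _ (by simp) rfl
  induction h with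
  | refl k A => exact fun _ => PathW.refl _ _
  | @step k A B C h1 h2 _ ih =>
    intro hA
    have h3 := ih (h1.ok hA)
    have h1' := h1
    rcases h1 with h | h
    · exact PathW.step true h (nsame hA h h2) h3
    · have h4 : stepW iota false A = some B := by
        show (tW iota A.swap).map Prod.swap = some B
        rw [h]
        rfl
      refine PathW.step false h4 ?_ h3
      have h5 := h1'.len hA
      have h6 := nsame hA.swap' h (by
        simp only [lenW] at h5
        simp only [Prod.fst_swap]
        omega)
      intro h7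
      exact h6 h7
  | @win k A B C h1 _ ih =>
    intro hA
    obtain ⟨b, hb⟩ := wk_iff.1 h1
    exact PathW.win b hb (ih (h1.ok hA))

theorem pw_of_pathW {k : ℕ} {A B : WS α} (h : PathW iota k A B) : OkW iota A → PW iota k A B := by
  have hsame : ∀ {A B : WS α}, OkW iota A → tW iota A = some B → ¬ Same iota true A →
      A.1.length = B.1.length := by
    intro A B hA h hs
    rcases tW_forms hA h with ⟨t, s, P₁, P₂, Q, -, -, rfl, rfl⟩ | ⟨t, s, P, Q₁, Q₂, -, rfl, rfl⟩
    · exact absurd ⟨t, P₁ ++ iota t :: P₂, s :: Q, rfl, by simp⟩ hs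
    · rfl
  induction h with
  | refl k A => exact fun _ => PW.refl _ _
  | @step k A A' B b h hs _ ih =>
    intro hA
    have h1 : Wk iota A A' := wk_iff.2 ⟨b, h⟩
    refine PW.step h1 ?_ (ih (h1.ok hA))
    cases b with
    | true => exact hsame hA h hs
    | false =>
      have h2 : tW iota A.swap = some A'.swap := by
        have h3 : (tW iota A.swap).map Prod.swap = some A' := h
        obtain ⟨X, h4, h5⟩ := Option.map_eq_some_iff.1 h3
        rw [h4, ← h5, Prod.swap_swap]
      have h6 := hsame hA.swap' h2 (fun h7 => hs h7)
      have h7 := h1.len hA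
      simp only [lenW] at h7
      simp only [Prod.fst_swap] at h6
      omega
  | @win k A A' B b h _ ih =>
    intro hA
    have h1 : Wk iota A A' := wk_iff.2 ⟨b, h⟩
    exact PW.win h1 (ih (h1.ok hA))

theorem rtg_of_exec {w : List Bool} {A B : WS α} (h : execW iota w A = some B) :
    ReflTransGen (Wk iota) A B := by
  induction w generalizing A with
  | nil =>
    rw [Option.some.inj h]
  | cons b w ih =>
    obtain ⟨C, h1, h2⟩ := Option.bind_eq_some_iff.mp h
    exact ReflTransGen.head (wk_iff.2 ⟨b, h1⟩) (ih h2)

/-- **The levels theorem.**  If every path of `FW`-states can be replaced by a path with at most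
`k N` same-side wins, `N` the number of the tokens, then every path can be replaced by a path with
at most `(N² + 1) (k N + 2 N + 2)` same-side wins. -/
theorem levels {k : ℕ → ℕ} (hk : Monotone k)
    (h : ∀ A B : List α × List α, FW iota A → ReflTransGen (FStep iota) A B →
      PathW iota (k (A.1.length + A.2.length)) A B)
    {A B : List α × List α} (hA : OkW iota A) (hw : ∃ w, execW iota w A = some B) :
    PathW iota ((fun N => (N * N + 1) * (k N + 2 * N + 2)) (A.1.length + A.2.length)) A B := by
  obtain ⟨w, hw⟩ := hw
  set M := A.1.length + A.2.length with hM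
  have hf : ∀ A B : WS α, lenW A ≤ M → FW iota A → ReflTransGen (FStep iota) A B →
      PW iota (k M) A B := by
    intro A B hl hF hAB
    exact (pw_of_pathW (h A B hF hAB) hF.ok).mono (hk hl)
  have h1 := count_main' hf _ A B rfl hA le_rfl (rtg_of_exec hw)
  refine pathW_of_pw (h1.mono ?_) hA
  refine Nat.mul_le_mul_right _ ?_
  have h2 := card_cset_le (iota := iota) A
  have h3 : lenW A = M := rfl
  rw [h3] at h2
  omega

end Pool.Agent.QuadEq.Star
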