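import Pool.Agent.Lib.MP_b7851d_lc.Star.Asm
import Pool.Agent.Lib.MP_b7851d_lc.Star.IrrS
import Pool.Agent.Lib.MP_b7851d_lc.Star.Levels
import Pool.Agent.Lib.MP_b7851d_lc.Final

/-!
# The statement on tokens from its parts

`FreeStm`: a path of living states with a free pair of prefixes has few wins. `ConStm`: a living state
without closed pair and without free pair of prefixes is joined in both directions with a D-state.
Together with `PigStm` they give `StarStm`.
-/

namespace Pool.Agent.QuadEq.Star.Asm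

open Relation Pool.Agent.PolyTime

/-- A free pair of prefixes: both are not empty, a mixed letter has both tokens or none in them, there
is no top pair in the first one and no bottom pair in the second one. -/
def CPr {α : Type} (iota : α → α) (A : List α × List α) : Prop :=
  ∃ P R Q W, A = (P ++ R, Q ++ W) ∧ P ≠ [] ∧ Q ≠ [] ∧ (∀ x ∈ P, iota x ∈ Q ∨ iota x ∈ R) ∧
    ∀ y ∈ Q, iota y ∈ P ∨ iota y ∈ W

/-- A path of living states with a free pair has few wins. -/
def FreeStm (g : ℕ → ℕ) : Prop :=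
  ∀ (α : Type) [DecidableEq α] (iota : α → α) (A B : List α × List α), OkW iota A →
    Alive iota A → CPr iota A →
    ReflTransGen (fun X Y => (∃ b, stepW iota b X = some Y) ∧ Alive iota Y ∧ CPr iota Y) A B →
    PathW iota (g (A.1.length + A.2.length)) A B

/-- A living state without closed pair and without free pair is joined with a D-state. -/
def ConStm (h : ℕ → ℕ) : Prop :=
  ∀ (α : Type) [DecidableEq α] (lam iota : α → α) (e f : α) (S : St α),
    Good lam iota e f S → IrrW iota (S.P, S.Q) → Alive iota (S.P, S.Q) → ¬ CPr iota (S.P, S.Q) →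
    ∃ D, Dst lam e f D ∧ Runs lam (h (S.P.length + S.Q.length)) S D ∧
      Runs lam (h (S.P.length + S.Q.length)) D S

/-- The bound of the statement on tokens. -/
def KK (C : ℕ) (h g : ℕ → ℕ) (N : ℕ) : ℕ := (N * N + 1) * (bnd C (h N) (g N) N + 2 * N + 2)

theorem pb_bnd (C : ℕ) {h g : ℕ → ℕ} (hh : PB h) (hg : PB g) :
    PB fun N => bnd C (h N) (g N) N := by
  unfold bnd
  exact (((PB.const C).mul ((PB.id.add (PB.const 1)).pow 10)).add (PB.const 1)).mul
    (((((hh.mul PB.id).add (((PB.const C).mul PB.id).mul PB.id)).add (hh.mul PB.id)).add hg).add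
      (PB.const 2))

theorem pb_KK (C : ℕ) {h g : ℕ → ℕ} (hh : PB h) (hg : PB g) : PB (KK C h g) := by
  unfold KK
  exact ((PB.id.mul PB.id).add (PB.const 1)).mul
    (((pb_bnd C hh hg).add ((PB.const 2).mul PB.id)).add (PB.const 2))

/-- The region of `Star/Levels.lean` is the region of `Star/FW.lean`. -/
theorem fw_iff {α : Type} [DecidableEq α] {iota : α → α} {A : List α × List α} :
    Star.FW iota A ↔ FW iota A := by
  obtain ⟨P, Q⟩ := A
  constructor
  · intro h
    refine ⟨h.ok, ?_, ⟨h.tt, h.bb⟩, ?_⟩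
    · intro U₁ U₂ V₁ V₂ h1 h2
      exact h.irr U₁ U₂ V₁ V₂ (by rw [← h1, ← h2])
    · rintro ⟨U₁, U₂, V₁, V₂, h1, h2, h3, h4, h5, h6⟩
      exact h.nhc U₁ U₂ V₁ V₂ (by rw [← h1, ← h2]) h3 h4 h5 h6
  · intro h
    refine ⟨h.ok, h.alive.1, h.alive.2, ?_, ?_⟩
    · intro U₁ U₂ V₁ V₂ h1
      rw [Prod.mk.injEq] at h1
      exact h.irr U₁ U₂ V₁ V₂ h1.1 h1.2
    · intro U₁ U₂ V₁ V₂ h1 h3 h4 h5 h6
      rw [Prod.mk.injEq] at h1
      exact h.nhc ⟨U₁, U₂, V₁, V₂, h1.1, h1.2, h3, h4, h5, h6⟩

/-- **The statement on tokens.** -/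
theorem star_of {C : ℕ} (hpig : PigC C) {g h : ℕ → ℕ} (hg : PB g) (hh : PB h)
    (hfree : FreeStm g) (hcon : ConStm h) {α : Type} [DecidableEq α] {iota : α → α}
    {A B : List α × List α} (hA : OkW iota A) (hw : ∃ w, execW iota w A = some B) :
    PathW iota (KK C h g (A.1.length + A.2.length)) A B := by
  refine levels (k := fun N => bnd C (h N) (g N) N) (pb_bnd C hh hg).1 ?_ hA hw
  intro A B hA hAB
  have hA' := fw_iff.mp hA
  have hB' : FW iota B := by
    rcases hAB.cases_tail with h1 | ⟨Z, -, -, h2⟩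
    · rw [h1]; exact hA'
    · exact fw_iff.mp h2
  have hex : ∃ l, PathW iota l A B := by
    clear hB'
    induction hAB with
    | refl => exact ⟨0, PathW.refl 0 _⟩
    | tail _ h2 ih =>
      obtain ⟨l, hl⟩ := ih
      obtain ⟨⟨b, hb⟩, -⟩ := h2
      exact ⟨_, hl.trans (PathW.win b hb (PathW.refl 0 _))⟩
  refine core hpig hA' hB' rfl hex (fun X => ¬ CPr iota X) ?_ ?_
  · intro lam e f S hS hFW hn hH
    have := hcon α lam iota e f S hS hFW.irr hFW.alive hH
    rwa [hn] at this
  · intro A' B' hn hFW hH hAB'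
    rw [← hn]
    refine hfree α iota A' B' hFW.ok hFW.alive (not_not.mp hH) ?_
    induction hAB' with
    | refl => exact ReflTransGen.refl
    | tail _ h2 ih => exact ih.tail ⟨h2.1, h2.2.1.alive, not_not.mp h2.2.2⟩

/-- `StarStm` from its parts. -/
theorem starStm_of (hpig : PigStm) {g h : ℕ → ℕ} (hg : PB g) (hh : PB h) (hfree : FreeStm g)
    (hcon : ConStm h) : ∃ K, PB K ∧ StarStm K := by
  obtain ⟨C, hC⟩ := hpig
  exact ⟨KK C h g, pb_KK C hh hg, fun N iota A B hA hw => star_of hC hg hh hfree hcon hA hw⟩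

end Pool.Agent.QuadEq.Star.Asm
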