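import Pool.Agent.Lib.MP_b7851d_lc.Star.Expand

/-!
# The finite checks for D-states

Tokens are natural numbers, `lamN x = x xor 1`, `e = 0`, `f = 1`, the pointer is `2`.
A D-state is a state `P = A m1 e`, `Q = B m0 f` with a pair inside `A` and a pair inside `B`.
`big4`: the 17 patterns with 4 pairs; each one reaches a D-state which reaches it back.
`ext5`, `ext4`: a D-pattern with 4 or 5 pairs plus a new pair, one token of which stands directly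
before `e` or `f`: it reaches a D-state which reaches it back.
-/

set_option linter.unusedSectionVars false
set_option linter.unusedVariables false

namespace Pool.Agent.QuadEq.Star

/-- The pairing of the natural numbers. -/
def lamN (x : ℕ) : ℕ := if x % 2 = 0 then x + 1 else x - 1

instance (e f : ℕ) (s : St ℕ) : Decidable (Ok lamN e f s) :=
  decidable_of_iff ((∀ x ∈ s.P ++ s.Q, lamN (lamN x) = x) ∧ (∀ x ∈ s.P ++ s.Q, lamN x ≠ x) ∧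
    (∀ x ∈ s.P ++ s.Q, lamN x ∈ s.P ++ s.Q) ∧ lamN e = f ∧ (s.P ++ s.Q).Nodup ∧
    s.P.getLast? = some e ∧ s.Q.getLast? = some f ∧ s.m ∈ s.P ++ s.Q ∧ s.m ≠ e ∧ s.m ≠ f)
    ⟨fun ⟨h1, h2, h3, h4, h5, h6, h7, h8, h9, h10⟩ => ⟨h1, h2, h3, h4, h5, h6, h7, h8, h9, h10⟩,
     fun h => ⟨h.inv, h.ne, h.mem, h.lef, h.nd, h.le, h.lf, h.pm, h.pe, h.pf⟩⟩

/-- The reversed words of a D-state. -/
def isDN (s : St ℕ) : Bool :=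
  match s.P.reverse, s.Q.reverse with
  | e :: m1 :: A, f :: m0 :: B => e == 0 && m1 == lamN s.m && f == 1 && m0 == s.m &&
      A.any (fun x => A.contains (lamN x)) && B.any (fun x => B.contains (lamN x))
  | _, _ => false

/-- The check of one case. -/
def chk (s : St ℕ) (w : List Bool × List Bool) : Bool :=
  decide (Ok lamN 0 1 s) && decide (w.1.length ≤ 9) && decide (w.2.length ≤ 9) &&
  match exec lamN w.1 s with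
  | none => false
  | some d => isDN d && decide (exec lamN w.2 d = some s)

/-- The check of a list of cases. -/
def chks : List (St ℕ) → List (List Bool × List Bool) → Bool
  | [], _ => true
  | s :: l, w :: ws => chk s w && chks l ws
  | _ :: _, [] => false

theorem chks_mem : ∀ {l : List (St ℕ)} {ws : List (List Bool × List Bool)}, chks l ws = true →
    ∀ s ∈ l, ∃ w, chk s w = true
  | [], _, _, s, hs => by simp at hs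
  | s :: l, [], h, _, _ => by simp [chks] at h
  | s :: l, w :: ws, h, s', hs' => by
    simp only [chks, Bool.and_eq_true] at h
    rcases List.mem_cons.1 hs' with rfl | hs'
    · exact ⟨w, h.1⟩
    · exact chks_mem h.2 s' hs'

theorem chk_spec {s : St ℕ} {w : List Bool × List Bool} (h : chk s w = true) :
    Ok lamN 0 1 s ∧ ∃ w1 w2 d, exec lamN w1 s = some d ∧ exec lamN w2 d = some s ∧ isDN d = true ∧
      w1.length ≤ 9 ∧ w2.length ≤ 9 := by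
  unfold chk at h
  cases hd : exec lamN w.1 s with
  | none => rw [hd] at h; simp at h
  | some d =>
    rw [hd] at h
    simp only [Bool.and_eq_true, decide_eq_true_eq] at h
    exact ⟨h.1.1.1, w.1, w.2, d, hd, h.2.2, h.2.1, h.1.1.2, h.1.2⟩

/-- All insertions of a token in a word. -/
def inserts (t : ℕ) : List ℕ → List (List ℕ)
  | [] => [[t]]
  | a :: l => (t :: a :: l) :: (inserts t l).map (a :: ·)

/-- All insertions of a token in one of two words. -/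
def ins2 (t : ℕ) (p : List ℕ × List ℕ) : List (List ℕ × List ℕ) :=
  (inserts t p.1).map (fun x => (x, p.2)) ++ (inserts t p.2).map (fun y => (p.1, y))

/-- The D-pattern with 4 pairs. -/
def pat4 : St ℕ := ⟨[4, 5, 3, 0], [6, 7, 2, 1], 2⟩

/-- The D-patterns with 5 pairs. -/
def pats5 : List (St ℕ) := ((ins2 8 ([4, 5], [6, 7])).flatMap (ins2 9)).map
  fun p => ⟨p.1 ++ [3, 0], p.2 ++ [2, 1], 2⟩

/-- The blocks: `n` before `a` and `n + 1` before `b`. -/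
def blk2 (a b n : ℕ) : ℕ → List ℕ := fun z => if z = a then [n] else if z = b then [n + 1] else []

/-- The words with 6 pairs. -/
def ext5 : List (St ℕ) := pats5.flatMap fun p => [expand (blk2 0 8 10) p, expand (blk2 1 8 10) p]

/-- The words with 5 pairs. -/
def ext4 : List (St ℕ) := [2, 3, 4, 5, 6, 7].flatMap fun b =>
  [expand (blk2 0 b 8) pat4, expand (blk2 1 b 8) pat4]

/-- The 17 patterns. -/
def big4 : List (St ℕ) :=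
  [⟨[2, 4, 3, 0], [6, 5, 7, 1], 2⟩, ⟨[2, 4, 3, 0], [6, 7, 5, 1], 2⟩,
   ⟨[2, 4, 0], [5, 6, 3, 7, 1], 2⟩, ⟨[2, 4, 0], [5, 6, 7, 3, 1], 2⟩,
   ⟨[4, 2, 3, 0], [6, 5, 7, 1], 2⟩, ⟨[4, 2, 3, 0], [6, 7, 5, 1], 2⟩,
   ⟨[4, 3, 2, 0], [6, 7, 5, 1], 2⟩, ⟨[4, 3, 5, 0], [6, 7, 2, 1], 2⟩,
   ⟨[4, 5, 3, 0], [6, 2, 7, 1], 2⟩, ⟨[4, 5, 3, 0], [6, 7, 2, 1], 2⟩,
   ⟨[4, 5, 6, 0], [3, 7, 2, 1], 2⟩, ⟨[4, 5, 6, 0], [7, 2, 3, 1], 2⟩,
   ⟨[4, 5, 6, 0], [7, 3, 2, 1], 2⟩, ⟨[4, 6, 2, 7, 0], [3, 5, 1], 2⟩,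
   ⟨[4, 6, 5, 0], [3, 7, 2, 1], 2⟩, ⟨[4, 6, 5, 0], [7, 3, 2, 1], 2⟩,
   ⟨[4, 6, 7, 2, 0], [3, 5, 1], 2⟩]

namespace Tab

/-- A top move. -/
abbrev t : Bool := true

/-- A bottom move. -/
abbrev b : Bool := false

theorem chk_big4 : chks big4
  [([b,b,t,b,t,b], [t,t,b,t,b,b]), ([b,b], [b]), ([t,b,t,b,t,b], [t,t,b]),
   ([t,b], [t,t,b,t,b,t,b]), ([b,t,b,t,b], [t,t,b,t]), ([b], [b,b]), ([t,b,t], [b,b,t,b,t,b]),
   ([b,t,b,t], [b,b,t,b,t]), ([t,b,t,b], [t,t,b,t,b]), ([], []), ([t,t], [t]),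
   ([b,t,b], [t,t,b,t,b,t]), ([t], [t,t]), ([b,t,b,t,b,t], [b,b,t]),
   ([t,t,b,t,b,t], [b,b,t,b,t,t]), ([t,b,t,b,t], [b,b,t,b]), ([b,t], [b,b,t,b,t,b,t])] = true := by
  decide +kernel

theorem chk_ext4 : chks ext4
  [([t,t,t], [t]), ([t,t,t,b,t,b], [t,t,t,t,b,t,b]), ([b,b,b,t,b,t], [b,b,b,b,t,b,t]),
   ([b,b,b], [b]), ([b,t,b,b,b,t], [b,b,t,t,t,b,t]), ([b], [b,b,b]),
   ([b,b,t,b,b,t], [b,b,b,t,t,b,t]), ([b,b], [b,b]), ([t], [t,t,t]),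
   ([t,b,t,t,t,b], [t,t,b,b,b,t,b]), ([t,t], [t,t]), ([t,t,b,t,t,b], [t,t,t,b,b,t,b])] = true := by
  decide +kernel

theorem chk_ext5 : chks ext5
  [([b,b,t,b,b,b,b,t], [b,b,b,t,t,t,t,b,t]), ([b,b], [b,b,b,b]),
   ([b,t,b,b,b,b,b,t], [b,b,t,t,t,t,t,b,t]), ([b], [b,b,b,b,b]),
   ([b,t,b,b,b,b,b,t], [b,b,t,t,t,t,t,b,t]), ([b], [b,b,b,b,b]),
   ([b,t,b,b,b,b,b,t], [b,b,t,t,t,t,t,b,t]), ([b], [b,b,b,b,b]),
   ([t,b,t,b,t], [b,b,b,b,b,t,b,t]), ([b], [b,b,b,b]), ([b,t,b,b,b,b,t,t], [b,b,t,t,t,t,b,t]),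
   ([b], [b,b,b,b]), ([b,t,b,t,b,b,b], [b,b,t,b,t,b,b,b]), ([b], [b,b,b,b]),
   ([b,b,b,t,b,b,b,t], [b,b,b,b,t,t,t,b,t]), ([b,b,b], [b,b,b]),
   ([b,b,b,t,b,b,b,t], [b,b,b,b,t,t,t,b,t]), ([b,b,b], [b,b,b]),
   ([b,b,t,b,b,b,b,t], [b,b,b,t,t,t,t,b,t]), ([b,b], [b,b,b,b]),
   ([b,b,t,b,b,b,b,t], [b,b,b,t,t,t,t,b,t]), ([b,b], [b,b,b,b]),
   ([t,b,b,t,b,t], [b,b,b,b,b,t,b,t]), ([b,b], [b,b,b]), ([b,b,t,b,b,b,t,t], [b,b,b,t,t,t,b,t]),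
   ([b,b], [b,b,b]), ([b,b,t,b,t,b,b], [b,b,b,t,b,t,b,b]), ([b,b], [b,b,b]),
   ([b,b,b,b,t,b,b,t], [b,b,b,b,b,t,t,b,t]), ([b,b,b,b], [b,b]),
   ([b,b,b,b,t,b,b,t], [b,b,b,b,b,t,t,b,t]), ([b,b,b,b], [b,b]),
   ([b,b,b,b,t,b,b,t], [b,b,b,b,b,t,t,b,t]), ([b,b,b,b], [b,b]),
   ([b,b,b,t,b,b,b,t], [b,b,b,b,t,t,t,b,t]), ([b,b,b], [b,b,b]),
   ([t,b,b,b,t,b,t], [b,b,b,b,b,t,b,t]), ([b,b,b], [b,b]),
   ([b,b,b,t,b,b,t,t], [b,b,b,b,t,t,b,t]), ([b,b,b], [b,b]),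
   ([b,b,b,t,b,t,b], [b,b,b,b,t,b,t,b]), ([b,b,b], [b,b]), ([t], [t,t,t,t]),
   ([b,t,b,t,b], [t,t,t,t,t,b,t,b]), ([t], [t,t,t,t]), ([t,b,t,t,t,t,b,b], [t,t,b,b,b,b,t,b]),
   ([t], [t,t,t,t]), ([t,b,t,b,t,t,t], [t,t,b,t,b,t,t,t]), ([t,t], [t,t,t,t]),
   ([t,t,b,t,t,t,t,b], [t,t,t,b,b,b,b,t,b]), ([t], [t,t,t,t,t]),
   ([t,b,t,t,t,t,t,b], [t,t,b,b,b,b,b,t,b]), ([t], [t,t,t,t,t]),
   ([t,b,t,t,t,t,t,b], [t,t,b,b,b,b,b,t,b]), ([t], [t,t,t,t,t]),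
   ([t,b,t,t,t,t,t,b], [t,t,b,b,b,b,b,t,b]), ([t,t], [t,t,t]),
   ([b,t,t,b,t,b], [t,t,t,t,t,b,t,b]), ([t,t], [t,t,t]), ([t,t,b,t,t,t,b,b], [t,t,t,b,b,b,t,b]),
   ([t,t], [t,t,t]), ([t,t,b,t,b,t,t], [t,t,t,b,t,b,t,t]), ([t,t,t], [t,t,t]),
   ([t,t,t,b,t,t,t,b], [t,t,t,t,b,b,b,t,b]), ([t,t,t], [t,t,t]),
   ([t,t,t,b,t,t,t,b], [t,t,t,t,b,b,b,t,b]), ([t,t], [t,t,t,t]),
   ([t,t,b,t,t,t,t,b], [t,t,t,b,b,b,b,t,b]), ([t,t], [t,t,t,t]),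
   ([t,t,b,t,t,t,t,b], [t,t,t,b,b,b,b,t,b]), ([t,t,t], [t,t]),
   ([b,t,t,t,b,t,b], [t,t,t,t,t,b,t,b]), ([t,t,t], [t,t]),
   ([t,t,t,b,t,t,b,b], [t,t,t,t,b,b,t,b]), ([t,t,t], [t,t]),
   ([t,t,t,b,t,b,t], [t,t,t,t,b,t,b,t]), ([t,t,t,t], [t,t]),
   ([t,t,t,t,b,t,t,b], [t,t,t,t,t,b,b,t,b]), ([t,t,t,t], [t,t]),
   ([t,t,t,t,b,t,t,b], [t,t,t,t,t,b,b,t,b]), ([t,t,t,t], [t,t]),
   ([t,t,t,t,b,t,t,b], [t,t,t,t,t,b,b,t,b]), ([t,t,t], [t,t,t]),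
   ([t,t,t,b,t,t,t,b], [t,t,t,t,b,b,b,t,b])] = true := by
  decide +kernel

end Tab

open Tab

/-- The 17 patterns. -/
theorem big4_spec {s : St ℕ} (hs : s ∈ big4) :
    Ok lamN 0 1 s ∧ ∃ w1 w2 d, exec lamN w1 s = some d ∧ exec lamN w2 d = some s ∧ isDN d = true ∧
      w1.length ≤ 9 ∧ w2.length ≤ 9 := by
  obtain ⟨w, hw⟩ := chks_mem chk_big4 s hs
  exact chk_spec hw

theorem ext4_spec {s : St ℕ} (hs : s ∈ ext4) :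
    Ok lamN 0 1 s ∧ ∃ w1 w2 d, exec lamN w1 s = some d ∧ exec lamN w2 d = some s ∧ isDN d = true ∧
      w1.length ≤ 9 ∧ w2.length ≤ 9 := by
  obtain ⟨w, hw⟩ := chks_mem chk_ext4 s hs
  exact chk_spec hw

theorem ext5_spec {s : St ℕ} (hs : s ∈ ext5) :
    Ok lamN 0 1 s ∧ ∃ w1 w2 d, exec lamN w1 s = some d ∧ exec lamN w2 d = some s ∧ isDN d = true ∧
      w1.length ≤ 9 ∧ w2.length ≤ 9 := by
  obtain ⟨w, hw⟩ := chks_mem chk_ext5 s hs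
  exact chk_spec hw

end Pool.Agent.QuadEq.Star
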