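import Pool.Agent.Lib.MP_b7851d_lc.Star.Seg
import Pool.Agent.Lib.MP_b7851d_lc.Star.N3bTab

/-!
# Small paths on numerals

The token `2 k` of a small word is the letter `ν k`, the token `2 k + 1` is its partner, and the
segment of the token `n` has the tail `tl n`.
-/

set_option linter.unusedSectionVars false
set_option linter.unusedVariables false

namespace Pool.Agent.QuadEq.Star

variable {α : Type*} [DecidableEq α] {iota : α → α}

/-- The names of the tokens. -/
def nm (iota : α → α) (ν : ℕ → α) (n : ℕ) : α := if n % 2 = 0 then ν (n / 2) else iota (ν (n / 2))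

/-- The names from a list of letters. -/
def nu (l : List α) (x : α) (n : ℕ) : α := l.getD n x

/-- The tails from a list of words. -/
def tls (l : List (List α)) (n : ℕ) : List α := l.getD n []

instance (iota : ℕ → ℕ) (A : List ℕ × List ℕ) : Decidable (OkW iota A) :=
  decidable_of_iff ((∀ x ∈ A.1 ++ A.2, iota (iota x) = x) ∧ (∀ x ∈ A.1 ++ A.2, iota x ≠ x) ∧
    (∀ x ∈ A.1 ++ A.2, iota x ∈ A.1 ++ A.2) ∧ (A.1 ++ A.2).Nodup)
    ⟨fun ⟨h1, h2, h3, h4⟩ => ⟨h1, h2, h3, h4⟩, fun h => ⟨h.inv, h.ne, h.mem, h.nd⟩⟩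

theorem nm_lamN {ν : ℕ → α} {a : ℕ} (h : iota (iota (ν (a / 2))) = ν (a / 2)) :
    nm iota ν (lamN a) = iota (nm iota ν a) := by
  unfold nm lamN
  by_cases ha : a % 2 = 0
  · rw [if_pos ha, if_neg (by omega), if_pos ha, show (a + 1) / 2 = a / 2 by omega]
  · rw [if_neg ha, if_pos (by omega), if_neg ha, show (a - 1) / 2 = a / 2 by omega, h]

theorem nm_compat {ν : ℕ → α} {tl : ℕ → List α} {p : List ℕ × List ℕ} (hp : OkW lamN p)
    (hok : OkW iota (fl (nm iota ν) tl p)) : ∀ a ∈ p.1 ++ p.2,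
    nm iota ν (lamN a) = iota (nm iota ν a) := by
  have key : ∀ a ∈ p.1 ++ p.2, iota (iota (nm iota ν a)) = nm iota ν a := fun a ha =>
    hok.inv _ (by rw [fl_append]; exact mem_flL_hd ha)
  intro a ha
  refine nm_lamN ?_
  by_cases h2 : a % 2 = 0
  · have := key a ha
    unfold nm at this
    rwa [if_pos h2] at this
  · have h3 := key _ (hp.mem a ha)
    unfold nm lamN at h3
    rw [if_neg h2, if_pos (by omega), show (a - 1) / 2 = a / 2 by omega] at h3
    exact h3

/-- **A small path on numerals.** -/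
theorem small_runs {w : List Bool} {p q : List ℕ × List ℕ} (ν : ℕ → α) (tl : ℕ → List α)
    (hp : OkW lamN p) (hw : execW lamN w p = some q) (hok : OkW iota (fl (nm iota ν) tl p)) :
    RunsW iota w.length (fl (nm iota ν) tl p) (fl (nm iota ν) tl q) :=
  RunsW.lift (RunsW.of_exec hw) hp (by rw [← fl_append]; exact hok.nd) (nm_compat hp hok)

theorem small_path {w : List Bool} {p q : List ℕ × List ℕ} (ν : ℕ → α) (tl : ℕ → List α)
    (hp : OkW lamN p) (hw : execW lamN w p = some q) (hok : OkW iota (fl (nm iota ν) tl p)) :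
    PathW iota (w.length * ((fl (nm iota ν) tl p).1.length + (fl (nm iota ν) tl p).2.length))
      (fl (nm iota ν) tl p) (fl (nm iota ν) tl q) ∧ OkW iota (fl (nm iota ν) tl q) ∧
      ((fl (nm iota ν) tl q).1 ++ (fl (nm iota ν) tl q).2).Perm
        ((fl (nm iota ν) tl p).1 ++ (fl (nm iota ν) tl p).2) := by
  have h := small_runs ν tl hp hw hok
  obtain ⟨h1, h2⟩ := hok.runsW h
  exact ⟨h.path hok, h1, h2⟩

/-- The same for words given explicitly: `A` and `B` are brought into the form of segments by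
`simp`. -/
theorem sp {A B : List α × List α} (l : List α) (x : α) (t : List (List α)) (w : List Bool)
    (p q : List ℕ × List ℕ) (hp : OkW lamN p) (hw : execW lamN w p = some q)
    (hA : A = fl (nm iota (nu l x)) (tls t) p) (hB : B = fl (nm iota (nu l x)) (tls t) q)
    (hok : OkW iota A) :
    PathW iota (w.length * (A.1.length + A.2.length)) A B ∧ OkW iota B ∧
      (B.1 ++ B.2).Perm (A.1 ++ A.2) := by
  rw [hA, hB]
  rw [hA] at hok
  exact small_path _ _ hp hw hok

/-- An example: the way from `x X Y W | w y z Z` to `x Y y W | w z X Z`. -/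
theorem to_F {x y w z : α} {A0 A1 A2 A3 B0 B1 B2 B3 : List α}
    (hok : OkW iota (x :: (A0 ++ iota x :: (A1 ++ iota y :: (A2 ++ iota w :: A3))),
      w :: (B0 ++ y :: (B1 ++ z :: (B2 ++ iota z :: B3))))) :
    PathW iota (6 * ((x :: (A0 ++ iota x :: (A1 ++ iota y :: (A2 ++ iota w :: A3)))).length +
      (w :: (B0 ++ y :: (B1 ++ z :: (B2 ++ iota z :: B3)))).length))
      (x :: (A0 ++ iota x :: (A1 ++ iota y :: (A2 ++ iota w :: A3))),
        w :: (B0 ++ y :: (B1 ++ z :: (B2 ++ iota z :: B3))))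
      (x :: (A0 ++ iota y :: (A2 ++ y :: (B1 ++ iota w :: A3))),
        w :: (B0 ++ z :: (B2 ++ iota x :: (A1 ++ iota z :: B3)))) := by
  refine (sp [x, y, w, z] x [A0, A1, B1, A2, B0, A3, B2, B3] [true, false, true, false, false, true]
    ([0, 1, 3, 5], [4, 2, 6, 7]) ([0, 3, 2, 5], [4, 6, 1, 7]) (by decide) (by decide) ?_ ?_ hok).1
  · simp [fl, flL, nm, nu, tls]
  · simp [fl, flL, nm, nu, tls]

end Pool.Agent.QuadEq.Star
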