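import Pool.Agent.Lib.MP_b7851d_lc.Star.StarOf
import Pool.Agent.Lib.MP_b7851d_lc.Star.N3a.Str.Last
import Pool.Agent.Lib.MP_b7851d_lc.Star.N3a.RowC
import Pool.Agent.Lib.MP_b7851d_lc.Star.N3a.Pig
import Pool.Agent.Lib.MP_b7851d_lc.Star.N3a.Thin
import Pool.Agent.Lib.MP_b7851d_lc.Star.N3a.H99.C1
import Pool.Agent.Lib.MP_b7851d_lc.Free.Stm

/-!
# The D-states of one labelled class: the theorem
-/

namespace Pool.Agent.QuadEq.Star.N3a

/-- Few D-states up to runs: the theorem. -/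
theorem pigStm : PigStm :=
  pigStm_of rowA rowB (rowC clsStm Str.str H99.c1 rowC2) thinStm

end Pool.Agent.QuadEq.Star.N3a
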