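import Pool.Agent.Lib.MP_b7851d_lc.Star.AsmP
import Pool.Agent.Lib.MP_b7851d_lc.Star.PigAll
import Pool.Agent.Lib.MP_b7851d_lc.Hubs.Q
import Pool.Agent.Lib.MP_b7851d_lc.FinalNP

/-!
# Quadratic word equations: the general case
-/

namespace Pool.Agent.QuadEq.Star.Asm

open Pool.Agent.PolyTime

/-- **The statement on tokens.** -/
theorem starStm : ∃ K, PB K ∧ StarStm K :=
  starStm_ofP N3a.pigStm Free.pb_free pb_hH Free.freeStm
    (fun _ _ lam iota e f S h hI hL hc => con_all lam iota e f S h hI hL hc)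

end Pool.Agent.QuadEq.Star.Asm
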