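import Mathlib

/-!
# The shortening lemma

A path with a minimal number of wins, most of whose states are hubs, is short if among sufficiently
many hubs two are joined by few wins.
-/

namespace Pool.Agent.QuadEq.Star

/-- **The shortening lemma.** -/
theorem shorten {σ : Type*} (R : ℕ → σ → σ → Prop)
    (trans : ∀ k l A B C, R k A B → R l B C → R (k + l) A C)
    (s : ℕ → σ) (N : ℕ) (c : ℕ → ℕ) (c0 : c 0 = 0) (hc : ∀ i < N, c i ≤ c (i + 1))
    (hc1 : ∀ i < N, c (i + 1) ≤ c i + 1)
    (hR : ∀ i j, i ≤ j → j ≤ N → R (c j - c i) (s i) (s j))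
    (hmin : ∀ l, R l (s 0) (s N) → c N ≤ l)
    (hub : ℕ → Prop) (p K L : ℕ)
    (gap : ∀ i j, i ≤ j → j ≤ N → (∀ k, i ≤ k → k ≤ j → ¬ hub k) → c j - c i ≤ p)
    (join : ∀ T : Finset ℕ, (∀ i ∈ T, i ≤ N ∧ hub i) → K < T.card →
      ∃ i ∈ T, ∃ j ∈ T, i < j ∧ R L (s i) (s j)) :
    c N ≤ (K + 1) * (L + p + 2) := by
  classical
  by_contra hbig
  rw [not_le] at hbig
  have mono : ∀ i j, i ≤ j → j ≤ N → c i ≤ c j := by
    intro i j hij
    induction j, hij using Nat.le_induction with
    | base => intro _; exact le_rfl
    | succ j hij ih => intro hj; exact (ih (by omega)).trans (hc j (by omega))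
  -- the index where the count is exactly `a`
  have idx : ∀ a, a ≤ c N → ∃ i, i ≤ N ∧ c i = a := by
    intro a ha
    by_contra hno
    push Not at hno
    have : ∀ i, i ≤ N → c i < a := by
      intro i
      induction i with
      | zero =>
        intro h0
        have := hno 0 h0
        omega
      | succ i ih =>
        intro hi
        have h1 := ih (by omega)
        have h2 := hc1 i (by omega)
        have h3 := hno (i + 1) hi
        omega
    have := this N le_rfl
    omega
  have hubs : ∀ t, t ≤ K → ∃ h, h ≤ N ∧ hub h ∧ t * (L + p + 2) ≤ c h ∧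
      c h ≤ t * (L + p + 2) + (p + 1) := by
    intro t ht
    have h1 : t * (L + p + 2) + (p + 1) ≤ c N := by
      have : t * (L + p + 2) + (L + p + 2) ≤ (K + 1) * (L + p + 2) := by
        calc t * (L + p + 2) + (L + p + 2) = (t + 1) * (L + p + 2) := by ring
          _ ≤ (K + 1) * (L + p + 2) := Nat.mul_le_mul_right _ (by omega)
      omega
    obtain ⟨i, hi, hci⟩ := idx (t * (L + p + 2)) (by omega)
    obtain ⟨j, hj, hcj⟩ := idx (t * (L + p + 2) + (p + 1)) h1
    have hij : i ≤ j := by
      by_contra h
      have := mono j i (by omega) hi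
      omega
    by_contra hno
    push Not at hno
    have := gap i j hij hj (by
      intro k hk1 hk2 hk
      have h3 := mono i k hk1 (by omega)
      have h4 := mono k j hk2 hj
      have := hno k (by omega) hk (by omega)
      omega)
    omega
  choose! h hN hh h1 h2 using hubs
  have sep : ∀ t t', t < t' → t' ≤ K → c (h t) + (L + 1) ≤ c (h t') := by
    intro t t' htt ht'
    have h3 := h2 t (by omega)
    have h4 := h1 t' ht'
    have : (t + 1) * (L + p + 2) ≤ t' * (L + p + 2) := Nat.mul_le_mul_right _ (by omega)
    have e : (t + 1) * (L + p + 2) = t * (L + p + 2) + (L + p + 2) := by ring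
    omega
  have inj : Set.InjOn h (Finset.range (K + 1)) := by
    intro t ht t' ht' heq
    simp only [Finset.coe_range, Set.mem_Iio] at ht ht'
    by_contra hne
    rcases Nat.lt_or_gt_of_ne hne with hlt | hlt
    · have := sep t t' hlt (by omega)
      rw [heq] at this
      omega
    · have := sep t' t hlt (by omega)
      rw [heq] at this
      omega
  obtain ⟨i, hi, j, hj, hij, hRL⟩ := join ((Finset.range (K + 1)).image h) (by
    intro i hi
    obtain ⟨t, ht, rfl⟩ := Finset.mem_image.mp hi
    rw [Finset.mem_range] at ht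
    exact ⟨hN t (by omega), hh t (by omega)⟩) (by
    rw [Finset.card_image_of_injOn inj, Finset.card_range]
    omega)
  obtain ⟨t, ht, rfl⟩ := Finset.mem_image.mp hi
  obtain ⟨t', ht', rfl⟩ := Finset.mem_image.mp hj
  rw [Finset.mem_range] at ht ht'
  have hlt : t < t' := by
    by_contra hno
    rcases Nat.lt_or_ge t' t with hl | hl
    · have h5 := sep t' t hl (by omega)
      have h6 := mono (h t) (h t') hij.le (hN t' (by omega))
      omega
    · have : t = t' := by omega
      subst this
      exact absurd hij (lt_irrefl _)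
  have h5 := sep t t' hlt (by omega)
  have e1 := hR 0 (h t) (Nat.zero_le _) (hN t (by omega))
  have e2 := hR (h t') N (hN t' (by omega)) le_rfl
  have e3 := trans _ _ _ _ _ (trans _ _ _ _ _ e1 hRL) e2
  have e4 := hmin _ e3
  have e5 := mono (h t') N (hN t' (by omega)) le_rfl
  omega

end Pool.Agent.QuadEq.Star
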