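import Pool.Agent.Lib.MP_b7851d_lc.Star.FW
import Pool.Agent.Lib.MP_b7851d_lc.Star.Short

/-!
# Assembly: hubs and gaps

If every hub is joined in both directions with a D-state by few runs, and a path without hubs has
few wins, then two states of the region `F0` which are joined are joined by few wins.
-/

namespace Pool.Agent.QuadEq.Star.Asm

variable {α : Type} [DecidableEq α] {lam iota : α → α} {e f : α}

/-! ### The class of a state -/

omit [DecidableEq α] in
theorem Nxt.ne_last {l : List α} {s t z : α} (hn : l.Nodup) (h : Nxt l s t)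
    (hl : l.getLast? = some z) : s ≠ z := by
  obtain ⟨A, C, rfl⟩ := h
  rintro rfl
  have h1 : (A ++ s :: t :: C).getLast? = (t :: C).getLast? := by
    rw [List.getLast?_append]
    cases h2 : (s :: t :: C).getLast? with
    | none => simp at h2
    | some w => simpa using h2.symm
  rw [h1] at hl
  have h2 : s ∈ t :: C := List.mem_of_getLast? hl
  have h3 := (List.nodup_append.mp hn).2.1
  exact (List.nodup_cons.mp h3).1 h2

theorem nx_of_nxt {l : List α} {s t : α} (hn : l.Nodup) (h : Nxt l s t) : nx l s = some t := by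
  obtain ⟨A, C, rfl⟩ := h
  exact nx_of_split fun h' => (List.nodup_append.mp hn).2.2 _ h' _ (by simp) rfl

theorem nxt_of_nx {l : List α} {s t : α} (h : nx l s = some t) : Nxt l s t := nx_split h

theorem nx_or_iff {S : St α} (hn : (S.P ++ S.Q).Nodup) {s t : α} :
    (Nxt S.P s t ∨ Nxt S.Q s t) ↔ Nx S s t := by
  have h1 := (List.nodup_append.mp hn).1
  have h2 := (List.nodup_append.mp hn).2.1
  constructor
  · rintro (h | h)
    · exact Or.inl (nx_of_nxt h1 h)
    · exact Or.inr (nx_of_nxt h2 h)
  · rintro (h | h)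
    · exact Or.inl (nxt_of_nx h)
    · exact Or.inr (nxt_of_nx h)

/-- A good state belongs to the class of the partner map of the variable words. -/
theorem cls_of_good {S : St α} (h : Good lam iota e f S) :
    Cls lam iota e f (S.P ++ S.Q).toFinset S := by
  have hn := h.ok.nd
  obtain ⟨x, hx, hx'⟩ := h.compat.c2
  obtain ⟨y, hy, hy'⟩ := h.compat.c3
  have hinv := h.ok.inv
  have hiw := h.okW.inv
  simp only at hiw
  have hme : e ∈ S.P ++ S.Q := List.mem_append_left _ (List.mem_of_getLast? h.ok.le)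
  have hfe : lam f = e := by
    rw [← h.ok.lef]; exact hinv e hme
  have hmS : S.m ∈ S.P ++ S.Q := h.ok.pm
  have hxm : x ∈ S.P ++ S.Q := List.mem_append_left _ (List.mem_of_head? hx)
  have hym : y ∈ S.P ++ S.Q := List.mem_append_right _ (List.mem_of_head? hy)
  refine ⟨fun z => by simp, fun z hz => hiw z (by simpa using hz),
    fun z hz => by simpa using h.okW.mem z (by simpa using hz), ?_⟩
  intro s t hst
  rcases hst with ⟨h1, h2, h3⟩ | ⟨h1, h2⟩ | ⟨h1, h2⟩
  · by_cases hse : s = e
    · subst hse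
      have h3' : S.P.head? = some t := by
        rcases h3 with h3 | h3 | h3
        · exact absurd rfl (Nxt.ne_last (List.nodup_append.mp hn).1 h3 h.ok.le)
        · exfalso
          obtain ⟨A, C, h4⟩ := h3
          exact (List.nodup_append.mp hn).2.2 s (List.mem_of_getLast? h.ok.le) s
            (by rw [h4]; simp) rfl
        · exact h3.2
      right; right
      refine ⟨h.ok.lef, ?_⟩
      have htx : t = x := Option.some.inj (h3'.symm.trans hx)
      subst htx
      exact (nx_or_iff hn).mpr hx'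
    · have h3' : Nx S s t := by
        rcases h3 with h3 | h3 | h3
        · exact (nx_or_iff hn).mp (Or.inl h3)
        · exact (nx_or_iff hn).mp (Or.inr h3)
        · exact absurd h3.1 hse
      have hs := h3'.mem.1
      by_cases hsm : s = lam S.m
      · right; left
        have hl : lam s = S.m := by rw [hsm, hinv _ hmS]
        refine ⟨hl, ?_⟩
        rw [hsm] at h3'
        have : t = iota y := Nx.unique hn h3' hy'
        rw [this, hiw y hym]
        exact hy
      · left
        refine ⟨fun h4 => hsm ?_, fun h4 => hse ?_, ?_⟩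
        · rw [← h4, hinv _ hs]
        · rw [← hinv _ hs, h4, hfe]
        · have := (nx_or_iff hn).mpr (h.compat.c1 s t h1 hsm h3')
          rcases this with h5 | h5
          · exact Or.inl h5
          · exact Or.inr (Or.inl h5)
  · left
    subst h1
    have hty : t = y := Option.some.inj (h2.symm.trans hy)
    subst hty
    refine ⟨h.ok.ne _ hmS, ?_, ?_⟩
    · intro h4
      apply h.ok.pe
      rw [← hinv _ hmS, h4, hfe]
    · have := (nx_or_iff hn).mpr hy'
      rcases this with h5 | h5
      · exact Or.inl h5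
      · exact Or.inr (Or.inl h5)
  · left
    subst h1
    have h3 : Nx S S.m t := (nx_or_iff hn).mp h2
    have htx : t = iota x := Nx.unique hn h3 hx'
    rw [hfe]
    refine ⟨fun h4 => h.ok.pe h4.symm, fun h4 => ?_, Or.inr (Or.inr ⟨rfl, ?_⟩)⟩
    · exact h.ok.ne e hme (h.ok.lef.trans h4.symm)
    · rw [htx, hiw x hxm]; exact hx

/-! ### Sequences -/

/-- The conditions on a sequence of states with a count of the wins. -/
def IsSeq (iota : α → α) (N : ℕ) (s : ℕ → List α × List α) (c : ℕ → ℕ) : Prop :=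
  ∀ i < N, ∃ b, stepW iota b (s i) = some (s (i + 1)) ∧
    (c (i + 1) = c i + 1 ∨ (c (i + 1) = c i ∧ ¬ Same iota b (s i)))

theorem exists_seq {k : ℕ} {A B : List α × List α} (h : PathW iota k A B) :
    ∃ (N : ℕ) (s : ℕ → List α × List α) (c : ℕ → ℕ), s 0 = A ∧ s N = B ∧ c 0 = 0 ∧ c N ≤ k ∧
      IsSeq iota N s c := by
  induction h with
  | refl k A =>
    exact ⟨0, fun _ => A, fun _ => 0, rfl, rfl, rfl, Nat.zero_le _, fun i hi => absurd hi (by omega)⟩
  | @step k A A' B b h hs hp ih =>
    obtain ⟨N, s, c, h1, h2, h3, h4, h5⟩ := ih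
    refine ⟨N + 1, fun i => Nat.casesOn i A s, fun i => Nat.casesOn i 0 c, rfl, h2, rfl, h4, ?_⟩
    intro i hi
    cases i with
    | zero => exact ⟨b, by show stepW iota b A = some (s 0); rw [h1]; exact h, Or.inr ⟨h3, hs⟩⟩
    | succ i => exact h5 i (by omega)
  | @win k A A' B b h hp ih =>
    obtain ⟨N, s, c, h1, h2, h3, h4, h5⟩ := ih
    refine ⟨N + 1, fun i => Nat.casesOn i A s, fun i => Nat.casesOn i 0 (fun j => c j + 1), rfl, h2,
      rfl, by show c N + 1 ≤ k + 1; omega, ?_⟩
    intro i hi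
    cases i with
    | zero =>
      exact ⟨b, by show stepW iota b A = some (s 0); rw [h1]; exact h,
        Or.inl (by show c 0 + 1 = 0 + 1; rw [h3])⟩
    | succ i =>
      obtain ⟨b', h6, h7⟩ := h5 i (by omega)
      refine ⟨b', h6, ?_⟩
      rcases h7 with h7 | ⟨h7, h8⟩
      · exact Or.inl (by show c (i + 1) + 1 = c i + 1 + 1; rw [h7])
      · exact Or.inr ⟨by show c (i + 1) + 1 = c i + 1; rw [h7], h8⟩

theorem IsSeq.path {N : ℕ} {s : ℕ → List α × List α} {c : ℕ → ℕ} (h : IsSeq iota N s c) {i j : ℕ}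
    (hij : i ≤ j) (hj : j ≤ N) : c i ≤ c j ∧ PathW iota (c j - c i) (s i) (s j) := by
  induction j, hij using Nat.le_induction with
  | base => exact ⟨le_rfl, PathW.refl _ _⟩
  | succ j hij ih =>
    obtain ⟨h1, h2⟩ := ih (by omega)
    obtain ⟨b, h3, h4⟩ := h j (by omega)
    rcases h4 with h4 | ⟨h4, h5⟩
    · refine ⟨by omega, ?_⟩
      have := h2.trans (PathW.win b h3 (PathW.refl 0 _))
      exact this.mono (by omega)
    · refine ⟨by omega, ?_⟩
      have := h2.trans (PathW.step b h3 h5 (PathW.refl 0 _))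
      exact this.mono (by omega)

theorem IsSeq.exec {N : ℕ} {s : ℕ → List α × List α} {c : ℕ → ℕ} (h : IsSeq iota N s c) {i j : ℕ}
    (hij : i ≤ j) (hj : j ≤ N) : ∃ w, execW iota w (s i) = some (s j) := by
  induction j, hij using Nat.le_induction with
  | base => exact ⟨[], rfl⟩
  | succ j hij ih =>
    obtain ⟨w, hw⟩ := ih (by omega)
    obtain ⟨b, h3, -⟩ := h j (by omega)
    refine ⟨w ++ [b], ?_⟩
    rw [execW_append, hw]
    simp only [Option.bind_some, execW, h3]

theorem IsSeq.chain {N : ℕ} {s : ℕ → List α × List α} {c : ℕ → ℕ} (h : IsSeq iota N s c)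
    {R : List α × List α → Prop} {i j : ℕ} (hij : i ≤ j) (hj : j ≤ N)
    (hR : ∀ k, i ≤ k → k ≤ j → R (s k)) :
    Relation.ReflTransGen (fun X Y => (∃ b, stepW iota b X = some Y) ∧ R Y) (s i) (s j) := by
  induction j, hij using Nat.le_induction with
  | base => exact Relation.ReflTransGen.refl
  | succ j hij ih =>
    obtain ⟨b, h3, -⟩ := h j (by omega)
    exact (ih (by omega) fun k h1 h2 => hR k h1 (by omega)).tail
      ⟨⟨b, h3⟩, hR (j + 1) (by omega) le_rfl⟩

/-! ### Runs -/

theorem runs_good {k : ℕ} {S S' : St α} (h : Good lam iota e f S) (hs : Runs lam k S S') :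
    Good lam iota e f S' ∧ ∀ x, x ∈ S'.P ++ S'.Q ↔ x ∈ S.P ++ S.Q := by
  induction k generalizing S with
  | zero => rw [(show S = S' from hs)] at h ⊢; exact ⟨h, fun x => Iff.rfl⟩
  | succ k ih =>
    obtain ⟨S₁, h1, h2⟩ := hs
    obtain ⟨h3, h4⟩ := ih (h1.good h) h2
    exact ⟨h3, fun x => (h4 x).trans (h1.mem_iff h.ok x)⟩

theorem runs_length {k : ℕ} {S S' : St α} (h : Good lam iota e f S) (hs : Runs lam k S S') :
    S'.P.length + S'.Q.length = S.P.length + S.Q.length := by
  obtain ⟨h1, h2⟩ := runs_good h hs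
  have h3 : List.Perm (S'.P ++ S'.Q) (S.P ++ S.Q) :=
    (List.perm_ext_iff_of_nodup h1.ok.nd h.ok.nd).mpr h2
  have := h3.length_eq
  simpa using this

/-! ### The core -/

/-- The statement `PigStm` with the constant. -/
def PigC (C : ℕ) : Prop := ∀ (α : Type) [DecidableEq α] (lam io : α → α) (e f : α)
  (X : Finset α) (K : ℕ) (S : Fin K → St α),
  (∀ i, Dst lam e f (S i) ∧ Cls lam io e f X (S i)) → C * (X.card + 1) ^ 10 < K →
  ∃ i j, i < j ∧ Con lam (C * X.card) (S i) (S j)

theorem pigStm_iff : PigStm ↔ ∃ C, PigC C := Iff.rfl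

/-- The bound. -/
def bnd (C h g n : ℕ) : ℕ := (C * (n + 1) ^ 10 + 1) * ((h * n + C * n * n + h * n) + g + 2)

/-- **The core.** If every hub is joined in both directions with a D-state by `h` runs and a path
without hubs has at most `g` wins, then two states of the region which are joined are joined by
`bnd C h g n` wins. -/
theorem core {C h g n : ℕ} (hpig : PigC C) {A B : List α × List α} (hA : FW iota A)
    (hB : FW iota B) (hn : A.1.length + A.2.length = n) (hex : ∃ l, PathW iota l A B)
    (H : List α × List α → Prop)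
    (hub : ∀ (lam : α → α) (e f : α) (S : St α), Good lam iota e f S → FW iota (S.P, S.Q) →
      S.P.length + S.Q.length = n → H (S.P, S.Q) →
      ∃ D, Dst lam e f D ∧ Runs lam h S D ∧ Runs lam h D S)
    (gap : ∀ A' B', A'.1.length + A'.2.length = n → FW iota A' → ¬ H A' →
      Relation.ReflTransGen (fun X Y => (∃ b, stepW iota b X = some Y) ∧ FW iota Y ∧ ¬ H Y) A' B' →
      PathW iota g A' B') :
    PathW iota (bnd C h g n) A B := by
  classical
  have hmin : ∀ {l : ℕ}, PathW iota l A B → Nat.find hex ≤ l := fun h => Nat.find_min' hex h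
  obtain ⟨N, s, c, h1, h2, h3, h4, hseq⟩ := exists_seq (Nat.find_spec hex)
  have hR : ∀ i j, i ≤ j → j ≤ N → PathW iota (c j - c i) (s i) (s j) :=
    fun i j hij hj => (hseq.path hij hj).2
  have hmono : ∀ i j, i ≤ j → j ≤ N → c i ≤ c j := fun i j hij hj => (hseq.path hij hj).1
  have hmin' : ∀ l, PathW iota l (s 0) (s N) → c N ≤ l := by
    intro l hl
    rw [h1, h2] at hl
    exact h4.trans (hmin hl)
  have hFW : ∀ i ≤ N, FW iota (s i) := by
    intro i hi
    obtain ⟨w, hw⟩ := hseq.exec (Nat.zero_le i) hi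
    obtain ⟨w', hw'⟩ := hseq.exec hi le_rfl
    rw [h1] at hw
    rw [h2] at hw'
    exact hA.between hB hw hw'
  -- the word form
  obtain ⟨x, P, y, Q, hAe, hyx⟩ := hA.heads
  obtain ⟨lam, m, e, f, hgood⟩ := exists_good (hAe ▸ hA.ok) hyx
  have hSt : ∀ i, ∃ S : St α, i ≤ N → Good lam iota e f S ∧ s i = (S.P, S.Q) ∧
      (∀ z, z ∈ S.P ++ S.Q ↔ z ∈ A.1 ++ A.2) ∧ S.P.length + S.Q.length = n := by
    intro i
    by_cases hi : i ≤ N
    · obtain ⟨w, hw⟩ := hseq.exec (Nat.zero_le i) hi
      rw [h1, hAe] at hw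
      obtain ⟨w', S', -, h5, h6⟩ := exec_of_execW hgood hw
      refine ⟨S', fun _ => ?_⟩
      have hg := (hgood.exec h5).1
      have hp := execW_perm (hAe ▸ hA.ok) hw
      rw [h6] at hp
      refine ⟨hg, h6, fun z => ?_, ?_⟩
      · rw [hAe]; exact hp.mem_iff
      · have := hp.length_eq
        rw [← hn, hAe]
        rw [List.length_append, List.length_append] at this
        exact this
    · exact ⟨⟨[], [], e⟩, fun h' => absurd h' hi⟩
  choose S hS using hSt
  set X : Finset α := (A.1 ++ A.2).toFinset with hX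
  have hXc : X.card = n := by
    rw [hX, List.toFinset_card_of_nodup hA.ok.nd, List.length_append, hn]
  have key := shorten (PathW iota) (fun k l A B C h h' => h.trans h') s N c h3
    (fun i hi => hmono i (i + 1) (by omega) (by omega))
    (fun i hi => by
      obtain ⟨b, -, h5⟩ := hseq i hi
      rcases h5 with h5 | ⟨h5, -⟩ <;> omega)
    hR hmin' (fun i => H (s i)) g (C * (n + 1) ^ 10) (h * n + C * n * n + h * n) ?_ ?_
  · have h5 := hR 0 N (Nat.zero_le _) le_rfl
    rw [h1, h2, h3] at h5
    refine h5.mono ?_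
    rw [Nat.sub_zero]
    exact key
  · intro i j hij hj hno
    have h5 := hseq.chain (R := fun Y => FW iota Y ∧ ¬ H Y) hij hj
      (fun k hk1 hk2 => ⟨hFW k (by omega), hno k hk1 hk2⟩)
    have h6 : (s i).1.length + (s i).2.length = n := by
      obtain ⟨-, h7, -, h8⟩ := hS i (by omega)
      rw [h7]; exact h8
    have h7 := gap (s i) (s j) h6 (hFW i (by omega)) (hno i le_rfl hij) h5
    have h8 := ((hR 0 i (Nat.zero_le _) (by omega)).trans h7).trans (hR j N hj le_rfl)
    have h9 := hmin' _ h8
    have h10 := hmono i j hij hj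
    have h11 := hmono j N hj le_rfl
    omega
  · intro T hT hcard
    have hD : ∀ a : Fin T.card, ∃ D, Dst lam e f D ∧
        Runs lam h (S (T.orderEmbOfFin rfl a)) D ∧ Runs lam h D (S (T.orderEmbOfFin rfl a)) := by
      intro a
      have ha := T.orderEmbOfFin_mem rfl a
      obtain ⟨h5, h6⟩ := hT _ ha
      obtain ⟨h7, h8, -, h9⟩ := hS _ h5
      exact hub lam e f _ h7 (by rw [← h8]; exact hFW _ h5) h9 (by rw [← h8]; exact h6)
    choose D hD1 hD2 hD3 using hD
    have hgD : ∀ a, Good lam iota e f (D a) ∧ (D a).P.length + (D a).Q.length = n ∧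
        Cls lam iota e f X (D a) := by
      intro a
      have ha := T.orderEmbOfFin_mem rfl a
      obtain ⟨h7, h8, h9, h10⟩ := hS _ (hT _ ha).1
      obtain ⟨h11, h12⟩ := runs_good h7 (hD2 a)
      refine ⟨h11, by rw [runs_length h7 (hD2 a), h10], ?_⟩
      have h13 := cls_of_good h11
      have h14 : ((D a).P ++ (D a).Q).toFinset = X := by
        ext z
        rw [hX, List.mem_toFinset, List.mem_toFinset, h12, h9]
      rwa [h14] at h13
    obtain ⟨a, b, hab, hcon⟩ := hpig α lam iota e f X T.card D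
      (fun a => ⟨hD1 a, (hgD a).2.2⟩) (by rw [hXc]; exact hcard)
    have ha := T.orderEmbOfFin_mem rfl a
    have hb := T.orderEmbOfFin_mem rfl b
    refine ⟨_, ha, _, hb, (T.orderEmbOfFin rfl).strictMono hab, ?_⟩
    obtain ⟨h7, h8, -, h10⟩ := hS _ (hT _ ha).1
    obtain ⟨h7', h8', -, h10'⟩ := hS _ (hT _ hb).1
    have e1 := Runs.path h7 (hD2 a)
    rw [h10] at e1
    have e2 := Runs.path (hgD a).1 hcon.1
    rw [(hgD a).2.1, hXc] at e2
    have e3 := Runs.path (hgD b).1 (hD3 b)
    rw [(hgD b).2.1] at e3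
    rw [h8, h8']
    exact (e1.trans e2).trans e3

end Pool.Agent.QuadEq.Star.Asm
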