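import Pool.Agent.Lib.MP_b7851d_lc.Star.StarOf
import Pool.Agent.Lib.MP_b7851d_lc.Hubs.Glue

/-!
# The assembly with hub paths counted in wins
-/

namespace Pool.Agent.QuadEq.Star.Asm

open Relation Pool.Agent.PolyTime

variable {α : Type} [DecidableEq α] {iota : α → α}

/-- A living state without closed pair and without free pair is joined with a D-state. -/
def ConP (h : ℕ → ℕ) : Prop :=
  ∀ (α : Type) [DecidableEq α] (lam iota : α → α) (e f : α) (S : St α),
    Good lam iota e f S → IrrW iota (S.P, S.Q) → Alive iota (S.P, S.Q) → ¬ CPr iota (S.P, S.Q) →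
    ∃ D, Dst lam e f D ∧ Good lam iota e f D ∧
      PathW iota (h (S.P.length + S.Q.length)) (S.P, S.Q) (D.P, D.Q) ∧
      PathW iota (h (S.P.length + S.Q.length)) (D.P, D.Q) (S.P, S.Q)

/-- The bound. -/
def bndP (C h g n : ℕ) : ℕ := (C * (n + 1) ^ 10 + 1) * ((h + C * n * n + h) + g + 2)

/-- **The core**, with hub paths counted in wins. -/
theorem coreP {C h g n : ℕ} (hpig : PigC C) {A B : List α × List α} (hA : FW iota A)
    (hB : FW iota B) (hn : A.1.length + A.2.length = n) (hex : ∃ l, PathW iota l A B)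
    (H : List α × List α → Prop)
    (hub : ∀ (lam : α → α) (e f : α) (S : St α), Good lam iota e f S → FW iota (S.P, S.Q) →
      S.P.length + S.Q.length = n → H (S.P, S.Q) →
      ∃ D, Dst lam e f D ∧ Good lam iota e f D ∧ PathW iota h (S.P, S.Q) (D.P, D.Q) ∧
        PathW iota h (D.P, D.Q) (S.P, S.Q))
    (gap : ∀ A' B', A'.1.length + A'.2.length = n → FW iota A' → ¬ H A' →
      Relation.ReflTransGen (fun X Y => (∃ b, stepW iota b X = some Y) ∧ FW iota Y ∧ ¬ H Y) A' B' →
      PathW iota g A' B') :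
    PathW iota (bndP C h g n) A B := by
  classical
  have hmin : ∀ {l : ℕ}, PathW iota l A B → Nat.find hex ≤ l := fun h => Nat.find_min' hex h
  obtain ⟨N, s, c, h1, h2, h3, h4, hseq⟩ := exists_seq (Nat.find_spec hex)
  have hR : ∀ i j, i ≤ j → j ≤ N → PathW iota (c j - c i) (s i) (s j) :=
    fun i j hij hj => (hseq.path hij hj).2
  have hmono : ∀ i j, i ≤ j → j ≤ N → c i ≤ c j := fun i j hij hj => (hseq.path hij hj).1
  have hmin' : ∀ l, PathW iota l (s 0) (s N) → c N ≤ l := by
    intro l hl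
    rw [h1, h2] at hl
    exact h4.trans (hmin hl)
  have hFW : ∀ i ≤ N, FW iota (s i) := by
    intro i hi
    obtain ⟨w, hw⟩ := hseq.exec (Nat.zero_le i) hi
    obtain ⟨w', hw'⟩ := hseq.exec hi le_rfl
    rw [h1] at hw
    rw [h2] at hw'
    exact hA.between hB hw hw'
  -- the word form
  obtain ⟨x, P, y, Q, hAe, hyx⟩ := hA.heads
  obtain ⟨lam, m, e, f, hgood⟩ := exists_good (hAe ▸ hA.ok) hyx
  have hSt : ∀ i, ∃ S : St α, i ≤ N → Good lam iota e f S ∧ s i = (S.P, S.Q) ∧
      (∀ z, z ∈ S.P ++ S.Q ↔ z ∈ A.1 ++ A.2) ∧ S.P.length + S.Q.length = n := by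
    intro i
    by_cases hi : i ≤ N
    · obtain ⟨w, hw⟩ := hseq.exec (Nat.zero_le i) hi
      rw [h1, hAe] at hw
      obtain ⟨w', S', -, h5, h6⟩ := exec_of_execW hgood hw
      refine ⟨S', fun _ => ?_⟩
      have hg := (hgood.exec h5).1
      have hp := execW_perm (hAe ▸ hA.ok) hw
      rw [h6] at hp
      refine ⟨hg, h6, fun z => ?_, ?_⟩
      · rw [hAe]; exact hp.mem_iff
      · have := hp.length_eq
        rw [← hn, hAe]
        rw [List.length_append, List.length_append] at this
        exact this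
    · exact ⟨⟨[], [], e⟩, fun h' => absurd h' hi⟩
  choose S hS using hSt
  set X : Finset α := (A.1 ++ A.2).toFinset with hX
  have hXc : X.card = n := by
    rw [hX, List.toFinset_card_of_nodup hA.ok.nd, List.length_append, hn]
  have key := shorten (PathW iota) (fun k l A B C h h' => h.trans h') s N c h3
    (fun i hi => hmono i (i + 1) (by omega) (by omega))
    (fun i hi => by
      obtain ⟨b, -, h5⟩ := hseq i hi
      rcases h5 with h5 | ⟨h5, -⟩ <;> omega)
    hR hmin' (fun i => H (s i)) g (C * (n + 1) ^ 10) (h + C * n * n + h) ?_ ?_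
  · have h5 := hR 0 N (Nat.zero_le _) le_rfl
    rw [h1, h2, h3] at h5
    refine h5.mono ?_
    rw [Nat.sub_zero]
    exact key
  · intro i j hij hj hno
    have h5 := hseq.chain (R := fun Y => FW iota Y ∧ ¬ H Y) hij hj
      (fun k hk1 hk2 => ⟨hFW k (by omega), hno k hk1 hk2⟩)
    have h6 : (s i).1.length + (s i).2.length = n := by
      obtain ⟨-, h7, -, h8⟩ := hS i (by omega)
      rw [h7]; exact h8
    have h7 := gap (s i) (s j) h6 (hFW i (by omega)) (hno i le_rfl hij) h5
    have h8 := ((hR 0 i (Nat.zero_le _) (by omega)).trans h7).trans (hR j N hj le_rfl)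
    have h9 := hmin' _ h8
    have h10 := hmono i j hij hj
    have h11 := hmono j N hj le_rfl
    omega
  · intro T hT hcard
    have hD : ∀ a : Fin T.card, ∃ D, Dst lam e f D ∧ Good lam iota e f D ∧
        PathW iota h ((S (T.orderEmbOfFin rfl a)).P, (S (T.orderEmbOfFin rfl a)).Q) (D.P, D.Q) ∧
        PathW iota h (D.P, D.Q) ((S (T.orderEmbOfFin rfl a)).P, (S (T.orderEmbOfFin rfl a)).Q) := by
      intro a
      have ha := T.orderEmbOfFin_mem rfl a
      obtain ⟨h5, h6⟩ := hT _ ha
      obtain ⟨h7, h8, -, h9⟩ := hS _ h5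
      exact hub lam e f _ h7 (by rw [← h8]; exact hFW _ h5) h9 (by rw [← h8]; exact h6)
    choose D hD1 hD4 hD2 hD3 using hD
    have hgD : ∀ a, (D a).P.length + (D a).Q.length = n ∧ Cls lam iota e f X (D a) := by
      intro a
      have ha := T.orderEmbOfFin_mem rfl a
      obtain ⟨h7, h8, h9, h10⟩ := hS _ (hT _ ha).1
      obtain ⟨w, hw⟩ := exec_path (hD2 a)
      have hp := execW_perm h7.okW hw
      simp only at hp
      refine ⟨?_, ?_⟩
      · have h12 := hp.length_eq
        rw [List.length_append, List.length_append, h10] at h12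
        exact h12
      have h13 := cls_of_good (hD4 a)
      have h14 : ((D a).P ++ (D a).Q).toFinset = X := by
        ext z
        rw [hX, List.mem_toFinset, List.mem_toFinset, hp.mem_iff, h9]
      rwa [h14] at h13
    obtain ⟨a, b, hab, hcon⟩ := hpig α lam iota e f X T.card D
      (fun a => ⟨hD1 a, (hgD a).2⟩) (by rw [hXc]; exact hcard)
    have ha := T.orderEmbOfFin_mem rfl a
    have hb := T.orderEmbOfFin_mem rfl b
    refine ⟨_, ha, _, hb, (T.orderEmbOfFin rfl).strictMono hab, ?_⟩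
    obtain ⟨h7, h8, -, h10⟩ := hS _ (hT _ ha).1
    obtain ⟨h7', h8', -, h10'⟩ := hS _ (hT _ hb).1
    have e2 := Runs.path (hD4 a) hcon.1
    rw [(hgD a).1, hXc] at e2
    rw [h8, h8']
    exact ((hD2 a).trans e2).trans (hD3 b)

/-- The bound of the statement on tokens. -/
def KP (C : ℕ) (h g : ℕ → ℕ) (N : ℕ) : ℕ := (N * N + 1) * (bndP C (h N) (g N) N + 2 * N + 2)

theorem pb_bndP (C : ℕ) {h g : ℕ → ℕ} (hh : PB h) (hg : PB g) :
    PB fun N => bndP C (h N) (g N) N := by
  unfold bndP
  exact (((PB.const C).mul ((PB.id.add (PB.const 1)).pow 10)).add (PB.const 1)).mul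
    ((((hh.add (((PB.const C).mul PB.id).mul PB.id)).add hh).add hg).add (PB.const 2))

theorem pb_KP (C : ℕ) {h g : ℕ → ℕ} (hh : PB h) (hg : PB g) : PB (KP C h g) := by
  unfold KP
  exact ((PB.id.mul PB.id).add (PB.const 1)).mul
    (((pb_bndP C hh hg).add ((PB.const 2).mul PB.id)).add (PB.const 2))

/-- **The statement on tokens.** -/
theorem star_ofP {C : ℕ} (hpig : PigC C) {g h : ℕ → ℕ} (hg : PB g) (hh : PB h)
    (hfree : FreeStm g) (hcon : ConP h) {α : Type} [DecidableEq α] {iota : α → α}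
    {A B : List α × List α} (hA : OkW iota A) (hw : ∃ w, execW iota w A = some B) :
    PathW iota (KP C h g (A.1.length + A.2.length)) A B := by
  refine levels (k := fun N => bndP C (h N) (g N) N) (pb_bndP C hh hg).1 ?_ hA hw
  intro A B hA hAB
  have hA' := fw_iff.mp hA
  have hB' : FW iota B := by
    rcases hAB.cases_tail with h1 | ⟨Z, -, -, h2⟩
    · rw [h1]; exact hA'
    · exact fw_iff.mp h2
  have hex : ∃ l, PathW iota l A B := by
    clear hB'
    induction hAB with
    | refl => exact ⟨0, PathW.refl 0 _⟩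
    | tail _ h2 ih =>
      obtain ⟨l, hl⟩ := ih
      obtain ⟨⟨b, hb⟩, -⟩ := h2
      exact ⟨_, hl.trans (PathW.win b hb (PathW.refl 0 _))⟩
  refine coreP hpig hA' hB' rfl hex (fun X => ¬ CPr iota X) ?_ ?_
  · intro lam e f S hS hFW hn hH
    have := hcon α lam iota e f S hS hFW.irr hFW.alive hH
    rwa [hn] at this
  · intro A' B' hn hFW hH hAB'
    rw [← hn]
    refine hfree α iota A' B' hFW.ok hFW.alive (not_not.mp hH) ?_
    induction hAB' with
    | refl => exact ReflTransGen.refl
    | tail _ h2 ih => exact ih.tail ⟨h2.1, h2.2.1.alive, not_not.mp h2.2.2⟩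

/-- `StarStm` from its parts. -/
theorem starStm_ofP (hpig : PigStm) {g h : ℕ → ℕ} (hg : PB g) (hh : PB h) (hfree : FreeStm g)
    (hcon : ConP h) : ∃ K, PB K ∧ StarStm K := by
  obtain ⟨C, hC⟩ := hpig
  exact ⟨KP C h g, pb_KP C hh hg, fun N iota A B hA hw => star_ofP hC hg hh hfree hcon hA hw⟩

end Pool.Agent.QuadEq.Star.Asm
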