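import Pool.Agent.Lib.MP_b7851d_lc.Star.Defs

/-!
# The variable words

A state is a pair of words of tokens; `iota` is the partner of a token (the other occurrence of the
same variable).  In a T step the first token `y` of the bottom word is moved to the place right
before the partner of the first token `x` of the top word.
-/

namespace Pool.Agent.QuadEq.Star

variable {α : Type*} [DecidableEq α]

/-- Insertion of `v` right before `u`. -/
def insB (u v : α) : List α → List α
  | [] => []
  | a :: l => if a = u then v :: a :: l else a :: insB u v l

/-- A T step of the variable words. -/
def tW (iota : α → α) (A : List α × List α) : Option (List α × List α) :=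
  match A.1, A.2 with
  | x :: P, y :: Q => if y = iota x ∨ Q = [] then none else
      some (x :: insB (iota x) y P, insB (iota x) y Q)
  | _, _ => none

/-- A B step of the variable words. -/
def bW (iota : α → α) (A : List α × List α) : Option (List α × List α) :=
  (tW iota A.swap).map Prod.swap

/-- A step of the variable words: `true` is T and `false` is B. -/
def stepW (iota : α → α) (b : Bool) (A : List α × List α) : Option (List α × List α) :=
  bif b then tW iota A else bW iota A

/-- The execution of a word of moves. -/
def execW (iota : α → α) : List Bool → List α × List α → Option (List α × List α)
  | [], A => some A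
  | b :: w, A => (stepW iota b A).bind (execW iota w)

/-- The partner map is an involution without fixed token on the tokens, and every token occurs
once. -/
structure OkW (iota : α → α) (A : List α × List α) : Prop where
  /-- involution -/
  inv : ∀ x ∈ A.1 ++ A.2, iota (iota x) = x
  /-- no fixed token -/
  ne : ∀ x ∈ A.1 ++ A.2, iota x ≠ x
  /-- closed -/
  mem : ∀ x ∈ A.1 ++ A.2, iota x ∈ A.1 ++ A.2
  /-- every token occurs once -/
  nd : (A.1 ++ A.2).Nodup

/-- The step `b` from the state `A` is a same-side win: the partner of the first token of the
winning side is on the same side. -/
def Same (iota : α → α) (b : Bool) (A : List α × List α) : Prop :=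
  ∃ x P Q, (bif b then A else A.swap) = (x :: P, Q) ∧ iota x ∈ P

end Pool.Agent.QuadEq.Star
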