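import Pool.Agent.Lib.MP_b7851d_lc.Star.LiftInv
import Pool.Agent.Lib.MP_b7851d_lc.Star.Iota

/-!
# The variable words and the word form of the star model
-/

namespace Pool.Agent.QuadEq.Star

variable {α : Type*} [DecidableEq α]

/-- The token after `p`. -/
def nx : List α → α → Option α
  | [], _ => none
  | a :: l, p => if a = p then l.head? else nx l p

theorem nx_split {l : List α} {p z : α} (h : nx l p = some z) : ∃ A C, l = A ++ p :: z :: C := by
  induction l with
  | nil => simp [nx] at h
  | cons a l ih =>
    rw [nx] at h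
    by_cases ha : a = p
    · subst ha
      rw [if_pos rfl] at h
      cases l with
      | nil => simp at h
      | cons b l => rw [List.head?_cons] at h; exact ⟨[], l, by rw [Option.some.inj h]; rfl⟩
    · rw [if_neg ha] at h
      obtain ⟨A, C, rfl⟩ := ih h
      exact ⟨a :: A, C, rfl⟩

theorem nx_of_split {A C : List α} {p z : α} (h : p ∉ A) : nx (A ++ p :: z :: C) p = some z := by
  induction A with
  | nil => simp [nx]
  | cons a A ih =>
    rw [List.cons_append, nx, if_neg (fun e => h (by simp [e])),
      ih (fun e => h (List.mem_cons_of_mem _ e))]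

theorem nx_not_mem {l : List α} {p : α} (h : p ∉ l) : nx l p = none := by
  induction l with
  | nil => rfl
  | cons a l ih =>
    rw [nx, if_neg (fun e => h (by simp [e])), ih (fun e => h (List.mem_cons_of_mem _ e))]

theorem nx_mem {l : List α} {p z : α} (h : nx l p = some z) : p ∈ l ∧ z ∈ l := by
  obtain ⟨A, C, rfl⟩ := nx_split h
  simp

theorem nx_inj {l : List α} {p p' z : α} (hn : l.Nodup) (h : nx l p = some z)
    (h' : nx l p' = some z) : p = p' := by
  induction l with
  | nil => simp [nx] at h
  | cons a l ih =>
    rw [nx] at h h'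
    have hn' := List.nodup_cons.mp hn
    by_cases ha : a = p
    · by_cases ha' : a = p'
      · rw [← ha, ha']
      · rw [if_pos ha] at h
        rw [if_neg ha'] at h'
        obtain ⟨A, C, rfl⟩ := nx_split h'
        cases A with
        | nil =>
          rw [List.nil_append, List.head?_cons] at h
          have := hn'.2
          rw [Option.some.inj h] at this
          simp at this
        | cons b A =>
          rw [List.cons_append, List.head?_cons] at h
          have := hn'.2
          rw [Option.some.inj h] at this
          simp at this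
    · rw [if_neg ha] at h
      by_cases ha' : a = p'
      · rw [if_pos ha'] at h'
        obtain ⟨A, C, rfl⟩ := nx_split h
        cases A with
        | nil =>
          rw [List.nil_append, List.head?_cons] at h'
          have := hn'.2
          rw [Option.some.inj h'] at this
          simp at this
        | cons b A =>
          rw [List.cons_append, List.head?_cons] at h'
          have := hn'.2
          rw [Option.some.inj h'] at this
          simp at this
      · rw [if_neg ha'] at h'
        exact ih hn'.2 h h'

theorem nx_head {l : List α} {p x : α} (hn : (x :: l).Nodup) : nx (x :: l) p ≠ some x := by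
  intro h
  obtain ⟨A, C, h1⟩ := nx_split h
  cases A with
  | nil =>
    rw [List.nil_append] at h1
    obtain ⟨rfl, rfl⟩ := List.cons.inj h1
    simp at hn
  | cons b A =>
    rw [List.cons_append] at h1
    obtain ⟨rfl, rfl⟩ := List.cons.inj h1
    simp at hn

theorem exists_pred {l : List α} {x z : α} (hz : z ∈ x :: l) (hx : z ≠ x) (hn : (x :: l).Nodup) :
    ∃ p, nx (x :: l) p = some z := by
  have hz' : z ∈ l := by
    rcases List.mem_cons.mp hz with h | h
    · exact absurd h hx
    · exact h
  obtain ⟨A, C, rfl, _⟩ := List.eq_append_cons_of_mem hz'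
  rcases List.eq_nil_or_concat A with rfl | ⟨A, a, rfl⟩
  · exact ⟨x, by simp [nx]⟩
  · rw [List.concat_eq_append] at *
    refine ⟨a, ?_⟩
    have : x :: (A ++ [a] ++ z :: C) = (x :: A) ++ a :: z :: C := by simp
    rw [this] at hn ⊢
    refine nx_of_split (fun h => ?_)
    exact (List.nodup_append.mp hn).2.2 a h a (by simp) rfl

theorem exists_next {l : List α} {p x : α} (hp : p ∈ l) (hl : l.getLast? = some x) (hx : p ≠ x)
    (hn : l.Nodup) : ∃ z, nx l p = some z := by
  obtain ⟨A, C, rfl, hA⟩ := List.eq_append_cons_of_mem hp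
  cases C with
  | nil =>
    rw [List.getLast?_concat] at hl
    exact absurd (Option.some.inj hl) hx
  | cons z C => exact ⟨z, nx_of_split hA⟩

theorem nx_last {l : List α} {x : α} (hl : l.getLast? = some x) (hn : l.Nodup) :
    nx l x = none := by
  cases h : nx l x with
  | none => rfl
  | some z =>
    obtain ⟨A, C, rfl⟩ := nx_split h
    have h1 : (A ++ x :: z :: C) = (A ++ [x]) ++ z :: C := by simp
    rw [h1] at hl hn
    have h2 : (z :: C).getLast? = some x := by
      rw [List.getLast?_append] at hl
      cases h3 : (z :: C).getLast? with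
      | none => simp at h3
      | some y => rw [h3] at hl; simpa using hl
    exact absurd rfl ((List.nodup_append.mp hn).2.2 x (by simp) x (List.mem_of_getLast? h2))

theorem head?_insL {m v : α} (l : List α) : (insL m [v] l).head? = l.head? := by
  cases l with
  | nil => rfl
  | cons a l => rw [insL]; split <;> rfl

theorem nx_insL {m v : α} {l : List α} (hm : m ∈ l) (hv : v ∉ l) (hvm : v ≠ m) (p : α) :
    nx (insL m [v] l) p = if p = m then some v else if p = v then nx l m else nx l p := by
  induction l with
  | nil => simp at hm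
  | cons a l ih =>
    by_cases ha : a = m
    · subst ha
      rw [insL, if_pos rfl, List.cons_append, List.nil_append]
      by_cases hp : p = a
      · subst hp
        rw [nx, if_pos rfl, if_pos rfl]; rfl
      · rw [nx, if_neg (fun e => hp e.symm), if_neg hp]
        by_cases hpv : p = v
        · subst hpv
          rw [nx, if_pos rfl, if_pos rfl, nx, if_pos rfl]
        · rw [nx, if_neg (fun e => hpv e.symm), if_neg hpv, nx, if_neg (fun e => hp e.symm)]
    · have hm' : m ∈ l := by
        rcases List.mem_cons.mp hm with h | h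
        · exact absurd h.symm ha
        · exact h
      have hv' : v ∉ l := fun h => hv (List.mem_cons_of_mem _ h)
      have hva : v ≠ a := fun h => hv (by simp [h])
      rw [insL, if_neg ha, nx]
      by_cases hp : a = p
      · subst hp
        rw [if_pos rfl, if_neg ha, if_neg (fun e => hva e.symm), head?_insL, nx, if_pos rfl]
      · rw [if_neg hp, ih hm' hv']
        by_cases hpm : p = m
        · rw [if_pos hpm, if_pos hpm]
        · rw [if_neg hpm, if_neg hpm, nx, if_neg ha, nx, if_neg hp]

/-- The token `z` is the successor of the token `p`. -/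
def Nx (S : St α) (p z : α) : Prop := nx S.P p = some z ∨ nx S.Q p = some z

theorem Nx.swap {lam : α → α} {S : St α} {p z : α} : Nx (S.swap lam) p z ↔ Nx S p z := or_comm

theorem Nx.mem {S : St α} {p z : α} (h : Nx S p z) : p ∈ S.P ++ S.Q ∧ z ∈ S.P ++ S.Q := by
  rcases h with h | h
  · exact ⟨List.mem_append_left _ (nx_mem h).1, List.mem_append_left _ (nx_mem h).2⟩
  · exact ⟨List.mem_append_right _ (nx_mem h).1, List.mem_append_right _ (nx_mem h).2⟩

theorem Nx.inj {S : St α} (hn : (S.P ++ S.Q).Nodup) {p p' z : α} (h : Nx S p z) (h' : Nx S p' z) :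
    p = p' := by
  rw [List.nodup_append] at hn
  rcases h with h | h
  · rcases h' with h' | h'
    · exact nx_inj hn.1 h h'
    · exact absurd rfl (hn.2.2 _ (nx_mem h).2 _ (nx_mem h').2)
  · rcases h' with h' | h'
    · exact absurd rfl (hn.2.2 _ (nx_mem h').2 _ (nx_mem h).2)
    · exact nx_inj hn.2.1 h h'

theorem Nx.unique {S : St α} (hn : (S.P ++ S.Q).Nodup) {p z z' : α} (h : Nx S p z)
    (h' : Nx S p z') : z = z' := by
  rw [List.nodup_append] at hn
  rcases h with h | h
  · rcases h' with h' | h'
    · exact Option.some.inj (h.symm.trans h')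
    · exact absurd rfl (hn.2.2 _ (nx_mem h).1 _ (nx_mem h').1)
  · rcases h' with h' | h'
    · exact absurd rfl (hn.2.2 _ (nx_mem h').1 _ (nx_mem h).1)
    · exact Option.some.inj (h.symm.trans h')

/-- The pairings `lam` of the gaps and `iota` of the tokens belong together. -/
structure Compat (lam iota : α → α) (S : St α) : Prop where
  /-- ordinary gaps -/
  c1 : ∀ p z, p ≠ S.m → p ≠ lam S.m → Nx S p z → Nx S (lam p) (iota z)
  /-- the top pointer is the gap before the partner of the first token of the top word -/
  c2 : ∃ x, S.P.head? = some x ∧ Nx S S.m (iota x)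
  /-- the bottom pointer is the gap before the partner of the first token of the bottom word -/
  c3 : ∃ y, S.Q.head? = some y ∧ Nx S (lam S.m) (iota y)

variable {lam iota : α → α} {e f : α}

theorem Compat.swap {S : St α} (hS : Ok lam e f S) (h : Compat lam iota S) :
    Compat lam iota (S.swap lam) := by
  obtain ⟨x, hx, hx'⟩ := h.c2
  obtain ⟨y, hy, hy'⟩ := h.c3
  refine ⟨fun p z h1 h2 h3 => Nx.swap.mpr (h.c1 p z ?_ h1 (Nx.swap.mp h3)),
    ⟨y, hy, Nx.swap.mpr hy'⟩, ⟨x, hx, Nx.swap.mpr ?_⟩⟩
  · intro h4
    apply h2
    unfold St.swap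
    simp only
    rw [hS.inv _ hS.pm, h4]
  · unfold St.swap
    simp only
    rw [hS.inv _ hS.pm]
    exact hx'

/-- The successors after a T step. -/
theorem nx_tS {S S' : St α} (hS : Ok lam e f S) (h : tS S = some S') {x : α}
    (hx : Nx S S.m (iota x)) (p z : α) : Nx S' p z ↔
      (p = S.m ∧ z = S'.m) ∨ (p = S'.m ∧ z = iota x) ∨ (p ≠ S.m ∧ p ≠ S'.m ∧ Nx S p z) := by
  obtain ⟨v, Q, h1, h2, h3, rfl⟩ := tS_eq_some.mp h
  obtain ⟨P, Q0, m⟩ := S
  simp only at h1 h2 hx ⊢
  subst h1
  have hn := hS.nd
  simp only at hn
  have hvP : v ∉ P := fun hm => (List.nodup_append.mp hn).2.2 v hm v (by simp) rfl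
  have hvQ : v ∉ Q := (List.nodup_cons.mp (List.nodup_append.mp hn).2.1).1
  have hpm := hS.pm
  simp only [List.mem_append, List.mem_cons] at hpm
  have hQv : ∀ p, p ≠ v → nx (v :: Q) p = nx Q p := fun p hp => by
    rw [nx, if_neg (fun e => hp e.symm)]
  unfold Nx at hx ⊢
  simp only at hx ⊢
  rw [hQv m (fun e => h2 e.symm)] at hx
  rcases hpm with hm | hm | hm
  · have hmQ : m ∉ Q := fun h => (List.nodup_append.mp hn).2.2 m hm m (by simp [h]) rfl
    rw [nx_insL hm hvP h2, insL_not_mem _ hmQ]
    rw [nx_not_mem hmQ] at hx
    have hx' : nx P m = some (iota x) := by simpa using hx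
    by_cases hp : p = m
    · subst hp
      rw [if_pos rfl, nx_not_mem hmQ]
      simp only [reduceCtorEq, or_false, ne_eq, not_true_eq_false, false_and, true_and]
      constructor
      · intro h; exact Or.inl (Option.some.inj h).symm
      · rintro (h | ⟨h, _⟩)
        · rw [h]
        · exact absurd h.symm h2
    · rw [if_neg hp]
      by_cases hpv : p = v
      · subst hpv
        rw [if_pos rfl, nx_not_mem hvQ, hx']
        simp only [reduceCtorEq, or_false, hp, false_and, true_and, false_or, ne_eq,
          not_false_eq_true, not_true_eq_false, Option.some.injEq]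
        exact eq_comm
      · rw [if_neg hpv, hQv p hpv]
        simp [hp, hpv]
  · exact absurd hm.symm h2
  · have hmP : m ∉ P := fun h => (List.nodup_append.mp hn).2.2 m h m (by simp [hm]) rfl
    rw [nx_insL hm hvQ h2, insL_not_mem _ hmP]
    rw [nx_not_mem hmP] at hx
    have hx' : nx Q m = some (iota x) := by simpa using hx
    by_cases hp : p = m
    · subst hp
      rw [if_pos rfl, nx_not_mem hmP]
      simp only [reduceCtorEq, false_or, ne_eq, not_true_eq_false, false_and, true_and]
      constructor
      · intro h; exact Or.inl (Option.some.inj h).symm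
      · rintro (h | ⟨h, _⟩ | h)
        · rw [h]
        · exact absurd h.symm h2
        · exact h.elim
    · rw [if_neg hp]
      by_cases hpv : p = v
      · subst hpv
        rw [if_pos rfl, nx_not_mem hvP, hx']
        simp only [reduceCtorEq, false_or, hp, false_and, true_and, ne_eq,
          not_false_eq_true, not_true_eq_false, Option.some.injEq]
        constructor
        · intro h; exact Or.inl h.symm
        · rintro (h | h)
          · exact h.symm
          · exact h.elim
      · rw [if_neg hpv, hQv p hpv]
        simp [hp, hpv]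

theorem insL_eq_insB {m u v : α} {l : List α} (hn : l.Nodup) (h : nx l m = some u) :
    insL m [v] l = insB u v l := by
  obtain ⟨A, C, rfl⟩ := nx_split h
  have h1 : m ∉ A := fun h => (List.nodup_append.mp hn).2.2 m h m (by simp) rfl
  have h2 : ∀ B : List α, u ∉ B → insB u v (B ++ u :: C) = B ++ v :: u :: C := by
    intro B hB
    induction B with
    | nil => simp [insB]
    | cons b B ih =>
      rw [List.cons_append, insB, if_neg (fun e => hB (by simp [e])),
        ih (fun e => hB (List.mem_cons_of_mem _ e)), List.cons_append]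
  have h3 : A ++ m :: u :: C = (A ++ [m]) ++ u :: C := by simp
  rw [insL_split _ h1, h3, h2]
  · simp
  · rw [h3] at hn
    exact fun h => (List.nodup_append.mp hn).2.2 u h u (by simp) rfl

theorem insB_not_mem {u v : α} {l : List α} (h : u ∉ l) : insB u v l = l := by
  induction l with
  | nil => rfl
  | cons a l ih =>
    rw [insB, if_neg (fun e => h (by simp [e])), ih (fun e => h (List.mem_cons_of_mem _ e))]

theorem insL_eq_insB' {S : St α} (hn : (S.P ++ S.Q).Nodup) {u v : α} (h : Nx S S.m u) :
    insL S.m [v] S.P = insB u v S.P ∧ insL S.m [v] S.Q = insB u v S.Q := by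
  rw [List.nodup_append] at hn
  rcases h with h | h
  · refine ⟨insL_eq_insB hn.1 h, ?_⟩
    rw [insL_not_mem _ (fun h' => hn.2.2 _ (nx_mem h).1 _ h' rfl),
      insB_not_mem (fun h' => hn.2.2 _ (nx_mem h).2 _ h' rfl)]
  · refine ⟨?_, insL_eq_insB hn.2.1 h⟩
    rw [insL_not_mem _ (fun h' => hn.2.2 _ h' _ (nx_mem h).1 rfl),
      insB_not_mem (fun h' => hn.2.2 _ h' _ (nx_mem h).2 rfl)]

/-- A T step of the word form is a T step of the variable words. -/
theorem tW_of_tS {S S' : St α} (hS : Ok lam e f S) (hC : Compat lam iota S)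
    (hI : OkW iota (S.P, S.Q)) (h : tS S = some S') : tW iota (S.P, S.Q) = some (S'.P, S'.Q) := by
  obtain ⟨x, hx, hx'⟩ := hC.c2
  obtain ⟨v, Q, h1, h2, h3, rfl⟩ := tS_eq_some.mp h
  obtain ⟨SP, SQ, m⟩ := S
  simp only at h1 h2 hx hx' hI ⊢
  subst h1
  obtain ⟨P, rfl⟩ : ∃ P, SP = x :: P := by
    cases SP with
    | nil => simp at hx
    | cons a P => rw [List.head?_cons] at hx; exact ⟨P, by rw [Option.some.inj hx]⟩
  have hn := hS.nd
  simp only at hn
  have hv : v ≠ iota x := by
    intro hv
    rcases hx' with h | h
    · exact (List.nodup_append.mp hn).2.2 _ (nx_mem h).2 v (by simp) hv.symm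
    · rw [← hv] at h
      exact nx_head (List.nodup_append.mp hn).2.1 h
  have hxx : iota x ≠ x := hI.ne x (by simp)
  have h4 := insL_eq_insB' (v := v) hS.nd hx'
  simp only at h4
  unfold tW
  simp only
  rw [if_neg (not_or.mpr ⟨hv, h3⟩), h4.1]
  have h5 : insB (iota x) v (x :: P) = x :: insB (iota x) v P := by
    rw [insB, if_neg (fun e => hxx e.symm)]
  have h6 : insL m [v] (v :: Q) = v :: insL m [v] Q := by rw [insL, if_neg h2]
  have h7 : insB (iota x) v (v :: Q) = v :: insB (iota x) v Q := by rw [insB, if_neg hv]
  rw [h5]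
  have h8 := h4.2
  rw [h6, h7] at h8
  rw [(List.cons.inj h8).2]

/-- The compatibility is preserved by a T step. -/
theorem Compat.tS {S S' : St α} (hS : Ok lam e f S) (hC : Compat lam iota S)
    (hI : OkW iota (S.P, S.Q)) (h : tS S = some S') : Compat lam iota S' := by
  have hS' := tS_ok h hS
  obtain ⟨x, hx, hx'⟩ := hC.c2
  obtain ⟨y, hy, hy'⟩ := hC.c3
  have hN := nx_tS hS h hx'
  obtain ⟨v, Q, h1, h2, h3, h4⟩ := tS_eq_some.mp h
  have hv : S'.m = v := by rw [h4]
  have hyv : y = v := by rw [h1] at hy; exact (Option.some.inj hy).symm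
  have hvt : v ∈ S.P ++ S.Q := by rw [h1]; simp
  have hlv : lam v ≠ v := hS.ne v hvt
  have hlm : lam S.m ≠ S.m := hS.ne _ hS.pm
  have hllm : lam (lam S.m) = S.m := hS.inv _ hS.pm
  have hllv : lam (lam v) = v := hS.inv v hvt
  rw [hv] at hN
  subst hyv
  -- the successor of `y` in the old state is the new first token
  obtain ⟨y', hy1⟩ : ∃ y', Q.head? = some y' := by
    cases Q with
    | nil => exact absurd rfl h3
    | cons a Q => exact ⟨a, rfl⟩
  have hyy' : Nx S y y' := Or.inr (by rw [h1, nx, if_pos rfl, hy1])
  have hhead : S'.Q.head? = some y' := by rw [h4]; simp only; rw [head?_insL, hy1]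
  have hheadP : S'.P.head? = some x := by rw [h4]; simp only; rw [head?_insL, hx]
  have hiy : iota (iota y) = y := hI.inv y hvt
  refine ⟨fun p z hp1 hp2 hz => ?_, ⟨x, hheadP, ?_⟩, ⟨y', hhead, ?_⟩⟩
  · rw [hv] at hp1 hp2
    rcases (hN p z).mp hz with ⟨rfl, rfl⟩ | ⟨rfl, _⟩ | ⟨h5, h6, h7⟩
    · -- p = S.m
      refine (hN _ _).mpr (Or.inr (Or.inr ⟨hlm, ?_, hy'⟩))
      intro h8
      apply hp2
      rw [← h8, hllm]
    · exact absurd rfl hp1
    · by_cases h8 : p = lam S.m
      · subst h8
        rw [hllm]
        have : z = iota y := Nx.unique hS.nd h7 hy'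
        rw [this, hiy]
        exact (hN _ _).mpr (Or.inl ⟨rfl, rfl⟩)
      · refine (hN _ _).mpr (Or.inr (Or.inr ⟨?_, ?_, hC.c1 p z h5 h8 h7⟩))
        · intro h9
          apply h8
          rw [← h9, hS.inv p h7.mem.1]
        · intro h9
          apply hp2
          rw [← h9, hS.inv p h7.mem.1]
  · rw [hv]
    exact (hN _ _).mpr (Or.inr (Or.inl ⟨rfl, rfl⟩))
  · rw [hv]
    by_cases h8 : y = lam S.m
    · have h9 : lam y = S.m := by rw [h8, hllm]
      rw [h9]
      have h10 : Nx S y (iota y) := by
        have := hy'
        rwa [← h8] at this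
      have : y' = iota y := Nx.unique hS.nd hyy' h10
      rw [this, hiy]
      exact (hN _ _).mpr (Or.inl ⟨rfl, rfl⟩)
    · refine (hN _ _).mpr (Or.inr (Or.inr ⟨?_, hlv, hC.c1 y y' h2 h8 hyy'⟩))
      intro h9
      apply h8
      rw [← h9, hllv]

theorem OkW.of_perm {A B : List α × List α} (h : OkW iota A)
    (hp : List.Perm (B.1 ++ B.2) (A.1 ++ A.2)) : OkW iota B :=
  ⟨fun x hx => h.inv x (hp.mem_iff.mp hx), fun x hx => h.ne x (hp.mem_iff.mp hx),
    fun x hx => hp.mem_iff.mpr (h.mem x (hp.mem_iff.mp hx)), hp.nodup_iff.mpr h.nd⟩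

theorem OkW.swap {A : List α × List α} (h : OkW iota A) : OkW iota A.swap :=
  h.of_perm List.perm_append_comm

/-- The state belongs to the variable words. -/
structure Good (lam iota : α → α) (e f : α) (S : St α) : Prop where
  /-- the conditions on the state -/
  ok : Ok lam e f S
  /-- the conditions on the variable words -/
  okW : OkW iota (S.P, S.Q)
  /-- the compatibility -/
  compat : Compat lam iota S

theorem Good.swap {S : St α} (h : Good lam iota e f S) : Good lam iota f e (S.swap lam) :=
  ⟨h.ok.swap, h.okW.swap, h.compat.swap h.ok⟩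

theorem Good.tS {S S' : St α} (h : Good lam iota e f S) (hs : Star.tS S = some S') :
    Good lam iota e f S' :=
  ⟨tS_ok hs h.ok, h.okW.of_perm ((trun_of_tS hs).perm h.ok.pm h.ok.nd),
    h.compat.tS h.ok h.okW hs⟩

/-- Steps of the word form are steps of the variable words. -/
theorem Good.step {b : Bool} {S S' : St α} (h : Good lam iota e f S)
    (hs : step lam b S = some S') :
    Good lam iota e f S' ∧ stepW iota b (S.P, S.Q) = some (S'.P, S'.Q) := by
  cases b with
  | true => exact ⟨h.tS hs, tW_of_tS h.ok h.compat h.okW hs⟩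
  | false =>
    obtain ⟨h1, h2, h3⟩ := (bS_eq_some h.ok).mp hs
    refine ⟨?_, ?_⟩
    · have := (h.swap.tS h2).swap
      rwa [h3] at this
    · have := tW_of_tS h.swap.ok h.swap.compat h.swap.okW h2
      unfold stepW bW
      simp only [cond_false]
      have e1 : (S.P, S.Q).swap = ((S.swap lam).P, (S.swap lam).Q) := rfl
      rw [e1, this]
      rfl

theorem Good.exec {w : List Bool} {S S' : St α} (h : Good lam iota e f S)
    (hs : exec lam w S = some S') :
    Good lam iota e f S' ∧ execW iota w (S.P, S.Q) = some (S'.P, S'.Q) := by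
  induction w generalizing S with
  | nil => rw [← Option.some.inj hs]; exact ⟨h, rfl⟩
  | cons b w ih =>
    rw [Star.exec] at hs
    obtain ⟨S₁, h1, h2⟩ := Option.bind_eq_some_iff.mp hs
    obtain ⟨h3, h4⟩ := h.step h1
    obtain ⟨h5, h6⟩ := ih h3 h2
    exact ⟨h5, by rw [execW, h4]; exact h6⟩

/-- T steps of the variable words are T steps of the word form, or trivial. -/
theorem tS_of_tW {S : St α} (h : Good lam iota e f S) {B : List α × List α}
    (hs : tW iota (S.P, S.Q) = some B) : B = (S.P, S.Q) ∨
      ∃ S', tS S = some S' ∧ B = (S'.P, S'.Q) := by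
  obtain ⟨x, hx, hx'⟩ := h.compat.c2
  have hS := h.ok
  have hn := hS.nd
  have hI := h.okW
  obtain ⟨SP, SQ, m⟩ := S
  simp only at hx hx' hn hs hI ⊢
  cases SP with
  | nil => simp at hx
  | cons a P =>
    rw [List.head?_cons] at hx
    obtain rfl := Option.some.inj hx
    cases SQ with
    | nil => simp [tW] at hs
    | cons v Q =>
      unfold tW at hs
      simp only at hs
      split at hs
      · simp at hs
      · rename_i hc
        rw [not_or] at hc
        have hs := (Option.some.inj hs).symm
        by_cases hvm : v = m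
        · left
          subst hvm
          have hvP : v ∉ a :: P := fun hm => (List.nodup_append.mp hn).2.2 v hm v (by simp) rfl
          have h1 : nx (v :: Q) v = some (iota a) := by
            rcases hx' with h | h
            · rw [nx_not_mem hvP] at h; simp at h
            · exact h
          rw [nx, if_pos rfl] at h1
          cases Q with
          | nil => simp at h1
          | cons q Q =>
            rw [List.head?_cons] at h1
            obtain rfl := Option.some.inj h1
            have h2 : iota a ∉ P := fun hm => by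
              have := (List.nodup_append.mp hn).2.2 (iota a) (by simp [hm]) (iota a) (by simp)
              exact this rfl
            rw [hs, insB_not_mem h2, insB, if_pos rfl]
        · right
          have ht : tS ⟨a :: P, v :: Q, m⟩ =
              some ⟨insL m [v] (a :: P), insL m [v] Q, v⟩ := by
            unfold tS
            simp only
            rw [if_neg (not_or.mpr ⟨hvm, hc.2⟩)]
          refine ⟨_, ht, ?_⟩
          have := tW_of_tS hS h.compat hI ht
          unfold tW at this
          simp only at this
          rw [if_neg (not_or.mpr ⟨hc.1, hc.2⟩)] at this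
          rw [hs]
          exact Option.some.inj this

theorem step_of_stepW {b : Bool} {S : St α} (h : Good lam iota e f S) {B : List α × List α}
    (hs : stepW iota b (S.P, S.Q) = some B) : B = (S.P, S.Q) ∨
      ∃ S', step lam b S = some S' ∧ B = (S'.P, S'.Q) := by
  cases b with
  | true => exact tS_of_tW h hs
  | false =>
    unfold stepW bW at hs
    simp only [cond_false] at hs
    obtain ⟨B', h1, rfl⟩ := Option.map_eq_some_iff.mp hs
    have e1 : (S.P, S.Q).swap = ((S.swap lam).P, (S.swap lam).Q) := rfl
    rw [e1] at h1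
    rcases tS_of_tW h.swap h1 with h2 | ⟨S', h2, h3⟩
    · left
      rw [h2]; rfl
    · right
      refine ⟨S'.swap lam, ?_, by rw [h3]; rfl⟩
      unfold step bS
      simp only [cond_false]
      rw [h2]; rfl

/-- A path of the variable words is a path of the word form. -/
theorem exec_of_execW {w : List Bool} {S : St α} (h : Good lam iota e f S) {B : List α × List α}
    (hs : execW iota w (S.P, S.Q) = some B) :
    ∃ w' S', List.Sublist w' w ∧ exec lam w' S = some S' ∧ B = (S'.P, S'.Q) := by
  induction w generalizing S with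
  | nil => exact ⟨[], S, List.Sublist.slnil, rfl, (Option.some.inj hs).symm⟩
  | cons b w ih =>
    rw [execW] at hs
    obtain ⟨A, h1, h2⟩ := Option.bind_eq_some_iff.mp hs
    rcases step_of_stepW h h1 with h3 | ⟨S₁, h3, h4⟩
    · rw [h3] at h2
      obtain ⟨w', S', h5, h6, h7⟩ := ih h h2
      exact ⟨w', S', h5.cons b, h6, h7⟩
    · rw [h4] at h2
      obtain ⟨w', S', h5, h6, h7⟩ := ih (h.step h3).1 h2
      refine ⟨b :: w', S', h5.cons_cons b, ?_, h7⟩
      rw [Star.exec, h3]
      exact h6

end Pool.Agent.QuadEq.Star
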