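import Pool.Agent.Lib.MP_b7851d_lc.Star.LiftInv

/-!
# The labelled class of a state

`GR e f S x y` says that `y` is the successor of `x` for the permutation `g = sigma (f m)` of the
state `S`.  The relation is unchanged by T steps, and the relation of the mirror image is unchanged
by B steps.  `Link lam e f io S` says that `io (g x) = g (lam x)`; it is preserved by all steps.
-/

namespace Pool.Agent.QuadEq.Star

variable {α : Type*}

/-! ### Neighbours in a word -/

/-- `y` stands right after `x` in the word. -/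
def Adj : List α → α → α → Prop
  | [], _, _ => False
  | a :: l, x, y => (x = a ∧ l.head? = some y) ∨ Adj l x y

theorem Adj.left {l : List α} {x y : α} (h : Adj l x y) : x ∈ l := by
  induction l with
  | nil => exact h.elim
  | cons a l ih =>
    rcases h with ⟨rfl, _⟩ | h
    · simp
    · exact List.mem_cons_of_mem _ (ih h)

theorem Adj.right {l : List α} {x y : α} (h : Adj l x y) : y ∈ l := by
  induction l with
  | nil => exact h.elim
  | cons a l ih =>
    rcases h with ⟨_, h⟩ | h
    · exact List.mem_cons_of_mem _ (List.mem_of_head? h)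
    · exact List.mem_cons_of_mem _ (ih h)

theorem adj_append {A B : List α} {x y : α} : Adj (A ++ B) x y ↔
    Adj A x y ∨ (A.getLast? = some x ∧ B.head? = some y) ∨ Adj B x y := by
  induction A with
  | nil => simp [Adj]
  | cons a A ih =>
    rw [List.cons_append, Adj, Adj, ih]
    cases A with
    | nil => simp [Adj, eq_comm]
    | cons c A => simp [or_assoc]

theorem adj_iff {l : List α} {x y : α} : Adj l x y ↔ ∃ A B, l = A ++ x :: y :: B := by
  constructor
  · intro h
    induction l with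
    | nil => exact h.elim
    | cons a l ih =>
      rcases h with ⟨rfl, h⟩ | h
      · cases l with
        | nil => simp at h
        | cons c l =>
          simp at h
          subst h
          exact ⟨[], l, rfl⟩
      · obtain ⟨A, B, rfl⟩ := ih h
        exact ⟨a :: A, B, rfl⟩
  · rintro ⟨A, B, rfl⟩
    rw [adj_append]
    right; right
    simp [Adj]

theorem split_unique {A B A' B' : List α} {x : α} (hn : (A ++ x :: B).Nodup)
    (h : A ++ x :: B = A' ++ x :: B') : A = A' ∧ B = B' := by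
  induction A generalizing A' with
  | nil =>
    cases A' with
    | nil => simpa using h
    | cons a A' =>
      simp only [List.nil_append, List.cons_append, List.cons.injEq] at h
      obtain ⟨rfl, rfl⟩ := h
      simp at hn
  | cons a A ih =>
    cases A' with
    | nil =>
      simp only [List.nil_append, List.cons_append, List.cons.injEq] at h
      obtain ⟨rfl, rfl⟩ := h
      simp at hn
    | cons a' A' =>
      simp only [List.cons_append, List.cons.injEq] at h
      obtain ⟨rfl, h⟩ := h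
      rw [List.cons_append] at hn
      obtain ⟨rfl, rfl⟩ := ih (List.nodup_cons.mp hn).2 h
      exact ⟨rfl, rfl⟩

theorem Adj.unique {l : List α} {x y y' : α} (hn : l.Nodup) (h : Adj l x y) (h' : Adj l x y') :
    y = y' := by
  obtain ⟨A, B, rfl⟩ := adj_iff.mp h
  obtain ⟨A', B', h2⟩ := adj_iff.mp h'
  obtain ⟨_, h3⟩ := split_unique hn h2
  exact (List.cons.inj h3).1

theorem Adj.unique_left {l : List α} {x x' y : α} (hn : l.Nodup) (h : Adj l x y)
    (h' : Adj l x' y) : x = x' := by
  obtain ⟨A, B, rfl⟩ := adj_iff.mp h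
  obtain ⟨A', B', h2⟩ := adj_iff.mp h'
  have e1 : A ++ x :: y :: B = (A ++ [x]) ++ y :: B := by simp
  have e2 : A' ++ x' :: y :: B' = (A' ++ [x']) ++ y :: B' := by simp
  rw [e1] at hn h2
  rw [e2] at h2
  obtain ⟨h3, _⟩ := split_unique hn h2
  have := congrArg List.getLast? h3
  simpa using this

theorem adj_of_mem {l : List α} {x : α} (h : x ∈ l) (hx : l.getLast? ≠ some x) :
    ∃ y, Adj l x y := by
  obtain ⟨A, B, rfl⟩ := List.append_of_mem h
  cases B with
  | nil => exact absurd (List.getLast?_concat) hx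
  | cons y B => exact ⟨y, adj_iff.mpr ⟨A, B, rfl⟩⟩

theorem adj_of_mem_right {l : List α} {y : α} (h : y ∈ l) (hy : l.head? ≠ some y) :
    ∃ x, Adj l x y := by
  obtain ⟨A, B, rfl⟩ := List.append_of_mem h
  rcases List.eq_nil_or_concat A with rfl | ⟨C, c, rfl⟩
  · exact absurd rfl hy
  · refine ⟨c, adj_iff.mpr ⟨C, B, ?_⟩⟩
    rw [List.concat_eq_append]
    simp

theorem not_adj_last {l : List α} {x y : α} (hn : l.Nodup) (h : l.getLast? = some x) :
    ¬ Adj l x y := by
  intro h'
  obtain ⟨A, B, rfl⟩ := adj_iff.mp h'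
  have h2 : x ∈ y :: B := by
    have h3 : (A ++ x :: y :: B).getLast? = (y :: B).getLast? := by
      rw [List.getLast?_append]
      simp [List.getLast?_cons]
    rw [h3] at h
    exact List.mem_of_getLast? h
  have := (List.nodup_append.mp hn).2.1
  exact (List.nodup_cons.mp this).1 h2

theorem not_adj_head {l : List α} {x y : α} (hn : l.Nodup) (h : l.head? = some y) :
    ¬ Adj l x y := by
  intro h'
  obtain ⟨A, B, rfl⟩ := adj_iff.mp h'
  cases A with
  | nil =>
    simp at h
    subst h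
    simp at hn
  | cons a A =>
    simp at h
    subst h
    simp at hn

theorem adj_split {A B : List α} {m y : α} (hn : (A ++ m :: B).Nodup) :
    Adj (A ++ m :: B) m y ↔ B.head? = some y := by
  constructor
  · intro h
    obtain ⟨A', B', h2⟩ := adj_iff.mp h
    obtain ⟨_, rfl⟩ := split_unique hn h2
    rfl
  · intro h
    cases B with
    | nil => simp at h
    | cons c B =>
      simp at h
      subst h
      exact adj_iff.mpr ⟨A, B, rfl⟩

/-! ### The successor relation of a state -/

variable {lam : α → α} {e f : α}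

/-- The graph of the permutation `g`. -/
def GR (e f : α) (S : St α) (x y : α) : Prop :=
  (x ≠ S.m ∧ (Adj S.P x y ∨ Adj S.Q x y)) ∨ (x = e ∧ S.P.head? = some y) ∨
    (x = S.m ∧ S.Q.head? = some y) ∨ (x = f ∧ (Adj S.P S.m y ∨ Adj S.Q S.m y))

theorem Ok.ndP {S : St α} (h : Ok lam e f S) : S.P.Nodup := (List.nodup_append.mp h.nd).1

theorem Ok.ndQ {S : St α} (h : Ok lam e f S) : S.Q.Nodup := (List.nodup_append.mp h.nd).2.1

theorem Ok.disj {S : St α} (h : Ok lam e f S) {x : α} (hP : x ∈ S.P) (hQ : x ∈ S.Q) : False :=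
  (List.nodup_append.mp h.nd).2.2 x hP x hQ rfl

theorem Ok.eP {S : St α} (h : Ok lam e f S) : e ∈ S.P := List.mem_of_getLast? h.le

theorem Ok.fQ {S : St α} (h : Ok lam e f S) : f ∈ S.Q := List.mem_of_getLast? h.lf

theorem Ok.eQ {S : St α} (h : Ok lam e f S) : e ∉ S.Q := fun h' => h.disj h.eP h'

theorem Ok.fP {S : St α} (h : Ok lam e f S) : f ∉ S.P := fun h' => h.disj h' h.fQ

theorem Ok.ef {S : St α} (h : Ok lam e f S) : e ≠ f := fun h' => h.eQ (h' ▸ h.fQ)

theorem Ok.adjP_e {S : St α} (h : Ok lam e f S) {y : α} : ¬ Adj S.P e y :=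
  not_adj_last h.ndP h.le

theorem Ok.adjQ_f {S : St α} (h : Ok lam e f S) {y : α} : ¬ Adj S.Q f y :=
  not_adj_last h.ndQ h.lf

/-- The union of the neighbour relations of the two words. -/
def AdjS (S : St α) (x y : α) : Prop := Adj S.P x y ∨ Adj S.Q x y

theorem AdjS.unique {S : St α} (hS : Ok lam e f S) {x y y' : α} (h : AdjS S x y)
    (h' : AdjS S x y') : y = y' := by
  rcases h with h | h <;> rcases h' with h' | h'
  · exact h.unique hS.ndP h'
  · exact (hS.disj h.left h'.left).elim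
  · exact (hS.disj h'.left h.left).elim
  · exact h.unique hS.ndQ h'

theorem AdjS.unique_left {S : St α} (hS : Ok lam e f S) {x x' y : α} (h : AdjS S x y)
    (h' : AdjS S x' y) : x = x' := by
  rcases h with h | h <;> rcases h' with h' | h'
  · exact h.unique_left hS.ndP h'
  · exact (hS.disj h.right h'.right).elim
  · exact (hS.disj h'.right h.right).elim
  · exact h.unique_left hS.ndQ h'

theorem AdjS.left {S : St α} {x y : α} (h : AdjS S x y) : x ∈ S.P ++ S.Q :=
  List.mem_append.mpr (h.imp (fun h => h.left) (fun h => h.left))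

theorem AdjS.right {S : St α} {x y : α} (h : AdjS S x y) : y ∈ S.P ++ S.Q :=
  List.mem_append.mpr (h.imp (fun h => h.right) (fun h => h.right))

theorem AdjS.ne_e {S : St α} (hS : Ok lam e f S) {x y : α} (h : AdjS S x y) : x ≠ e := by
  rintro rfl
  rcases h with h | h
  · exact hS.adjP_e h
  · exact hS.eQ h.left

theorem AdjS.ne_f {S : St α} (hS : Ok lam e f S) {x y : α} (h : AdjS S x y) : x ≠ f := by
  rintro rfl
  rcases h with h | h
  · exact hS.fP h.left
  · exact hS.adjQ_f h

theorem AdjS.not_headP {S : St α} (hS : Ok lam e f S) {x y : α} (h : AdjS S x y)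
    (hy : S.P.head? = some y) : False := by
  rcases h with h | h
  · exact not_adj_head hS.ndP hy h
  · exact hS.disj (List.mem_of_head? hy) h.right

theorem AdjS.not_headQ {S : St α} (hS : Ok lam e f S) {x y : α} (h : AdjS S x y)
    (hy : S.Q.head? = some y) : False := by
  rcases h with h | h
  · exact hS.disj h.right (List.mem_of_head? hy)
  · exact not_adj_head hS.ndQ hy h

theorem AdjS.total {S : St α} (hS : Ok lam e f S) {x : α} (hx : x ∈ S.P ++ S.Q) (he : x ≠ e)
    (hf : x ≠ f) : ∃ y, AdjS S x y := by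
  rcases List.mem_append.mp hx with h | h
  · obtain ⟨y, hy⟩ := adj_of_mem h (by rw [hS.le]; simpa using he.symm)
    exact ⟨y, Or.inl hy⟩
  · obtain ⟨y, hy⟩ := adj_of_mem h (by rw [hS.lf]; simpa using hf.symm)
    exact ⟨y, Or.inr hy⟩

theorem gr_iff {S : St α} {x y : α} : GR e f S x y ↔ (x ≠ S.m ∧ AdjS S x y) ∨
    (x = e ∧ S.P.head? = some y) ∨ (x = S.m ∧ S.Q.head? = some y) ∨ (x = f ∧ AdjS S S.m y) :=
  Iff.rfl

theorem GR.unique {S : St α} (hS : Ok lam e f S) {x y y' : α} (h : GR e f S x y)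
    (h' : GR e f S x y') : y = y' := by
  have hpe := hS.pe
  have hpf := hS.pf
  have hef := hS.ef
  rcases gr_iff.mp h with ⟨h1, h2⟩ | ⟨h1, h2⟩ | ⟨h1, h2⟩ | ⟨h1, h2⟩ <;>
    rcases gr_iff.mp h' with ⟨h3, h4⟩ | ⟨h3, h4⟩ | ⟨h3, h4⟩ | ⟨h3, h4⟩
  · exact h2.unique hS h4
  · exact absurd h3 (h2.ne_e hS)
  · exact absurd h3 h1
  · exact absurd h3 (h2.ne_f hS)
  · exact absurd h1 (h4.ne_e hS)
  · exact Option.some.inj (h2.symm.trans h4)
  · exact absurd (h3.symm.trans h1) hpe
  · exact absurd (h1.symm.trans h3) hef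
  · exact absurd h1 h3
  · exact absurd (h1.symm.trans h3) hpe
  · exact Option.some.inj (h2.symm.trans h4)
  · exact absurd (h1.symm.trans h3) hpf
  · exact absurd h1 (h4.ne_f hS)
  · exact absurd (h3.symm.trans h1) hef
  · exact absurd (h3.symm.trans h1) hpf
  · exact h2.unique hS h4

theorem GR.inj {S : St α} (hS : Ok lam e f S) {x x' y : α} (h : GR e f S x y)
    (h' : GR e f S x' y) : x = x' := by
  rcases gr_iff.mp h with ⟨h1, h2⟩ | ⟨h1, h2⟩ | ⟨h1, h2⟩ | ⟨h1, h2⟩ <;>
    rcases gr_iff.mp h' with ⟨h3, h4⟩ | ⟨h3, h4⟩ | ⟨h3, h4⟩ | ⟨h3, h4⟩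
  · exact h2.unique_left hS h4
  · exact (h2.not_headP hS h4).elim
  · exact (h2.not_headQ hS h4).elim
  · exact absurd (h2.unique_left hS h4) h1
  · exact (h4.not_headP hS h2).elim
  · exact h1.trans h3.symm
  · exact (hS.disj (List.mem_of_head? h2) (List.mem_of_head? h4)).elim
  · exact (h4.not_headP hS h2).elim
  · exact (h4.not_headQ hS h2).elim
  · exact (hS.disj (List.mem_of_head? h4) (List.mem_of_head? h2)).elim
  · exact h1.trans h3.symm
  · exact (h4.not_headQ hS h2).elim
  · exact absurd (h4.unique_left hS h2) h3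
  · exact (h2.not_headP hS h4).elim
  · exact (h2.not_headQ hS h4).elim
  · exact h1.trans h3.symm

theorem GR.total {S : St α} (hS : Ok lam e f S) {x : α} (hx : x ∈ S.P ++ S.Q) :
    ∃ y, GR e f S x y := by
  have hP : S.P ≠ [] := fun h => by have := hS.le; rw [h] at this; simp at this
  have hQ : S.Q ≠ [] := fun h => by have := hS.lf; rw [h] at this; simp at this
  by_cases he : x = e
  · obtain ⟨y, hy⟩ := Option.isSome_iff_exists.mp (List.isSome_head?.mpr hP)
    exact ⟨y, Or.inr (Or.inl ⟨he, hy⟩)⟩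
  · by_cases hf : x = f
    · obtain ⟨y, hy⟩ := AdjS.total hS hS.pm hS.pe hS.pf
      exact ⟨y, Or.inr (Or.inr (Or.inr ⟨hf, hy⟩))⟩
    · by_cases hm : x = S.m
      · obtain ⟨y, hy⟩ := Option.isSome_iff_exists.mp (List.isSome_head?.mpr hQ)
        exact ⟨y, Or.inr (Or.inr (Or.inl ⟨hm, hy⟩))⟩
      · obtain ⟨y, hy⟩ := AdjS.total hS hx he hf
        exact ⟨y, Or.inl ⟨hm, hy⟩⟩

theorem GR.surj {S : St α} (hS : Ok lam e f S) {y : α} (hy : y ∈ S.P ++ S.Q) :
    ∃ x, GR e f S x y := by
  have key : ∀ x, AdjS S x y → ∃ x, GR e f S x y := by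
    intro x h
    by_cases hm : x = S.m
    · exact ⟨f, Or.inr (Or.inr (Or.inr ⟨rfl, hm ▸ h⟩))⟩
    · exact ⟨x, Or.inl ⟨hm, h⟩⟩
  rcases List.mem_append.mp hy with h | h
  · by_cases h1 : S.P.head? = some y
    · exact ⟨e, Or.inr (Or.inl ⟨rfl, h1⟩)⟩
    · obtain ⟨x, hx⟩ := adj_of_mem_right h h1
      exact key x (Or.inl hx)
  · by_cases h1 : S.Q.head? = some y
    · exact ⟨S.m, Or.inr (Or.inr (Or.inl ⟨rfl, h1⟩))⟩
    · obtain ⟨x, hx⟩ := adj_of_mem_right h h1
      exact key x (Or.inr hx)

theorem GR.left {S : St α} (hS : Ok lam e f S) {x y : α} (h : GR e f S x y) :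
    x ∈ S.P ++ S.Q := by
  rcases gr_iff.mp h with ⟨_, h2⟩ | ⟨h1, _⟩ | ⟨h1, _⟩ | ⟨h1, _⟩
  · exact h2.left
  · rw [h1]; exact List.mem_append_left _ hS.eP
  · rw [h1]; exact hS.pm
  · rw [h1]; exact List.mem_append_right _ hS.fQ

theorem GR.right {S : St α} {x y : α} (h : GR e f S x y) : y ∈ S.P ++ S.Q := by
  rcases gr_iff.mp h with ⟨_, h2⟩ | ⟨_, h2⟩ | ⟨_, h2⟩ | ⟨_, h2⟩
  · exact h2.right
  · exact List.mem_append_left _ (List.mem_of_head? h2)
  · exact List.mem_append_right _ (List.mem_of_head? h2)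
  · exact h2.right

/-! ### T steps -/

theorem head?_ins {A B : List α} {m v : α} : (A ++ m :: v :: B).head? = (A ++ m :: B).head? := by
  cases A <;> rfl

theorem adj_ins {A B : List α} {m v x y : α} (hx : x ≠ m)
    (h : Adj (A ++ m :: B) x y) : Adj (A ++ m :: v :: B) x y := by
  rw [adj_append] at h ⊢
  rcases h with h | ⟨h, h'⟩ | h
  · exact Or.inl h
  · exact Or.inr (Or.inl ⟨h, by simpa using h'⟩)
  · right; right
    rcases h with ⟨h, _⟩ | h
    · exact absurd h hx
    · exact Or.inr (Or.inr h)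

theorem adj_ins_self {A B : List α} {m v : α} : Adj (A ++ m :: v :: B) m v :=
  adj_iff.mpr ⟨A, B, rfl⟩

theorem adj_ins_new {A B : List α} {m v y : α} (hn : (A ++ m :: B).Nodup)
    (h : Adj (A ++ m :: B) m y) : Adj (A ++ m :: v :: B) v y := by
  have h2 := (adj_split hn).mp h
  rw [adj_append]
  right; right; right; left
  exact ⟨rfl, h2⟩

variable [DecidableEq α]

theorem gr_tS {S S' : St α} (hS : Ok lam e f S) (h : tS S = some S') {x y : α}
    (g : GR e f S x y) : GR e f S' x y := by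
  obtain ⟨v, Q, h1, h2, h3, rfl⟩ := tS_eq_some.mp h
  have hn := hS.nd
  rw [h1] at hn
  have hvP : v ∉ S.P := fun h => (List.nodup_append.mp hn).2.2 v h v (by simp) rfl
  have hnQ := (List.nodup_append.mp hn).2.1
  have hvQ : v ∉ Q := (List.nodup_cons.mp hnQ).1
  have hnQ' : Q.Nodup := (List.nodup_cons.mp hnQ).2
  have hQa : ∀ {x y}, Adj S.Q x y ↔ (x = v ∧ Q.head? = some y) ∨ Adj Q x y := by
    intro x y; rw [h1]; rfl
  have hxQ : ∀ {x y}, Adj Q x y → x ≠ v := fun h => fun h' => hvQ (h' ▸ h.left)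
  by_cases hm : S.m ∈ S.P
  · have hmQ : S.m ∉ Q := fun h => hS.disj hm (by rw [h1]; exact List.mem_cons_of_mem _ h)
    obtain ⟨A, B, h4, h5⟩ := List.eq_append_cons_of_mem hm
    have hP : insL S.m [v] S.P = A ++ S.m :: v :: B := by rw [h4]; exact insL_split [v] h5
    have hnP := hS.ndP
    rw [h4] at hnP
    unfold GR
    simp only
    rw [insL_not_mem [v] hmQ, hP]
    rcases g with ⟨g1, g2 | g2⟩ | ⟨g1, g2⟩ | ⟨g1, g2⟩ | ⟨g1, g2 | g2⟩
    · refine Or.inl ⟨fun h => hvP (h ▸ g2.left), Or.inl ?_⟩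
      rw [h4] at g2
      exact adj_ins g1 g2
    · rcases hQa.mp g2 with ⟨g3, g4⟩ | g3
      · exact Or.inr (Or.inr (Or.inl ⟨g3, g4⟩))
      · exact Or.inl ⟨hxQ g3, Or.inr g3⟩
    · refine Or.inr (Or.inl ⟨g1, ?_⟩)
      rw [head?_ins, ← h4]
      exact g2
    · rw [h1, List.head?_cons] at g2
      obtain rfl := Option.some.inj g2
      refine Or.inl ⟨by rw [g1]; exact h2.symm, Or.inl ?_⟩
      rw [g1]
      exact adj_ins_self
    · refine Or.inr (Or.inr (Or.inr ⟨g1, Or.inl ?_⟩))
      rw [h4] at g2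
      exact adj_ins_new hnP g2
    · exact (hS.disj hm g2.left).elim
  · have hmQ : S.m ∈ Q := by
      have := hS.pm
      rw [h1] at this
      rcases List.mem_append.mp this with h | h
      · exact absurd h hm
      · exact (List.mem_cons.mp h).resolve_left (fun h => h2 h.symm)
    obtain ⟨A, B, h4, h5⟩ := List.eq_append_cons_of_mem hmQ
    have hQ' : insL S.m [v] Q = A ++ S.m :: v :: B := by rw [h4]; exact insL_split [v] h5
    unfold GR
    simp only
    rw [insL_not_mem [v] hm, hQ']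
    rw [h4] at hnQ'
    rcases g with ⟨g1, g2 | g2⟩ | ⟨g1, g2⟩ | ⟨g1, g2⟩ | ⟨g1, g2 | g2⟩
    · exact Or.inl ⟨fun h => hvP (h ▸ g2.left), Or.inl g2⟩
    · rcases hQa.mp g2 with ⟨g3, g4⟩ | g3
      · refine Or.inr (Or.inr (Or.inl ⟨g3, ?_⟩))
        rw [head?_ins, ← h4]
        exact g4
      · refine Or.inl ⟨hxQ g3, Or.inr ?_⟩
        rw [h4] at g3
        exact adj_ins g1 g3
    · exact Or.inr (Or.inl ⟨g1, g2⟩)
    · rw [h1, List.head?_cons] at g2
      obtain rfl := Option.some.inj g2
      refine Or.inl ⟨by rw [g1]; exact h2.symm, Or.inr ?_⟩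
      rw [g1]
      exact adj_ins_self
    · exact (hm g2.left).elim
    · rcases hQa.mp g2 with ⟨g3, _⟩ | g3
      · exact absurd g3.symm h2
      · refine Or.inr (Or.inr (Or.inr ⟨g1, Or.inr ?_⟩))
        rw [h4] at g3
        exact adj_ins_new hnQ' g3

theorem gr_tS_iff {S S' : St α} (hS : Ok lam e f S) (h : tS S = some S') {x y : α} :
    GR e f S x y ↔ GR e f S' x y := by
  refine ⟨gr_tS hS h, fun g => ?_⟩
  have hS' := tS_ok h hS
  have hx := g.left hS'
  have hx' : x ∈ S.P ++ S.Q := ((trun_of_tS h).perm hS.pm hS.nd).mem_iff.mp hx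
  obtain ⟨y', hy'⟩ := GR.total hS hx'
  have := (gr_tS hS h hy').unique hS' g
  exact this ▸ hy'

/-! ### The mirror image -/

/-- The star reflection. -/
def tau (lam : α → α) (e f m x : α) : α :=
  if x = f then m else if x = m then f else if x = e then lam m else if x = lam m then e else x

omit [DecidableEq α] in
theorem Ok.lam_m_e {S : St α} (hS : Ok lam e f S) : lam S.m ≠ e := by
  intro h
  apply hS.pf
  rw [← hS.inv _ hS.pm, h, hS.lef]

theorem Ok.lam_m_f {S : St α} (hS : Ok lam e f S) : lam S.m ≠ f := by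
  intro h
  apply hS.pe
  rw [← hS.inv _ hS.pm, h, hS.lfe]

theorem tau_other {S : St α} {x : α} (he : x ≠ e) (hf : x ≠ f)
    (hm : x ≠ S.m) (hl : x ≠ lam S.m) : tau lam e f S.m x = x := by
  unfold tau
  rw [if_neg hf, if_neg hm, if_neg he, if_neg hl]

theorem tau_m {S : St α} (hS : Ok lam e f S) : tau lam e f S.m S.m = f := by
  unfold tau
  rw [if_neg hS.pf, if_pos rfl]

theorem tau_f {S : St α} : tau lam e f S.m f = S.m := by
  unfold tau
  rw [if_pos rfl]

theorem tau_e {S : St α} (hS : Ok lam e f S) : tau lam e f S.m e = lam S.m := by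
  unfold tau
  rw [if_neg hS.ef, if_neg hS.pe.symm, if_pos rfl]

theorem tau_lam_m {S : St α} (hS : Ok lam e f S) : tau lam e f S.m (lam S.m) = e := by
  unfold tau
  rw [if_neg hS.lam_m_f, if_neg (hS.ne _ hS.pm), if_neg hS.lam_m_e, if_pos rfl]

omit [DecidableEq α] in
theorem Ok.lam_inj {S : St α} (hS : Ok lam e f S) {x y : α} (hx : x ∈ S.P ++ S.Q)
    (hy : y ∈ S.P ++ S.Q) (h : lam x = lam y) : x = y := by
  rw [← hS.inv x hx, h, hS.inv y hy]

theorem tau_lam {S : St α} (hS : Ok lam e f S) {x : α} (hx : x ∈ S.P ++ S.Q) :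
    tau lam e f S.m (lam x) = lam (tau lam e f S.m x) := by
  by_cases he : x = e
  · rw [he, hS.lef, tau_f, tau_e hS, hS.inv _ hS.pm]
  · by_cases hf : x = f
    · rw [hf, hS.lfe, tau_e hS, tau_f]
    · by_cases hm : x = S.m
      · rw [hm, tau_lam_m hS, tau_m hS, hS.lfe]
      · by_cases hl : x = lam S.m
        · rw [hl, hS.inv _ hS.pm, tau_m hS, tau_lam_m hS, hS.lef]
        · rw [tau_other he hf hm hl, tau_other]
          · intro h
            exact hf (by rw [← hS.inv x hx, h, hS.lef])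
          · intro h
            exact he (by rw [← hS.inv x hx, h, hS.lfe])
          · intro h
            exact hl (by rw [← hS.inv x hx, h])
          · intro h
            exact hm (hS.lam_inj hx hS.pm h)

theorem GR.swap {S : St α} (hS : Ok lam e f S) {x y : α} (h : GR f e (S.swap lam) x y) :
    GR e f S (tau lam e f S.m x) y := by
  have h' : (x ≠ lam S.m ∧ (Adj S.Q x y ∨ Adj S.P x y)) ∨ (x = f ∧ S.Q.head? = some y) ∨
    (x = lam S.m ∧ S.P.head? = some y) ∨ (x = e ∧ (Adj S.Q (lam S.m) y ∨ Adj S.P (lam S.m) y)) := h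
  rcases h' with ⟨h1, h2⟩ | ⟨h1, h2⟩ | ⟨h1, h2⟩ | ⟨h1, h2⟩
  · have h3 : AdjS S x y := h2.symm
    by_cases hm : x = S.m
    · subst hm
      rw [tau_m hS]
      exact Or.inr (Or.inr (Or.inr ⟨rfl, h3⟩))
    · rw [tau_other (h3.ne_e hS) (h3.ne_f hS) hm h1]
      exact Or.inl ⟨hm, h3⟩
  · subst h1
    rw [tau_f]
    exact Or.inr (Or.inr (Or.inl ⟨rfl, h2⟩))
  · subst h1
    rw [tau_lam_m hS]
    exact Or.inr (Or.inl ⟨rfl, h2⟩)
  · subst h1
    rw [tau_e hS]
    exact Or.inl ⟨hS.ne _ hS.pm, h2.symm⟩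

/-- Off the four special tokens the successor does not change when the sides are exchanged. -/
theorem GR.swap_off {S : St α} (hS : Ok lam e f S) {x y : α} (he : x ≠ e) (hf : x ≠ f)
    (hm : x ≠ S.m) (hl : x ≠ lam S.m) : GR f e (S.swap lam) x y ↔ GR e f S x y := by
  constructor
  · intro h
    have := h.swap hS
    rwa [tau_other he hf hm hl] at this
  · intro h
    rcases gr_iff.mp h with ⟨_, h2⟩ | ⟨h1, _⟩ | ⟨h1, _⟩ | ⟨h1, _⟩
    · exact Or.inl ⟨hl, h2.symm⟩
    · exact absurd h1 he
    · exact absurd h1 hm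
    · exact absurd h1 hf

/-! ### The class -/

/-- The partner map `io` of the variables is `g lam g⁻¹`. -/
def Link (lam : α → α) (e f : α) (io : α → α) (S : St α) : Prop :=
  ∀ x y y', GR e f S x y → GR e f S (lam x) y' → io y = y'

variable {io : α → α}

theorem Link.swap {S : St α} (hS : Ok lam e f S) (h : Link lam e f io S) :
    Link lam f e io (S.swap lam) := by
  intro x y y' h1 h2
  have hx : x ∈ S.P ++ S.Q := by
    have := h1.left hS.swap
    rw [List.mem_append] at this ⊢
    exact this.symm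
  have h3 := h2.swap hS
  rw [tau_lam hS hx] at h3
  exact h _ _ _ (h1.swap hS) h3

theorem link_tS {S S' : St α} (hS : Ok lam e f S) (h : tS S = some S')
    (hl : Link lam e f io S) : Link lam e f io S' := fun _ _ _ h1 h2 =>
  hl _ _ _ ((gr_tS_iff hS h).mpr h1) ((gr_tS_iff hS h).mpr h2)

theorem link_step {S S' : St α} {b : Bool} (hS : Ok lam e f S) (h : step lam b S = some S')
    (hl : Link lam e f io S) : Link lam e f io S' := by
  cases b with
  | true => exact link_tS hS h hl
  | false =>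
    obtain ⟨h1, h2, h3⟩ := (bS_eq_some hS).mp h
    rw [← h3]
    exact (link_tS hS.swap h2 (hl.swap hS)).swap h1

theorem link_exec {S S' : St α} {w : List Bool} (hS : Ok lam e f S) (h : exec lam w S = some S')
    (hl : Link lam e f io S) : Link lam e f io S' := by
  induction w generalizing S with
  | nil => rw [← Option.some.inj h]; exact hl
  | cons b w ih =>
    rw [exec] at h
    obtain ⟨S₁, h1, h2⟩ := Option.bind_eq_some_iff.mp h
    exact ih (step_ok hS h1) h2 (link_step hS h1 hl)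

theorem Link.run {S S' : St α} (hS : Ok lam e f S) (h : Run lam S S')
    (hl : Link lam e f io S) : Link lam e f io S' := by
  obtain ⟨b, k, hk⟩ := h
  exact link_exec hS hk hl

theorem Link.runs {k : ℕ} {S S' : St α} (hS : Ok lam e f S) (h : Runs lam k S S')
    (hl : Link lam e f io S) : Link lam e f io S' := by
  induction k generalizing S with
  | zero => rw [← (show S = S' from h)]; exact hl
  | succ k ih =>
    obtain ⟨S₁, h1, h2⟩ := h
    exact ih (h1.ok hS) h2 (hl.run hS h1)

theorem Runs.mem_iff {k : ℕ} {S S' : St α} (hS : Ok lam e f S) (h : Runs lam k S S') (x : α) :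
    x ∈ S'.P ++ S'.Q ↔ x ∈ S.P ++ S.Q := by
  induction k generalizing S with
  | zero => rw [← (show S = S' from h)]
  | succ k ih =>
    obtain ⟨S₁, h1, h2⟩ := h
    rw [ih (h1.ok hS) h2, h1.mem_iff hS]

/-- The successor of a token is kept by a run whose end pointers avoid it. -/
theorem GR.run {S S' : St α} (hS : Ok lam e f S) (h : Run lam S S') {x y : α} (he : x ≠ e)
    (hf : x ≠ f) (hm : x ≠ S.m) (hl : x ≠ lam S.m) (hm' : x ≠ S'.m) (hl' : x ≠ lam S'.m)
    (g : GR e f S x y) : GR e f S' x y := by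
  have key : ∀ (e f : α) (k : ℕ) (S S' : St α), Ok lam e f S →
      exec lam (List.replicate k true) S = some S' → GR e f S x y → GR e f S' x y := by
    intro e f k
    induction k with
    | zero => intro S S' _ h g; rw [← Option.some.inj h]; exact g
    | succ k ih =>
      intro S S' hS h g
      rw [List.replicate_succ, exec] at h
      obtain ⟨S₁, h1, h2⟩ := Option.bind_eq_some_iff.mp h
      exact ih S₁ S' (step_ok hS h1) h2 (gr_tS hS h1 g)
  have hS' := h.ok hS
  obtain ⟨b, k, hk⟩ := h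
  cases b with
  | true => exact key e f k S S' hS hk g
  | false =>
    have h1 := exec_swap (w := List.replicate k false) hS
    rw [hk, Option.map_some, List.map_replicate] at h1
    have h2 := key f e k _ _ hS.swap h1 ((GR.swap_off hS he hf hm hl).mpr g)
    exact (GR.swap_off hS' he hf hm' hl').mp h2

/-! ### Lifting of runs -/

/-- Lifting of a step, with the kind of moves. -/
theorem lift_step' {Y : α → Bool} {S R : St α} {b : Bool} (hS : Ok lam e f S)
    (hY : Cl lam e S Y) (h : step lam b (S.res Y) = some R) :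
    ∃ S' k, exec lam (List.replicate k b) S = some S' ∧ S'.res Y = R := by
  cases b with
  | true =>
    obtain ⟨S', h1, h2⟩ := lift_T hS hY.m h
    obtain ⟨k, hk⟩ := h1.exec lam hS.nd
    exact ⟨S', k, hk, h2⟩
  | false =>
    unfold step bS at h
    simp only [cond_false] at h
    obtain ⟨R', h1, rfl⟩ := Option.map_eq_some_iff.mp h
    have hr : (S.res Y).swap lam = (S.swap lam).res Y := rfl
    rw [hr] at h1
    obtain ⟨S', h3, h4⟩ := lift_T hS.swap (hY.swap hS).m h1
    obtain ⟨k, hk⟩ := h3.exec lam hS.swap.nd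
    refine ⟨S'.swap lam, k, ?_, by rw [← h4]; rfl⟩
    have h5 := exec_swap (w := List.replicate k true) hS.swap
    rw [hk, Option.map_some, List.map_replicate, hS.swap_swap] at h5
    exact h5

theorem Cl.of_res {Y : α → Bool} {S S' : St α} (hS : Ok lam e f S) (h : Run lam S S')
    (hY : Cl lam e S Y) (hR : Ok lam e f (S'.res Y)) : Cl lam e S' Y :=
  hY.run hS h (mem_res.mp hR.pm).2

/-- Lifting of a run. -/
theorem lift_run {Y : α → Bool} {S R : St α} (hS : Ok lam e f S) (hY : Cl lam e S Y)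
    (h : Run lam (S.res Y) R) : ∃ S', Run lam S S' ∧ S'.res Y = R ∧ Ok lam e f S' ∧
      Cl lam e S' Y := by
  obtain ⟨b, k, hk⟩ := h
  have key : ∀ (k : ℕ) (S : St α), Ok lam e f S → Cl lam e S Y →
      exec lam (List.replicate k b) (S.res Y) = some R → ∃ S' k',
        exec lam (List.replicate k' b) S = some S' ∧ S'.res Y = R ∧ Cl lam e S' Y := by
    intro k
    induction k with
    | zero => intro S hS hY h; exact ⟨S, 0, rfl, Option.some.inj h, hY⟩
    | succ k ih =>
      intro S hS hY h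
      rw [List.replicate_succ, exec] at h
      obtain ⟨R₁, h1, h2⟩ := Option.bind_eq_some_iff.mp h
      obtain ⟨S₁, k₁, h3, h4⟩ := lift_step' hS hY h1
      have hS1 := exec_ok hS h3
      have hR1 := step_ok (hS.res hY) h1
      have hY1 : Cl lam e S₁ Y := Cl.of_res hS ⟨b, k₁, h3⟩ hY (by rw [h4]; exact hR1)
      obtain ⟨S', k', h5, h6, h7⟩ := ih S₁ hS1 hY1 (by rw [h4]; exact h2)
      refine ⟨S', k₁ + k', ?_, h6, h7⟩
      rw [List.replicate_add, exec_append, h3, Option.bind_some, h5]
  obtain ⟨S', k', h1, h2, h3⟩ := key k S hS hY hk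
  exact ⟨S', ⟨b, k', h1⟩, h2, exec_ok hS h1, h3⟩

/-- Lifting of a path, the deleted tokens keep their successors. -/
theorem lift_runs {Y : α → Bool} {k : ℕ} {S R : St α} (hS : Ok lam e f S) (hY : Cl lam e S Y)
    (h : Runs lam k (S.res Y) R) : ∃ S', Runs lam k S S' ∧ S'.res Y = R ∧ Ok lam e f S' ∧
      Cl lam e S' Y ∧ ∀ x y, Y x = false → GR e f S x y → GR e f S' x y := by
  induction k generalizing S with
  | zero => exact ⟨S, rfl, h, hS, hY, fun _ _ _ h => h⟩
  | succ k ih =>
    obtain ⟨R₁, h1, h2⟩ := h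
    obtain ⟨S₁, h3, h4, h5, h6⟩ := lift_run hS hY h1
    obtain ⟨S', h7, h8, h9, h10, h11⟩ := ih h5 h6 (by rw [h4]; exact h2)
    refine ⟨S', ⟨S₁, h3, h7⟩, h8, h9, h10, fun x y hx g => h11 x y hx ?_⟩
    have hf : Y f = true := (hY.swap hS).e
    have hne : ∀ z, Y z = true → x ≠ z := fun z hz h => by
      rw [h, hz] at hx
      exact Bool.noConfusion hx
    exact g.run hS h3 (hne _ hY.e) (hne _ hf) (hne _ hY.m) (hne _ (hY.lam _ hS.pm hY.m))
      (hne _ h6.m) (hne _ (h6.lam _ h5.pm h6.m))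

end Pool.Agent.QuadEq.Star
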