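import Pool.Agent.Lib.MP_b7851d_lc.Star.Iota

/-!
# Counting the same-side wins: levels, dead states, cut states and the types of the heads

A step in which the length of the top word changes is called a win; these are the same-side wins.
This file: dead states and cut states. The result is the theorem `levels` in `Levels.lean`.
-/

namespace Pool.Agent.QuadEq.Star

open Relation

variable {α : Type*} [DecidableEq α] {iota : α → α}

/-- A state: two words. -/
abbrev WS (α : Type*) := List α × List α

/-- One step. -/
def Wk (iota : α → α) (A B : WS α) : Prop := tW iota A = some B ∨ tW iota A.swap = some B.swap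

omit [DecidableEq α] in
theorem OkW.swap' {A : WS α} (hA : OkW iota A) : OkW iota A.swap := by
  have hp : (A.1 ++ A.2).Perm (A.2 ++ A.1) := List.perm_append_comm
  refine ⟨fun x hx => hA.inv x (hp.mem_iff.mpr hx), fun x hx => hA.ne x (hp.mem_iff.mpr hx),
    fun x hx => hp.mem_iff.mp (hA.mem x (hp.mem_iff.mpr hx)), hp.nodup_iff.mp hA.nd⟩

theorem Wk.swap {A B : WS α} (h : Wk iota A B) : Wk iota A.swap B.swap := by
  rcases h with h | h
  · exact Or.inr h
  · exact Or.inl h

theorem wk_iff {A B : WS α} : Wk iota A B ↔ ∃ b, stepW iota b A = some B := by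
  constructor
  · rintro (h | h)
    · exact ⟨true, h⟩
    · refine ⟨false, ?_⟩
      show (tW iota A.swap).map Prod.swap = some B
      rw [h]
      rfl
  · rintro ⟨b, h⟩
    cases b with
    | true => exact Or.inl h
    | false =>
      right
      change (tW iota A.swap).map Prod.swap = some B at h
      cases e : tW iota A.swap with
      | none => rw [e] at h; exact absurd h (by simp)
      | some C =>
        rw [e] at h
        have : C.swap = B := Option.some.inj h
        rw [← this]
        rfl

theorem insB_of_not_mem {u v : α} {l : List α} (h : u ∉ l) : insB u v l = l := by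
  induction l with
  | nil => rfl
  | cons a l ih =>
    rw [insB, if_neg (fun e => h (by rw [e]; exact List.mem_cons_self)),
      ih (fun e => h (List.mem_cons_of_mem _ e))]

theorem insB_mid {u v : α} {l l' : List α} (h : u ∉ l) :
    insB u v (l ++ u :: l') = l ++ v :: u :: l' := by
  induction l with
  | nil => simp [insB]
  | cons a l ih =>
    rw [List.cons_append, insB, if_neg (fun e => h (by rw [e]; exact List.mem_cons_self)),
      ih (fun e => h (List.mem_cons_of_mem _ e))]
    rfl

/-- The two forms of a T step. -/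
def Forms (iota : α → α) (A B : WS α) : Prop :=
  (∃ t s P₁ P₂ Q, s ≠ iota t ∧ Q ≠ [] ∧ A = (t :: (P₁ ++ iota t :: P₂), s :: Q) ∧
      B = (t :: (P₁ ++ s :: iota t :: P₂), Q)) ∨
    (∃ t s P Q₁ Q₂, s ≠ iota t ∧ A = (t :: P, s :: (Q₁ ++ iota t :: Q₂)) ∧
      B = (t :: P, Q₁ ++ s :: iota t :: Q₂))

theorem tW_forms {A B : WS α} (hA : OkW iota A) (h : tW iota A = some B) : Forms iota A B := by
  obtain ⟨A1, A2⟩ := A
  match A1, A2, hA, h with
  | [], _, _, h => simp [tW] at h
  | _ :: _, [], _, h => simp [tW] at h
  | t :: P, s :: Q, hA, h =>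
    simp only [tW] at h
    split_ifs at h with hc
    rw [not_or] at hc
    obtain ⟨hs, hQ⟩ := hc
    have hB := (Option.some.inj h).symm
    have hnd : ((t :: P) ++ (s :: Q)).Nodup := hA.nd
    have hmem : iota t ∈ (t :: P) ++ (s :: Q) := hA.mem t (by simp)
    have hne : iota t ≠ t := hA.ne t (by simp)
    have hPQ : (P ++ Q).Nodup := by
      have h1 : (t :: (P ++ s :: Q)).Nodup := hnd
      have h2 := (List.perm_middle (l₁ := P) (l₂ := Q) (a := s)).nodup_iff.mp
        (List.nodup_cons.mp h1).2
      exact (List.nodup_cons.mp h2).2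
    rw [List.mem_append, List.mem_cons, List.mem_cons] at hmem
    rcases hmem with (hmem | hmem) | (hmem | hmem)
    · exact absurd hmem hne
    · left
      obtain ⟨P₁, P₂, rfl⟩ := List.append_of_mem hmem
      have hn := List.nodup_append.mp hPQ
      have hn1 := List.nodup_append.mp hn.1
      refine ⟨t, s, P₁, P₂, Q, hs, hQ, rfl, ?_⟩
      have e1 : iota t ∉ P₁ := fun e => hn1.2.2 _ e _ List.mem_cons_self rfl
      have e3 : iota t ∉ Q := fun e => hn.2.2 _ hmem _ e rfl
      rw [hB, insB_mid e1, insB_of_not_mem e3]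
    · exact absurd hmem.symm hs
    · right
      obtain ⟨Q₁, Q₂, rfl⟩ := List.append_of_mem hmem
      have hn := List.nodup_append.mp hPQ
      have hn1 := List.nodup_append.mp hn.2.1
      refine ⟨t, s, P, Q₁, Q₂, hs, rfl, ?_⟩
      have e1 : iota t ∉ Q₁ := fun e => hn1.2.2 _ e _ List.mem_cons_self rfl
      have e3 : iota t ∉ P := fun e => hn.2.2 _ e _ hmem rfl
      rw [hB, insB_mid e1, insB_of_not_mem e3]

theorem forms_perm {A B : WS α} (h : Forms iota A B) : (A.1 ++ A.2).Perm (B.1 ++ B.2) := by
  rcases h with ⟨t, s, P₁, P₂, Q, -, -, rfl, rfl⟩ | ⟨t, s, P, Q₁, Q₂, -, rfl, rfl⟩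
  · show (t :: (P₁ ++ iota t :: P₂) ++ s :: Q).Perm (t :: (P₁ ++ s :: iota t :: P₂) ++ Q)
    rw [List.perm_iff_count]
    intro a
    simp only [List.count_append, List.count_cons]
    omega
  · show (t :: P ++ s :: (Q₁ ++ iota t :: Q₂)).Perm (t :: P ++ (Q₁ ++ s :: iota t :: Q₂))
    rw [List.perm_iff_count]
    intro a
    simp only [List.count_append, List.count_cons]
    omega

theorem Wk.perm {A B : WS α} (hA : OkW iota A) (h : Wk iota A B) :
    (A.1 ++ A.2).Perm (B.1 ++ B.2) := by
  rcases h with h | h
  · exact forms_perm (tW_forms hA h)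
  · have h1 := forms_perm (tW_forms hA.swap' h)
    have hp : (A.1 ++ A.2).Perm (A.2 ++ A.1) := List.perm_append_comm
    have hq : (B.2 ++ B.1).Perm (B.1 ++ B.2) := List.perm_append_comm
    exact (hp.trans h1).trans hq

omit [DecidableEq α] in
theorem okW_of_perm {A B : WS α} (hA : OkW iota A) (hp : (A.1 ++ A.2).Perm (B.1 ++ B.2)) :
    OkW iota B :=
  ⟨fun x hx => hA.inv x (hp.mem_iff.mpr hx), fun x hx => hA.ne x (hp.mem_iff.mpr hx),
    fun x hx => hp.mem_iff.mp (hA.mem x (hp.mem_iff.mpr hx)), hp.nodup_iff.mp hA.nd⟩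

theorem Wk.ok {A B : WS α} (hA : OkW iota A) (h : Wk iota A B) : OkW iota B :=
  okW_of_perm hA (h.perm hA)

theorem ok_rtg {A B : WS α} (hA : OkW iota A) (h : ReflTransGen (Wk iota) A B) :
    OkW iota B := by
  induction h with
  | refl => exact hA
  | tail _ h ih => exact h.ok ih

/-- The number of tokens. -/
def lenW (A : WS α) : ℕ := A.1.length + A.2.length

theorem Wk.len {A B : WS α} (hA : OkW iota A) (h : Wk iota A B) : lenW A = lenW B := by
  have := (h.perm hA).length_eq
  simpa [lenW] using this

theorem rtg_len {A B : WS α} (hA : OkW iota A) (h : ReflTransGen (Wk iota) A B) :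
    lenW A = lenW B := by
  induction h with
  | refl => rfl
  | tail h0 h ih => rw [ih, h.len (ok_rtg hA h0)]

/-! ### Paths with few wins -/

/-- Paths with at most `k` wins. -/
inductive PW (iota : α → α) : ℕ → WS α → WS α → Prop
  | refl (k : ℕ) (A : WS α) : PW iota k A A
  | step {k : ℕ} {A B C : WS α} : Wk iota A B → A.1.length = B.1.length → PW iota k B C →
      PW iota k A C
  | win {k : ℕ} {A B C : WS α} : Wk iota A B → PW iota k B C → PW iota (k + 1) A C

theorem PW.mono {k l : ℕ} {A B : WS α} (h : PW iota k A B) (hkl : k ≤ l) : PW iota l A B := by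
  induction h generalizing l with
  | refl k A => exact PW.refl _ _
  | step h1 h2 _ ih => exact PW.step h1 h2 (ih hkl)
  | @win k A B C h1 _ ih =>
    obtain ⟨l, rfl⟩ : ∃ l', l = l' + 1 := ⟨l - 1, by omega⟩
    exact PW.win h1 (ih (by omega))

theorem PW.trans {k l : ℕ} {A B C : WS α} (h : PW iota k A B) (h' : PW iota l B C) :
    PW iota (k + l) A C := by
  induction h with
  | refl k A => exact h'.mono (by omega)
  | step h1 h2 _ ih => exact PW.step h1 h2 (ih h')
  | @win k A B C h1 _ ih =>
    have := PW.win h1 (ih h')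
    exact this.mono (by omega)

theorem PW.rtg {k : ℕ} {A B : WS α} (h : PW iota k A B) : ReflTransGen (Wk iota) A B := by
  induction h with
  | refl => exact ReflTransGen.refl
  | step h1 _ _ ih => exact ReflTransGen.head h1 ih
  | win h1 _ ih => exact ReflTransGen.head h1 ih

/-- One step, in terms of a potential. -/
theorem PW.head {k l : ℕ} {A B C : WS α} (h : Wk iota A B) (h' : PW iota k B C) (hkl : k ≤ l)
    (hw : A.1.length ≠ B.1.length → k < l) : PW iota l A C := by
  by_cases e : A.1.length = B.1.length
  · exact PW.step h e (h'.mono hkl)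
  · have := hw e
    exact (PW.win h h').mono this

/-! ### Dead states -/

/-- There is no `BB` letter. -/
def NoB (iota : α → α) (A : WS α) : Prop := ∀ t ∈ A.2, iota t ∉ A.2

/-- There is no `TT` letter, or there is no `BB` letter. -/
def Dead (iota : α → α) (A : WS α) : Prop := NoB iota A ∨ NoB iota A.swap

omit [DecidableEq α] in
theorem perm_rot (t s : α) (Q₁ Q₂ : List α) :
    (s :: (Q₁ ++ t :: Q₂)).Perm (Q₁ ++ s :: t :: Q₂) := by
  classical
  rw [List.perm_iff_count]
  intro a
  simp only [List.count_append, List.count_cons]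
  omega

omit [DecidableEq α] in
theorem NoB.stepT {A B : WS α} (h : Forms iota A B) (hn : NoB iota A) :
    NoB iota B ∧ B.2.length ≤ A.2.length ∧ (A.1.length ≠ B.1.length → B.2.length < A.2.length) := by
  rcases h with ⟨t, s, P₁, P₂, Q, -, -, rfl, rfl⟩ | ⟨t, s, P, Q₁, Q₂, -, rfl, rfl⟩
  · refine ⟨?_, by simp, by simp⟩
    intro r hr hr'
    exact hn r (List.mem_cons_of_mem _ hr) (List.mem_cons_of_mem _ hr')
  · have hp := perm_rot (iota t) s Q₁ Q₂
    refine ⟨?_, by simpa using hp.length_eq.symm.le, by simp⟩
    intro r hr hr'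
    exact hn r (hp.mem_iff.mpr hr) (hp.mem_iff.mpr hr')

omit [DecidableEq α] in
theorem NoB.stepB {A B : WS α} (h : Forms iota A.swap B.swap)
    (hn : NoB iota A) : NoB iota B ∧ B.2.length ≤ A.2.length ∧ A.1.length = B.1.length := by
  rcases h with ⟨t, s, P₁, P₂, Q, -, -, h1, h2⟩ | ⟨t, s, P, Q₁, Q₂, -, h1, h2⟩
  · exfalso
    have e : A.2 = t :: (P₁ ++ iota t :: P₂) := congrArg Prod.fst h1
    refine hn t (by rw [e]; exact List.mem_cons_self) ?_
    rw [e]
    simp
  · have e1 : A.2 = t :: P := congrArg Prod.fst h1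
    have e2 : B.2 = t :: P := congrArg Prod.fst h2
    have e3 : A.1 = s :: (Q₁ ++ iota t :: Q₂) := congrArg Prod.snd h1
    have e4 : B.1 = Q₁ ++ s :: iota t :: Q₂ := congrArg Prod.snd h2
    refine ⟨?_, by rw [e1, e2], ?_⟩
    · intro r hr hr'
      rw [e2, ← e1] at hr hr'
      exact hn r hr hr'
    · rw [e3, e4]
      simp only [List.length_cons, List.length_append]
      omega

theorem NoB.step {A B : WS α} (hA : OkW iota A) (h : Wk iota A B) (hn : NoB iota A) :
    NoB iota B ∧ B.2.length ≤ A.2.length ∧
      (A.1.length ≠ B.1.length → B.2.length < A.2.length) := by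
  rcases h with h | h
  · exact hn.stepT (tW_forms hA h)
  · obtain ⟨h1, h2, h3⟩ := hn.stepB (tW_forms hA.swap' h)
    exact ⟨h1, h2, fun e => absurd h3 e⟩

theorem NoB.pw {A B : WS α} (h : ReflTransGen (Wk iota) A B) (hA : OkW iota A)
    (hn : NoB iota A) : PW iota A.2.length A B := by
  induction h using ReflTransGen.head_induction_on with
  | refl => exact PW.refl _ _
  | head h _ ih =>
    obtain ⟨h1, h2, h3⟩ := hn.step hA h
    exact PW.head h (ih (h.ok hA) h1) h2 h3

theorem rtgW_swap {A B : WS α} (h : ReflTransGen (Wk iota) A B) :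
    ReflTransGen (Wk iota) A.swap B.swap := by
  induction h with
  | refl => exact ReflTransGen.refl
  | tail _ h ih => exact ih.tail h.swap

theorem PW.swap {k : ℕ} {A B : WS α} (h : PW iota k A B) (hA : OkW iota A) :
    PW iota k A.swap B.swap := by
  induction h with
  | refl => exact PW.refl _ _
  | step h1 h2 _ ih =>
    refine PW.step h1.swap ?_ (ih (h1.ok hA))
    have := h1.len hA
    simp only [lenW] at this
    show _ = _
    simp only [Prod.fst_swap]
    omega
  | win h1 _ ih => exact PW.win h1.swap (ih (h1.ok hA))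

theorem Dead.pw {A B : WS α} (h : ReflTransGen (Wk iota) A B) (hA : OkW iota A)
    (hd : Dead iota A) : PW iota (lenW A) A B := by
  rcases hd with hn | hn
  · exact (hn.pw h hA).mono (by simp [lenW])
  · have := (NoB.pw (rtgW_swap h) hA.swap' hn).swap hA.swap'
    refine this.mono ?_
    simp [lenW]

theorem Dead.step {A B : WS α} (hA : OkW iota A) (h : Wk iota A B) (hd : Dead iota A) :
    Dead iota B := by
  rcases hd with hn | hn
  · exact Or.inl (hn.step hA h).1
  · exact Or.inr (hn.step hA.swap' h.swap).1

omit [DecidableEq α] in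
theorem Dead.swap {A : WS α} (h : Dead iota A) : Dead iota A.swap := Or.symm h

/-! ### Cut states -/

/-- `P' P''` and `Q' Q''` are a cut: the partners of the tokens of `P'` and `Q''` are in `P''` and
`Q'`, and conversely. -/
def Cut4 (iota : α → α) (P P' Q Q' : List α) : Prop :=
  (∀ t ∈ P ++ Q', iota t ∈ P' ++ Q) ∧ ∀ t ∈ P' ++ Q, iota t ∈ P ++ Q'

/-- There is a cut: two prefixes such that every `TT` letter has exactly one token in the first
prefix, every `BB` letter exactly one token in the second one, and every mixed letter none or two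
tokens in the prefixes. -/
def FC (iota : α → α) (A : WS α) : Prop :=
  ∃ P P' Q Q', A = (P ++ P', Q ++ Q') ∧ Cut4 iota P P' Q Q'

omit [DecidableEq α] in
theorem Cut4.swap {P P' Q Q' : List α} (h : Cut4 iota P P' Q Q') : Cut4 iota Q Q' P P' := by
  constructor
  · intro t ht
    rw [List.mem_append] at ht ⊢
    have := h.2 t (by rw [List.mem_append]; exact ht.symm)
    rw [List.mem_append] at this
    exact this.symm
  · intro t ht
    rw [List.mem_append] at ht ⊢
    have := h.1 t (by rw [List.mem_append]; exact ht.symm)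
    rw [List.mem_append] at this
    exact this.symm

omit [DecidableEq α] in
theorem FC.swap {A : WS α} (h : FC iota A) : FC iota A.swap := by
  obtain ⟨P, P', Q, Q', rfl, hc⟩ := h
  exact ⟨Q, Q', P, P', rfl, hc.swap⟩

/-- A T step from a cut state which is not dead. -/
theorem cut_stepT {A B : WS α} (hA : OkW iota A) (h : tW iota A = some B) (hd : ¬ Dead iota A)
    {P P' Q Q' : List α} (e : A = (P ++ P', Q ++ Q')) (hc : Cut4 iota P P' Q Q') :
    ∃ P₁ P₁' Q₁ Q₁', B = (P₁ ++ P₁', Q₁ ++ Q₁') ∧ Cut4 iota P₁ P₁' Q₁ Q₁' ∧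
      P₁.length + Q₁.length ≤ P.length + Q.length ∧
      (A.1.length ≠ B.1.length → P₁.length + Q₁.length < P.length + Q.length) := by
  classical
  have hnd := hA.nd
  -- the prefixes are not empty
  have hP : P ≠ [] := by
    rintro rfl
    apply hd
    right
    intro t ht ht'
    rw [e] at ht ht'
    simp only [Prod.snd_swap, List.nil_append] at ht ht'
    have h1 := hc.2 t (by rw [List.mem_append]; exact Or.inl ht)
    rw [List.nil_append] at h1
    rw [e] at hnd
    simp only [List.nil_append] at hnd
    exact (List.nodup_append.mp hnd).2.2 _ ht' _ (List.mem_append_right _ h1) rfl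
  have hQ : Q ≠ [] := by
    rintro rfl
    apply hd
    left
    intro t ht ht'
    rw [e] at ht ht'
    simp only [List.nil_append] at ht ht'
    have h1 := hc.1 t (by rw [List.mem_append]; exact Or.inr ht)
    rw [List.append_nil] at h1
    rw [e] at hnd
    simp only [List.nil_append] at hnd
    exact (List.nodup_append.mp hnd).2.2 _ (List.mem_append_right _ h1) _ ht' rfl
  obtain ⟨t, P, rfl⟩ := List.exists_cons_of_ne_nil hP
  obtain ⟨s, Q, rfl⟩ := List.exists_cons_of_ne_nil hQ
  have ht : iota t ∈ P' ++ (s :: Q) := hc.1 t (by simp)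
  rw [e] at hnd
  simp only at hnd
  have hnd' : ((t :: P) ++ P' ++ ((s :: Q) ++ Q')).Nodup := hnd
  rcases tW_forms hA h with ⟨t', s', P₁, P₂, R, hs, -, h1, h2⟩ | ⟨t', s', R, Q₁, Q₂, hs, h1, h2⟩
  · rw [e] at h1
    have h11 := congrArg Prod.fst h1
    have h12 := congrArg Prod.snd h1
    simp only [List.cons_append, List.cons.injEq] at h11 h12
    obtain ⟨rfl, h11⟩ := h11
    obtain ⟨rfl, rfl⟩ := h12
    -- the partner is in `P'`
    have htP : iota t ∈ P' := by
      rcases List.mem_append.1 ht with h | h
      · exact h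
      · exfalso
        have h3 : iota t ∈ (t :: P) ++ P' := by
          rw [List.cons_append, h11]
          simp
        exact (List.nodup_append.mp hnd').2.2 _ h3 _ (List.mem_append_left _ h) rfl
    obtain ⟨R₁, R₂, rfl⟩ := List.append_of_mem htP
    have hnp : (P ++ (R₁ ++ iota t :: R₂)).Nodup := by
      have h4 := (List.nodup_append.mp hnd').1
      exact (List.nodup_cons.mp h4).2
    have hsplit : P₁ = P ++ R₁ ∧ P₂ = R₂ := by
      have h5 : (P ++ R₁) ++ iota t :: R₂ = P₁ ++ iota t :: P₂ := by
        rw [List.append_assoc]; exact h11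
      have h6 : iota t ∉ P ++ R₁ := by
        intro h7
        rw [← List.append_assoc] at hnp
        exact (List.nodup_append.mp hnp).2.2 _ h7 _ List.mem_cons_self rfl
      have h8 : iota t ∉ P₁ := by
        intro h7
        rw [h11] at hnp
        exact (List.nodup_append.mp hnp).2.2 _ h7 _ List.mem_cons_self rfl
      have h9 := congrArg (List.takeWhile (fun a => decide (a ≠ iota t))) h5
      rw [List.takeWhile_append_of_pos, List.takeWhile_append_of_pos] at h9
      · simp only [ne_eq, not_true_eq_false, decide_false, Bool.false_eq_true,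
          not_false_eq_true, List.takeWhile_cons_of_neg, List.append_nil] at h9
        refine ⟨h9.symm, ?_⟩
        rw [h9] at h5
        have := List.append_cancel_left h5
        exact (List.cons.inj this).2.symm
      · intro a ha
        simp only [ne_eq, decide_eq_true_eq]
        rintro rfl
        exact h8 ha
      · intro a ha
        simp only [ne_eq, decide_eq_true_eq]
        rintro rfl
        exact h6 ha
    obtain ⟨rfl, rfl⟩ := hsplit
    refine ⟨t :: P, R₁ ++ s :: iota t :: P₂, Q, Q', ?_, ⟨?_, ?_⟩, ?_, ?_⟩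
    · rw [h2]
      simp
    · intro r hr
      have h3 := hc.1 r hr
      simp only [List.mem_append, List.mem_cons] at h3 ⊢
      tauto
    · intro r hr
      refine hc.2 r ?_
      simp only [List.mem_append, List.mem_cons] at hr ⊢
      tauto
    · simp
    · simp
  · rw [e] at h1
    have h11 := congrArg Prod.fst h1
    have h12 := congrArg Prod.snd h1
    simp only [List.cons_append, List.cons.injEq] at h11 h12
    obtain ⟨rfl, rfl⟩ := h11
    obtain ⟨rfl, h12⟩ := h12
    have htQ : iota t ∈ Q := by
      rcases List.mem_append.1 ht with h | h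
      · exfalso
        have h3 : iota t ∈ (s :: Q) ++ Q' := by
          rw [List.cons_append, h12]
          simp
        exact (List.nodup_append.mp hnd').2.2 _ (List.mem_append_right _ h) _ h3 rfl
      · rcases List.mem_cons.1 h with h | h
        · exact absurd h.symm hs
        · exact h
    obtain ⟨R₁, R₂, rfl⟩ := List.append_of_mem htQ
    have hnp : (R₁ ++ iota t :: (R₂ ++ Q')).Nodup := by
      have h4 := (List.nodup_append.mp hnd').2.1
      have h5 := (List.nodup_cons.mp h4).2
      simpa using h5
    have hsplit : Q₁ = R₁ ∧ Q₂ = R₂ ++ Q' := by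
      have h5 : R₁ ++ iota t :: (R₂ ++ Q') = Q₁ ++ iota t :: Q₂ := by
        rw [← h12]; simp
      have h6 : iota t ∉ R₁ := by
        intro h7
        exact (List.nodup_append.mp hnp).2.2 _ h7 _ List.mem_cons_self rfl
      have h8 : iota t ∉ Q₁ := by
        intro h7
        rw [h5] at hnp
        exact (List.nodup_append.mp hnp).2.2 _ h7 _ List.mem_cons_self rfl
      have h9 := congrArg (List.takeWhile (fun a => decide (a ≠ iota t))) h5
      rw [List.takeWhile_append_of_pos, List.takeWhile_append_of_pos] at h9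
      · simp only [ne_eq, not_true_eq_false, decide_false, Bool.false_eq_true,
          not_false_eq_true, List.takeWhile_cons_of_neg, List.append_nil] at h9
        refine ⟨h9.symm, ?_⟩
        rw [h9] at h5
        have := List.append_cancel_left h5
        exact (List.cons.inj this).2.symm
      · intro a ha
        simp only [ne_eq, decide_eq_true_eq]
        rintro rfl
        exact h8 ha
      · intro a ha
        simp only [ne_eq, decide_eq_true_eq]
        rintro rfl
        exact h6 ha
    obtain ⟨rfl, rfl⟩ := hsplit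
    refine ⟨t :: P, P', Q₁ ++ s :: iota t :: R₂, Q', ?_, ⟨?_, ?_⟩, ?_, ?_⟩
    · rw [h2]
      simp
    · intro r hr
      have h3 := hc.1 r hr
      simp only [List.mem_append, List.mem_cons] at h3 ⊢
      tauto
    · intro r hr
      refine hc.2 r ?_
      simp only [List.mem_append, List.mem_cons] at hr ⊢
      tauto
    · simp only [List.length_cons, List.length_append]
      omega
    · intro h10
      exfalso
      apply h10
      rw [e, h2]
      rfl

theorem cut_step {A B : WS α} (hA : OkW iota A) (h : Wk iota A B) (hd : ¬ Dead iota A)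
    {P P' Q Q' : List α} (e : A = (P ++ P', Q ++ Q')) (hc : Cut4 iota P P' Q Q') :
    ∃ P₁ P₁' Q₁ Q₁', B = (P₁ ++ P₁', Q₁ ++ Q₁') ∧ Cut4 iota P₁ P₁' Q₁ Q₁' ∧
      P₁.length + Q₁.length ≤ P.length + Q.length ∧
      (A.1.length ≠ B.1.length → P₁.length + Q₁.length < P.length + Q.length) := by
  rcases h with h' | h'
  · exact cut_stepT hA h' hd e hc
  · obtain ⟨Q₁, Q₁', P₁, P₁', h1, h2, h3, h4⟩ := cut_stepT (B := B.swap) hA.swap' h'
      (fun h => hd h.swap) (P := Q) (P' := Q') (Q := P) (Q' := P') (by rw [e]; rfl) hc.swap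
    refine ⟨P₁, P₁', Q₁, Q₁', ?_, h2.swap, by omega, ?_⟩
    · have := congrArg Prod.swap h1
      simpa using this
    · intro h5
      have h6 := (Wk.len hA (Or.inr h'))
      have := h4 (by
        simp only [lenW] at h6
        simp only [Prod.fst_swap]
        omega)
      omega

theorem cut_pw {A B : WS α} (h : ReflTransGen (Wk iota) A B) (hA : OkW iota A) :
    ∀ P P' Q Q' : List α, A = (P ++ P', Q ++ Q') → Cut4 iota P P' Q Q' →
    PW iota (P.length + Q.length + lenW A) A B := by
  induction h using ReflTransGen.head_induction_on with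
  | refl => exact fun _ _ _ _ _ _ => PW.refl _ _
  | @head A C h h' ih =>
    intro P P' Q Q' e hc
    by_cases hd : Dead iota A
    · exact (hd.pw (ReflTransGen.head h h') hA).mono (by omega)
    · obtain ⟨P₁, P₁', Q₁, Q₁', h1, h2, h3, h4⟩ := cut_step hA h hd e hc
      have hl := h.len hA
      refine PW.head h (ih (h.ok hA) P₁ P₁' Q₁ Q₁' h1 h2) ?_ ?_
      · omega
      · intro h5
        have := h4 h5
        omega

theorem FC.pw {A B : WS α} (h : ReflTransGen (Wk iota) A B) (hA : OkW iota A)
    (hf : FC iota A) : PW iota (2 * lenW A) A B := by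
  obtain ⟨P, P', Q, Q', e, hc⟩ := hf
  refine (cut_pw h hA P P' Q Q' e hc).mono ?_
  have : P.length + Q.length ≤ lenW A := by
    rw [e]
    simp only [lenW, List.length_append]
    omega
  omega

theorem FC.step {A B : WS α} (hA : OkW iota A) (h : Wk iota A B)
    (hf : Dead iota A ∨ FC iota A) : Dead iota B ∨ FC iota B := by
  by_cases hd : Dead iota A
  · exact Or.inl (hd.step hA h)
  · rcases hf with hf | hf
    · exact absurd hf hd
    · obtain ⟨P, P', Q, Q', e, hc⟩ := hf
      obtain ⟨P₁, P₁', Q₁, Q₁', h1, h2, -, -⟩ := cut_step hA h hd e hc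
      exact Or.inr ⟨P₁, P₁', Q₁, Q₁', h1, h2⟩

end Pool.Agent.QuadEq.Star
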