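import Pool.Agent.Lib.MP_b7851d_lc.Star.Count

/-!
# Counting the same-side wins, part 2: heads, closed pairs of prefixes, irreducible states
-/

namespace Pool.Agent.QuadEq.Star

open Relation

variable {α : Type*} [DecidableEq α] {iota : α → α}

/-! ### The types of the heads -/

/-- The first token of the top word belongs to a `TT` letter, the first token of the bottom word to
a `BB` letter. -/
def TB (iota : α → α) (A : WS α) : Prop :=
  ∃ t P s Q, A = (t :: P, s :: Q) ∧ iota t ∈ P ∧ iota s ∈ Q

/-- The number of the tokens of the `BB` letters. -/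
def nB (iota : α → α) (A : WS α) : ℕ := A.2.countP fun t => decide (iota t ∈ A.2)

/-- The number of the tokens of the `TT` and `BB` letters. -/
def nTB (iota : α → α) (A : WS α) : ℕ := nB iota A.swap + nB iota A

theorem nTB_swap (A : WS α) : nTB iota A.swap = nTB iota A := Nat.add_comm _ _

theorem nTB_le (A : WS α) : nTB iota A ≤ lenW A := by
  unfold nTB nB lenW
  exact Nat.add_le_add List.countP_le_length List.countP_le_length

omit [DecidableEq α] in
theorem TB.swap {A : WS α} (h : TB iota A) : TB iota A.swap := by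
  obtain ⟨t, P, s, Q, rfl, h1, h2⟩ := h
  exact ⟨s, Q, t, P, rfl, h2, h1⟩

theorem tb_stepT {A B : WS α} (hA : OkW iota A) (h : tW iota A = some B) (ht : TB iota A) :
    nTB iota B < nTB iota A := by
  obtain ⟨t, P, s, Q, rfl, h1, h2⟩ := ht
  have hnd : ((t :: P) ++ (s :: Q)).Nodup := hA.nd
  have hdis := (List.nodup_append.mp hnd).2.2
  rcases tW_forms hA h with ⟨t', s', P₁, P₂, R, hs, -, e1, rfl⟩ | ⟨t', s', R, Q₁, Q₂, hs, e1, rfl⟩
  · have e11 := congrArg Prod.fst e1
    have e12 := congrArg Prod.snd e1
    simp only [List.cons.injEq] at e11 e12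
    obtain ⟨rfl, rfl⟩ := e11
    obtain ⟨rfl, rfl⟩ := e12
    unfold nTB nB
    simp only [Prod.snd_swap]
    have hlt : Q.countP (fun r => decide (iota r ∈ Q)) <
        (s :: Q).countP (fun r => decide (iota r ∈ s :: Q)) := by
      rw [List.countP_cons_of_pos (by simp [h2])]
      refine Nat.lt_succ_of_le (List.countP_mono_left ?_)
      intro x _ hx
      simp only [decide_eq_true_eq] at hx ⊢
      exact List.mem_cons_of_mem _ hx
    have hle : (t :: (P₁ ++ s :: iota t :: P₂)).countP
          (fun r => decide (iota r ∈ t :: (P₁ ++ s :: iota t :: P₂))) ≤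
        (t :: (P₁ ++ iota t :: P₂)).countP
          (fun r => decide (iota r ∈ t :: (P₁ ++ iota t :: P₂))) := by
      have hp : (t :: (P₁ ++ s :: iota t :: P₂)).Perm (s :: t :: (P₁ ++ iota t :: P₂)) := by
        rw [List.perm_iff_count]
        intro a
        simp only [List.count_append, List.count_cons]
        omega
      have hss : iota s ∉ t :: (P₁ ++ s :: iota t :: P₂) := by
        intro hm
        rcases List.mem_cons.1 (hp.mem_iff.1 hm) with h | h
        · exact hA.ne s (by simp) h
        · exact hdis _ h _ (List.mem_cons_of_mem _ h2) rfl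
      rw [hp.countP_eq, List.countP_cons_of_neg (by simpa using hss)]
      refine le_of_eq (List.countP_congr ?_)
      intro r hr
      simp only [decide_eq_true_eq]
      have hrs : iota r ≠ s := by
        intro he
        have h3 : iota s = r := by rw [← he]; exact hA.inv r (by simp only [List.mem_append]; exact Or.inl hr)
        exact hdis _ hr _ (List.mem_cons_of_mem _ h2) h3.symm
      constructor
      · intro h
        rcases List.mem_cons.1 (hp.mem_iff.1 h) with h | h
        · exact absurd h hrs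
        · exact h
      · intro h
        exact hp.mem_iff.2 (List.mem_cons_of_mem _ h)
    omega
  · exfalso
    have e11 := congrArg Prod.fst e1
    have e12 := congrArg Prod.snd e1
    simp only [List.cons.injEq] at e11 e12
    obtain ⟨rfl, rfl⟩ := e11
    obtain ⟨rfl, rfl⟩ := e12
    exact hdis _ (List.mem_cons_of_mem _ h1) _ (by simp) rfl

theorem tb_step {A B : WS α} (hA : OkW iota A) (h : Wk iota A B) (ht : TB iota A) :
    nTB iota B < nTB iota A := by
  rcases h with h | h
  · exact tb_stepT hA h ht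
  · have := tb_stepT hA.swap' h ht.swap
    rwa [nTB_swap, nTB_swap] at this

/-! ### Closed pairs of prefixes -/

/-- The prefixes of lengths `p.1` and `p.2` are closed. -/
def Cp (iota : α → α) (A : WS α) (p : ℕ × ℕ) : Prop :=
  ∀ t ∈ A.1.take p.1 ++ A.2.take p.2, iota t ∈ A.1.take p.1 ++ A.2.take p.2

instance (A : WS α) (p : ℕ × ℕ) : Decidable (Cp iota A p) := by unfold Cp; infer_instance

/-- The closed pairs of non-empty prefixes which are not both the whole words. -/
def cset (iota : α → α) (A : WS α) : Finset (ℕ × ℕ) :=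
  ((Finset.Icc 1 A.1.length) ×ˢ (Finset.Icc 1 A.2.length)).filter fun p =>
    p ≠ (A.1.length, A.2.length) ∧ Cp iota A p

theorem mem_cset {A : WS α} {p : ℕ × ℕ} : p ∈ cset iota A ↔
    (1 ≤ p.1 ∧ p.1 ≤ A.1.length ∧ 1 ≤ p.2 ∧ p.2 ≤ A.2.length) ∧
      p ≠ (A.1.length, A.2.length) ∧ Cp iota A p := by
  simp only [cset, Finset.mem_filter, Finset.mem_product, Finset.mem_Icc]
  tauto

omit [DecidableEq α] in
theorem cp_swap {A : WS α} {p : ℕ × ℕ} (h : Cp iota A p) : Cp iota A.swap p.swap := by
  intro t ht
  have := h t (by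
    simp only [Prod.fst_swap, Prod.snd_swap, List.mem_append] at ht ⊢
    exact ht.symm)
  simp only [Prod.fst_swap, Prod.snd_swap, List.mem_append] at this ⊢
  exact this.symm

theorem cset_swap_mem {A : WS α} {p : ℕ × ℕ} (h : p ∈ cset iota A) :
    p.swap ∈ cset iota A.swap := by
  rw [mem_cset] at h ⊢
  obtain ⟨⟨h1, h2, h3, h4⟩, h5, h6⟩ := h
  refine ⟨⟨h3, h4, h1, h2⟩, ?_, cp_swap h6⟩
  intro e
  apply h5
  have := congrArg Prod.swap e
  simpa using this

theorem card_cset_swap (A : WS α) : (cset iota A.swap).card = (cset iota A).card := by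
  refine Finset.card_bij' (fun p _ => p.swap) (fun p _ => p.swap) ?_ ?_ ?_ ?_
  · intro p hp
    have := cset_swap_mem hp
    rwa [Prod.swap_swap] at this
  · intro p hp
    exact cset_swap_mem hp
  · intro p _; exact Prod.swap_swap p
  · intro p _; exact Prod.swap_swap p

theorem card_cset_le (A : WS α) : (cset iota A).card ≤ lenW A * lenW A := by
  refine (Finset.card_filter_le _ _).trans ?_
  rw [Finset.card_product, Nat.card_Icc, Nat.card_Icc]
  simp only [Nat.add_sub_cancel, lenW]
  nlinarith [Nat.zero_le A.1.length, Nat.zero_le A.2.length]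

/-- The image of a closed pair under a T step which is a win. -/
theorem cset_T1 {t s : α} {P₁ P₂ Q : List α} (hs : s ≠ iota t)
    (hA : OkW iota (t :: (P₁ ++ iota t :: P₂), s :: Q)) {p : ℕ × ℕ}
    (hp : p ∈ cset iota (t :: (P₁ ++ s :: iota t :: P₂), Q)) :
    2 ≤ p.1 ∧ (p.1 - 1, p.2 + 1) ∈ cset iota (t :: (P₁ ++ iota t :: P₂), s :: Q) := by
  obtain ⟨i, j⟩ := p
  rw [mem_cset] at hp
  obtain ⟨⟨h1, h2, h3, h4⟩, h5, h6⟩ := hp
  simp only at h1 h2 h3 h4 h5
  have hnd := hA.nd
  have hdis := (List.nodup_append.mp hnd).2.2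
  simp only at hdis
  have hnd1 := (List.nodup_append.mp hnd).1
  simp only at hnd1
  have htQ : iota t ∉ Q := fun h => hdis (iota t) (by simp) _ (List.mem_cons_of_mem _ h) rfl
  have hst : iota t ≠ t := hA.ne t (by simp)
  obtain ⟨i, rfl⟩ : ∃ i', i = i' + 1 := ⟨i - 1, by omega⟩
  -- the prefix contains the partner of `t`
  have h7 := h6 t (by simp)
  have h8 : iota t ∈ (P₁ ++ s :: iota t :: P₂).take i := by
    rcases List.mem_append.1 h7 with h | h
    · rw [List.take_succ_cons, List.mem_cons] at h
      rcases h with h | h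
      · exact absurd h hst
      · exact h
    · exact absurd (List.mem_of_mem_take h) htQ
  have h9 : P₁.length + 2 ≤ i := by
    by_contra hlt
    have h10 : (P₁ ++ s :: iota t :: P₂).take i = (P₁ ++ [s]).take i := by
      have e1 : P₁ ++ s :: iota t :: P₂ = (P₁ ++ [s]) ++ iota t :: P₂ := by simp
      rw [e1, List.take_append_of_le_length (by simp; omega)]
    rw [h10] at h8
    have h11 := List.mem_of_mem_take h8
    rw [List.mem_append, List.mem_singleton] at h11
    rcases h11 with h | h
    · have h12 := (List.nodup_cons.mp hnd1).2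
      exact (List.nodup_append.mp h12).2.2 _ h _ List.mem_cons_self rfl
    · exact hs h.symm
  obtain ⟨k, rfl⟩ : ∃ k, i = P₁.length + 2 + k := ⟨i - (P₁.length + 2), by omega⟩
  have e1 : (P₁ ++ s :: iota t :: P₂).take (P₁.length + 2 + k) =
      P₁ ++ s :: iota t :: P₂.take k := by
    rw [Nat.add_assoc, List.take_length_add_append]
    congr 1
    rw [Nat.add_comm 2 k]
    rfl
  have e2 : (P₁ ++ iota t :: P₂).take (P₁.length + (1 + k)) =
      P₁ ++ iota t :: P₂.take k := by
    rw [List.take_length_add_append]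
    congr 1
    rw [Nat.add_comm 1 k]
    rfl
  refine ⟨by simp only; omega, ?_⟩
  rw [mem_cset]
  refine ⟨⟨by simp only; omega, ?_, by simp only; omega, ?_⟩, ?_, ?_⟩
  · simp only [List.length_cons, List.length_append] at h2 ⊢
    omega
  · simp only [List.length_cons]
    omega
  · intro he
    apply h5
    simp only [Prod.mk.injEq, List.length_cons, List.length_append] at he ⊢
    omega
  · have e3 : ((t :: (P₁ ++ s :: iota t :: P₂)).take (P₁.length + 2 + k + 1) ++
          Q.take j).Perm ((t :: (P₁ ++ iota t :: P₂)).take (P₁.length + 2 + k) ++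
          (s :: Q).take (j + 1)) := by
      have e4 : P₁.length + 2 + k = (P₁.length + (1 + k)) + 1 := by omega
      rw [List.take_succ_cons, e1, List.take_succ_cons, e4, List.take_succ_cons, e2,
        List.perm_iff_count]
      intro a
      simp only [List.count_append, List.count_cons]
      omega
    intro r hr
    have h10 := h6 r (e3.mem_iff.2 hr)
    exact e3.mem_iff.1 h10

/-- The image of a closed pair under a T step which is not a win. -/
theorem cset_T2 {t s : α} {P Q₁ Q₂ : List α}
    (hA : OkW iota (t :: P, s :: (Q₁ ++ iota t :: Q₂))) {p : ℕ × ℕ}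
    (hp : p ∈ cset iota (t :: P, Q₁ ++ s :: iota t :: Q₂)) (hs : s ≠ iota t) :
    p ∈ cset iota (t :: P, s :: (Q₁ ++ iota t :: Q₂)) := by
  obtain ⟨i, j⟩ := p
  rw [mem_cset] at hp ⊢
  obtain ⟨⟨h1, h2, h3, h4⟩, h5, h6⟩ := hp
  simp only at h1 h2 h3 h4 h5
  have hnd := hA.nd
  have hdis := (List.nodup_append.mp hnd).2.2
  simp only at hdis
  have hnd2 := (List.nodup_append.mp hnd).2.1
  simp only at hnd2
  have htP : iota t ∉ t :: P := fun h => hdis _ h _ (by simp) rfl
  obtain ⟨i, rfl⟩ : ∃ i', i = i' + 1 := ⟨i - 1, by omega⟩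
  have h7 := h6 t (by simp)
  have h8 : iota t ∈ (Q₁ ++ s :: iota t :: Q₂).take j := by
    rcases List.mem_append.1 h7 with h | h
    · exact absurd (List.mem_of_mem_take h) htP
    · exact h
  have h9 : Q₁.length + 2 ≤ j := by
    by_contra hlt
    have h10 : (Q₁ ++ s :: iota t :: Q₂).take j = (Q₁ ++ [s]).take j := by
      have e1 : Q₁ ++ s :: iota t :: Q₂ = (Q₁ ++ [s]) ++ iota t :: Q₂ := by simp
      rw [e1, List.take_append_of_le_length (by simp; omega)]
    rw [h10] at h8
    have h11 := List.mem_of_mem_take h8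
    rw [List.mem_append, List.mem_singleton] at h11
    rcases h11 with h | h
    · have h12 := (List.nodup_cons.mp hnd2).2
      exact (List.nodup_append.mp h12).2.2 _ h _ List.mem_cons_self rfl
    · exact hs h.symm
  obtain ⟨k, rfl⟩ : ∃ k, j = Q₁.length + 2 + k := ⟨j - (Q₁.length + 2), by omega⟩
  have e1 : (Q₁ ++ s :: iota t :: Q₂).take (Q₁.length + 2 + k) =
      Q₁ ++ s :: iota t :: Q₂.take k := by
    rw [Nat.add_assoc, List.take_length_add_append]
    congr 1
    rw [Nat.add_comm 2 k]
    rfl
  have e2 : (Q₁ ++ iota t :: Q₂).take (Q₁.length + (1 + k)) =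
      Q₁ ++ iota t :: Q₂.take k := by
    rw [List.take_length_add_append]
    congr 1
    rw [Nat.add_comm 1 k]
    rfl
  refine ⟨⟨by simp only; omega, h2, by simp only; omega, ?_⟩, ?_, ?_⟩
  · simp only [List.length_cons, List.length_append] at h4 ⊢
    omega
  · intro he
    apply h5
    simp only [Prod.mk.injEq, List.length_cons, List.length_append] at he ⊢
    omega
  · have e3 : ((t :: P).take (i + 1) ++
          (Q₁ ++ s :: iota t :: Q₂).take (Q₁.length + 2 + k)).Perm ((t :: P).take (i + 1) ++
          (s :: (Q₁ ++ iota t :: Q₂)).take (Q₁.length + 2 + k)) := by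
      have e4 : Q₁.length + 2 + k = (Q₁.length + (1 + k)) + 1 := by omega
      have e5 : (s :: (Q₁ ++ iota t :: Q₂)).take (Q₁.length + (1 + k) + 1) =
          s :: (Q₁ ++ iota t :: Q₂).take (Q₁.length + (1 + k)) := rfl
      rw [e1, e4, e5, e2, List.perm_iff_count]
      intro a
      simp only [List.count_append, List.count_cons]
      omega
    intro r hr
    have h10 := h6 r (e3.mem_iff.2 hr)
    exact e3.mem_iff.1 h10

theorem card_cset_T {A B : WS α} (hA : OkW iota A) (h : Forms iota A B) :
    (cset iota B).card ≤ (cset iota A).card ∧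
      (A.1.length ≠ B.1.length → ∀ i, (i, 1) ∈ cset iota A →
        (cset iota B).card < (cset iota A).card) := by
  rcases h with ⟨t, s, P₁, P₂, Q, hs, -, rfl, rfl⟩ | ⟨t, s, P, Q₁, Q₂, hs, rfl, rfl⟩
  · have hmap : ∀ p ∈ cset iota (t :: (P₁ ++ s :: iota t :: P₂), Q),
        (p.1 - 1, p.2 + 1) ∈ cset iota (t :: (P₁ ++ iota t :: P₂), s :: Q) :=
      fun p hp => (cset_T1 hs hA hp).2
    have hinj : Set.InjOn (fun p : ℕ × ℕ => (p.1 - 1, p.2 + 1))
        (cset iota (t :: (P₁ ++ s :: iota t :: P₂), Q) : Set (ℕ × ℕ)) := by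
      intro p hp q hq he
      have h1 := (cset_T1 hs hA hp).1
      have h2 := (cset_T1 hs hA hq).1
      simp only [Prod.mk.injEq] at he
      ext
      · omega
      · omega
    refine ⟨Finset.card_le_card_of_injOn _ hmap hinj, ?_⟩
    intro _ i hi
    have h3 : (cset iota (t :: (P₁ ++ s :: iota t :: P₂), Q)).card ≤
        ((cset iota (t :: (P₁ ++ iota t :: P₂), s :: Q)).erase (i, 1)).card := by
      refine Finset.card_le_card_of_injOn _ ?_ hinj
      intro p hp
      have hp' : p ∈ cset iota (t :: (P₁ ++ s :: iota t :: P₂), Q) := hp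
      have h4 : 1 ≤ p.2 := (mem_cset.1 hp').1.2.2.1
      refine Finset.mem_coe.2 (Finset.mem_erase.2 ⟨?_, hmap p hp'⟩)
      intro he
      simp only [Prod.mk.injEq] at he
      omega
    have h5 := Finset.card_erase_lt_of_mem hi
    omega
  · refine ⟨Finset.card_le_card fun p hp => cset_T2 hA hp hs, ?_⟩
    intro h1
    exact absurd rfl h1

theorem card_cset_step {A B : WS α} (hA : OkW iota A) (h : Wk iota A B) :
    (cset iota B).card ≤ (cset iota A).card := by
  rcases h with h | h
  · exact (card_cset_T hA (tW_forms hA h)).1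
  · have := (card_cset_T hA.swap' (tW_forms hA.swap' h)).1
    rwa [card_cset_swap, card_cset_swap] at this

/-! ### Irreducible states -/

omit [DecidableEq α] in
theorem rtg_mono {r s : WS α → WS α → Prop} (hrs : ∀ a b, r a b → s a b) {A B : WS α}
    (h : ReflTransGen r A B) : ReflTransGen s A B := by
  induction h with
  | refl => exact ReflTransGen.refl
  | tail _ h ih => exact ih.tail (hrs _ _ h)

/-- There are a `TT` and a `BB` letter, there is no closed pair of prefixes, and there is no cut. -/
structure FW (iota : α → α) (A : List α × List α) : Prop where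
  /-- every token occurs once, and the tokens are closed under the partner map -/
  ok : OkW iota A
  /-- there is a top pair -/
  tt : ∃ x ∈ A.1, iota x ∈ A.1
  /-- there is a bottom pair -/
  bb : ∃ y ∈ A.2, iota y ∈ A.2
  /-- there is no closed pair of prefixes -/
  irr : ∀ U₁ U₂ V₁ V₂, A = (U₁ ++ U₂, V₁ ++ V₂) → U₁ ≠ [] → V₁ ≠ [] →
    (∀ x ∈ U₁ ++ V₁, iota x ∈ U₁ ++ V₁) → U₂ = [] ∧ V₂ = []
  /-- there is no cut of type one half -/
  nhc : ∀ U₁ U₂ V₁ V₂, A = (U₁ ++ U₂, V₁ ++ V₂) → (∀ x ∈ U₁, iota x ∈ U₂ ∨ iota x ∈ V₁) →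
    (∀ x ∈ U₂, iota x ∈ U₁ ∨ iota x ∈ V₂) → (∀ x ∈ V₁, iota x ∈ V₂ ∨ iota x ∈ U₁) →
    (∀ x ∈ V₂, iota x ∈ V₁ ∨ iota x ∈ U₂) → False

theorem fw_of {A : WS α} (hA : OkW iota A) (hi : cset iota A = ∅)
    (hd : ¬ (Dead iota A ∨ FC iota A)) : FW iota A where
  ok := hA
  tt := by
    by_contra h
    apply hd
    left
    right
    intro t ht ht'
    exact h ⟨t, ht, ht'⟩
  bb := by
    by_contra h
    apply hd
    left
    left
    intro t ht ht'
    exact h ⟨t, ht, ht'⟩
  irr := by
    intro U₁ U₂ V₁ V₂ e h1 h2 h3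
    by_contra h4
    have h5 : (U₁.length, V₁.length) ∈ cset iota A := by
      rw [mem_cset]
      have l1 := List.length_pos_iff.2 h1
      have l2 := List.length_pos_iff.2 h2
      refine ⟨⟨l1, by simp [e], l2, by simp [e]⟩, ?_, ?_⟩
      · intro he
        apply h4
        rw [e] at he
        simp only [Prod.mk.injEq, List.length_append] at he
        exact ⟨List.length_eq_zero_iff.1 (by omega), List.length_eq_zero_iff.1 (by omega)⟩
      · intro t ht
        have e1 : A.1.take U₁.length = U₁ := by simp [e]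
        have e2 : A.2.take V₁.length = V₁ := by simp [e]
        simp only [e1, e2] at ht ⊢
        exact h3 t ht
    rw [hi] at h5
    simp at h5
  nhc := by
    intro U₁ U₂ V₁ V₂ e h1 h2 h3 h4
    apply hd
    right
    refine ⟨U₁, U₂, V₁, V₂, e, ?_, ?_⟩
    · intro t ht
      rw [List.mem_append] at ht ⊢
      rcases ht with ht | ht
      · exact h1 t ht
      · exact (h4 t ht).symm
    · intro t ht
      rw [List.mem_append] at ht ⊢
      rcases ht with ht | ht
      · exact h2 t ht
      · exact (h3 t ht).symm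

/-- A step to a state which satisfies `FW`. -/
def FStep (iota : α → α) (X Y : List α × List α) : Prop :=
  (∃ b, stepW iota b X = some Y) ∧ FW iota Y

theorem irr_main {f M : ℕ}
    (hf : ∀ A B : WS α, lenW A ≤ M → FW iota A → ReflTransGen (FStep iota) A B →
      PW iota f A B)
    {A B : WS α} (hA : OkW iota A) (hM : lenW A ≤ M) (hi : cset iota A = ∅)
    (h : ReflTransGen (Wk iota) A B) : PW iota (f + 2 * M + 1) A B := by
  have hirr : ∀ X, ReflTransGen (Wk iota) A X → cset iota X = ∅ := by
    intro X hX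
    induction hX with
    | refl => exact hi
    | tail h1 h2 ih =>
      have := card_cset_step (ok_rtg hA h1) h2
      rw [ih] at this
      simpa using this
  have hdf : ∀ X Y, OkW iota X → (Dead iota X ∨ FC iota X) → ReflTransGen (Wk iota) X Y →
      PW iota (2 * lenW X) X Y := by
    intro X Y hX hd hXY
    rcases hd with hd | hd
    · exact (hd.pw hXY hX).mono (by omega)
    · exact hd.pw hXY hX
  by_cases hd : Dead iota A ∨ FC iota A
  · exact (hdf A B hA hd h).mono (by omega)
  · have key : ∀ Y, ReflTransGen (Wk iota) A Y → ReflTransGen (FStep iota) A Y ∨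
        ∃ C D, ReflTransGen (FStep iota) A C ∧ Wk iota C D ∧ (Dead iota D ∨ FC iota D) ∧
          ReflTransGen (Wk iota) D Y := by
      intro Y hY
      induction hY with
      | refl => exact Or.inl ReflTransGen.refl
      | @tail Y Z h1 h2 ih =>
        rcases ih with ih | ⟨C, D, h3, h4, h5, h6⟩
        · by_cases hZ : Dead iota Z ∨ FC iota Z
          · exact Or.inr ⟨Y, Z, ih, h2, hZ, ReflTransGen.refl⟩
          · exact Or.inl (ih.tail ⟨wk_iff.1 h2,
              fw_of (h2.ok (ok_rtg hA h1)) (hirr Z (h1.tail h2)) hZ⟩)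
        · exact Or.inr ⟨C, D, h3, h4, h5, h6.tail h2⟩
    have hFA := fw_of hA hi hd
    rcases key B h with h1 | ⟨C, D, h3, h4, h5, h6⟩
    · exact (hf A B hM hFA h1).mono (by omega)
    · have h7 := hf A C hM hFA h3
      have hAC := h7.rtg
      have hl1 := rtg_len hA hAC
      have hl2 := h4.len (ok_rtg hA hAC)
      have h8 := hdf D B (h4.ok (ok_rtg hA hAC)) h5 h6
      exact (h7.trans (PW.win h4 h8)).mono (by omega)

end Pool.Agent.QuadEq.Star
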