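import Mathlib

/-!
# The word form of the star model

A state consists of two words `P` and `Q` of tokens and a pointer `m`.  There is a fixed pairing
`lam` of the tokens.  A T step takes the first token of `Q` and puts it right after `m`, and a B
step is the mirror image.
-/

namespace Pool.Agent.QuadEq.Star

variable {α β : Type*} [DecidableEq α] [DecidableEq β]

/-- Insertion of the word `Z` right after `m`. -/
def insL (m : α) (Z : List α) : List α → List α
  | [] => []
  | a :: l => if a = m then a :: (Z ++ l) else a :: insL m Z l

/-- A state. -/
structure St (α : Type*) where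
  /-- the top word -/
  P : List α
  /-- the bottom word -/
  Q : List α
  /-- the top pointer -/
  m : α
deriving DecidableEq

/-- The mirror image of a state. -/
def St.swap (lam : α → α) (S : St α) : St α := ⟨S.Q, S.P, lam S.m⟩

/-- A T step. -/
def tS (S : St α) : Option (St α) :=
  match S.Q with
  | [] => none
  | v :: Q => if v = S.m ∨ Q = [] then none else some ⟨insL S.m [v] S.P, insL S.m [v] Q, v⟩

/-- A B step. -/
def bS (lam : α → α) (S : St α) : Option (St α) := (tS (S.swap lam)).map (St.swap lam)

/-- A step: `true` is T and `false` is B. -/
def step (lam : α → α) (b : Bool) (S : St α) : Option (St α) := bif b then tS S else bS lam S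

/-- The execution of a word of moves. -/
def exec (lam : α → α) : List Bool → St α → Option (St α)
  | [], S => some S
  | b :: w, S => (step lam b S).bind (exec lam w)

/-- A word of moves which are all equal leads from the first state to the second one. -/
def Run (lam : α → α) (S S' : St α) : Prop :=
  ∃ b k, exec lam (List.replicate k b) S = some S'

/-- A path with `k` runs. -/
def Runs (lam : α → α) : ℕ → St α → St α → Prop
  | 0, S, S' => S = S'
  | k + 1, S, S' => ∃ S₁, Run lam S S₁ ∧ Runs lam k S₁ S'

/-- The conditions on a state: every token occurs once, the words end with `e` and `f`, they are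
closed under the pairing, and the pointer is a token which is not `e` and not `f`. -/
structure Ok (lam : α → α) (e f : α) (S : St α) : Prop where
  /-- The pairing is an involution on the tokens. -/
  inv : ∀ x ∈ S.P ++ S.Q, lam (lam x) = x
  /-- The pairing has no fixed token. -/
  ne : ∀ x ∈ S.P ++ S.Q, lam x ≠ x
  /-- The words are closed under the pairing. -/
  mem : ∀ x ∈ S.P ++ S.Q, lam x ∈ S.P ++ S.Q
  /-- The partner of `e` is `f`. -/
  lef : lam e = f
  /-- Every token occurs once. -/
  nd : (S.P ++ S.Q).Nodup
  /-- The top word ends with `e`. -/
  le : S.P.getLast? = some e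
  /-- The bottom word ends with `f`. -/
  lf : S.Q.getLast? = some f
  /-- The pointer is a token. -/
  pm : S.m ∈ S.P ++ S.Q
  /-- The pointer is not `e`. -/
  pe : S.m ≠ e
  /-- The pointer is not `f`. -/
  pf : S.m ≠ f

/-- The restriction of a state. -/
def St.res (Y : α → Bool) (S : St α) : St α := ⟨S.P.filter Y, S.Q.filter Y, S.m⟩

/-- The relabelling of a state. -/
def St.map (φ : α → β) (S : St α) : St β := ⟨S.P.map φ, S.Q.map φ, φ S.m⟩

end Pool.Agent.QuadEq.Star
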