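import Pool.Agent.Lib.MP_b7851d_lc.Star.Lift

/-!
# Lifting in block form

`expand blk s` = every token `a` of the small state `s` replaced by `blk a ++ [a]`.  Every state `S`
is `expand blk (S.res A)` for a set `A` of tokens containing `e`, `f` (`exists_expand`), and runs
`s → t` of small states lift to runs `expand blk s → expand blk t` (`Run.lift`, `Runs.lift`): same
number of runs, same blocks, forward and backward.
-/

set_option linter.unusedSectionVars false
set_option linter.unusedVariables false

namespace Pool.Agent.QuadEq.Star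

variable {α β : Type*} [DecidableEq α] [DecidableEq β] {lam : α → α} {e f : α}

/-! ### Insertion -/

theorem insL_append_left {m : α} {Z : List α} : ∀ {l l' : List α}, m ∈ l →
    insL m Z (l ++ l') = insL m Z l ++ l'
  | [], _, h => by simp at h
  | a :: l, l', h => by
    rw [List.cons_append, insL, insL]
    by_cases h1 : a = m
    · rw [if_pos h1, if_pos h1]; simp
    · rw [if_neg h1, if_neg h1, insL_append_left (by
        rcases List.mem_cons.1 h with h | h
        · exact absurd h.symm h1
        · exact h)]
      rfl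

theorem mem_insL {m z : α} {Z : List α} : ∀ {l : List α}, z ∈ insL m Z l → z ∈ Z ∨ z ∈ l
  | [], h => by simp [insL] at h
  | a :: l, h => by
    rw [insL] at h
    by_cases h1 : a = m
    · rw [if_pos h1] at h
      simp only [List.mem_cons, List.mem_append] at h ⊢
      tauto
    · rw [if_neg h1] at h
      rcases List.mem_cons.1 h with h | h
      · exact Or.inr (by simp [h])
      · rcases mem_insL h with h | h
        · exact Or.inl h
        · exact Or.inr (by simp [h])

theorem insL_getLast? {m x : α} {Z : List α} : ∀ {l : List α}, l.getLast? = some x → m ≠ x →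
    (insL m Z l).getLast? = some x
  | [], h, _ => by simp at h
  | [a], h, hm => by
    have : a = x := by simpa using h
    subst this
    rw [insL, if_neg (fun h' => hm h'.symm)]
    rfl
  | a :: b :: l, h, hm => by
    have h' : (b :: l).getLast? = some x := by simpa [List.getLast?_cons_cons] using h
    rw [insL]
    by_cases h1 : a = m
    · rw [if_pos h1, List.getLast?_cons, List.getLast?_append, h']
      simp
    · rw [if_neg h1, List.getLast?_cons, insL_getLast? h' hm]
      simp

/-- Two insertions in succession. -/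
theorem insL_insL {m v : α} {w : List α} : ∀ {l : List α}, v ∉ l → v ≠ m →
    insL v w (insL m [v] l) = insL m (v :: w) l
  | [], _, _ => rfl
  | a :: l, h, hm => by
    have ha : a ≠ v := fun h' => h (by simp [h'])
    have hl : v ∉ l := fun h' => h (by simp [h'])
    rw [insL, insL]
    by_cases h1 : a = m
    · rw [if_pos h1, if_pos h1, insL, if_neg ha]
      simp [insL]
    · rw [if_neg h1, if_neg h1, insL, if_neg ha, insL_insL hl hm]

/-! ### Steps -/

theorem St.ext' {S S' : St α} (h1 : S.P = S'.P) (h2 : S.Q = S'.Q) (h3 : S.m = S'.m) : S = S' := by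
  cases S; cases S'; simp_all

theorem swap_swap_eq {S : St α} (h : lam (lam S.m) = S.m) : (S.swap lam).swap lam = S :=
  St.ext' rfl rfl h

theorem tS_perm {S S' : St α} (h : tS S = some S') (hn : (S.P ++ S.Q).Nodup)
    (hm : S.m ∈ S.P ++ S.Q) : (S'.P ++ S'.Q).Perm (S.P ++ S.Q) := by
  obtain ⟨v, Q, h1, h2, h3, rfl⟩ := tS_eq_some.1 h
  rw [h1] at hn hm ⊢
  simp only [List.mem_append, List.mem_cons] at hm
  rw [List.nodup_append] at hn
  rcases hm with hm | hm | hm
  · rw [insL_not_mem [v] (l := Q) (fun h => hn.2.2 _ hm _ (List.mem_cons_of_mem _ h) rfl)]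
    refine ((insL_perm [v] hm).append_right Q).trans ?_
    exact List.perm_middle.symm
  · exact absurd hm.symm h2
  · rw [insL_not_mem [v] (l := S.P) (fun h => hn.2.2 _ h _ (List.mem_cons_of_mem _ hm) rfl)]
    exact (insL_perm [v] hm).append_left S.P

theorem Ok.tS {S S' : St α} (hS : Ok lam e f S) (h : tS S = some S') : Ok lam e f S' := by
  have hp := tS_perm h hS.nd hS.pm
  obtain ⟨v, Q, h1, h2, h3, rfl⟩ := tS_eq_some.1 h
  have hlf := hS.lf
  have hnd := hS.nd
  rw [h1] at hlf hnd
  have hlf' : Q.getLast? = some f := by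
    cases Q with
    | nil => exact absurd rfl h3
    | cons a l => simpa [List.getLast?_cons_cons] using hlf
  refine ⟨fun x hx => hS.inv x (hp.mem_iff.1 hx), fun x hx => hS.ne x (hp.mem_iff.1 hx),
    fun x hx => hp.mem_iff.2 (hS.mem x (hp.mem_iff.1 hx)), hS.lef, hp.nodup_iff.2 hS.nd,
    insL_getLast? hS.le hS.pe, insL_getLast? hlf' hS.pf, hp.mem_iff.2 (by rw [h1]; simp), ?_, ?_⟩
  · rintro rfl
    rw [List.nodup_append] at hnd
    exact hnd.2.2 _ (List.mem_of_getLast? hS.le) _ (by simp) rfl
  · rintro rfl
    rw [List.nodup_append, List.nodup_cons] at hnd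
    exact hnd.2.1.1 (List.mem_of_getLast? hlf')

theorem bS_iff {S S' : St α} : bS lam S = some S' ↔
    ∃ R, tS (S.swap lam) = some R ∧ S' = R.swap lam := by
  simp only [bS, Option.map_eq_some_iff]
  constructor
  · rintro ⟨R, h1, h2⟩; exact ⟨R, h1, h2.symm⟩
  · rintro ⟨R, h1, h2⟩; exact ⟨R, h1, h2.symm⟩

theorem Ok.bS {S S' : St α} (hS : Ok lam e f S) (h : bS lam S = some S') : Ok lam e f S' := by
  obtain ⟨R, h1, rfl⟩ := bS_iff.1 h
  exact (hS.swap.tS h1).swap

theorem Ok.step {b : Bool} {S S' : St α} (hS : Ok lam e f S) (h : step lam b S = some S') :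
    Ok lam e f S' := by
  cases b
  · exact hS.bS h
  · exact hS.tS h

theorem step_perm {b : Bool} {S S' : St α} (hS : Ok lam e f S) (h : step lam b S = some S') :
    (S'.P ++ S'.Q).Perm (S.P ++ S.Q) := by
  cases b
  · obtain ⟨R, h1, rfl⟩ := bS_iff.1 h
    have := tS_perm h1 hS.swap.nd hS.swap.pm
    exact (List.perm_append_comm.trans this).trans List.perm_append_comm
  · exact tS_perm h hS.nd hS.pm

theorem exec_cons (b : Bool) (w : List Bool) (S : St α) :
    exec lam (b :: w) S = (step lam b S).bind (exec lam w) := rfl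

theorem Ok.exec : ∀ {w : List Bool} {S S' : St α}, Ok lam e f S → exec lam w S = some S' →
    Ok lam e f S' ∧ (S'.P ++ S'.Q).Perm (S.P ++ S.Q)
  | [], S, S', hS, h => by
    obtain rfl : S = S' := by simpa [Star.exec] using h
    exact ⟨hS, List.Perm.refl _⟩
  | b :: w, S, S', hS, h => by
    rw [exec_cons, Option.bind_eq_some_iff] at h
    obtain ⟨S₁, h1, h2⟩ := h
    obtain ⟨h3, h4⟩ := Ok.exec (hS.step h1) h2
    exact ⟨h3, h4.trans (step_perm hS h1)⟩

theorem Ok.runs : ∀ {k : ℕ} {S S' : St α}, Ok lam e f S → Runs lam k S S' →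
    Ok lam e f S' ∧ (S'.P ++ S'.Q).Perm (S.P ++ S.Q)
  | 0, S, S', hS, h => by
    obtain rfl : S = S' := h
    exact ⟨hS, List.Perm.refl _⟩
  | k + 1, S, S', hS, h => by
    obtain ⟨S₁, ⟨b, n, h1⟩, h2⟩ := h
    obtain ⟨h3, h4⟩ := hS.exec h1
    obtain ⟨h5, h6⟩ := Ok.runs h3 h2
    exact ⟨h5, h6.trans h4⟩

theorem Runs.single {S S' : St α} (h : Run lam S S') : Runs lam 1 S S' := ⟨S', h, rfl⟩

theorem Runs.succ : ∀ {k : ℕ} {S S' : St α}, Runs lam k S S' → Runs lam (k + 1) S S' :=
  fun h => h.trans (Runs.single (Run.refl _))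

/-! ### Runs of one letter, and the mirror image -/

/-- The execution of `T` steps. -/
theorem exec_T_succ (k : ℕ) (S : St α) :
    exec lam (List.replicate (k + 1) true) S = (tS S).bind (exec lam (List.replicate k true)) := rfl

theorem exec_B_succ (k : ℕ) (S : St α) :
    exec lam (List.replicate (k + 1) false) S =
      (bS lam S).bind (exec lam (List.replicate k false)) := rfl

/-- The mirror image of a run. -/
theorem exec_swapT : ∀ (k : ℕ) {S S' : St α}, Ok lam e f S →
    exec lam (List.replicate k true) (S.swap lam) = some S' →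
    exec lam (List.replicate k false) S = some (S'.swap lam)
  | 0, S, S', hS, h => by
    obtain rfl : S.swap lam = S' := by simpa [exec] using h
    rw [hS.swap_swap]; rfl
  | k + 1, S, S', hS, h => by
    rw [exec_T_succ, Option.bind_eq_some_iff] at h
    obtain ⟨R, h1, h2⟩ := h
    have hR := hS.swap.tS h1
    have h3 : bS lam S = some (R.swap lam) := bS_iff.2 ⟨R, h1, rfl⟩
    rw [exec_B_succ, h3, Option.bind_some]
    refine exec_swapT k (hS.bS h3) ?_
    rwa [hR.swap_swap]

theorem runT : ∀ (w : List α) (v m : α) (P Q : List α), Q ≠ [] → (v :: w).Nodup →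
    (∀ z ∈ v :: w, z ∉ P) → (∀ z ∈ v :: w, z ∉ Q) → m ∉ v :: w →
    exec lam (List.replicate (w.length + 1) true) ⟨P, v :: w ++ Q, m⟩ =
      some ⟨insL m (v :: w) P, insL m (v :: w) Q, (v :: w).getLast (by simp)⟩
  | [], v, m, P, Q, hQ, _, _, _, hm => by
    have hv : v ≠ m := fun h => hm (by simp [h])
    rw [exec_T_succ, tS_eq_some.2 ⟨v, Q, rfl, hv, hQ, rfl⟩]
    rfl
  | u :: w, v, m, P, Q, hQ, hn, hP, hQ', hm => by
    have hv : v ≠ m := fun h => hm (by simp [h])
    have hmw : m ∉ u :: w := fun h' => hm (List.mem_cons_of_mem _ h')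
    have hvw : v ∉ u :: w := (List.nodup_cons.1 hn).1
    have h1 : tS (⟨P, v :: u :: w ++ Q, m⟩ : St α) =
        some ⟨insL m [v] P, u :: w ++ insL m [v] Q, v⟩ := by
      refine tS_eq_some.2 ⟨v, u :: w ++ Q, rfl, hv, by simp, ?_⟩
      rw [insL_append_right _ hmw]
    have h3 := runT w u v (insL m [v] P) (insL m [v] Q) (insL_ne_nil [v] hQ)
      (List.nodup_cons.1 hn).2
      (fun z hz h => by
        rcases mem_insL h with h | h
        · exact hvw ((List.mem_singleton.1 h) ▸ hz)
        · exact hP z (List.mem_cons_of_mem _ hz) h)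
      (fun z hz h => by
        rcases mem_insL h with h | h
        · exact hvw ((List.mem_singleton.1 h) ▸ hz)
        · exact hQ' z (List.mem_cons_of_mem _ hz) h) hvw
    rw [insL_insL (hP v (by simp)) hv, insL_insL (hQ' v (by simp)) hv] at h3
    rw [List.length_cons, exec_T_succ, h1, Option.bind_some, h3]
    simp

/-! ### Lifting -/

/-- Every token preceded by its block. -/
def expL (blk : α → List α) (l : List α) : List α := l.flatMap fun a => blk a ++ [a]

/-- The state with blocks. -/
def expand (blk : α → List α) (S : St α) : St α := ⟨expL blk S.P, expL blk S.Q, S.m⟩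

theorem expL_cons (blk : α → List α) (a : α) (l : List α) :
    expL blk (a :: l) = blk a ++ a :: expL blk l := by simp [expL]

theorem expL_append (blk : α → List α) (l l' : List α) :
    expL blk (l ++ l') = expL blk l ++ expL blk l' := by simp [expL]

theorem expL_perm {blk : α → List α} {l l' : List α} (h : l.Perm l') :
    (expL blk l).Perm (expL blk l') := h.flatMap_right _

theorem mem_expL {blk : α → List α} {z : α} {l : List α} :
    z ∈ expL blk l ↔ z ∈ l ∨ ∃ a ∈ l, z ∈ blk a := by
  simp only [expL, List.mem_flatMap, List.mem_append, List.mem_singleton]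
  constructor
  · rintro ⟨a, ha, h | h⟩
    · exact Or.inr ⟨a, ha, h⟩
    · subst h; exact Or.inl ha
  · rintro (h | ⟨a, ha, h⟩)
    · exact ⟨z, h, Or.inr rfl⟩
    · exact ⟨a, ha, Or.inl h⟩

/-- In a word without repetitions the blocks contain no token of the small word. -/
theorem not_mem_blk {blk : α → List α} {l : List α} (hn : (expL blk l).Nodup) {a b : α}
    (ha : a ∈ l) (hb : b ∈ l) : b ∉ blk a := by
  intro h
  obtain ⟨l1, l2, rfl⟩ := List.append_of_mem ha
  have h1 : (expL blk (l1 ++ a :: l2)).Perm (blk a ++ (a :: (expL blk l1 ++ expL blk l2))) := by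
    rw [expL_append, expL_cons]
    refine (List.perm_append_comm_assoc _ _ _).trans ?_
    exact List.Perm.append_left _ List.perm_middle
  have h2 := h1.nodup_iff.1 hn
  rw [List.nodup_append] at h2
  refine h2.2.2 b h b ?_ rfl
  simp only [List.mem_cons, List.mem_append] at hb ⊢
  rcases hb with hb | hb | hb
  · exact Or.inr (Or.inl (mem_expL.2 (Or.inl hb)))
  · exact Or.inl hb
  · exact Or.inr (Or.inr (mem_expL.2 (Or.inl hb)))

theorem expL_insL {blk : α → List α} {m v : α} : ∀ {l : List α}, (∀ a ∈ l, m ∉ blk a) →
    expL blk (insL m [v] l) = insL m (blk v ++ [v]) (expL blk l)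
  | [], _ => rfl
  | a :: l, h => by
    have hl := fun b hb => h b (List.mem_cons_of_mem _ hb)
    rw [insL, expL_cons, insL_append_right _ (h a (by simp)), insL]
    by_cases h1 : a = m
    · rw [if_pos h1, if_pos h1, expL_cons, List.singleton_append, expL_cons]
      simp
    · rw [if_neg h1, if_neg h1, expL_cons, expL_insL hl]

theorem expL_getLast? {blk : α → List α} {x : α} {l : List α} (h : l.getLast? = some x) :
    (expL blk l).getLast? = some x := by
  obtain ⟨l', rfl⟩ := List.getLast?_eq_some_iff.1 h
  rw [expL_append, expL_cons, List.getLast?_append]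
  simp [expL]

/-- Lifting of a step `T`. -/
theorem tS_lift {blk : α → List α} {s t : St α} (h : tS s = some t)
    (hn : (expL blk (s.P ++ s.Q)).Nodup) (hm : s.m ∈ s.P ++ s.Q) :
    ∃ k, k + 1 ≤ (expL blk (s.P ++ s.Q)).length ∧
      exec lam (List.replicate (k + 1) true) (expand blk s) = some (expand blk t) := by
  obtain ⟨P, Q', m⟩ := s
  obtain ⟨v, Q, rfl, hv, hQ, rfl⟩ := tS_eq_some.1 h
  dsimp only at hn hm hv ⊢
  have hmb : ∀ a ∈ P ++ v :: Q, m ∉ blk a := fun a ha => not_mem_blk hn ha hm
  have e1 : expL blk (P ++ v :: Q) = expL blk P ++ (blk v ++ [v] ++ expL blk Q) := by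
    rw [expL_append, expL_cons]; simp
  obtain ⟨u, w, huw⟩ : ∃ u w, blk v ++ [v] = u :: w := by
    cases hb : blk v with
    | nil => exact ⟨v, [], rfl⟩
    | cons a l => exact ⟨a, l ++ [v], rfl⟩
  have e4 : w.length + 1 = (blk v ++ [v]).length := by rw [huw]; simp
  refine ⟨w.length, ?_, ?_⟩
  · rw [e4, e1]
    simp only [List.length_append]
    omega
  rw [e1, List.nodup_append, List.nodup_append] at hn
  obtain ⟨hnP, ⟨hnv, hnQ, hvQ⟩, hPv⟩ := hn
  have hmv : m ∉ blk v ++ [v] := by
    simp only [List.mem_append, List.mem_singleton, not_or]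
    exact ⟨hmb v (by simp), fun h => hv h.symm⟩
  have key := runT (lam := lam) w u m (expL blk P) (expL blk Q)
    (by
      cases Q with
      | nil => exact absurd rfl hQ
      | cons a l => rw [expL_cons]; simp)
    (huw ▸ hnv)
    (fun z hz h => hPv z h z (by
      rw [← huw] at hz
      exact List.mem_append_left _ hz) rfl)
    (fun z hz h => hvQ z (huw ▸ hz) z h rfl) (huw ▸ hmv)
  have e2 : (u :: w).getLast (by simp) = v := by
    simp only [← huw]
    simp
  rw [e2, ← huw, ← expL_insL (fun a ha => hmb a (by simp [ha])),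
    ← expL_insL (fun a ha => hmb a (by simp [ha]))] at key
  have e3 : (⟨expL blk P, (blk v ++ [v]) ++ expL blk Q, m⟩ : St α) =
      expand blk ⟨P, v :: Q, m⟩ := by
    simp [expand, expL_cons]
  rw [e3] at key
  exact key

/-- An expanded state is as good as the small one. -/
theorem Ok.expand {blk : α → List α} {s : St α} (hs : Ok lam e f s)
    (hn : (expL blk (s.P ++ s.Q)).Nodup)
    (hi : ∀ x ∈ expL blk (s.P ++ s.Q), lam (lam x) = x)
    (hne : ∀ x ∈ expL blk (s.P ++ s.Q), lam x ≠ x)
    (hc : ∀ x ∈ expL blk (s.P ++ s.Q), lam x ∈ expL blk (s.P ++ s.Q)) :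
    Ok lam e f (expand blk s) := by
  have hx : ∀ x, x ∈ (Star.expand blk s).P ++ (Star.expand blk s).Q ↔
      x ∈ expL blk (s.P ++ s.Q) := fun x => by
    rw [expL_append]; rfl
  refine ⟨fun x h => hi x ((hx x).1 h), fun x h => hne x ((hx x).1 h),
    fun x h => (hx _).2 (hc x ((hx x).1 h)), hs.lef, ?_, expL_getLast? hs.le, expL_getLast? hs.lf,
    (hx _).2 (mem_expL.2 (Or.inl hs.pm)), hs.pe, hs.pf⟩
  rw [expL_append] at hn
  exact hn

/-- Lifting of a step. -/
theorem step_lift {blk : α → List α} {b : Bool} {s t : St α} (h : step lam b s = some t)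
    (hs : Ok lam e f s) (hS : Ok lam e f (expand blk s)) :
    ∃ k, k + 1 ≤ (expL blk (s.P ++ s.Q)).length ∧
      exec lam (List.replicate (k + 1) b) (expand blk s) = some (expand blk t) := by
  have hn : (expL blk (s.P ++ s.Q)).Nodup := by
    rw [expL_append]; exact hS.nd
  cases b
  · obtain ⟨r, h1, rfl⟩ := bS_iff.1 h
    have hp : (s.Q ++ s.P).Perm (s.P ++ s.Q) := List.perm_append_comm
    obtain ⟨k, hk, h2⟩ := tS_lift (lam := lam) (blk := blk) h1
      ((expL_perm hp).nodup_iff.2 hn) hs.swap.pm
    refine ⟨k, ?_, ?_⟩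
    · have := (expL_perm (blk := blk) hp).length_eq
      simp only [St.swap] at hk
      omega
    · exact exec_swapT (k + 1) hS h2
  · exact tS_lift h hn hs.pm

theorem expand_perm {blk : α → List α} {s t : St α} (h : (t.P ++ t.Q).Perm (s.P ++ s.Q)) :
    ((expand blk t).P ++ (expand blk t).Q).Perm ((expand blk s).P ++ (expand blk s).Q) := by
  have := expL_perm (blk := blk) h
  rwa [expL_append, expL_append] at this

/-- Lifting of a word of moves. -/
theorem exec_lift {blk : α → List α} : ∀ {w : List Bool} {s t : St α}, exec lam w s = some t →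
    Ok lam e f s → Ok lam e f (expand blk s) →
    Runs lam w.length (expand blk s) (expand blk t) ∧
    ∃ w' : List Bool, exec lam w' (expand blk s) = some (expand blk t) ∧
      w'.length ≤ w.length * (expL blk (s.P ++ s.Q)).length
  | [], s, t, h, hs, hS => by
    obtain rfl : s = t := by simpa [exec] using h
    exact ⟨rfl, [], rfl, by simp⟩
  | b :: w, s, t, h, hs, hS => by
    rw [exec_cons, Option.bind_eq_some_iff] at h
    obtain ⟨s₁, h1, h2⟩ := h
    obtain ⟨k, hk, h3⟩ := step_lift h1 hs hS
    obtain ⟨hS₁, -⟩ := hS.exec h3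
    obtain ⟨h4, w', h5, h6⟩ := exec_lift h2 (hs.step h1) hS₁
    rw [(expL_perm (step_perm hs h1)).length_eq] at h6
    refine ⟨⟨expand blk s₁, ⟨b, k + 1, h3⟩, h4⟩, List.replicate (k + 1) b ++ w', ?_, ?_⟩
    · rw [exec_append, h3, Option.bind_some, h5]
    · rw [List.length_append, List.length_replicate, List.length_cons, Nat.succ_mul]
      omega

/-! ### Restriction -/

theorem exists_blk (A : α → Bool) : ∀ (n : ℕ) (l : List α), l.length ≤ n → l.Nodup →
    (∀ h : l ≠ [], A (l.getLast h) = true) →
    ∃ blk : α → List α, expL blk (l.filter A) = l ∧ ∀ a, ∀ z ∈ blk a, A z = false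
  | 0, l, hl, _, _ => by
    have : l = [] := List.length_eq_zero_iff.1 (by omega)
    subst this
    exact ⟨fun _ => [], rfl, fun a z hz => by simp at hz⟩
  | n + 1, l, hl, hn, hlast => by
    by_cases h0 : l = []
    · subst h0
      exact ⟨fun _ => [], rfl, fun a z hz => by simp at hz⟩
    -- the first token in A
    set w := l.takeWhile (fun z => !A z) with hw
    have hd : l = w ++ l.dropWhile (fun z => !A z) := (List.takeWhile_append_dropWhile).symm
    have hwA : ∀ z ∈ w, A z = false := by
      intro z hz
      have := List.mem_takeWhile_imp hz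
      simpa using this
    cases hd' : l.dropWhile (fun z => !A z) with
    | nil =>
      exfalso
      rw [hd', List.append_nil] at hd
      have h1 := hlast h0
      have h2 := hwA (l.getLast h0) (by rw [← hd]; exact List.getLast_mem h0)
      rw [h1] at h2
      exact absurd h2 (by simp)
    | cons a r =>
      have haA : A a = true := by
        have := List.head_dropWhile_not (fun z => !A z) (l := l) (by rw [hd']; simp)
        simp only [hd', List.head_cons] at this
        simpa using this
      rw [hd'] at hd
      have hlen : r.length ≤ n := by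
        have := congrArg List.length hd
        simp at this
        omega
      have hn' : (w ++ a :: r).Nodup := hd ▸ hn
      rw [List.nodup_append] at hn'
      obtain ⟨hnw, hnar, hdis⟩ := hn'
      have har : a ∉ r := (List.nodup_cons.1 hnar).1
      have hr : ∀ h : r ≠ [], A (r.getLast h) = true := by
        intro h
        have h1 := hlast h0
        have h2 : l.getLast h0 = r.getLast h := by
          simp only [hd]
          rw [List.getLast_append_of_ne_nil _ (by simp), List.getLast_cons h]
        rwa [h2] at h1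
      obtain ⟨blk, hb1, hb2⟩ := exists_blk A n r hlen (List.nodup_cons.1 hnar).2 hr
      refine ⟨Function.update blk a w, ?_, ?_⟩
      · have e1 : l.filter A = a :: r.filter A := by
          rw [hd, List.filter_append, List.filter_cons_of_pos haA]
          rw [List.filter_eq_nil_iff.2 (fun z hz => by simp [hwA z hz])]
          rfl
        rw [e1, expL_cons, Function.update_self]
        have e2 : expL (Function.update blk a w) (r.filter A) = expL blk (r.filter A) := by
          unfold expL
          refine List.flatMap_congr fun b hb => ?_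
          have : b ≠ a := fun h => har (h ▸ (List.mem_filter.1 hb).1)
          rw [Function.update_of_ne this]
        rw [e2, hb1]
        exact hd.symm
      · intro b z hz
        by_cases hba : b = a
        · subst hba
          rw [Function.update_self] at hz
          exact hwA z hz
        · rw [Function.update_of_ne hba] at hz
          exact hb2 b z hz

/-- Every state is its restriction with blocks, when the last tokens stay. -/
theorem exists_expand {A : α → Bool} {S : St α} (hS : Ok lam e f S) (he : A e = true)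
    (hf : A f = true) :
    ∃ blk : α → List α, expand blk (S.res A) = S ∧ ∀ a, ∀ z ∈ blk a, A z = false := by
  have hn := hS.nd
  simp only [List.nodup_append] at hn
  have hP : ∀ h : S.P ≠ [], A (S.P.getLast h) = true := fun h => by
    have := hS.le
    rw [List.getLast?_eq_some_getLast h] at this
    rwa [Option.some.inj this]
  have hQ : ∀ h : S.Q ≠ [], A (S.Q.getLast h) = true := fun h => by
    have := hS.lf
    rw [List.getLast?_eq_some_getLast h] at this
    rwa [Option.some.inj this]
  obtain ⟨b1, h1, h1'⟩ := exists_blk A _ S.P le_rfl hn.1 hP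
  obtain ⟨b2, h2, h2'⟩ := exists_blk A _ S.Q le_rfl hn.2.1 hQ
  refine ⟨fun a => if a ∈ S.P then b1 a else b2 a, ?_, ?_⟩
  · have e1 : expL (fun a => if a ∈ S.P then b1 a else b2 a) (S.P.filter A) = S.P := by
      refine Eq.trans ?_ h1
      unfold expL
      refine List.flatMap_congr fun b hb => ?_
      dsimp only
      rw [if_pos (List.mem_filter.1 hb).1]
    have e2 : expL (fun a => if a ∈ S.P then b1 a else b2 a) (S.Q.filter A) = S.Q := by
      refine Eq.trans ?_ h2
      unfold expL
      refine List.flatMap_congr fun b hb => ?_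
      dsimp only
      rw [if_neg]
      intro h
      exact hn.2.2 b h b (List.mem_filter.1 hb).1 rfl
    exact St.ext' e1 e2 rfl
  · intro a z hz
    dsimp only at hz
    split_ifs at hz
    · exact h1' a z hz
    · exact h2' a z hz

/-- The restriction of an expanded state. -/
theorem res_expand {A : α → Bool} {blk : α → List α} (hb : ∀ a, ∀ z ∈ blk a, A z = false) {s : St α}
    (hs : ∀ x ∈ s.P ++ s.Q, A x = true) : (expand blk s).res A = s := by
  have key : ∀ l : List α, (∀ x ∈ l, A x = true) → (expL blk l).filter A = l := by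
    intro l
    induction l with
    | nil => intro _; rfl
    | cons a l ih =>
      intro h
      rw [expL_cons, List.filter_append, List.filter_cons_of_pos (h a (by simp)),
        List.filter_eq_nil_iff.2 (fun z hz => by simp [hb a z hz]), ih (fun x hx => h x (by simp [hx]))]
      rfl
  exact St.ext' (key _ (fun x hx => hs x (by simp [hx]))) (key _ (fun x hx => hs x (by simp [hx]))) rfl

theorem filter_getLast? {A : α → Bool} {l : List α} {x : α} (h : l.getLast? = some x)
    (hx : A x = true) : (l.filter A).getLast? = some x := by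
  obtain ⟨l', rfl⟩ := List.getLast?_eq_some_iff.1 h
  rw [List.filter_append, List.filter_cons_of_pos hx]
  simp

theorem Ok.res' {A : α → Bool} {S : St α} (hS : Ok lam e f S)
    (hA : ∀ x, A x = true → A (lam x) = true) (he : A e = true) (hm : A S.m = true) :
    Ok lam e f (S.res A) := by
  have hf : A f = true := by rw [← hS.lef]; exact hA e he
  have hx : ∀ x, x ∈ (S.res A).P ++ (S.res A).Q ↔ x ∈ S.P ++ S.Q ∧ A x = true := fun x => by
    simp only [St.res, List.mem_append, List.mem_filter]; tauto
  refine ⟨fun x h => hS.inv x ((hx x).1 h).1, fun x h => hS.ne x ((hx x).1 h).1,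
    fun x h => (hx _).2 ⟨hS.mem x ((hx x).1 h).1, hA x ((hx x).1 h).2⟩, hS.lef, ?_,
    filter_getLast? hS.le he, filter_getLast? hS.lf hf, (hx _).2 ⟨hS.pm, hm⟩, hS.pe, hS.pf⟩
  have := hS.nd.filter A
  rwa [List.filter_append] at this

/-- LIFTING.  For a state `S` and a set `A` of tokens (closed under `lam`, containing `e`, `f` and
the pointer) there is one function `F` such that `S = F (S.res A)` and every word of moves of small
states on the same tokens lifts. -/
theorem lift_blk {A : α → Bool} {S : St α} (hS : Ok lam e f S)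
    (hA : ∀ x, A x = true → A (lam x) = true) (he : A e = true) (hm : A S.m = true) :
    ∃ F : St α → St α, F (S.res A) = S ∧
      ∀ s : St α, Ok lam e f s → (s.P ++ s.Q).Perm ((S.res A).P ++ (S.res A).Q) →
        (F s).res A = s ∧ (F s).m = s.m ∧ Ok lam e f (F s) ∧
        ((F s).P ++ (F s).Q).Perm (S.P ++ S.Q) ∧
        ∀ (w : List Bool) (t : St α), exec lam w s = some t →
          Runs lam w.length (F s) (F t) ∧
          ∃ w' : List Bool, exec lam w' (F s) = some (F t) ∧
            w'.length ≤ w.length * (S.P ++ S.Q).length := by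
  have hf : A f = true := by rw [← hS.lef]; exact hA e he
  obtain ⟨blk, h1, h2⟩ := exists_expand hS he hf
  have e1 : expL blk ((S.res A).P ++ (S.res A).Q) = S.P ++ S.Q := by
    rw [expL_append]
    conv_rhs => rw [← h1]
    rfl
  refine ⟨expand blk, h1, fun s hs hp => ?_⟩
  have hAs : ∀ x ∈ s.P ++ s.Q, A x = true := fun x hx => by
    have := hp.mem_iff.1 hx
    simp only [St.res, List.mem_append, List.mem_filter] at this
    tauto
  have h3 : (expL blk (s.P ++ s.Q)).Perm (S.P ++ S.Q) := by
    rw [← e1]; exact expL_perm hp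
  have hFs : Ok lam e f (expand blk s) := hs.expand (h3.nodup_iff.2 hS.nd)
    (fun x hx => hS.inv x (h3.mem_iff.1 hx)) (fun x hx => hS.ne x (h3.mem_iff.1 hx))
    (fun x hx => h3.mem_iff.2 (hS.mem x (h3.mem_iff.1 hx)))
  refine ⟨res_expand h2 hAs, rfl, hFs, ?_, fun w t h => ?_⟩
  · have h3' := h3
    rw [expL_append] at h3'
    exact h3'
  · obtain ⟨h4, w', h5, h6⟩ := exec_lift h hs hFs
    refine ⟨h4, w', h5, ?_⟩
    rwa [h3.length_eq] at h6

/-! ### Runs -/

/-- Lifting of a run of equal moves. -/
theorem replicate_lift {blk : α → List α} {b : Bool} : ∀ {n : ℕ} {s t : St α},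
    exec lam (List.replicate n b) s = some t → Ok lam e f s → Ok lam e f (expand blk s) →
    ∃ k, exec lam (List.replicate k b) (expand blk s) = some (expand blk t)
  | 0, s, t, h, hs, hS => by
    obtain rfl : s = t := by simpa [exec] using h
    exact ⟨0, rfl⟩
  | n + 1, s, t, h, hs, hS => by
    rw [List.replicate_succ, exec_cons, Option.bind_eq_some_iff] at h
    obtain ⟨s₁, h1, h2⟩ := h
    obtain ⟨k, hk, h3⟩ := step_lift h1 hs hS
    obtain ⟨hS₁, -⟩ := hS.exec h3
    obtain ⟨k', h4⟩ := replicate_lift h2 (hs.step h1) hS₁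
    refine ⟨k + 1 + k', ?_⟩
    rw [List.replicate_add, exec_append, h3, Option.bind_some, h4]

/-- Lifting of a run. -/
theorem Run.lift {blk : α → List α} {s t : St α} (h : Run lam s t) (hs : Ok lam e f s)
    (hS : Ok lam e f (expand blk s)) : Run lam (expand blk s) (expand blk t) := by
  obtain ⟨b, n, h⟩ := h
  obtain ⟨k, hk⟩ := replicate_lift h hs hS
  exact ⟨b, k, hk⟩

/-- Lifting of a path: the number of runs and the blocks stay the same. -/
theorem Runs.lift {blk : α → List α} : ∀ {k : ℕ} {s t : St α}, Runs lam k s t → Ok lam e f s →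
    Ok lam e f (expand blk s) → Runs lam k (expand blk s) (expand blk t)
  | 0, s, t, h, _, _ => by
    obtain rfl : s = t := h
    rfl
  | k + 1, s, t, h, hs, hS => by
    obtain ⟨s₁, h1, h2⟩ := h
    have h3 := h1.lift hs hS
    exact ⟨expand blk s₁, h3, Runs.lift h2 (h1.ok hs) (h3.ok hS)⟩

/-- The expanded state over the tokens of an expanded state with the same tokens is a state. -/
theorem Ok.expand_perm {blk : α → List α} {s t : St α} (hs : Ok lam e f s)
    (hS : Ok lam e f (Star.expand blk t)) (hp : (s.P ++ s.Q).Perm (t.P ++ t.Q)) :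
    Ok lam e f (Star.expand blk s) := by
  have h3 : (expL blk (s.P ++ s.Q)).Perm ((Star.expand blk t).P ++ (Star.expand blk t).Q) := by
    have := expL_perm (blk := blk) hp
    rwa [expL_append _ t.P] at this
  exact hs.expand (h3.nodup_iff.2 hS.nd)
    (fun x hx => hS.inv x (h3.mem_iff.1 hx)) (fun x hx => hS.ne x (h3.mem_iff.1 hx))
    (fun x hx => h3.mem_iff.2 (hS.mem x (h3.mem_iff.1 hx)))

end Pool.Agent.QuadEq.Star
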