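import Pool.Agent.Lib.MP_b7851d_lc.Star.Defs

/-!
# Runs and the lifting principle
-/

namespace Pool.Agent.QuadEq.Star

variable {α β : Type*} [DecidableEq α] [DecidableEq β]

/-! ### Insertion -/

@[simp] theorem insL_nil (m : α) (Z : List α) : insL m Z [] = [] := rfl

theorem insL_empty (m : α) (l : List α) : insL m [] l = l := by
  induction l with
  | nil => rfl
  | cons a l ih => rw [insL]; split
                   · simp
                   · rw [ih]

theorem insL_not_mem {m : α} (Z : List α) {l : List α} (h : m ∉ l) : insL m Z l = l := by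
  induction l with
  | nil => rfl
  | cons a l ih =>
    rw [insL, if_neg (fun e => h (by simp [e])), ih (fun e => h (List.mem_cons_of_mem _ e))]

theorem insL_append_right {m : α} (Z : List α) {A l : List α} (h : m ∉ A) :
    insL m Z (A ++ l) = A ++ insL m Z l := by
  induction A with
  | nil => rfl
  | cons a A ih =>
    rw [List.cons_append, insL, if_neg (fun e => h (by simp [e])),
      ih (fun e => h (List.mem_cons_of_mem _ e)), List.cons_append]

theorem insL_cons_self (m : α) (Z l : List α) : insL m Z (m :: l) = m :: (Z ++ l) := by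
  rw [insL, if_pos rfl]

theorem insL_split {m : α} (Z : List α) {A C : List α} (h : m ∉ A) :
    insL m Z (A ++ m :: C) = A ++ m :: (Z ++ C) := by
  rw [insL_append_right Z h, insL_cons_self]

theorem insL_ne_nil {m : α} (Z : List α) {l : List α} (h : l ≠ []) : insL m Z l ≠ [] := by
  cases l with
  | nil => exact absurd rfl h
  | cons a l => rw [insL]; split <;> simp

theorem insL_perm {m : α} (Z : List α) {l : List α} (h : m ∈ l) : List.Perm (insL m Z l) (Z ++ l) := by
  induction l with
  | nil => simp at h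
  | cons a l ih =>
    rw [insL]
    by_cases ha : a = m
    · rw [if_pos ha]
      exact (List.perm_middle (a := a)).symm
    · rw [if_neg ha]
      have h' : m ∈ l := by
        rcases List.mem_cons.mp h with h | h
        · exact absurd h.symm ha
        · exact h
      exact ((ih h').cons a).trans (List.perm_middle (a := a)).symm

theorem insL_filter {m : α} (Y : α → Bool) (hm : Y m = true) (Z l : List α) :
    (insL m Z l).filter Y = insL m (Z.filter Y) (l.filter Y) := by
  induction l with
  | nil => rfl
  | cons a l ih =>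
    rw [insL]
    by_cases ha : a = m
    · subst ha
      rw [if_pos rfl, List.filter_cons_of_pos hm, List.filter_append, List.filter_cons_of_pos hm,
        insL_cons_self]
    · rw [if_neg ha]
      by_cases hY : Y a = true
      · rw [List.filter_cons_of_pos hY, List.filter_cons_of_pos hY, insL, if_neg ha, ih]
      · rw [List.filter_cons_of_neg hY, List.filter_cons_of_neg hY, ih]

theorem insL_map {φ : α → β} (hφ : ∀ x y, φ x = φ y → x = y) (m : α) (Z l : List α) :
    (insL m Z l).map φ = insL (φ m) (Z.map φ) (l.map φ) := by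
  induction l with
  | nil => rfl
  | cons a l ih =>
    rw [insL, List.map_cons, insL]
    by_cases ha : a = m
    · rw [if_pos ha, if_pos (by rw [ha]), List.map_cons, List.map_append]
    · rw [if_neg ha, if_neg (fun e => ha (hφ _ _ e)), List.map_cons, ih]

/-- The last element of `m :: Z`. -/
def lst (m : α) : List α → α
  | [] => m
  | a :: Z => lst a Z

@[simp] theorem lst_append_singleton (m v : α) (Z : List α) : lst m (Z ++ [v]) = v := by
  induction Z generalizing m with
  | nil => rfl
  | cons a Z ih => exact ih a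

theorem lst_mem (m : α) (Z : List α) : lst m Z = m ∨ lst m Z ∈ Z := by
  induction Z generalizing m with
  | nil => exact Or.inl rfl
  | cons a Z ih =>
    rcases ih a with h | h
    · exact Or.inr (by rw [lst, h]; simp)
    · exact Or.inr (List.mem_cons_of_mem _ h)

theorem lst_mem_of_ne (m : α) {Z : List α} (h : Z ≠ []) : lst m Z ∈ Z := by
  cases Z with
  | nil => exact absurd rfl h
  | cons a Z =>
    rcases lst_mem a Z with h | h
    · rw [lst, h]; simp
    · exact List.mem_cons_of_mem _ h

theorem insL_lst {m v : α} {Z l : List α} (hn : (m :: Z).Nodup) (hl : ∀ z ∈ Z, z ∉ l) :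
    insL (lst m Z) [v] (insL m Z l) = insL m (Z ++ [v]) l := by
  rcases List.eq_nil_or_concat Z with rfl | ⟨Z, z, rfl⟩
  · rw [insL_empty]; rfl
  · rw [List.concat_eq_append] at *
    rw [lst_append_singleton]
    have hz : z ∉ l := hl z (by simp)
    have hzm : z ≠ m := by
      rintro rfl
      exact (List.nodup_cons.mp hn).1 (by simp)
    have hzZ : z ∉ Z := by
      have := (List.nodup_cons.mp hn).2
      rw [List.nodup_append] at this
      intro h
      exact this.2.2 z h z (by simp) rfl
    by_cases hm : m ∈ l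
    · obtain ⟨A, C, hA, rfl⟩ : ∃ A C, m ∉ A ∧ l = A ++ m :: C := by
        obtain ⟨A, C, h1, h2⟩ := List.eq_append_cons_of_mem hm
        exact ⟨A, C, h2, h1⟩
      rw [insL_split _ hA, insL_split _ hA]
      have : A ++ m :: (Z ++ [z] ++ C) = (A ++ m :: Z) ++ z :: C := by simp
      rw [this, insL_split]
      · simp
      · simp only [List.mem_append, List.mem_cons, not_or] at hz ⊢
        exact ⟨hz.1, hzm, hzZ⟩
    · rw [insL_not_mem _ hm, insL_not_mem _ hm, insL_not_mem _ hz]

/-! ### T runs -/

variable {lam : α → α} {e f : α}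

/-- A T run: the word `Z` is moved right after the pointer. -/
def TRun (S S' : St α) : Prop :=
  ∃ Z Q₂, Z ≠ [] ∧ Q₂ ≠ [] ∧ S.m ∉ Z ∧ S.Q = Z ++ Q₂ ∧
    S' = ⟨insL S.m Z S.P, insL S.m Z Q₂, lst S.m Z⟩

theorem exec_append (lam : α → α) (w w' : List Bool) (S : St α) :
    exec lam (w ++ w') S = (exec lam w S).bind (exec lam w') := by
  induction w generalizing S with
  | nil => rfl
  | cons b w ih =>
    rw [List.cons_append, exec, exec]
    cases step lam b S with
    | none => rfl
    | some S' => exact ih S'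

theorem trun_exec_aux (lam : α → α) (P : List α) (m : α) {Q₂ : List α} (hQ : Q₂ ≠ []) :
    ∀ (Z₂ Z₁ : List α), (m :: (Z₁ ++ Z₂)).Nodup → (∀ z ∈ Z₁ ++ Z₂, z ∉ P ∧ z ∉ Q₂) →
      exec lam (List.replicate Z₂.length true) ⟨insL m Z₁ P, Z₂ ++ insL m Z₁ Q₂, lst m Z₁⟩ =
        some ⟨insL m (Z₁ ++ Z₂) P, insL m (Z₁ ++ Z₂) Q₂, lst m (Z₁ ++ Z₂)⟩ := by
  intro Z₂
  induction Z₂ with
  | nil => intro Z₁ _ _; simp [exec]
  | cons v Z₂ ih =>
    intro Z₁ hn hd
    have hn1 : (m :: Z₁).Nodup := by
      rw [← List.cons_append] at hn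
      exact (List.nodup_append.mp hn).1
    have hlm : lst m Z₁ ∈ m :: Z₁ := by
      rcases lst_mem m Z₁ with h | h
      · rw [h]; simp
      · exact List.mem_cons_of_mem _ h
    have hl2 : lst m Z₁ ∉ v :: Z₂ := by
      intro h
      rw [← List.cons_append] at hn
      exact (List.nodup_append.mp hn).2.2 _ hlm _ h rfl
    have hstep : step lam true ⟨insL m Z₁ P, (v :: Z₂) ++ insL m Z₁ Q₂, lst m Z₁⟩ =
        some ⟨insL m (Z₁ ++ [v]) P, Z₂ ++ insL m (Z₁ ++ [v]) Q₂, v⟩ := by
      unfold step tS
      simp only [cond_true, List.cons_append]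
      rw [if_neg]
      · rw [insL_lst hn1 (fun z hz => (hd z (List.mem_append_left _ hz)).1),
          insL_append_right _ (fun h => hl2 (List.mem_cons_of_mem _ h)),
          insL_lst hn1 (fun z hz => (hd z (List.mem_append_left _ hz)).2)]
      · rintro (h | h)
        · exact hl2 (by rw [← h]; simp)
        · exact insL_ne_nil Z₁ hQ (List.append_eq_nil_iff.mp h).2
    rw [List.length_cons, List.replicate_succ, exec, hstep, Option.bind_some]
    have h := ih (Z₁ ++ [v]) (by simpa using hn) (by simpa using hd)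
    rw [lst_append_singleton] at h
    rw [h]
    simp

theorem TRun.exec (lam : α → α) {S S' : St α} (hn : (S.P ++ S.Q).Nodup) (h : TRun S S') :
    ∃ k, exec lam (List.replicate k true) S = some S' := by
  obtain ⟨Z, Q₂, hZ, hQ, hm, hS, rfl⟩ := h
  obtain ⟨P, Q, m⟩ := S
  simp only at hS hm hn ⊢
  subst hS
  have h1 := (List.nodup_append.mp hn).2.1
  have h := trun_exec_aux lam P m hQ Z [] (by
    rw [List.nil_append, List.nodup_cons]
    exact ⟨hm, (List.nodup_append.mp h1).1⟩) (by
    intro z hz
    rw [List.nil_append] at hz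
    refine ⟨fun h => ?_, fun h => ?_⟩
    · exact (List.nodup_append.mp hn).2.2 z h z (List.mem_append_left _ hz) rfl
    · exact (List.nodup_append.mp h1).2.2 z hz z h rfl)
  rw [insL_empty, insL_empty, List.nil_append] at h
  exact ⟨_, h⟩

/-! ### The conditions are preserved -/

theorem getLast?_insL {m x : α} {Z l : List α} (hl : l.getLast? = some x) (hx : m ≠ x) :
    (insL m Z l).getLast? = some x := by
  by_cases hm : m ∈ l
  · obtain ⟨A, C, h1, h2⟩ := List.eq_append_cons_of_mem hm
    subst h1
    rw [insL_split Z h2]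
    rcases List.eq_nil_or_concat C with rfl | ⟨C, c, rfl⟩
    · simp at hl
      exact absurd hl hx
    · rw [List.concat_eq_append] at *
      have : A ++ m :: (C ++ [c]) = (A ++ m :: C) ++ [c] := by simp
      rw [this, List.getLast?_concat] at hl
      have : A ++ m :: (Z ++ (C ++ [c])) = (A ++ m :: (Z ++ C)) ++ [c] := by simp
      rw [this, List.getLast?_concat, hl]
  · rw [insL_not_mem Z hm, hl]

theorem TRun.perm {S S' : St α} (h : TRun S S') (hm : S.m ∈ S.P ++ S.Q) (hn : (S.P ++ S.Q).Nodup) :
    List.Perm (S'.P ++ S'.Q) (S.P ++ S.Q) := by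
  obtain ⟨Z, Q₂, hZ, hQ, hmZ, hS, rfl⟩ := h
  obtain ⟨P, Q, m⟩ := S
  simp only at hS hm hn hmZ ⊢
  subst hS
  rw [List.mem_append, List.mem_append] at hm
  rcases hm with hm | hm | hm
  · have hmQ : m ∉ Q₂ := fun h =>
      (List.nodup_append.mp hn).2.2 m hm m (List.mem_append_right _ h) rfl
    rw [insL_not_mem Z hmQ]
    refine ((insL_perm Z hm).append_right Q₂).trans ?_
    have : (Z ++ P) ++ Q₂ = Z ++ (P ++ Q₂) := by simp
    rw [this]
    have : P ++ (Z ++ Q₂) = (P ++ Z) ++ Q₂ := by simp
    rw [this, ← List.append_assoc]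
    exact (List.perm_append_comm).append_right Q₂
  · exact absurd hm hmZ
  · have hmP : m ∉ P := fun h =>
      (List.nodup_append.mp hn).2.2 m h m (List.mem_append_right _ hm) rfl
    rw [insL_not_mem Z hmP]
    exact (insL_perm Z hm).append_left P

theorem Ok.swap {S : St α} (h : Ok lam e f S) : Ok lam f e (S.swap lam) := by
  have hp : ∀ x, x ∈ S.Q ++ S.P ↔ x ∈ S.P ++ S.Q := fun x => by
    rw [List.mem_append, List.mem_append, or_comm]
  have he : e ∈ S.P ++ S.Q := List.mem_append_left _ (List.mem_of_getLast? h.le)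
  refine ⟨fun x hx => h.inv x ((hp x).mp hx), fun x hx => h.ne x ((hp x).mp hx),
    fun x hx => (hp _).mpr (h.mem x ((hp x).mp hx)), ?_, ?_, h.lf, h.le,
    (hp _).mpr (h.mem _ h.pm), ?_, ?_⟩
  · rw [← h.lef]; exact h.inv e he
  · exact (List.perm_append_comm).nodup_iff.mp h.nd
  · intro h1
    apply h.pe
    have : lam (lam S.m) = lam f := by
      have : lam S.m = f := h1
      rw [this]
    rw [h.inv _ h.pm] at this
    rw [this, ← h.lef, h.inv e he]
  · intro h1
    apply h.pf
    have : lam (lam S.m) = lam e := by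
      have : lam S.m = e := h1
      rw [this]
    rw [h.inv _ h.pm] at this
    rw [this, h.lef]

theorem Ok.swap_swap {S : St α} (h : Ok lam e f S) : (S.swap lam).swap lam = S := by
  unfold St.swap
  simp only
  rw [h.inv _ h.pm]

theorem Ok.lfe {S : St α} (h : Ok lam e f S) : lam f = e := h.swap.lef

theorem TRun.ok {S S' : St α} (h : TRun S S') (hS : Ok lam e f S) : Ok lam e f S' := by
  have hp := h.perm hS.pm hS.nd
  obtain ⟨Z, Q₂, hZ, hQ, hmZ, hSQ, rfl⟩ := h
  have hpm : lst S.m Z ∈ Z := lst_mem_of_ne _ hZ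
  have hlf : Q₂.getLast? = some f := by
    have := hS.lf
    rw [hSQ] at this
    rcases List.eq_nil_or_concat Q₂ with rfl | ⟨C, c, rfl⟩
    · exact absurd rfl hQ
    · rw [List.concat_eq_append] at *
      rw [← List.append_assoc, List.getLast?_concat] at this
      rw [List.getLast?_concat, this]
  have hn := hS.nd
  rw [hSQ] at hn
  refine ⟨fun x hx => hS.inv x (hp.mem_iff.mp hx), fun x hx => hS.ne x (hp.mem_iff.mp hx),
    fun x hx => hp.mem_iff.mpr (hS.mem x (hp.mem_iff.mp hx)), hS.lef, hp.nodup_iff.mpr hS.nd,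
    getLast?_insL hS.le hS.pe, getLast?_insL hlf hS.pf, ?_, ?_, ?_⟩
  · refine hp.mem_iff.mpr ?_
    rw [hSQ]
    exact List.mem_append_right _ (List.mem_append_left _ hpm)
  · intro h1
    simp only at h1
    rw [h1] at hpm
    exact (List.nodup_append.mp hn).2.2 e (List.mem_of_getLast? hS.le) e
      (List.mem_append_left _ hpm) rfl
  · intro h1
    simp only at h1
    rw [h1] at hpm
    exact (List.nodup_append.mp (List.nodup_append.mp hn).2.1).2.2 f hpm f
      (List.mem_of_getLast? hlf) rfl

theorem tS_eq_some {S S' : St α} : tS S = some S' ↔ ∃ v Q, S.Q = v :: Q ∧ v ≠ S.m ∧ Q ≠ [] ∧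
    S' = ⟨insL S.m [v] S.P, insL S.m [v] Q, v⟩ := by
  obtain ⟨P, Q, m⟩ := S
  cases Q with
  | nil => simp [tS]
  | cons v Q =>
    unfold tS
    simp only
    constructor
    · intro h
      split at h
      · simp at h
      · rename_i hc
        rw [not_or] at hc
        exact ⟨v, Q, rfl, hc.1, hc.2, (Option.some.inj h).symm⟩
    · rintro ⟨v', Q', h1, h2, h3, rfl⟩
      obtain ⟨rfl, rfl⟩ := List.cons.inj h1
      rw [if_neg]
      rintro (h | h)
      · exact h2 h
      · exact h3 h

theorem trun_of_tS {S S' : St α} (h : tS S = some S') : TRun S S' := by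
  obtain ⟨v, Q, h1, h2, h3, rfl⟩ := tS_eq_some.mp h
  exact ⟨[v], Q, by simp, h3, by simpa using h2.symm, by simpa using h1, rfl⟩

theorem tS_ok {S S' : St α} (h : tS S = some S') (hS : Ok lam e f S) : Ok lam e f S' :=
  (trun_of_tS h).ok hS

theorem bS_eq_some {S S' : St α} (hS : Ok lam e f S) : bS lam S = some S' ↔
    Ok lam f e (S'.swap lam) ∧ tS (S.swap lam) = some (S'.swap lam) ∧
      (S'.swap lam).swap lam = S' := by
  unfold bS
  constructor
  · intro h
    obtain ⟨R, h1, rfl⟩ := Option.map_eq_some_iff.mp h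
    have hR := tS_ok h1 hS.swap
    rw [hR.swap_swap]
    exact ⟨hR, h1, rfl⟩
  · rintro ⟨_, h, h2⟩
    rw [h, Option.map_some, h2]

theorem step_ok {b : Bool} {S S' : St α} (hS : Ok lam e f S) (h : step lam b S = some S') :
    Ok lam e f S' := by
  cases b with
  | true => exact tS_ok h hS
  | false =>
    obtain ⟨h1, h2, h3⟩ := (bS_eq_some hS).mp h
    rw [← h3]
    exact h1.swap

theorem exec_ok {w : List Bool} {S S' : St α} (hS : Ok lam e f S) (h : exec lam w S = some S') :
    Ok lam e f S' := by
  induction w generalizing S with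
  | nil => rw [← Option.some.inj h]; exact hS
  | cons b w ih =>
    rw [exec] at h
    obtain ⟨S₁, h1, h2⟩ := Option.bind_eq_some_iff.mp h
    exact ih (step_ok hS h1) h2

theorem step_swap {b : Bool} {S : St α} (hS : Ok lam e f S) :
    step lam (!b) (S.swap lam) = (step lam b S).map (St.swap lam) := by
  cases b with
  | true =>
    unfold step bS
    simp only [Bool.not_true, cond_false, cond_true]
    rw [hS.swap_swap]
  | false =>
    unfold step bS
    simp only [Bool.not_false, cond_false, cond_true]
    cases h : tS (S.swap lam) with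
    | none => rfl
    | some R => rw [Option.map_some, Option.map_some, (tS_ok h hS.swap).swap_swap]

theorem exec_swap {w : List Bool} {S : St α} (hS : Ok lam e f S) :
    exec lam (w.map not) (S.swap lam) = (exec lam w S).map (St.swap lam) := by
  induction w generalizing S with
  | nil => rfl
  | cons b w ih =>
    rw [List.map_cons, exec, exec, step_swap hS]
    cases h : step lam b S with
    | none => rfl
    | some R =>
      rw [Option.map_some, Option.bind_some, Option.bind_some]
      exact ih (step_ok hS h)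

/-! ### Runs -/

theorem Run.of_trun {S S' : St α} (h : TRun S S') (hS : Ok lam e f S) : Run lam S S' := by
  obtain ⟨k, hk⟩ := h.exec lam hS.nd
  exact ⟨true, k, hk⟩

theorem Run.swap {S S' : St α} (hS : Ok lam e f S) (h : Run lam S S') :
    Run lam (S.swap lam) (S'.swap lam) := by
  obtain ⟨b, k, hk⟩ := h
  refine ⟨!b, k, ?_⟩
  have := exec_swap (w := List.replicate k b) hS
  rw [hk, Option.map_some, List.map_replicate] at this
  exact this

theorem Run.ok {S S' : St α} (hS : Ok lam e f S) (h : Run lam S S') : Ok lam e f S' := by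
  obtain ⟨b, k, hk⟩ := h
  exact exec_ok hS hk

theorem Run.refl (S : St α) : Run lam S S := ⟨true, 0, rfl⟩

theorem Run.of_step {b : Bool} {S S' : St α} (h : step lam b S = some S') : Run lam S S' :=
  ⟨b, 1, by rw [List.replicate_one, exec, h]; rfl⟩

theorem Runs.ok {k : ℕ} {S S' : St α} (hS : Ok lam e f S) (h : Runs lam k S S') :
    Ok lam e f S' := by
  induction k generalizing S with
  | zero => rw [← (show S = S' from h)]; exact hS
  | succ k ih =>
    obtain ⟨S₁, h1, h2⟩ := h
    exact ih (h1.ok hS) h2

theorem Runs.trans {k l : ℕ} {S S' S'' : St α} (h : Runs lam k S S') (h' : Runs lam l S' S'') :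
    Runs lam (k + l) S S'' := by
  induction k generalizing S with
  | zero => rw [(show S = S' from h), Nat.zero_add]; exact h'
  | succ k ih =>
    obtain ⟨S₁, h1, h2⟩ := h
    rw [Nat.add_right_comm]
    exact ⟨S₁, h1, ih h2⟩

theorem Runs.of_run {S S' : St α} (h : Run lam S S') : Runs lam 1 S S' := ⟨S', h, rfl⟩

theorem Runs.mono {k l : ℕ} {S S' : St α} (h : Runs lam k S S') (hkl : k ≤ l) :
    Runs lam l S S' := by
  obtain ⟨d, rfl⟩ := Nat.exists_eq_add_of_le hkl
  have : ∀ d, Runs lam d S' S' := fun d => by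
    induction d with
    | zero => rfl
    | succ d ih => exact ⟨S', Run.refl S', ih⟩
  exact h.trans (this d)

theorem Runs.swap {k : ℕ} {S S' : St α} (hS : Ok lam e f S) (h : Runs lam k S S') :
    Runs lam k (S.swap lam) (S'.swap lam) := by
  induction k generalizing S with
  | zero => exact congrArg _ (show S = S' from h)
  | succ k ih =>
    obtain ⟨S₁, h1, h2⟩ := h
    exact ⟨_, h1.swap hS, ih (h1.ok hS) h2⟩

theorem Runs.of_exec {w : List Bool} {S S' : St α} (h : exec lam w S = some S') :
    Runs lam w.length S S' := by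
  induction w generalizing S with
  | nil => exact Option.some.inj h
  | cons b w ih =>
    rw [exec] at h
    obtain ⟨S₁, h1, h2⟩ := Option.bind_eq_some_iff.mp h
    exact ⟨S₁, Run.of_step h1, ih h2⟩

/-! ### Restriction -/

/-- The set `Y` is closed under the pairing and contains `e`. -/
structure Cl (lam : α → α) (e : α) (S : St α) (Y : α → Bool) : Prop where
  /-- closed under the pairing -/
  lam : ∀ x ∈ S.P ++ S.Q, Y x = true → Y (lam x) = true
  /-- contains the last token of the top word -/
  e : Y e = true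
  /-- contains the pointer -/
  m : Y S.m = true

theorem Cl.swap {Y : α → Bool} {S : St α} (hS : Ok lam e f S) (h : Cl lam e S Y) :
    Cl lam f (S.swap lam) Y := by
  refine ⟨fun x hx => h.lam x ?_, ?_, h.lam _ hS.pm h.m⟩
  · rw [List.mem_append] at hx ⊢
    exact hx.symm
  · rw [← hS.lef]
    exact h.lam _ (List.mem_append_left _ (List.mem_of_getLast? hS.le)) h.e

theorem filter_eq_cons {Y : α → Bool} {l : List α} {v : α} {t : List α}
    (h : l.filter Y = v :: t) : ∃ Z C, l = Z ++ v :: C ∧ Z.filter Y = [] ∧ C.filter Y = t ∧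
      Y v = true := by
  induction l with
  | nil => simp at h
  | cons a l ih =>
    by_cases ha : Y a = true
    · rw [List.filter_cons_of_pos ha] at h
      obtain ⟨rfl, rfl⟩ := List.cons.inj h
      exact ⟨[], l, rfl, rfl, rfl, ha⟩
    · rw [List.filter_cons_of_neg ha] at h
      obtain ⟨Z, C, rfl, h1, h2, h3⟩ := ih h
      exact ⟨a :: Z, C, rfl, by rw [List.filter_cons_of_neg ha, h1], h2, h3⟩

theorem filter_eq_append {Y : α → Bool} {l A t : List α}
    (h : l.filter Y = A ++ t) : ∃ B C, l = B ++ C ∧ B.filter Y = A ∧ C.filter Y = t := by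
  obtain ⟨B, C, h1, h2, h3⟩ := List.filter_eq_append_iff.mp h
  exact ⟨B, C, h1, h2, h3⟩

/-- Lifting of a T step. -/
theorem lift_T {Y : α → Bool} {S R : St α} (hS : Ok lam e f S) (hm : Y S.m = true)
    (h : tS (S.res Y) = some R) : ∃ S', TRun S S' ∧ S'.res Y = R := by
  obtain ⟨v, Q, h1, h2, h3, rfl⟩ := tS_eq_some.mp h
  obtain ⟨Z, C, h4, h5, h6, h7⟩ := filter_eq_cons (show S.Q.filter Y = v :: Q from h1)
  have hC : C ≠ [] := by
    rintro rfl
    exact h3 (by rw [← h6]; rfl)
  have hv : v ≠ S.m := h2
  refine ⟨⟨insL S.m (Z ++ [v]) S.P, insL S.m (Z ++ [v]) C, lst S.m (Z ++ [v])⟩,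
    ⟨Z ++ [v], C, by simp, hC, ?_, by rw [h4]; simp, rfl⟩, ?_⟩
  · intro hmem
    rcases List.mem_append.mp hmem with hz | hz
    · have := List.mem_filter.mpr ⟨hz, hm⟩
      rw [h5] at this
      simp at this
    · exact hv (List.mem_singleton.mp hz).symm
  · unfold St.res
    simp only
    rw [insL_filter Y hm, insL_filter Y hm, List.filter_append, h5, h6, List.nil_append,
      lst_append_singleton]
    have : [v].filter Y = [v] := by simp [h7]
    rw [this]

/-- Lifting of a step. -/
theorem lift_step {Y : α → Bool} {S R : St α} {b : Bool} (hS : Ok lam e f S) (hY : Cl lam e S Y)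
    (h : step lam b (S.res Y) = some R) : ∃ S', Run lam S S' ∧ S'.res Y = R := by
  cases b with
  | true =>
    obtain ⟨S', h1, h2⟩ := lift_T hS hY.m h
    exact ⟨S', Run.of_trun h1 hS, h2⟩
  | false =>
    unfold step bS at h
    simp only [cond_false] at h
    obtain ⟨R', h1, rfl⟩ := Option.map_eq_some_iff.mp h
    have hr : (S.res Y).swap lam = (S.swap lam).res Y := rfl
    rw [hr] at h1
    obtain ⟨S', h3, h4⟩ := lift_T hS.swap (hY.swap hS).m h1
    refine ⟨S'.swap lam, ?_, ?_⟩
    · have := (Run.of_trun h3 hS.swap).swap hS.swap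
      rwa [hS.swap_swap] at this
    · rw [← h4]; rfl

theorem mem_res {Y : α → Bool} {S : St α} {x : α} :
    x ∈ (S.res Y).P ++ (S.res Y).Q ↔ x ∈ S.P ++ S.Q ∧ Y x = true := by
  unfold St.res
  simp only [List.mem_append, List.mem_filter]
  tauto

theorem Run.mem_iff {S S' : St α} (hS : Ok lam e f S) (h : Run lam S S') (x : α) :
    x ∈ S'.P ++ S'.Q ↔ x ∈ S.P ++ S.Q := by
  obtain ⟨b, k, hk⟩ := h
  induction k generalizing S with
  | zero => rw [← Option.some.inj hk]
  | succ k ih =>
    rw [List.replicate_succ, exec] at hk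
    obtain ⟨S₁, h1, h2⟩ := Option.bind_eq_some_iff.mp hk
    rw [ih (step_ok hS h1) h2]
    cases b with
    | true => exact ((trun_of_tS h1).perm hS.pm hS.nd).mem_iff
    | false =>
      obtain ⟨h3, h4, h5⟩ := (bS_eq_some hS).mp h1
      have := ((trun_of_tS h4).perm hS.swap.pm hS.swap.nd).mem_iff (a := x)
      unfold St.swap at this
      simp only [List.mem_append] at this ⊢
      tauto

theorem Cl.run {Y : α → Bool} {S S' : St α} (hS : Ok lam e f S) (h : Run lam S S')
    (hY : Cl lam e S Y) (hm : Y S'.m = true) : Cl lam e S' Y :=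
  ⟨fun x hx => hY.lam x ((h.mem_iff hS x).mp hx), hY.e, hm⟩

theorem Ok.res {Y : α → Bool} {S : St α} (hS : Ok lam e f S) (hY : Cl lam e S Y) :
    Ok lam e f (S.res Y) := by
  have hf : Y f = true := (hY.swap hS).e
  refine ⟨fun x hx => hS.inv x (mem_res.mp hx).1, fun x hx => hS.ne x (mem_res.mp hx).1,
    fun x hx => mem_res.mpr ⟨hS.mem x (mem_res.mp hx).1, hY.lam x (mem_res.mp hx).1 (mem_res.mp hx).2⟩,
    hS.lef, ?_, ?_, ?_, mem_res.mpr ⟨hS.pm, hY.m⟩, hS.pe, hS.pf⟩
  · unfold St.res
    rw [← List.filter_append]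
    exact hS.nd.filter _
  · have := hS.le
    unfold St.res
    rcases List.eq_nil_or_concat S.P with h | ⟨C, c, h⟩
    · rw [h] at this; simp at this
    · rw [List.concat_eq_append] at h
      rw [h, List.getLast?_concat] at this
      obtain rfl := Option.some.inj this
      simp only
      rw [h, List.filter_append]
      simp [hY.e]
  · have := hS.lf
    unfold St.res
    rcases List.eq_nil_or_concat S.Q with h | ⟨C, c, h⟩
    · rw [h] at this; simp at this
    · rw [List.concat_eq_append] at h
      rw [h, List.getLast?_concat] at this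
      obtain rfl := Option.some.inj this
      simp only
      rw [h, List.filter_append]
      simp [hf]

/-- **Lifting principle.**  A word of moves of the restriction of a state is the restriction of a
path with the same number of runs. -/
theorem lift {Y : α → Bool} {S R : St α} {w : List Bool} (hS : Ok lam e f S) (hY : Cl lam e S Y)
    (h : exec lam w (S.res Y) = some R) : ∃ S', Runs lam w.length S S' ∧ S'.res Y = R ∧
      Ok lam e f S' ∧ Cl lam e S' Y := by
  induction w generalizing S with
  | nil => exact ⟨S, rfl, Option.some.inj h, hS, hY⟩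
  | cons b w ih =>
    rw [exec] at h
    obtain ⟨R₁, h1, h2⟩ := Option.bind_eq_some_iff.mp h
    obtain ⟨S₁, h3, h4⟩ := lift_step hS hY h1
    have hS1 := h3.ok hS
    have hm : Y S₁.m = true := by
      have h5 := step_ok (hS.res hY) h1
      have h6 := h5.pm
      rw [← h4] at h6
      exact (mem_res.mp h6).2
    have hY1 := hY.run hS h3 hm
    obtain ⟨S', h5, h6, h7, h8⟩ := ih hS1 hY1 (by rw [h4]; exact h2)
    exact ⟨S', ⟨S₁, h3, h5⟩, h6, h7, h8⟩

end Pool.Agent.QuadEq.Star
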