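import Pool.Agent.Lib.MP_b7851d_lc.Star.Lift

/-!
# Backward lifting, and relabelling
-/

namespace Pool.Agent.QuadEq.Star

variable {α β : Type*} [DecidableEq α] [DecidableEq β]
variable {lam : α → α} {e f : α}

theorem Ok.of_perm {S S' : St α} (hS : Ok lam e f S) (hp : List.Perm (S'.P ++ S'.Q) (S.P ++ S.Q))
    (h1 : S'.P.getLast? = some e) (h2 : S'.Q.getLast? = some f) (h3 : S'.m ∈ S.P ++ S.Q)
    (h4 : S'.m ≠ e) (h5 : S'.m ≠ f) : Ok lam e f S' :=
  ⟨fun x hx => hS.inv x (hp.mem_iff.mp hx), fun x hx => hS.ne x (hp.mem_iff.mp hx),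
    fun x hx => hp.mem_iff.mpr (hS.mem x (hp.mem_iff.mp hx)), hS.lef, hp.nodup_iff.mpr hS.nd,
    h1, h2, hp.mem_iff.mpr h3, h4, h5⟩

theorem getLast?_remove {A C Z : List α} {r v x : α}
    (h : (A ++ r :: (Z ++ v :: C)).getLast? = some x) (hx : v ≠ x) :
    (A ++ r :: C).getLast? = some x := by
  rcases List.eq_nil_or_concat C with rfl | ⟨C, c, rfl⟩
  · have : A ++ r :: (Z ++ [v]) = (A ++ r :: Z) ++ [v] := by simp
    rw [this, List.getLast?_concat] at h
    exact absurd (Option.some.inj h) hx
  · rw [List.concat_eq_append] at *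
    have : A ++ r :: (Z ++ v :: (C ++ [c])) = (A ++ r :: (Z ++ v :: C)) ++ [c] := by simp
    rw [this, List.getLast?_concat] at h
    have : A ++ r :: (C ++ [c]) = (A ++ r :: C) ++ [c] := by simp
    rw [this, List.getLast?_concat, h]

theorem getLast?_prepend {A C : List α} {x : α} (h : C.getLast? = some x) :
    (A ++ C).getLast? = some x := by
  rcases List.eq_nil_or_concat C with rfl | ⟨C, c, rfl⟩
  · simp at h
  · rw [List.concat_eq_append] at *
    rw [List.getLast?_concat] at h
    rw [← List.append_assoc, List.getLast?_concat, h]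

theorem split_filter {Y : α → Bool} {l A' C' : List α} {r v : α}
    (h : l.filter Y = A' ++ r :: v :: C') :
    ∃ A Z C, l = A ++ r :: (Z ++ v :: C) ∧ A.filter Y = A' ∧ Z.filter Y = [] ∧
      C.filter Y = C' ∧ Y r = true ∧ Y v = true := by
  obtain ⟨B, D, rfl, h1, h2⟩ := filter_eq_append h
  obtain ⟨Z₁, D₂, rfl, h3, h4, h5⟩ := filter_eq_cons h2
  obtain ⟨Z, C, rfl, h6, h7, h8⟩ := filter_eq_cons h4
  exact ⟨B ++ Z₁, Z, C, by simp, by rw [List.filter_append, h1, h3, List.append_nil], h6, h7, h5, h8⟩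

/-- Backward lifting of a T step. -/
theorem liftInv_T {Y : α → Bool} {S R : St α} (hS : Ok lam e f S) (hR : Ok lam e f R)
    (hY : Cl lam e S Y) (h : tS R = some (S.res Y)) :
    ∃ S₀, Ok lam e f S₀ ∧ TRun S₀ S ∧ S₀.res Y = R := by
  obtain ⟨v, Q, h1, h2, h3, h4⟩ := tS_eq_some.mp h
  obtain ⟨P', Q', r⟩ := R
  simp only at h1 h2 h4
  subst h1
  obtain ⟨SP, SQ, m⟩ := S
  unfold St.res at h4
  simp only [St.mk.injEq] at h4
  obtain ⟨h5, h6, h7⟩ := h4
  subst h7
  have hn := hR.nd
  simp only at hn
  have hmP : m ∉ P' := fun hm => (List.nodup_append.mp hn).2.2 m hm m (by simp) rfl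
  have hmQ : m ∉ Q := (List.nodup_cons.mp (List.nodup_append.mp hn).2.1).1
  have hr := hR.pm
  simp only [List.mem_append, List.mem_cons] at hr
  have hnS := hS.nd
  simp only at hnS
  rcases hr with hr | hr | hr
  · -- the pointer is in the top word
    have hrQ : r ∉ Q := fun hm => (List.nodup_append.mp hn).2.2 r hr r (by simp [hm]) rfl
    obtain ⟨A', C', h8, h9⟩ := List.eq_append_cons_of_mem hr
    subst h8
    rw [insL_split _ h9, List.cons_append, List.nil_append] at h5
    rw [insL_not_mem _ hrQ] at h6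
    obtain ⟨A, Z, C, rfl, h11, h12, h13, h14, h15⟩ := split_filter h5
    have hSQ : SQ ≠ [] := by
      rintro rfl
      exact h3 h6.symm
    have hrA : r ∉ A := fun hm => by
      have := (List.nodup_append.mp (List.nodup_append.mp hnS).1).2.2 r hm r (by simp)
      exact this rfl
    have hrZ : r ∉ Z := fun hm => by
      have := (List.nodup_cons.mp (List.nodup_append.mp (List.nodup_append.mp hnS).1).2.1).1
      exact this (by simp [hm])
    have hrS : r ∉ SQ := fun hm => (List.nodup_append.mp hnS).2.2 r (by simp) r hm rfl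
    have hok : Ok lam e f ⟨A ++ r :: C, Z ++ m :: SQ, r⟩ := by
      refine hS.of_perm ?_ (getLast?_remove hS.le hS.pe) ?_ (by simp) hR.pe hR.pf
      · have e1 : (A ++ r :: C) ++ (Z ++ m :: SQ) = (A ++ [r]) ++ ((C ++ (Z ++ [m])) ++ SQ) := by simp
        have e2 : (A ++ r :: (Z ++ m :: C)) ++ SQ = (A ++ [r]) ++ (((Z ++ [m]) ++ C) ++ SQ) := by simp
        simp only
        rw [e1, e2]
        exact (List.perm_append_comm.append_right SQ).append_left _
      · have : Z ++ m :: SQ = (Z ++ [m]) ++ SQ := by simp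
        simp only
        rw [this]
        exact getLast?_prepend hS.lf
    refine ⟨⟨A ++ r :: C, Z ++ m :: SQ, r⟩, hok, ⟨Z ++ [m], SQ, by simp, hSQ, ?_, by simp, ?_⟩, ?_⟩
    · simp only [List.mem_append, List.mem_singleton, not_or]
      exact ⟨hrZ, fun e => h2 e.symm⟩
    · simp only
      rw [insL_split _ hrA, insL_not_mem _ hrS, lst_append_singleton]
      simp
    · unfold St.res
      simp only
      rw [List.filter_append, List.filter_append, List.filter_cons_of_pos h14,
        List.filter_cons_of_pos h15, h11, h12, h13, h6]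
      rfl
  · exact absurd hr.symm h2
  · -- the pointer is in the bottom word
    have hrP : r ∉ P' := fun hm => (List.nodup_append.mp hn).2.2 r hm r (by simp [hr]) rfl
    obtain ⟨A', C', h8, h9⟩ := List.eq_append_cons_of_mem hr
    subst h8
    rw [insL_split _ h9, List.cons_append, List.nil_append] at h6
    rw [insL_not_mem _ hrP] at h5
    obtain ⟨A, Z, C, rfl, h11, h12, h13, h14, h15⟩ := split_filter h6
    have hrA : r ∉ A := fun hm => by
      have := (List.nodup_append.mp (List.nodup_append.mp hnS).2.1).2.2 r hm r (by simp)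
      exact this rfl
    have hrZ : r ∉ Z := fun hm => by
      have := (List.nodup_cons.mp (List.nodup_append.mp (List.nodup_append.mp hnS).2.1).2.1).1
      exact this (by simp [hm])
    have hrS : r ∉ SP := fun hm => (List.nodup_append.mp hnS).2.2 r hm r (by simp) rfl
    have hok : Ok lam e f ⟨SP, Z ++ m :: (A ++ r :: C), r⟩ := by
      refine hS.of_perm ?_ hS.le ?_ (by simp) hR.pe hR.pf
      · have e1 : SP ++ (Z ++ m :: (A ++ r :: C)) = SP ++ (((Z ++ [m]) ++ (A ++ [r])) ++ C) := by simp
        have e2 : SP ++ (A ++ r :: (Z ++ m :: C)) = SP ++ (((A ++ [r]) ++ (Z ++ [m])) ++ C) := by simp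
        simp only
        rw [e1, e2]
        exact (List.perm_append_comm.append_right C).append_left _
      · have : Z ++ m :: (A ++ r :: C) = (Z ++ [m]) ++ (A ++ r :: C) := by simp
        simp only
        rw [this]
        exact getLast?_prepend (getLast?_remove hS.lf hS.pf)
    refine ⟨⟨SP, Z ++ m :: (A ++ r :: C), r⟩, hok, ⟨Z ++ [m], A ++ r :: C, by simp, by simp, ?_,
      by simp, ?_⟩, ?_⟩
    · simp only [List.mem_append, List.mem_singleton, not_or]
      exact ⟨hrZ, fun e => h2 e.symm⟩
    · simp only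
      rw [insL_split _ hrA, insL_not_mem _ hrS, lst_append_singleton]
      simp
    · unfold St.res
      simp only
      rw [List.filter_append, List.filter_cons_of_pos h15, List.filter_append,
        List.filter_cons_of_pos h14, h11, h12, h13, h5]
      rfl

theorem Cl.run_inv {Y : α → Bool} {S S' : St α} (hS : Ok lam e f S) (h : Run lam S S')
    (hY : Cl lam e S' Y) (hm : Y S.m = true) : Cl lam e S Y :=
  ⟨fun x hx => hY.lam x ((h.mem_iff hS x).mpr hx), hY.e, hm⟩

/-- Backward lifting of a step. -/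
theorem liftInv_step {Y : α → Bool} {S R : St α} {b : Bool} (hS : Ok lam e f S)
    (hR : Ok lam e f R) (hY : Cl lam e S Y) (h : step lam b R = some (S.res Y)) :
    ∃ S₀, Ok lam e f S₀ ∧ Run lam S₀ S ∧ S₀.res Y = R := by
  cases b with
  | true =>
    obtain ⟨S₀, h1, h2, h3⟩ := liftInv_T hS hR hY h
    exact ⟨S₀, h1, Run.of_trun h2 h1, h3⟩
  | false =>
    obtain ⟨h1, h2, h3⟩ := (bS_eq_some hR).mp h
    have hr : (S.res Y).swap lam = (S.swap lam).res Y := rfl
    rw [hr] at h2
    obtain ⟨S₀, h4, h5, h6⟩ := liftInv_T hS.swap hR.swap (hY.swap hS) h2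
    refine ⟨S₀.swap lam, h4.swap, ?_, ?_⟩
    · have := (Run.of_trun h5 h4).swap h4
      rwa [hS.swap_swap] at this
    · have : (S₀.swap lam).res Y = (S₀.res Y).swap lam := rfl
      rw [this, h6, hR.swap_swap]

/-- **Backward lifting.** -/
theorem liftInv {Y : α → Bool} {S R : St α} {w : List Bool} (hS : Ok lam e f S)
    (hR : Ok lam e f R) (hY : Cl lam e S Y) (h : exec lam w R = some (S.res Y)) :
    ∃ S₀, Ok lam e f S₀ ∧ Cl lam e S₀ Y ∧ Runs lam w.length S₀ S ∧ S₀.res Y = R := by
  induction w generalizing R with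
  | nil => exact ⟨S, hS, hY, rfl, (Option.some.inj h).symm⟩
  | cons b w ih =>
    rw [exec] at h
    obtain ⟨R₁, h1, h2⟩ := Option.bind_eq_some_iff.mp h
    obtain ⟨S₁, h3, h4, h5, h6⟩ := ih (step_ok hR h1) h2
    obtain ⟨S₀, h7, h8, h9⟩ := liftInv_step h3 hR h4 (by rw [h6]; exact h1)
    refine ⟨S₀, h7, ?_, ⟨S₁, h8, h5⟩, h9⟩
    refine h4.run_inv h7 h8 ?_
    have := hR.pm
    rw [← h9] at this
    exact (mem_res.mp this).2

/-! ### Relabelling -/

theorem insL_map_of_inj {φ : α → β} {m : α} (Z : List α) {l : List α}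
    (hφ : ∀ x ∈ l, φ x = φ m → x = m) : (insL m Z l).map φ = insL (φ m) (Z.map φ) (l.map φ) := by
  induction l with
  | nil => rfl
  | cons a l ih =>
    rw [insL, List.map_cons, insL]
    by_cases ha : a = m
    · rw [if_pos ha, if_pos (by rw [ha]), List.map_cons, List.map_append]
    · rw [if_neg ha, if_neg (fun e => ha (hφ a (by simp) e)), List.map_cons,
        ih (fun x hx => hφ x (List.mem_cons_of_mem _ hx))]

/-- The map `φ` is a relabelling of the tokens of `S`. -/
structure Rel (lam : α → α) (lam' : β → β) (S : St α) (φ : α → β) : Prop where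
  /-- injective on the tokens -/
  inj : ∀ x ∈ S.P ++ S.Q, ∀ y ∈ S.P ++ S.Q, φ x = φ y → x = y
  /-- compatible with the pairings -/
  lam : ∀ x ∈ S.P ++ S.Q, φ (lam x) = lam' (φ x)

theorem tS_map {S : St α} {φ : α → β} (hm : S.m ∈ S.P ++ S.Q)
    (hφ : ∀ x ∈ S.P ++ S.Q, ∀ y ∈ S.P ++ S.Q, φ x = φ y → x = y) :
    tS (S.map φ) = (tS S).map (St.map φ) := by
  obtain ⟨P, Q, m⟩ := S
  cases Q with
  | nil => rfl
  | cons v Q =>
    unfold tS St.map
    simp only [List.map_cons, List.map_eq_nil_iff]
    simp only at hm hφ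
    by_cases hc : v = m ∨ Q = []
    · rw [if_pos hc, if_pos]
      · rfl
      · rcases hc with h | h
        · exact Or.inl (by rw [h])
        · exact Or.inr h
    · rw [if_neg hc, if_neg]
      · rw [Option.map_some]
        simp only
        rw [insL_map_of_inj, insL_map_of_inj]
        · rfl
        · exact fun x hx => hφ x (by simp [hx]) m hm
        · exact fun x hx => hφ x (by simp [hx]) m hm
      · rintro (h | h)
        · exact hc (Or.inl (hφ v (by simp) m hm h))
        · exact hc (Or.inr h)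

theorem Rel.swap {lam' : β → β} {S : St α} {φ : α → β} (h : Rel lam lam' S φ) :
    Rel lam lam' (S.swap lam) φ := by
  have hp : ∀ x, x ∈ (S.swap lam).P ++ (S.swap lam).Q → x ∈ S.P ++ S.Q := fun x hx => by
    unfold St.swap at hx
    simp only [List.mem_append] at hx ⊢
    exact hx.symm
  exact ⟨fun x hx y hy => h.inj x (hp x hx) y (hp y hy), fun x hx => h.lam x (hp x hx)⟩

theorem map_swap {lam' : β → β} {S : St α} {φ : α → β} (h : Rel lam lam' S φ)
    (hm : S.m ∈ S.P ++ S.Q) : (S.map φ).swap lam' = (S.swap lam).map φ := by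
  unfold St.map St.swap
  simp only
  rw [h.lam _ hm]

theorem step_map {lam' : β → β} {S : St α} {φ : α → β} {b : Bool} (hS : Ok lam e f S)
    (h : Rel lam lam' S φ) : step lam' b (S.map φ) = (step lam b S).map (St.map φ) := by
  cases b with
  | true => exact tS_map hS.pm h.inj
  | false =>
    unfold step bS
    simp only [cond_false]
    rw [map_swap h hS.pm, tS_map hS.swap.pm h.swap.inj]
    cases hR : tS (S.swap lam) with
    | none => rfl
    | some R =>
      have hR' := tS_ok hR hS.swap
      have hrel : Rel lam lam' R φ := by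
        have hp : ∀ x, x ∈ R.P ++ R.Q → x ∈ (S.swap lam).P ++ (S.swap lam).Q := fun x hx =>
          ((trun_of_tS hR).perm hS.swap.pm hS.swap.nd).mem_iff.mp hx
        exact ⟨fun x hx y hy => h.swap.inj x (hp x hx) y (hp y hy),
          fun x hx => h.swap.lam x (hp x hx)⟩
      rw [Option.map_some, Option.map_some, Option.map_some, Option.map_some,
        map_swap hrel hR'.pm]

theorem exec_map {lam' : β → β} {S : St α} {φ : α → β} {w : List Bool} (hS : Ok lam e f S)
    (h : Rel lam lam' S φ) : exec lam' w (S.map φ) = (exec lam w S).map (St.map φ) := by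
  induction w generalizing S with
  | nil => rfl
  | cons b w ih =>
    rw [exec, exec, step_map hS h]
    cases hR : step lam b S with
    | none => rfl
    | some R =>
      rw [Option.map_some, Option.bind_some, Option.bind_some]
      have hp : ∀ x, x ∈ R.P ++ R.Q → x ∈ S.P ++ S.Q := fun x hx =>
        ((Run.of_step hR).mem_iff hS x).mp hx
      exact ih (step_ok hS hR) ⟨fun x hx y hy => h.inj x (hp x hx) y (hp y hy),
        fun x hx => h.lam x (hp x hx)⟩

/-- The lifting of a word of moves of a relabelled restriction (a pattern). -/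
theorem lift_map {lam' : β → β} {Y : α → Bool} {S : St α} {φ : α → β} {w : List Bool}
    {R' : St β} (hS : Ok lam e f S) (hY : Cl lam e S Y) (h : Rel lam lam' (S.res Y) φ)
    (hR : exec lam' w ((S.res Y).map φ) = some R') :
    ∃ S', Runs lam w.length S S' ∧ (S'.res Y).map φ = R' ∧ Ok lam e f S' ∧ Cl lam e S' Y := by
  rw [exec_map (hS.res hY) h] at hR
  obtain ⟨R, h1, h2⟩ := Option.map_eq_some_iff.mp hR
  obtain ⟨S', h3, h4, h5, h6⟩ := lift hS hY h1
  exact ⟨S', h3, by rw [h4, h2], h5, h6⟩

end Pool.Agent.QuadEq.Star
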