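import Pool.Agent.Lib.MP_b7851d_lc.Star.N3bTab
import Pool.Agent.Lib.MP_b7851d_lc.Star.LiftInv

/-!
# N3b: a state which contains one of the 17 patterns and has no far block is joined with a D-state

(finding 4308 of helper15.)  The pairs are added one at a time.
-/

set_option linter.unusedSectionVars false
set_option linter.unusedVariables false

namespace Pool.Agent.QuadEq.Star.N3b



variable {α : Type*} [DecidableEq α] {lam : α → α} {e f : α}

/-- A D-state: `P = A m1 e`, `Q = B m0 f`, with a pair on the top and a pair on the bottom. -/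
structure DS (lam : α → α) (e f : α) (S : St α) : Prop where
  /-- a state -/
  ok : Ok lam e f S
  /-- the top word ends with `m1 e` -/
  top : ∃ A, S.P = A ++ [lam S.m, e]
  /-- the bottom word ends with `m0 f` -/
  bot : ∃ B, S.Q = B ++ [S.m, f]
  /-- a pair on the top -/
  tt : ∃ x ∈ S.P, lam x ∈ S.P
  /-- a pair on the bottom -/
  bb : ∃ z ∈ S.Q, lam z ∈ S.Q

/-- No far block: no non-empty set, closed under the pairing and without the pointer, which consists
of a segment directly before `e` and a segment directly before `f`. -/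
def Irr (lam : α → α) (e f : α) (S : St α) : Prop :=
  ∀ P₁ E Q₁ F, S.P = P₁ ++ E ++ [e] → S.Q = Q₁ ++ F ++ [f] →
    (∀ x ∈ E ++ F, lam x ∈ E ++ F) → S.m ∉ E ++ F → E ++ F = []

/-- The state contains one of the 17 patterns. -/
def Big4 (lam : α → α) (e f : α) (S : St α) : Prop :=
  ∃ p ∈ big4, ∃ φ : ℕ → α, φ 0 = e ∧ φ 1 = f ∧
    (∀ a ∈ p.P ++ p.Q, ∀ b ∈ p.P ++ p.Q, φ a = φ b → a = b) ∧
    (∀ a ∈ p.P ++ p.Q, φ (lamN a) = lam (φ a)) ∧
    S.res (fun z => decide (z ∈ (p.P ++ p.Q).map φ)) = p.map φ

/-! ### D-states of natural numbers -/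

theorem isDN_spec {s : St ℕ} (h : isDN s = true) : ∃ A B, s.P = A ++ [lamN s.m, 0] ∧
    s.Q = B ++ [s.m, 1] ∧ (∃ x ∈ A, lamN x ∈ A) ∧ ∃ x ∈ B, lamN x ∈ B := by
  unfold isDN at h
  cases hP : s.P.reverse with
  | nil => rw [hP] at h; simp at h
  | cons e0 P1 =>
    cases P1 with
    | nil => rw [hP] at h; simp at h
    | cons m1 A =>
      cases hQ : s.Q.reverse with
      | nil => rw [hP, hQ] at h; simp at h
      | cons f0 Q1 =>
        cases Q1 with
        | nil => rw [hP, hQ] at h; simp at h
        | cons m0 B =>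
          rw [hP, hQ] at h
          simp only [Bool.and_eq_true, beq_iff_eq, List.any_eq_true, List.contains_iff_mem] at h
          obtain ⟨⟨⟨⟨⟨h1, h2⟩, h3⟩, h4⟩, x, hx, hx'⟩, z, hz, hz'⟩ := h
          refine ⟨A.reverse, B.reverse, ?_, ?_, ⟨x, by simpa using hx, by simpa using hx'⟩,
            ⟨z, by simpa using hz, by simpa using hz'⟩⟩
          · have := congrArg List.reverse hP
            rw [List.reverse_reverse] at this
            rw [this, h1, h2]
            simp
          · have := congrArg List.reverse hQ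
            rw [List.reverse_reverse] at this
            rw [this, h3, h4]
            simp

/-- The conclusion of the finite checks. -/
def Spec (s : St ℕ) : Prop := Ok lamN 0 1 s ∧ ∃ w1 w2 d, exec lamN w1 s = some d ∧
  exec lamN w2 d = some s ∧ isDN d = true ∧ w1.length ≤ 9 ∧ w2.length ≤ 9

/-- The D-state of a naming. -/
theorem DS.of_map {d : St ℕ} {φ : ℕ → α} (hd : isDN d = true) (hok : Ok lam e f (d.map φ))
    (h0 : φ 0 = e) (h1 : φ 1 = f) (hl : ∀ a ∈ d.P ++ d.Q, φ (lamN a) = lam (φ a)) :
    DS lam e f (d.map φ) := by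
  obtain ⟨A, B, hA, hB, ⟨x, hx, hx'⟩, z, hz, hz'⟩ := isDN_spec hd
  refine ⟨hok, ⟨A.map φ, ?_⟩, ⟨B.map φ, ?_⟩, ⟨φ x, ?_, ?_⟩, ⟨φ z, ?_, ?_⟩⟩
  · simp only [St.map, hA, List.map_append, List.map_cons, List.map_nil, h0]
    rw [hl d.m (by rw [hB]; simp)]
  · simp only [St.map, hB, List.map_append, List.map_cons, List.map_nil, h1]
  · simp only [St.map, hA, List.map_append]
    exact List.mem_append_left _ (List.mem_map_of_mem hx)
  · rw [← hl x (by rw [hA]; simp [hx])]
    simp only [St.map, hA, List.map_append]
    exact List.mem_append_left _ (List.mem_map_of_mem hx')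
  · simp only [St.map, hB, List.map_append]
    exact List.mem_append_left _ (List.mem_map_of_mem hz)
  · rw [← hl z (by rw [hB]; simp [hz])]
    simp only [St.map, hB, List.map_append]
    exact List.mem_append_left _ (List.mem_map_of_mem hz')

/-! ### The core step -/

theorem last_block {blk : α → List α} {N : α → Bool} (hb : ∀ a, ∀ z ∈ blk a, N z = false)
    {l r : List α} {x z : α} (h : expL blk (r ++ [x]) = l ++ [z, x]) (hz : N z = true) :
    blk x = [] := by
  rw [expL_append, expL_cons] at h
  simp only [expL, List.flatMap_nil] at h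
  have h1 : (List.flatMap (fun a => blk a ++ [a]) r ++ blk x) ++ [x] = (l ++ [z]) ++ [x] := by
    simpa using h
  have h2 := List.append_cancel_right h1
  by_contra hne
  have h3 := congrArg List.getLast? h2
  rw [List.getLast?_append, List.getLast?_concat] at h3
  have h4 : (blk x).getLast? = some ((blk x).getLast hne) := List.getLast?_eq_some_getLast hne
  rw [h4] at h3
  have h5 : (blk x).getLast hne = z := by simpa using h3
  have h6 := hb x _ (List.getLast_mem hne)
  rw [h5, hz] at h6
  exact absurd h6 (by simp)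

/-- A D-pattern lifts to a D-state when the blocks of `e` and `f` are empty. -/
theorem DS.expand {blk : α → List α} {d : St α} (hd : DS lam e f d)
    (hok : Ok lam e f (Star.expand blk d)) (he : blk e = []) (hf : blk f = []) :
    DS lam e f (Star.expand blk d) := by
  obtain ⟨A, hA⟩ := hd.top
  obtain ⟨B, hB⟩ := hd.bot
  obtain ⟨x, hx, hx'⟩ := hd.tt
  obtain ⟨z, hz, hz'⟩ := hd.bb
  refine ⟨hok, ⟨expL blk A ++ blk (lam d.m), ?_⟩, ⟨expL blk B ++ blk d.m, ?_⟩,
    ⟨x, mem_expL.2 (Or.inl hx), mem_expL.2 (Or.inl hx')⟩,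
    ⟨z, mem_expL.2 (Or.inl hz), mem_expL.2 (Or.inl hz')⟩⟩
  · simp only [Star.expand, hA, expL_append, expL_cons, he]
    simp [expL]
  · simp only [Star.expand, hB, expL_append, expL_cons, hf]
    simp [expL]

theorem core {T : St α} (hT : Ok lam e f T) {N : α → Bool} (hcl : ∀ x ∈ T.P ++ T.Q, N x = true →
    N (lam x) = true) (hNe : N e = true) (hNm : N T.m = true) {s : St ℕ} (hs : Spec s)
    {φ : ℕ → α} (h0 : φ 0 = e) (h1 : φ 1 = f)
    (hinj : ∀ a ∈ s.P ++ s.Q, ∀ b ∈ s.P ++ s.Q, φ a = φ b → a = b)
    (hl : ∀ a ∈ s.P ++ s.Q, φ (lamN a) = lam (φ a)) (hres : T.res N = s.map φ)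
    {l l' : List α} {z z' : α} (hz : N z = true) (hz' : N z' = true)
    (hP : T.P = l ++ [z, e]) (hQ : T.Q = l' ++ [z', f]) :
    ∃ D, DS lam e f D ∧ (D.P ++ D.Q).Perm (T.P ++ T.Q) ∧ Runs lam 9 T D ∧ Runs lam 9 D T := by
  obtain ⟨hsok, w1, w2, d, hw1, hw2, hd, hl1, hl2⟩ := hs
  have hNf : N f = true := by
    rw [← hT.lef]
    exact hcl e (List.mem_append_left _ (List.mem_of_getLast? hT.le)) hNe
  obtain ⟨blk, hb1, hb2⟩ := exists_expand hT hNe hNf
  have hRes : Ok lam e f (T.res N) := hT.res ⟨hcl, hNe, hNm⟩
  -- the blocks of e and f are empty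
  have hbe : blk e = [] := by
    obtain ⟨r, hr⟩ := List.getLast?_eq_some_iff.1 hRes.le
    have h2 : expL blk (r ++ [e]) = l ++ [z, e] := by
      rw [← hr, ← hP]
      exact congrArg St.P hb1
    exact last_block hb2 h2 hz
  have hbf : blk f = [] := by
    obtain ⟨r, hr⟩ := List.getLast?_eq_some_iff.1 hRes.lf
    have h2 : expL blk (r ++ [f]) = l' ++ [z', f] := by
      rw [← hr, ← hQ]
      exact congrArg St.Q hb1
    exact last_block hb2 h2 hz'
  -- the words in α
  have hrel : Rel lamN lam s φ := ⟨hinj, hl⟩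
  obtain ⟨hdok, hperm⟩ := hsok.exec hw1
  have hrel' : Rel lamN lam d φ := ⟨fun x hx y hy => hinj x (hperm.mem_iff.1 hx) y
    (hperm.mem_iff.1 hy), fun x hx => hl x (hperm.mem_iff.1 hx)⟩
  have e1 : exec lam w1 (s.map φ) = some (d.map φ) := by
    rw [exec_map hsok hrel, hw1]; rfl
  have e2 : exec lam w2 (d.map φ) = some (s.map φ) := by
    rw [exec_map hdok hrel', hw2]; rfl
  rw [← hres] at e1 e2
  have hdok' : Ok lam e f (d.map φ) := (hRes.exec e1).1
  have hdp : ((d.map φ).P ++ (d.map φ).Q).Perm ((T.res N).P ++ (T.res N).Q) := (hRes.exec e1).2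
  have hTb : Ok lam e f (Star.expand blk (T.res N)) := by rw [hb1]; exact hT
  have hD : Ok lam e f (Star.expand blk (d.map φ)) := hdok'.expand_perm hTb hdp
  have hDS : DS lam e f (d.map φ) := DS.of_map hd hdok' h0 h1 (fun a ha => hl a (hperm.mem_iff.1 ha))
  refine ⟨Star.expand blk (d.map φ), hDS.expand hD hbe hbf, ?_, ?_, ?_⟩
  · have := expand_perm (blk := blk) hdp
    rwa [hb1] at this
  · have := (exec_lift e1 hRes hTb).1.mono hl1
    rwa [hb1] at this
  · have := (exec_lift e2 hdok' hD).1.mono hl2
    rwa [hb1] at this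

/-! ### Insertions -/

theorem mem_inserts {t : ℕ} : ∀ {l : List ℕ}, l.Nodup → t ∈ l →
    l ∈ inserts t (l.filter fun z => decide (z ≠ t))
  | [], _, h => by simp at h
  | a :: l, hn, h => by
    rw [List.nodup_cons] at hn
    by_cases ha : a = t
    · subst ha
      have h1 : l.filter (fun z => decide (z ≠ a)) = l := by
        rw [List.filter_eq_self]
        intro z hz
        simp only [decide_eq_true_eq]
        rintro rfl
        exact hn.1 hz
      rw [List.filter_cons_of_neg (by simp), h1]
      cases l with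
      | nil => simp [inserts]
      | cons b l => simp [inserts]
    · rw [List.filter_cons_of_pos (by simpa using ha), inserts]
      refine List.mem_cons_of_mem _ (List.mem_map.2 ⟨l, ?_, rfl⟩)
      refine mem_inserts hn.2 ?_
      rcases List.mem_cons.1 h with h | h
      · exact absurd h.symm ha
      · exact h

theorem mem_ins2 {t : ℕ} {l l' : List ℕ} (hn : (l ++ l').Nodup) (h : t ∈ l ++ l') :
    (l, l') ∈ ins2 t (l.filter (fun z => decide (z ≠ t)), l'.filter fun z => decide (z ≠ t)) := by
  rw [List.nodup_append] at hn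
  have key : ∀ r : List ℕ, t ∉ r → r.filter (fun z => decide (z ≠ t)) = r := fun r hr => by
    rw [List.filter_eq_self]
    intro z hz
    simp only [decide_eq_true_eq]
    rintro rfl
    exact hr hz
  rw [ins2, List.mem_append]
  rcases List.mem_append.1 h with h | h
  · left
    rw [key l' (fun h' => hn.2.2 _ h _ h' rfl)]
    exact List.mem_map.2 ⟨l, mem_inserts hn.1 h, rfl⟩
  · right
    rw [key l (fun h' => hn.2.2 _ h' _ h rfl)]
    exact List.mem_map.2 ⟨l', mem_inserts hn.2.1 h, rfl⟩

/-! ### Expansion, restriction and naming -/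

theorem filter_expL {blk : α → List α} {N N' : α → Bool} : ∀ {l : List α},
    (∀ z ∈ l, N' z = N z) → (∀ z ∈ l, ∀ x ∈ blk z, N' x = true) →
    (∀ z ∈ l, N z = false → blk z = []) → (expL blk l).filter N' = expL blk (l.filter N)
  | [], _, _, _ => rfl
  | a :: l, h1, h2, h3 => by
    have ih := filter_expL (l := l) (fun z hz => h1 z (List.mem_cons_of_mem _ hz))
      (fun z hz => h2 z (List.mem_cons_of_mem _ hz)) (fun z hz => h3 z (List.mem_cons_of_mem _ hz))
    rw [expL_cons, List.filter_append, List.filter_eq_self.2 (h2 a (by simp))]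
    by_cases ha : N a = true
    · rw [List.filter_cons_of_pos (by rw [h1 a (by simp)]; exact ha), ih,
        List.filter_cons_of_pos ha, expL_cons]
    · rw [List.filter_cons_of_neg (by rw [h1 a (by simp)]; exact ha), ih,
        List.filter_cons_of_neg ha, h3 a (by simp) (by simpa using ha)]
      rfl

theorem expL_map {blk : α → List α} {blkN : ℕ → List ℕ} {φ : ℕ → α} : ∀ {l : List ℕ},
    (∀ i ∈ l, (blkN i).map φ = blk (φ i)) → (expL blkN l).map φ = expL blk (l.map φ)
  | [], _ => rfl
  | a :: l, h => by
    rw [expL_cons, List.map_append, List.map_cons, List.map_cons, expL_cons, h a (by simp),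
      expL_map (l := l) (fun i hi => h i (List.mem_cons_of_mem _ hi))]

/-- In a word without repetitions which contains a pair: the pair in its order. -/
theorem exists_pair {A : List α} (hn : A.Nodup) {x : α} (hx : x ∈ A) (hx' : lam x ∈ A)
    (hne : lam x ≠ x) (hinv : lam (lam x) = x) : ∃ t, t ∈ A ∧ lam t ∈ A ∧ lam (lam t) = t ∧
      lam t ≠ t ∧ A.filter (fun z => decide (z = t ∨ z = lam t)) = [t, lam t] := by
  obtain ⟨l1, l2, rfl⟩ := List.append_of_mem hx
  have e0 : ∀ (a b : α) (r1 r2 r3 : List α), (r1 ++ a :: (r2 ++ b :: r3)).Nodup →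
      (r1 ++ a :: (r2 ++ b :: r3)).filter (fun z => decide (z = a ∨ z = b)) = [a, b] := by
    intro a b r1 r2 r3 h
    have key : ∀ r : List α, a ∉ r → b ∉ r → r.filter (fun z => decide (z = a ∨ z = b)) = [] := by
      intro r ha hb
      rw [List.filter_eq_nil_iff]
      intro z hz h'
      simp only [decide_eq_true_eq] at h'
      rcases h' with rfl | rfl
      · exact ha hz
      · exact hb hz
    rw [List.nodup_append, List.nodup_cons, List.nodup_append, List.nodup_cons] at h
    obtain ⟨h1, ⟨h2, h3, ⟨h4, h5⟩, h6⟩, h7⟩ := h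
    simp only [List.mem_append, List.mem_cons, not_or] at h2
    rw [List.filter_append, key r1 (fun h' => h7 _ h' _ (by simp) rfl)
      (fun h' => h7 _ h' _ (by simp) rfl), List.filter_cons_of_pos (by simp), List.filter_append,
      key r2 h2.1 (fun h' => h6 _ h' _ (by simp) rfl), List.filter_cons_of_pos (by simp),
      key r3 h2.2.2 h4]
    rfl
  rcases List.mem_append.1 hx' with h | h
  · obtain ⟨r1, r2, rfl⟩ := List.append_of_mem h
    refine ⟨lam x, hx', by rw [hinv]; exact hx, by rw [hinv], by rw [hinv]; exact hne.symm, ?_⟩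
    rw [hinv]
    have e1 : r1 ++ lam x :: r2 ++ x :: l2 = r1 ++ lam x :: (r2 ++ x :: l2) := by simp
    rw [e1] at hn ⊢
    exact e0 _ _ _ _ _ hn
  · rcases List.mem_cons.1 h with h | h
    · exact absurd h hne
    · obtain ⟨r1, r2, rfl⟩ := List.append_of_mem h
      exact ⟨x, hx, hx', hinv, hne, e0 _ _ _ _ _ hn⟩

/-! ### Adding a pair to a D-state -/

theorem lamN_lt {n i : ℕ} (hn : n % 2 = 0) (hi : i < n) : lamN i < n := by
  unfold lamN; split_ifs <;> omega

theorem extend_aux {d : St α} {blk : α → List α} (hd : DS lam e f d)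
    (hT : Ok lam e f (expand blk d)) {a b y : α} (ha : a = e ∨ a = f) (hb : b ≠ e ∧ b ≠ f)
    (hbm : b ∈ d.P ++ d.Q) (h1 : blk a = [y]) (h2 : blk b = [lam y])
    (h3 : ∀ z ∈ d.P ++ d.Q, z ≠ a → z ≠ b → blk z = []) {φ : ℕ → α} {n : ℕ} (hn : n % 2 = 0)
    (hinj : ∀ i < n + 2, ∀ j < n + 2, φ i = φ j → i = j) (hy : φ n = y) (hy' : φ (n + 1) = lam y)
    (h0 : φ 0 = e) (h1' : φ 1 = f) (hl : ∀ i < n, φ (lamN i) = lam (φ i)) (hn1 : 1 < n)
    {N : α → Bool} (hN : ∀ z ∈ d.P ++ d.Q, N z = true ↔ ∃ i < n, φ i = z) (hNm : N d.m = true)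
    (hNm1 : N (lam d.m) = true) {p : St ℕ} (hp : d.res N = p.map φ)
    (hpt : ∀ i ∈ p.P ++ p.Q, i < n) {aN bN : ℕ} (haN : aN < n) (hbN : bN < n) (hφa : φ aN = a)
    (hφb : φ bN = b) (hs : Spec (expand (blk2 aN bN n) p)) :
    ∃ D, DS lam e f D ∧ (D.P ++ D.Q).Perm ((expand blk d).P ++ (expand blk d).Q) ∧
      Runs lam 9 (expand blk d) D ∧ Runs lam 9 D (expand blk d) := by
  have hnd : (expL blk (d.P ++ d.Q)).Nodup := by rw [expL_append]; exact hT.nd
  have hTm : ∀ x, x ∈ (expand blk d).P ++ (expand blk d).Q ↔ x ∈ expL blk (d.P ++ d.Q) := fun x => by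
    rw [expL_append]; rfl
  have haT : a ∈ d.P ++ d.Q := by
    rcases ha with rfl | rfl
    · exact List.mem_append_left _ (List.mem_of_getLast? hd.ok.le)
    · exact List.mem_append_right _ (List.mem_of_getLast? hd.ok.lf)
  have hyT : y ∈ (expand blk d).P ++ (expand blk d).Q :=
    (hTm y).2 (mem_expL.2 (Or.inr ⟨a, haT, by rw [h1]; simp⟩))
  have hyd : ∀ z ∈ d.P ++ d.Q, z ≠ y := by
    rintro z hz rfl
    exact not_mem_blk hnd haT hz (by rw [h1]; simp)
  have hyd' : ∀ z ∈ d.P ++ d.Q, z ≠ lam y := by
    rintro z hz h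
    exact not_mem_blk hnd hbm hz (by rw [h2, h]; simp)
  have hyy := hT.inv y hyT
  have hblk : ∀ z ∈ d.P ++ d.Q, ∀ x ∈ blk z, x = y ∨ x = lam y := by
    intro z hz x hx
    by_cases hza : z = a
    · rw [hza, h1] at hx; left; simpa using hx
    · by_cases hzb : z = b
      · rw [hzb, h2] at hx; right; simpa using hx
      · rw [h3 z hz hza hzb] at hx; simp at hx
  set N' : α → Bool := fun z => N z || decide (z = y) || decide (z = lam y) with hN'
  have hN't : ∀ z, N' z = true ↔ N z = true ∨ z = y ∨ z = lam y := fun z => by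
    simp only [hN', Bool.or_eq_true, decide_eq_true_eq]; tauto
  have hN'N : ∀ z ∈ d.P ++ d.Q, N' z = N z := by
    intro z hz
    rw [Bool.eq_iff_iff, hN't]
    exact ⟨fun h => h.resolve_right (not_or.2 ⟨hyd z hz, hyd' z hz⟩), Or.inl⟩
  have hmemT : ∀ x, x ∈ (expand blk d).P ++ (expand blk d).Q → x ∈ d.P ++ d.Q ∨ x = y ∨ x = lam y := by
    intro x hx
    rcases mem_expL.1 ((hTm x).1 hx) with h | ⟨z, hz, hx⟩
    · exact Or.inl h
    · exact Or.inr (hblk z hz x hx)
  have hcl : ∀ x ∈ (expand blk d).P ++ (expand blk d).Q, N' x = true → N' (lam x) = true := by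
    intro x hx hNx
    rw [hN't] at hNx ⊢
    rcases hmemT x hx with h | h | h
    · rcases hNx with h' | h' | h'
      · obtain ⟨i, hi, rfl⟩ := (hN x h).1 h'
        exact Or.inl ((hN _ (hd.ok.mem _ h)).2 ⟨lamN i, lamN_lt hn hi, hl i hi⟩)
      · exact absurd h' (hyd x h)
      · exact absurd h' (hyd' x h)
    · right; right; rw [h]
    · right; left; rw [h, hyy]
  have hNe : N' e = true := (hN't e).2 (Or.inl ((hN e (List.mem_append_left _
    (List.mem_of_getLast? hd.ok.le))).2 ⟨0, by omega, h0⟩))
  -- the restriction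
  have hres : (expand blk d).res N' = (expand (blk2 aN bN n) p).map φ := by
    have hsub : ∀ l : List α, (∀ z ∈ l, z ∈ d.P ++ d.Q) →
        (expL blk l).filter N' = expL blk (l.filter N) := by
      intro l hl'
      refine filter_expL (fun z hz => hN'N z (hl' z hz)) ?_ ?_
      · intro z hz x hx
        exact (hN't x).2 (Or.inr (hblk z (hl' z hz) x hx))
      · intro z hz hNz
        refine h3 z (hl' z hz) ?_ ?_
        · rintro rfl
          rw [(hN _ (hl' _ hz)).2 ⟨aN, haN, hφa⟩] at hNz
          exact absurd hNz (by simp)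
        · rintro rfl
          rw [(hN _ (hl' _ hz)).2 ⟨bN, hbN, hφb⟩] at hNz
          exact absurd hNz (by simp)
    have hsubN : ∀ l : List ℕ, (∀ i ∈ l, i < n ∧ φ i ∈ d.P ++ d.Q) →
        (expL (blk2 aN bN n) l).map φ = expL blk (l.map φ) := by
      intro l hl'
      refine expL_map fun i hi => ?_
      obtain ⟨hin, hid⟩ := hl' i hi
      by_cases h4 : i = aN
      · subst h4
        rw [blk2, if_pos rfl, hφa, h1]
        simp [hy]
      · by_cases h5 : i = bN
        · subst h5
          rw [blk2, if_neg h4, if_pos rfl, hφb, h2]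
          simp [hy']
        · rw [blk2, if_neg h4, if_neg h5]
          rw [h3 _ hid (fun h => h4 (hinj i (by omega) aN (by omega) (h.trans hφa.symm)))
            (fun h => h5 (hinj i (by omega) bN (by omega) (h.trans hφb.symm)))]
          rfl
    have eP : d.P.filter N = p.P.map φ := congrArg St.P hp
    have eQ : d.Q.filter N = p.Q.map φ := congrArg St.Q hp
    have em : d.m = φ p.m := congrArg St.m hp
    refine St.ext' ?_ ?_ ?_
    · change (expL blk d.P).filter N' = (expL (blk2 aN bN n) p.P).map φ
      rw [hsub _ (fun z hz => List.mem_append_left _ hz), eP, hsubN]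
      intro i hi
      refine ⟨hpt i (List.mem_append_left _ hi), List.mem_append_left _ ?_⟩
      have : φ i ∈ d.P.filter N := by rw [eP]; exact List.mem_map_of_mem hi
      exact (List.mem_filter.1 this).1
    · change (expL blk d.Q).filter N' = (expL (blk2 aN bN n) p.Q).map φ
      rw [hsub _ (fun z hz => List.mem_append_right _ hz), eQ, hsubN]
      intro i hi
      refine ⟨hpt i (List.mem_append_right _ hi), List.mem_append_right _ ?_⟩
      have : φ i ∈ d.Q.filter N := by rw [eQ]; exact List.mem_map_of_mem hi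
      exact (List.mem_filter.1 this).1
    · exact em
  -- the tokens of the small word
  have hst : ∀ i ∈ (expand (blk2 aN bN n) p).P ++ (expand (blk2 aN bN n) p).Q, i < n + 2 := by
    intro i hi
    have hi' : i ∈ expL (blk2 aN bN n) (p.P ++ p.Q) := by rw [expL_append]; exact hi
    rcases mem_expL.1 hi' with h | ⟨z, hz, hx⟩
    · have := hpt i h; omega
    · unfold blk2 at hx
      split_ifs at hx
      · have : i = n := by simpa using hx
        omega
      · have : i = n + 1 := by simpa using hx
        omega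
      · simp at hx
  have hlam2 : ∀ i ∈ (expand (blk2 aN bN n) p).P ++ (expand (blk2 aN bN n) p).Q,
      φ (lamN i) = lam (φ i) := by
    intro i hi
    have h4 := hst i hi
    by_cases h5 : i < n
    · exact hl i h5
    · by_cases h6 : i = n
      · subst h6
        have : lamN i = i + 1 := by unfold lamN; rw [if_pos hn]
        rw [this, hy', hy]
      · have h7 : i = n + 1 := by omega
        subst h7
        have : lamN (n + 1) = n := by unfold lamN; rw [if_neg (by omega)]; omega
        rw [this, hy, hy', hyy]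
  obtain ⟨A, hA⟩ := hd.top
  obtain ⟨B, hB⟩ := hd.bot
  have hmP : d.m ∈ d.P ++ d.Q := hd.ok.pm
  have hm1P : lam d.m ∈ d.P ++ d.Q := hd.ok.mem _ hd.ok.pm
  have hne : d.m ≠ e ∧ d.m ≠ f ∧ lam d.m ≠ e ∧ lam d.m ≠ f := by
    refine ⟨hd.ok.pe, hd.ok.pf, ?_, ?_⟩
    · exact hd.ok.swap.pf
    · exact hd.ok.swap.pe
  have key : ∀ z z' : α, N' z = true → N' z' = true → ∀ l l' : List α,
      (expand blk d).P = l ++ [z, e] → (expand blk d).Q = l' ++ [z', f] → _ :=
    fun z z' hz hz' l l' hP hQ => core hT hcl hNe (((hN't _).2 (Or.inl hNm)) : N' d.m = true) hs h0 h1'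
      (fun i hi j hj => hinj i (hst i hi) j (hst j hj)) hlam2 hres hz hz' hP hQ
  rcases ha with rfl | rfl
  · have hbf : blk f = [] := h3 f (List.mem_append_right _ (List.mem_of_getLast? hd.ok.lf))
      (fun h => by
        have h5 := hd.ok.nd
        rw [List.nodup_append] at h5
        exact h5.2.2 _ (List.mem_of_getLast? hd.ok.le) _ (List.mem_of_getLast? hd.ok.lf) h.symm)
      (fun h => hb.2 h.symm)
    refine key y d.m ((hN't _).2 (Or.inr (Or.inl rfl))) ((hN't _).2 (Or.inl hNm))
      (expL blk (A ++ [lam d.m])) (expL blk B ++ blk d.m) ?_ ?_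
    · simp only [expand, hA]
      rw [show A ++ [lam d.m, a] = (A ++ [lam d.m]) ++ [a] by simp, expL_append, expL_cons, h1]
      simp [expL]
    · simp only [expand, hB]
      rw [expL_append, expL_cons, expL_cons, hbf]
      simp [expL]
  · have hbe : blk e = [] := h3 e (List.mem_append_left _ (List.mem_of_getLast? hd.ok.le))
      (fun h => by
        have h5 := hd.ok.nd
        rw [List.nodup_append] at h5
        exact h5.2.2 _ (List.mem_of_getLast? hd.ok.le) _ (List.mem_of_getLast? hd.ok.lf) h)
      (fun h => hb.1 h.symm)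
    refine key (lam d.m) y ((hN't _).2 (Or.inl hNm1)) ((hN't _).2 (Or.inr (Or.inl rfl)))
      (expL blk A ++ blk (lam d.m)) (expL blk (B ++ [d.m])) ?_ ?_
    · simp only [expand, hA]
      rw [expL_append, expL_cons, expL_cons, hbe]
      simp [expL]
    · simp only [expand, hB]
      rw [show B ++ [d.m, a] = (B ++ [d.m]) ++ [a] by simp, expL_append, expL_cons, h1]
      simp [expL]

/-! ### Names -/

theorem getD_inj {L : List α} (hL : L.Nodup) {x : α} {i j : ℕ} (hi : i < L.length)
    (hj : j < L.length) (h : L.getD i x = L.getD j x) : i = j := by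
  rw [List.getD_eq_getElem _ _ hi, List.getD_eq_getElem _ _ hj] at h
  exact (List.Nodup.getElem_inj_iff hL).1 h

theorem idxOf_getD {L : List α} (hL : L.Nodup) {x : α} {i : ℕ} (hi : i < L.length) :
    L.idxOf (L.getD i x) = i := by
  rw [List.getD_eq_getElem _ _ hi]
  exact hL.idxOf_getElem i hi

theorem getD_idxOf {L : List α} {x z : α} (hz : z ∈ L) :
    L.getD (L.idxOf z) x = z ∧ L.idxOf z < L.length := by
  have h := List.idxOf_lt_length_iff.2 hz
  refine ⟨?_, h⟩
  rw [List.getD_eq_getElem _ _ h]
  exact List.getElem_idxOf h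

theorem mem_names {L r : List α} {x z : α} :
    z ∈ L ↔ ∃ i < L.length, (L ++ r).getD i x = z := by
  rw [List.mem_iff_getElem]
  constructor
  · rintro ⟨i, hi, h⟩
    refine ⟨i, hi, ?_⟩
    rw [List.getD_append _ _ _ _ hi, List.getD_eq_getElem _ _ hi]
    exact h
  · rintro ⟨i, hi, h⟩
    rw [List.getD_append _ _ _ _ hi, List.getD_eq_getElem _ _ hi] at h
    exact ⟨i, hi, h⟩

theorem nodup_names {L : List α} (hL : L.Nodup) {x : α} {I : List ℕ} (hI : I.Nodup)
    (hI' : ∀ i ∈ I, i < L.length) : (I.map fun i => L.getD i x).Nodup :=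
  List.Nodup.map_on (fun i hi j hj h => getD_inj hL (hI' i hi) (hI' j hj) h) hI

/-- The pair on the top of a D-state, and the pair on the bottom. -/
theorem DS.names {d : St α} (hd : DS lam e f d) : ∃ A B t s, d.P = A ++ [lam d.m, e] ∧
    d.Q = B ++ [d.m, f] ∧ t ∈ A ∧ lam t ∈ A ∧ s ∈ B ∧ lam s ∈ B ∧ lam (lam t) = t ∧
    lam (lam s) = s ∧ A.filter (fun z => decide (z = t ∨ z = lam t)) = [t, lam t] ∧
    B.filter (fun z => decide (z = s ∨ z = lam s)) = [s, lam s] ∧
    [e, f, d.m, lam d.m, t, lam t, s, lam s].Nodup := by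
  obtain ⟨A, hA⟩ := hd.top
  obtain ⟨B, hB⟩ := hd.bot
  obtain ⟨x, hx, hx'⟩ := hd.tt
  obtain ⟨z, hz, hz'⟩ := hd.bb
  have hnd := hd.ok.nd
  have hnd' := hnd
  rw [List.nodup_append] at hnd
  obtain ⟨hnP, hnQ, hdis⟩ := hnd
  have heP : e ∈ d.P := by rw [hA]; simp
  have hmP : lam d.m ∈ d.P := by rw [hA]; simp
  have hfQ : f ∈ d.Q := by rw [hB]; simp
  have hmQ : d.m ∈ d.Q := by rw [hB]; simp
  have hmm := hd.ok.inv _ hd.ok.pm
  have hxx := hd.ok.inv x (List.mem_append_left _ hx)
  have hzz := hd.ok.inv z (List.mem_append_right _ hz)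
  have hlef := hd.ok.lef
  have hlfe := hd.ok.lfe
  have hxA : x ∈ A := by
    rw [hA] at hx
    rcases List.mem_append.1 hx with h | h
    · exact h
    · exfalso
      simp only [List.mem_cons, List.not_mem_nil, or_false] at h
      rcases h with h | h
      · rw [h, hmm] at hx'; exact hdis _ hx' _ hmQ rfl
      · rw [h, hlef] at hx'; exact hdis _ hx' _ hfQ rfl
  have hxA' : lam x ∈ A := by
    rw [hA] at hx'
    rcases List.mem_append.1 hx' with h | h
    · exact h
    · exfalso
      simp only [List.mem_cons, List.not_mem_nil, or_false] at h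
      rcases h with h | h
      · rw [h, hmm] at hxx; exact hdis x (by rw [hA]; simp [hxA]) _ hmQ hxx.symm
      · rw [h, hlef] at hxx; exact hdis x (by rw [hA]; simp [hxA]) _ hfQ hxx.symm
  have hzB : z ∈ B := by
    rw [hB] at hz
    rcases List.mem_append.1 hz with h | h
    · exact h
    · exfalso
      simp only [List.mem_cons, List.not_mem_nil, or_false] at h
      rcases h with h | h
      · rw [h] at hz'; exact hdis _ hmP _ hz' rfl
      · rw [h, hlfe] at hz'; exact hdis _ heP _ hz' rfl
  have hzB' : lam z ∈ B := by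
    rw [hB] at hz'
    rcases List.mem_append.1 hz' with h | h
    · exact h
    · exfalso
      simp only [List.mem_cons, List.not_mem_nil, or_false] at h
      rcases h with h | h
      · rw [h] at hzz; exact hdis _ hmP z (by rw [hB]; simp [hzB]) hzz
      · rw [h, hlfe] at hzz; exact hdis _ heP z (by rw [hB]; simp [hzB]) hzz
  have hAn : A.Nodup := by rw [hA, List.nodup_append] at hnP; exact hnP.1
  have hBn : B.Nodup := by rw [hB, List.nodup_append] at hnQ; exact hnQ.1
  obtain ⟨t, ht, ht', htt, -, hft⟩ := exists_pair hAn hxA hxA' (hd.ok.ne x (by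
    rw [hA]; simp [hxA])) hxx
  obtain ⟨s, hs, hs', hss, -, hfs⟩ := exists_pair hBn hzB hzB' (hd.ok.ne z (by
    rw [hB]; simp [hzB])) hzz
  refine ⟨A, B, t, s, hA, hB, ht, ht', hs, hs', htt, hss, hft, hfs, ?_⟩
  have h1 : [t, lam t, lam d.m, e].Sublist d.P := by
    rw [hA]
    exact (List.Sublist.append_right (hft ▸ List.filter_sublist) [lam d.m, e])
  have h2 : [s, lam s, d.m, f].Sublist d.Q := by
    rw [hB]
    exact (List.Sublist.append_right (hfs ▸ List.filter_sublist) [d.m, f])
  have h3 := (h1.append h2).nodup hnd'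
  have h4 := nodup_names h3 (x := e) (I := [3, 7, 6, 2, 0, 1, 4, 5]) (by decide)
    (fun i hi => by
      have : ∀ i ∈ [3, 7, 6, 2, 0, 1, 4, 5], i < 8 := by decide
      exact this i hi)
  exact h4

/-- The pairs which stand on the top and on the bottom. -/
theorem mem_cases {d : St α} (hd : DS lam e f d) {A B : List α} {t s : α}
    (hA : d.P = A ++ [lam d.m, e]) (hB : d.Q = B ++ [d.m, f]) (ht : t ∈ A) (ht' : lam t ∈ A)
    (hs : s ∈ B) (hs' : lam s ∈ B) :
    (∀ z ∈ A, z ∈ [e, f, d.m, lam d.m, t, lam t, s, lam s] ↔ z = t ∨ z = lam t) ∧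
    (∀ z ∈ B, z ∈ [e, f, d.m, lam d.m, t, lam t, s, lam s] ↔ z = s ∨ z = lam s) := by
  have hnd := hd.ok.nd
  rw [List.nodup_append] at hnd
  obtain ⟨hnP, hnQ, hdis⟩ := hnd
  have hP : ∀ z ∈ A, z ∈ d.P := fun z hz => by rw [hA]; exact List.mem_append_left _ hz
  have hQ : ∀ z ∈ B, z ∈ d.Q := fun z hz => by rw [hB]; exact List.mem_append_left _ hz
  have heP : e ∈ d.P := by rw [hA]; simp
  have hmP : lam d.m ∈ d.P := by rw [hA]; simp
  have hfQ : f ∈ d.Q := by rw [hB]; simp
  have hmQ : d.m ∈ d.Q := by rw [hB]; simp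
  have hA1 : ∀ z ∈ A, z ≠ lam d.m ∧ z ≠ e := by
    intro z hz
    rw [hA, List.nodup_append] at hnP
    exact ⟨fun h => hnP.2.2 _ hz _ (by simp) h, fun h => hnP.2.2 _ hz _ (by simp) h⟩
  have hB1 : ∀ z ∈ B, z ≠ d.m ∧ z ≠ f := by
    intro z hz
    rw [hB, List.nodup_append] at hnQ
    exact ⟨fun h => hnQ.2.2 _ hz _ (by simp) h, fun h => hnQ.2.2 _ hz _ (by simp) h⟩
  constructor
  · intro z hz
    simp only [List.mem_cons, List.not_mem_nil, or_false]
    constructor
    · rintro (h | h | h | h | h | h | h | h)
      · exact absurd h (hA1 z hz).2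
      · exact absurd h (fun h => hdis _ (hP z hz) _ hfQ h)
      · exact absurd h (fun h => hdis _ (hP z hz) _ hmQ h)
      · exact absurd h (hA1 z hz).1
      · exact Or.inl h
      · exact Or.inr h
      · exact absurd h (fun h => hdis _ (hP z hz) _ (hQ _ hs) h)
      · exact absurd h (fun h => hdis _ (hP z hz) _ (hQ _ hs') h)
    · rintro (h | h) <;> simp [h]
  · intro z hz
    simp only [List.mem_cons, List.not_mem_nil, or_false]
    constructor
    · rintro (h | h | h | h | h | h | h | h)
      · exact absurd h (fun h => hdis _ heP _ (hQ z hz) h.symm)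
      · exact absurd h (hB1 z hz).2
      · exact absurd h (hB1 z hz).1
      · exact absurd h (fun h => hdis _ hmP _ (hQ z hz) h.symm)
      · exact absurd h (fun h => hdis _ (hP _ ht) _ (hQ z hz) h.symm)
      · exact absurd h (fun h => hdis _ (hP _ ht') _ (hQ z hz) h.symm)
      · exact Or.inl h
      · exact Or.inr h
    · rintro (h | h) <;> simp [h]

/-- Adding a pair, one token of which stands directly before `e` or `f`. -/
theorem extend {d : St α} {blk : α → List α} (hd : DS lam e f d)
    (hT : Ok lam e f (expand blk d)) {a b y : α} (ha : a = e ∨ a = f) (hb : b ≠ e ∧ b ≠ f)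
    (hbm : b ∈ d.P ++ d.Q) (h1 : blk a = [y]) (h2 : blk b = [lam y])
    (h3 : ∀ z ∈ d.P ++ d.Q, z ≠ a → z ≠ b → blk z = []) :
    ∃ D, DS lam e f D ∧ (D.P ++ D.Q).Perm ((expand blk d).P ++ (expand blk d).Q) ∧
      Runs lam 9 (expand blk d) D ∧ Runs lam 9 D (expand blk d) := by
  obtain ⟨A, B, t, s, hA, hB, ht, ht', hs, hs', htt, hss, hft, hfs, h8⟩ := hd.names
  obtain ⟨hcA, hcB⟩ := mem_cases hd hA hB ht ht' hs hs'
  set L8 : List α := [e, f, d.m, lam d.m, t, lam t, s, lam s] with hL8
  have hnd : (expL blk (d.P ++ d.Q)).Nodup := by rw [expL_append]; exact hT.nd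
  have hTm : ∀ x, x ∈ (expand blk d).P ++ (expand blk d).Q ↔ x ∈ expL blk (d.P ++ d.Q) := fun x => by
    rw [expL_append]; rfl
  have haT : a ∈ d.P ++ d.Q := by
    rcases ha with rfl | rfl
    · exact List.mem_append_left _ (List.mem_of_getLast? hd.ok.le)
    · exact List.mem_append_right _ (List.mem_of_getLast? hd.ok.lf)
  have hyT : y ∈ (expand blk d).P ++ (expand blk d).Q :=
    (hTm y).2 (mem_expL.2 (Or.inr ⟨a, haT, by rw [h1]; simp⟩))
  have hyd : ∀ z ∈ d.P ++ d.Q, z ≠ y := by
    rintro z hz rfl
    exact not_mem_blk hnd haT hz (by rw [h1]; simp)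
  have hyd' : ∀ z ∈ d.P ++ d.Q, z ≠ lam y := by
    rintro z hz h
    exact not_mem_blk hnd hbm hz (by rw [h2, h]; simp)
  have hyne : lam y ≠ y := hT.ne y hyT
  have hlef := hd.ok.lef
  have hlfe := hd.ok.lfe
  have hmm := hd.ok.inv _ hd.ok.pm
  have hP : ∀ z ∈ A, z ∈ d.P ++ d.Q := fun z hz => by
    rw [hA]; exact List.mem_append_left _ (List.mem_append_left _ hz)
  have hQ : ∀ z ∈ B, z ∈ d.P ++ d.Q := fun z hz => by
    rw [hB]; exact List.mem_append_right _ (List.mem_append_left _ hz)
  have heT : e ∈ d.P ++ d.Q := by rw [hA]; simp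
  have hfT : f ∈ d.P ++ d.Q := by rw [hB]; simp
  have hmT : d.m ∈ d.P ++ d.Q := hd.ok.pm
  have hm1T : lam d.m ∈ d.P ++ d.Q := hd.ok.mem _ hd.ok.pm
  have hL8d : ∀ z ∈ L8, z ∈ d.P ++ d.Q := by
    intro z hz
    simp only [hL8, List.mem_cons, List.not_mem_nil, or_false] at hz
    rcases hz with rfl | rfl | rfl | rfl | rfl | rfl | rfl | rfl
    · exact heT
    · exact hfT
    · exact hmT
    · exact hm1T
    · exact hP _ ht
    · exact hP _ ht'
    · exact hQ _ hs
    · exact hQ _ hs'
  have hL8l : ∀ z ∈ L8, lam z ∈ L8 := by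
    intro z hz
    simp only [hL8, List.mem_cons, List.not_mem_nil, or_false] at hz ⊢
    rcases hz with rfl | rfl | rfl | rfl | rfl | rfl | rfl | rfl
    · rw [hlef]; simp
    · rw [hlfe]; simp
    · simp
    · rw [hmm]; simp
    · simp
    · rw [htt]; simp
    · simp
    · rw [hss]; simp
  by_cases hb8 : b ∈ L8
  · -- the old pair contains the second block
    have hLn : (L8 ++ [y, lam y]).Nodup := by
      rw [List.nodup_append]
      refine ⟨h8, by simp [hyne.symm], ?_⟩
      intro z hz w hw h
      simp only [List.mem_cons, List.not_mem_nil, or_false] at hw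
      rcases hw with rfl | rfl
      · exact hyd z (hL8d z hz) h
      · exact hyd' z (hL8d z hz) h
    have hlen : L8.length = 8 := rfl
    have hidx : (L8 ++ [y, lam y]).idxOf b < 8 := by
      rw [List.idxOf_append_of_mem hb8]
      have := List.idxOf_lt_length_iff.2 hb8
      rwa [hlen] at this
    have hφb : (L8 ++ [y, lam y]).getD ((L8 ++ [y, lam y]).idxOf b) e = b :=
      (getD_idxOf (List.mem_append_left _ hb8)).1
    set bN := (L8 ++ [y, lam y]).idxOf b with hbN
    have hbN2 : bN ∈ [2, 3, 4, 5, 6, 7] := by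
      have h0 : bN ≠ 0 := by
        intro h
        rw [h] at hφb
        exact hb.1 hφb.symm
      have h1 : bN ≠ 1 := by
        intro h
        rw [h] at hφb
        exact hb.2 hφb.symm
      have : bN = 2 ∨ bN = 3 ∨ bN = 4 ∨ bN = 5 ∨ bN = 6 ∨ bN = 7 := by omega
      simp only [List.mem_cons, List.not_mem_nil, or_false]
      exact this
    have key : ∀ aN < 8, (L8 ++ [y, lam y]).getD aN e = a → Spec (expand (blk2 aN bN 8) pat4) → _ :=
      fun aN haN hφa hs => extend_aux hd hT ha hb hbm h1 h2 h3 (n := 8)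
        (φ := fun i => (L8 ++ [y, lam y]).getD i e) (by norm_num)
        (fun i hi j hj h => getD_inj hLn (by simpa [hlen] using hi) (by simpa [hlen] using hj) h)
        rfl rfl rfl rfl
        (fun i hi => by
          interval_cases i
          · exact hlef.symm
          · exact hlfe.symm
          · rfl
          · exact hmm.symm
          · rfl
          · exact htt.symm
          · rfl
          · exact hss.symm)
        (by norm_num) (N := fun z => decide (z ∈ L8))
        (fun z _ => by rw [decide_eq_true_eq]; exact mem_names)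
        (by simp [hL8]) (by simp [hL8]) (p := pat4)
        (St.ext' (by
          change d.P.filter (fun z => decide (z ∈ L8)) = [t, lam t, lam d.m, e]
          rw [hA, List.filter_append, List.filter_congr (q := fun z => decide (z = t ∨ z = lam t))
            (fun z hz => by simp only [decide_eq_decide]; exact hcA z hz), hft]
          simp [hL8])
          (by
          change d.Q.filter (fun z => decide (z ∈ L8)) = [s, lam s, d.m, f]
          rw [hB, List.filter_append, List.filter_congr (q := fun z => decide (z = s ∨ z = lam s))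
            (fun z hz => by simp only [decide_eq_decide]; exact hcB z hz), hfs]
          simp [hL8]) rfl)
        (by decide) haN hidx hφa hφb hs
    rcases ha with ha | ha
    · refine key 0 (by norm_num) ha.symm (ext4_spec ?_)
      exact List.mem_flatMap.2 ⟨bN, hbN2, by simp⟩
    · refine key 1 (by norm_num) ha.symm (ext4_spec ?_)
      exact List.mem_flatMap.2 ⟨bN, hbN2, by simp⟩
  · -- a fifth pair
    have hbb : lam (lam b) = b := hd.ok.inv b hbm
    have hbne : lam b ≠ b := hd.ok.ne b hbm
    have hlbm : lam b ∈ d.P ++ d.Q := hd.ok.mem b hbm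
    have hlb8 : lam b ∉ L8 := fun h => hb8 (by have := hL8l _ h; rwa [hbb] at this)
    have h10 : (L8 ++ [b, lam b]).Nodup := by
      rw [List.nodup_append]
      refine ⟨h8, by simp [hbne.symm], ?_⟩
      intro z hz w hw h
      simp only [List.mem_cons, List.not_mem_nil, or_false] at hw
      rcases hw with rfl | rfl
      · exact hb8 (h ▸ hz)
      · exact hlb8 (h ▸ hz)
    set L10 := L8 ++ [b, lam b] with hL10
    have hL10d : ∀ z ∈ L10, z ∈ d.P ++ d.Q := by
      intro z hz
      rcases List.mem_append.1 hz with h | h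
      · exact hL8d z h
      · simp only [List.mem_cons, List.not_mem_nil, or_false] at h
        rcases h with rfl | rfl
        · exact hbm
        · exact hlbm
    have hLn : (L10 ++ [y, lam y]).Nodup := by
      rw [List.nodup_append]
      refine ⟨h10, by simp [hyne.symm], ?_⟩
      intro z hz w hw h
      simp only [List.mem_cons, List.not_mem_nil, or_false] at hw
      rcases hw with rfl | rfl
      · exact hyd z (hL10d z hz) h
      · exact hyd' z (hL10d z hz) h
    have hlen : L10.length = 10 := rfl
    set L := L10 ++ [y, lam y] with hL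
    set N : α → Bool := fun z => decide (z ∈ L10) with hN
    have hNt : ∀ z, N z = true ↔ z ∈ L10 := fun z => by simp only [hN, decide_eq_true_eq]
    have hback : ∀ l : List α, ((l.filter N).map fun z => L.idxOf z).map (fun i => L.getD i e) =
        l.filter N := by
      intro l
      rw [List.map_map]
      conv_rhs => rw [← List.map_id (l.filter N)]
      refine List.map_congr_left fun z hz => ?_
      exact (getD_idxOf (List.mem_append_left _ ((hNt z).1 (List.mem_filter.1 hz).2))).1
    have hidx : ∀ i, (h : i < 12) → L.idxOf (L.getD i e) = i := fun i h =>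
      idxOf_getD hLn (by simpa [hL, hlen] using h)
    have hlt : ∀ z, N z = true → L.idxOf z < 10 := fun z hz => by
      rw [hL, List.idxOf_append_of_mem ((hNt z).1 hz)]
      have := List.idxOf_lt_length_iff.2 ((hNt z).1 hz)
      rwa [hlen] at this
    have hi8 : L.idxOf b = 8 := hidx 8 (by norm_num)
    have hi9 : L.idxOf (lam b) = 9 := hidx 9 (by norm_num)
    have hfil : ∀ (l : List α) (u v : α), (∀ z ∈ l, z ∈ L8 ↔ z = u ∨ z = v) →
        (((l.filter N).map fun z => L.idxOf z).filter (fun i => decide (i ≠ 9))).filter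
          (fun i => decide (i ≠ 8)) =
          (l.filter fun z => decide (z = u ∨ z = v)).map fun z => L.idxOf z := by
      intro l u v hl
      rw [List.filter_filter, List.filter_map, List.filter_filter]
      congr 1
      refine List.filter_congr fun z hz => ?_
      rw [Bool.eq_iff_iff]
      simp only [Function.comp, Bool.and_eq_true, decide_eq_true_eq, hNt]
      rw [← hl z hz]
      constructor
      · rintro ⟨⟨h8, h9⟩, h10⟩
        rcases List.mem_append.1 h10 with h | h
        · exact h
        · simp only [List.mem_cons, List.not_mem_nil, or_false] at h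
          rcases h with rfl | rfl
          · exact absurd hi8 h8
          · exact absurd hi9 h9
      · intro h
        refine ⟨⟨?_, ?_⟩, List.mem_append_left _ h⟩
        · intro h'
          have := (getD_idxOf (x := e) (L := L) (z := z) (List.mem_append_left _
            (List.mem_append_left _ h))).1
          rw [h'] at this
          have h9 : b = z := this
          exact hb8 (h9 ▸ h)
        · intro h'
          have := (getD_idxOf (x := e) (L := L) (z := z) (List.mem_append_left _
            (List.mem_append_left _ h))).1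
          rw [h'] at this
          have h9 : lam b = z := this
          exact hlb8 (h9 ▸ h)
    have hlP := hfil A t (lam t) hcA
    have hlQ := hfil B s (lam s) hcB
    rw [hft] at hlP
    rw [hfs] at hlQ
    have hi4 : L.idxOf t = 4 := hidx 4 (by norm_num)
    have hi5 : L.idxOf (lam t) = 5 := hidx 5 (by norm_num)
    have hi6 : L.idxOf s = 6 := hidx 6 (by norm_num)
    have hi7 : L.idxOf (lam s) = 7 := hidx 7 (by norm_num)
    simp only [List.map_cons, List.map_nil, hi4, hi5] at hlP
    simp only [List.map_cons, List.map_nil, hi6, hi7] at hlQ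
    set lP := (A.filter N).map fun z => L.idxOf z with hlPd
    set lQ := (B.filter N).map fun z => L.idxOf z with hlQd
    -- no repetitions
    have hndl : (lP ++ lQ).Nodup := by
      rw [hlPd, hlQd, ← List.map_append, ← List.filter_append]
      refine List.Nodup.map_on ?_ (List.Nodup.filter _ ?_)
      · intro x hx z hz h
        have hx' := (getD_idxOf (x := e) (L := L) (z := x) (List.mem_append_left _
          ((hNt x).1 (List.mem_filter.1 hx).2))).1
        have hz' := (getD_idxOf (x := e) (L := L) (z := z) (List.mem_append_left _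
          ((hNt z).1 (List.mem_filter.1 hz).2))).1
        rw [← hx', ← hz', h]
      · have : (A ++ B).Sublist (d.P ++ d.Q) := by
          rw [hA, hB]
          exact (List.sublist_append_left _ _).append (List.sublist_append_left _ _)
        exact this.nodup hd.ok.nd
    have hbAB : ∀ z, z ∈ d.P ++ d.Q → z ∉ L8 → z ∈ A ++ B := by
      intro z hz hz8
      rw [hA, hB] at hz
      simp only [List.mem_append, List.mem_cons, List.not_mem_nil, or_false] at hz ⊢
      simp only [hL8, List.mem_cons, List.not_mem_nil, or_false, not_or] at hz8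
      tauto
    have hmem : ∀ z, z ∈ d.P ++ d.Q → z ∉ L8 → z ∈ L10 → L.idxOf z ∈ lP ++ lQ := by
      intro z hz hz8 hz10
      rw [hlPd, hlQd, ← List.map_append, ← List.filter_append]
      exact List.mem_map_of_mem (List.mem_filter.2 ⟨hbAB z hz hz8, (hNt z).2 hz10⟩)
    have hm8 : 8 ∈ lP ++ lQ := by
      have := hmem b hbm hb8 (List.mem_append_right _ (by simp))
      rwa [hi8] at this
    have hm9 : 9 ∈ lP ++ lQ := by
      have := hmem (lam b) hlbm hlb8 (List.mem_append_right _ (by simp))
      rwa [hi9] at this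
    have hins9 := mem_ins2 hndl hm9
    have hndl' : (lP.filter (fun z => decide (z ≠ 9)) ++ lQ.filter (fun z => decide (z ≠ 9))).Nodup := by
      rw [← List.filter_append]
      exact hndl.filter _
    have hins8 := mem_ins2 hndl' (t := 8) (by
      rw [← List.filter_append]
      exact List.mem_filter.2 ⟨hm8, by simp⟩)
    rw [hlP, hlQ] at hins8
    have hp5 : (⟨lP ++ [3, 0], lQ ++ [2, 1], 2⟩ : St ℕ) ∈ pats5 :=
      List.mem_map.2 ⟨(lP, lQ), List.mem_flatMap.2 ⟨_, hins8, hins9⟩, rfl⟩
    have key : ∀ aN < 10, L.getD aN e = a →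
        Spec (expand (blk2 aN 8 10) ⟨lP ++ [3, 0], lQ ++ [2, 1], 2⟩) → _ :=
      fun aN haN hφa hs => extend_aux hd hT ha hb hbm h1 h2 h3 (n := 10)
        (φ := fun i => L.getD i e) (by norm_num)
        (fun i hi j hj h => getD_inj hLn (by simpa [hL, hlen] using hi)
          (by simpa [hL, hlen] using hj) h)
        rfl rfl rfl rfl
        (fun i hi => by
          interval_cases i
          · exact hlef.symm
          · exact hlfe.symm
          · rfl
          · exact hmm.symm
          · rfl
          · exact htt.symm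
          · rfl
          · exact hss.symm
          · rfl
          · exact hbb.symm)
        (by norm_num) (N := N)
        (fun z _ => by rw [hNt]; exact mem_names)
        ((hNt _).2 (List.mem_append_left _ (by simp [hL8])))
        ((hNt _).2 (List.mem_append_left _ (by simp [hL8]))) (p := ⟨lP ++ [3, 0], lQ ++ [2, 1], 2⟩)
        (St.ext' (by
          change d.P.filter N = (lP ++ [3, 0]).map fun i => L.getD i e
          rw [List.map_append, hlPd, hback, hA, List.filter_append]
          congr 1
          rw [List.filter_cons_of_pos ((hNt _).2 (List.mem_append_left _ (by simp [hL8]))),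
            List.filter_cons_of_pos ((hNt _).2 (List.mem_append_left _ (by simp [hL8])))]
          rfl)
          (by
          change d.Q.filter N = (lQ ++ [2, 1]).map fun i => L.getD i e
          rw [List.map_append, hlQd, hback, hB, List.filter_append]
          congr 1
          rw [List.filter_cons_of_pos ((hNt _).2 (List.mem_append_left _ (by simp [hL8]))),
            List.filter_cons_of_pos ((hNt _).2 (List.mem_append_left _ (by simp [hL8])))]
          rfl) rfl)
        (by
          intro i hi
          simp only [List.mem_append, List.mem_cons, List.not_mem_nil, or_false] at hi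
          rcases hi with (h | h | h) | (h | h | h)
          · obtain ⟨z, hz, rfl⟩ := List.mem_map.1 h
            exact hlt z (List.mem_filter.1 hz).2
          · omega
          · omega
          · obtain ⟨z, hz, rfl⟩ := List.mem_map.1 h
            exact hlt z (List.mem_filter.1 hz).2
          · omega
          · omega) haN (by norm_num : (8 : ℕ) < 10) hφa rfl hs
    rcases ha with ha | ha
    · refine key 0 (by norm_num) ha.symm (ext5_spec ?_)
      exact List.mem_flatMap.2 ⟨_, hp5, by simp⟩
    · refine key 1 (by norm_num) ha.symm (ext5_spec ?_)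
      exact List.mem_flatMap.2 ⟨_, hp5, by simp⟩

/-! ### The stages -/

theorem blk_disjoint {blk : α → List α} {l : List α} (hn : (expL blk l).Nodup) {a b x : α}
    (ha : a ∈ l) (hb : b ∈ l) (hxa : x ∈ blk a) (hxb : x ∈ blk b) : a = b := by
  unfold expL at hn
  rw [List.nodup_flatMap] at hn
  by_contra hne
  have : Std.Symm (Function.onFun List.Disjoint fun a => blk a ++ [a]) :=
    ⟨fun a b h z h1 h2 => h h2 h1⟩
  exact hn.2.forall ha hb hne (List.mem_append_left _ hxa) (List.mem_append_left _ hxb)

theorem blk_nodup {blk : α → List α} {l : List α} (hn : (expL blk l).Nodup) {a : α}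
    (ha : a ∈ l) : (blk a).Nodup := by
  unfold expL at hn
  rw [List.nodup_flatMap] at hn
  have := hn.1 a ha
  rw [List.nodup_append] at this
  exact this.1

theorem filter_single {l : List α} (hn : l.Nodup) {x y : α} (hy : y ∈ l) (hx : x ∉ l) :
    l.filter (fun w => decide (w = x ∨ w = y)) = [y] := by
  obtain ⟨l1, l2, rfl⟩ := List.append_of_mem hy
  have key : ∀ r : List α, x ∉ r → y ∉ r → r.filter (fun w => decide (w = x ∨ w = y)) = [] := by
    intro r h1 h2
    rw [List.filter_eq_nil_iff]
    intro z hz h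
    simp only [decide_eq_true_eq] at h
    rcases h with rfl | rfl
    · exact h1 hz
    · exact h2 hz
  rw [List.nodup_append, List.nodup_cons] at hn
  simp only [List.mem_append, List.mem_cons, not_or] at hx
  rw [List.filter_append, key l1 hx.1 (fun h => hn.2.2 _ h _ (by simp) rfl),
    List.filter_cons_of_pos (by simp), key l2 hx.2.2 hn.2.1.1]
  rfl

/-- A stage: the restriction to a closed set of tokens is joined with a D-state. -/
structure Stage (lam : α → α) (e f : α) (S : St α) (A : α → Bool) (c : ℕ) (d : St α) : Prop where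
  /-- the set is closed and contains the pointer -/
  cl : Cl lam e S A
  /-- the D-state -/
  ds : DS lam e f d
  /-- it has the same tokens -/
  perm : (d.P ++ d.Q).Perm ((S.res A).P ++ (S.res A).Q)
  /-- forward -/
  fw : Runs lam c (S.res A) d
  /-- backward -/
  bw : Runs lam c d (S.res A)

/-- The tokens which are missing. -/
def miss (S : St α) (A : α → Bool) : List α := (S.P ++ S.Q).filter fun z => !A z

theorem stage_step {S : St α} (hS : Ok lam e f S) (hirr : Irr lam e f S) {A : α → Bool} {c : ℕ}
    {d : St α} (h : Stage lam e f S A c d) (hne : miss S A ≠ []) :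
    ∃ A' d', Stage lam e f S A' (c + 9) d' ∧ (miss S A').length < (miss S A).length := by
  have hAf : A f = true := (h.cl.swap hS).e
  obtain ⟨blk, hb1, hb2⟩ := exists_expand hS h.cl.e hAf
  have hR : Ok lam e f (S.res A) := hS.res h.cl
  have hSx : S.P ++ S.Q = expL blk ((S.res A).P ++ (S.res A).Q) := by
    rw [expL_append]
    conv_lhs => rw [← hb1]
    rfl
  have hnd : (expL blk ((S.res A).P ++ (S.res A).Q)).Nodup := by rw [← hSx]; exact hS.nd
  have heR : e ∈ (S.res A).P ++ (S.res A).Q := List.mem_append_left _ (List.mem_of_getLast? hR.le)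
  have hfR : f ∈ (S.res A).P ++ (S.res A).Q := List.mem_append_right _ (List.mem_of_getLast? hR.lf)
  have hAR : ∀ z ∈ (S.res A).P ++ (S.res A).Q, A z = true := fun z hz => (mem_res.1 hz).2
  -- a missing token which is not in the last blocks
  obtain ⟨x, hxS, hxA, hxe, hxf⟩ : ∃ x ∈ S.P ++ S.Q, A x = false ∧ x ∉ blk e ∧ x ∉ blk f := by
    by_contra hcon
    push Not at hcon
    have hall : ∀ x ∈ S.P ++ S.Q, A x = false → x ∈ blk e ++ blk f := by
      intro x hx hxA
      by_cases h1 : x ∈ blk e
      · exact List.mem_append_left _ h1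
      · exact List.mem_append_right _ (hcon x hx hxA h1)
    have hin : ∀ x ∈ blk e ++ blk f, x ∈ S.P ++ S.Q ∧ A x = false := by
      intro x hx
      rw [hSx]
      rcases List.mem_append.1 hx with h1 | h1
      · exact ⟨mem_expL.2 (Or.inr ⟨e, heR, h1⟩), hb2 _ _ h1⟩
      · exact ⟨mem_expL.2 (Or.inr ⟨f, hfR, h1⟩), hb2 _ _ h1⟩
    have hlamA : ∀ x ∈ S.P ++ S.Q, A x = false → A (lam x) = false := by
      intro x hx hxA
      by_contra hc
      rw [Bool.not_eq_false] at hc
      have := h.cl.lam _ (hS.mem x hx) hc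
      rw [hS.inv x hx, hxA] at this
      exact absurd this (by simp)
    obtain ⟨r, hr⟩ := List.getLast?_eq_some_iff.1 hR.le
    obtain ⟨r', hr'⟩ := List.getLast?_eq_some_iff.1 hR.lf
    have hP : S.P = expL blk r ++ blk e ++ [e] := by
      conv_lhs => rw [← hb1]
      change expL blk (S.res A).P = _
      rw [hr, expL_append, expL_cons]
      simp [expL]
    have hQ : S.Q = expL blk r' ++ blk f ++ [f] := by
      conv_lhs => rw [← hb1]
      change expL blk (S.res A).Q = _
      rw [hr', expL_append, expL_cons]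
      simp [expL]
    have hnil := hirr _ _ _ _ hP hQ
      (fun x hx => hall _ (hS.mem x (hin x hx).1) (hlamA x (hin x hx).1 (hin x hx).2))
      (fun hm => by
        have := (hin _ hm).2
        rw [h.cl.m] at this
        exact absurd this (by simp))
    apply hne
    unfold miss
    rw [List.filter_eq_nil_iff]
    intro x hx hxA
    have hxA' : A x = false := by simpa using hxA
    have := hall x hx hxA'
    rw [hnil] at this
    simp at this
  -- its block and the block of its partner
  have hyS : lam x ∈ S.P ++ S.Q := hS.mem x hxS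
  have hxx : lam (lam x) = x := hS.inv x hxS
  have hyx : lam x ≠ x := hS.ne x hxS
  have hyA : A (lam x) = false := by
    by_contra hc
    rw [Bool.not_eq_false] at hc
    have := h.cl.lam _ hyS hc
    rw [hxx, hxA] at this
    exact absurd this (by simp)
  obtain ⟨b, hbR, hxb⟩ : ∃ b ∈ (S.res A).P ++ (S.res A).Q, x ∈ blk b := by
    rw [hSx] at hxS
    rcases mem_expL.1 hxS with h1 | h1
    · rw [hAR x h1] at hxA; exact absurd hxA (by simp)
    · exact h1
  obtain ⟨a, haR, hya⟩ : ∃ a ∈ (S.res A).P ++ (S.res A).Q, lam x ∈ blk a := by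
    rw [hSx] at hyS
    rcases mem_expL.1 hyS with h1 | h1
    · rw [hAR _ h1] at hyA; exact absurd hyA (by simp)
    · exact h1
  have hbe : b ≠ e := by rintro rfl; exact hxe hxb
  have hbf : b ≠ f := by rintro rfl; exact hxf hxb
  -- the new set
  set A' : α → Bool := fun z => A z || decide (z = x ∨ z = lam x) with hA'
  have hA't : ∀ z, A' z = true ↔ A z = true ∨ z = x ∨ z = lam x := fun z => by
    simp only [hA', Bool.or_eq_true, decide_eq_true_eq]
  set blk' : α → List α := fun z => (blk z).filter fun w => decide (w = x ∨ w = lam x) with hblk'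
  have hcl' : Cl lam e S A' := by
    refine ⟨fun z hz h1 => ?_, (hA't _).2 (Or.inl h.cl.e), (hA't _).2 (Or.inl h.cl.m)⟩
    rw [hA't] at h1 ⊢
    rcases h1 with h1 | h1 | h1
    · exact Or.inl (h.cl.lam z hz h1)
    · right; right; rw [h1]
    · right; left; rw [h1, hxx]
  have hres : S.res A' = expand blk' (S.res A) := by
    have key : ∀ l : List α, (∀ z ∈ l, A z = true) → (expL blk l).filter A' = expL blk' l := by
      intro l
      induction l with
      | nil => intro _; rfl
      | cons z l ih =>
        intro hl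
        rw [expL_cons, expL_cons, List.filter_append, List.filter_cons_of_pos
          ((hA't z).2 (Or.inl (hl z (by simp)))), ih (fun w hw => hl w (by simp [hw]))]
        congr 1
        refine List.filter_congr fun w hw => ?_
        simp only [hA', hb2 z w hw, Bool.false_or]
    refine St.ext' ?_ ?_ rfl
    · conv_lhs => rw [← hb1]
      exact key _ (fun z hz => hAR z (List.mem_append_left _ hz))
    · conv_lhs => rw [← hb1]
      exact key _ (fun z hz => hAR z (List.mem_append_right _ hz))
  have hR' : Ok lam e f (expand blk' (S.res A)) := by rw [← hres]; exact hS.res hcl'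
  have hT : Ok lam e f (expand blk' d) := h.ds.ok.expand_perm hR' h.perm
  have hTp : ((expand blk' d).P ++ (expand blk' d).Q).Perm ((S.res A').P ++ (S.res A').Q) := by
    rw [hres]
    exact expand_perm h.perm
  have hfw : Runs lam c (S.res A') (expand blk' d) := by
    rw [hres]; exact h.fw.lift hR hR'
  have hbw : Runs lam c (expand blk' d) (S.res A') := by
    rw [hres]; exact h.bw.lift h.ds.ok hT
  have hmiss : (miss S A').length < (miss S A).length := by
    unfold miss
    have hsub : ((S.P ++ S.Q).filter fun z => !A' z).Sublist ((S.P ++ S.Q).filter fun z => !A z) := by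
      have : ((S.P ++ S.Q).filter fun z => !A' z) =
          ((S.P ++ S.Q).filter fun z => !A z).filter fun z => !A' z := by
        rw [List.filter_filter]
        refine List.filter_congr fun z _ => ?_
        rw [Bool.eq_iff_iff]
        simp only [Bool.and_eq_true, Bool.not_eq_true', Bool.eq_false_iff, ne_eq, hA't]
        tauto
      rw [this]
      exact List.filter_sublist
    refine lt_of_le_of_ne hsub.length_le fun heq => ?_
    have h1 := hsub.eq_of_length heq
    have h2 : x ∈ (S.P ++ S.Q).filter fun z => !A z := List.mem_filter.2 ⟨hxS, by simp [hxA]⟩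
    rw [← h1] at h2
    have h3 := (List.mem_filter.1 h2).2
    rw [(hA't x).2 (Or.inr (Or.inl rfl))] at h3
    exact absurd h3 (by simp)
  have hblke : ∀ z ∈ (S.res A).P ++ (S.res A).Q, z ≠ a → z ≠ b → blk' z = [] := by
    intro z hz hza hzb
    simp only [hblk']
    rw [List.filter_eq_nil_iff]
    intro w hw h1
    simp only [decide_eq_true_eq] at h1
    rcases h1 with rfl | rfl
    · exact hzb (blk_disjoint hnd hz hbR hw hxb)
    · exact hza (blk_disjoint hnd hz haR hw hya)
  by_cases hae : a = e ∨ a = f
  · have hab : a ≠ b := by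
      rcases hae with rfl | rfl
      · exact hbe.symm
      · exact hbf.symm
    have h1 : blk' a = [lam x] := by
      simp only [hblk']
      exact filter_single (blk_nodup hnd haR) hya
        (fun h' => hab (blk_disjoint hnd haR hbR h' hxb))
    have h2 : blk' b = [lam (lam x)] := by
      rw [hxx]
      simp only [hblk']
      have := filter_single (blk_nodup hnd hbR) hxb
        (fun h' => hab (blk_disjoint hnd haR hbR hya h'))
      rw [← this]
      refine List.filter_congr fun w _ => ?_
      simp only [decide_eq_decide]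
      tauto
    obtain ⟨D, hD, hDp, hD1, hD2⟩ := extend h.ds hT hae ⟨hbe, hbf⟩ (h.perm.mem_iff.2 hbR) h1 h2
      (fun z hz => hblke z (h.perm.mem_iff.1 hz))
    refine ⟨A', D, ⟨hcl', hD, hDp.trans hTp, hfw.trans hD1, ?_⟩, hmiss⟩
    have := hD2.trans hbw
    rwa [Nat.add_comm] at this
  · rw [not_or] at hae
    have h1 : blk' e = [] := hblke e heR (fun h => hae.1 h.symm) (fun h => hbe h.symm)
    have h2 : blk' f = [] := hblke f hfR (fun h => hae.2 h.symm) (fun h => hbf h.symm)
    exact ⟨A', _, ⟨hcl', h.ds.expand hT h1 h2, hTp, hfw.mono (by omega), hbw.mono (by omega)⟩, hmiss⟩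

theorem stage_all {S : St α} (hS : Ok lam e f S) (hirr : Irr lam e f S) : ∀ (n : ℕ) {A : α → Bool}
    {c : ℕ} {d : St α}, Stage lam e f S A c d → (miss S A).length ≤ n →
    ∃ D, DS lam e f D ∧ (D.P ++ D.Q).Perm (S.P ++ S.Q) ∧ Runs lam (c + 9 * n) S D ∧
      Runs lam (c + 9 * n) D S := by
  intro n
  induction n with
  | zero =>
    intro A c d h hn
    have h0 : miss S A = [] := List.length_eq_zero_iff.1 (Nat.le_zero.1 hn)
    have hall : ∀ z ∈ S.P ++ S.Q, A z = true := by
      intro z hz
      unfold miss at h0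
      rw [List.filter_eq_nil_iff] at h0
      simpa using h0 z hz
    have hSA : S.res A = S := St.ext' (List.filter_eq_self.2 fun z hz => hall z
      (List.mem_append_left _ hz)) (List.filter_eq_self.2 fun z hz => hall z
      (List.mem_append_right _ hz)) rfl
    have h1 := h.perm
    have h2 := h.fw
    have h3 := h.bw
    rw [hSA] at h1 h2 h3
    exact ⟨d, h.ds, h1, h2, h3⟩
  | succ n ih =>
    intro A c d h hn
    by_cases h0 : miss S A = []
    · obtain ⟨D, h1, h2, h3, h4⟩ := ih h (by rw [h0]; simp)
      exact ⟨D, h1, h2, h3.mono (by omega), h4.mono (by omega)⟩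
    · obtain ⟨A', d', h', hlt⟩ := stage_step hS hirr h h0
      obtain ⟨D, h1, h2, h3, h4⟩ := ih h' (by omega)
      exact ⟨D, h1, h2, h3.mono (by omega), h4.mono (by omega)⟩

/-- The first stage. -/
theorem stage_zero {S : St α} (hS : Ok lam e f S) (hb : Big4 lam e f S) :
    ∃ A d, Stage lam e f S A 9 d := by
  obtain ⟨p, hp, φ, h0, h1, hinj, hl, hres⟩ := hb
  obtain ⟨hpok, w1, w2, d, hw1, hw2, hd, hl1, hl2⟩ := big4_spec hp
  have hcl : Cl lam e S (fun z => decide (z ∈ (p.P ++ p.Q).map φ)) := by
    refine ⟨fun x hx h => ?_, ?_, ?_⟩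
    · rw [decide_eq_true_eq] at h ⊢
      obtain ⟨a, ha, rfl⟩ := List.mem_map.1 h
      rw [← hl a ha]
      exact List.mem_map_of_mem (hpok.mem a ha)
    · rw [decide_eq_true_eq, ← h0]
      exact List.mem_map_of_mem (List.mem_append_left _ (List.mem_of_getLast? hpok.le))
    · have hm : S.m = φ p.m := congrArg St.m hres
      rw [decide_eq_true_eq, hm]
      exact List.mem_map_of_mem hpok.pm
  have hrel : Rel lamN lam p φ := ⟨hinj, hl⟩
  obtain ⟨hdok, hperm⟩ := hpok.exec hw1
  have hrel' : Rel lamN lam d φ := ⟨fun x hx y hy => hinj x (hperm.mem_iff.1 hx) y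
    (hperm.mem_iff.1 hy), fun x hx => hl x (hperm.mem_iff.1 hx)⟩
  have e1 : exec lam w1 (p.map φ) = some (d.map φ) := by
    rw [exec_map hpok hrel, hw1]; rfl
  have e2 : exec lam w2 (d.map φ) = some (p.map φ) := by
    rw [exec_map hdok hrel', hw2]; rfl
  rw [← hres] at e1 e2
  have hRes := hS.res hcl
  obtain ⟨hok', hp'⟩ := hRes.exec e1
  exact ⟨_, d.map φ, ⟨hcl, DS.of_map hd hok' h0 h1 (fun a ha => hl a (hperm.mem_iff.1 ha)), hp',
    (Runs.of_exec e1).mono hl1, (Runs.of_exec e2).mono hl2⟩⟩

/-- N3b: a state without far block which contains one of the 17 patterns is joined, in both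
directions and by linearly many runs, with a D-state. -/
theorem n3b {S : St α} (hS : Ok lam e f S) (hirr : Irr lam e f S) (hb : Big4 lam e f S) :
    ∃ D, DS lam e f D ∧ (D.P ++ D.Q).Perm (S.P ++ S.Q) ∧
      Runs lam (9 + 9 * (S.P ++ S.Q).length) S D ∧ Runs lam (9 + 9 * (S.P ++ S.Q).length) D S := by
  obtain ⟨A, d, h⟩ := stage_zero hS hb
  exact stage_all hS hirr _ h (List.length_filter_le _ _)

end Pool.Agent.QuadEq.Star.N3b
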