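import Pool.Agent.Lib.MP_b7851d_lc.Star.N3b

/-!
# N3b for arbitrary start patterns

If the restriction of an irreducible state to a closed set of tokens is joined in both directions
with a D-state, then so is the state itself.  The restriction may be given by a name: a state of
another type of tokens and a map of the tokens.
-/

set_option linter.unusedSectionVars false
set_option linter.unusedVariables false

namespace Pool.Agent.QuadEq.Star.N3b

variable {α β : Type*} [DecidableEq α] [DecidableEq β] {lam : α → α} {e f : α}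

/-! ### Paths of named states -/

theorem Rel.exec {lam' : β → β} {e' f' : β} {p q : St β} {φ : β → α} (hp : Ok lam' e' f' p)
    (h : Rel lam' lam p φ) {w : List Bool} (hw : exec lam' w p = some q) : Rel lam' lam q φ := by
  obtain ⟨-, hperm⟩ := hp.exec hw
  exact ⟨fun x hx y hy => h.1 x (hperm.mem_iff.1 hx) y (hperm.mem_iff.1 hy),
    fun x hx => h.2 x (hperm.mem_iff.1 hx)⟩

theorem Run.map {lam' : β → β} {e' f' : β} {p q : St β} {φ : β → α} (hp : Ok lam' e' f' p)
    (h : Rel lam' lam p φ) (hr : Run lam' p q) : Run lam (p.map φ) (q.map φ) ∧ Rel lam' lam q φ := by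
  obtain ⟨b, k, hk⟩ := hr
  refine ⟨⟨b, k, ?_⟩, Rel.exec hp h hk⟩
  rw [exec_map hp h, hk]
  rfl

theorem Runs.map {lam' : β → β} {e' f' : β} {φ : β → α} : ∀ {k : ℕ} {p q : St β},
    Ok lam' e' f' p → Rel lam' lam p φ → Runs lam' k p q → Runs lam k (p.map φ) (q.map φ)
  | 0, p, q, _, _, h => by
    obtain rfl : p = q := h
    rfl
  | k + 1, p, q, hp, hrel, h => by
    obtain ⟨s, h1, h2⟩ := h
    obtain ⟨h3, h4⟩ := Run.map hp hrel h1
    exact ⟨s.map φ, h3, Runs.map (h1.ok hp) h4 h2⟩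

theorem Rel.runs {lam' : β → β} {e' f' : β} {φ : β → α} : ∀ {k : ℕ} {p q : St β},
    Ok lam' e' f' p → Rel lam' lam p φ → Runs lam' k p q → Rel lam' lam q φ
  | 0, p, q, _, hrel, h => by
    obtain rfl : p = q := h
    exact hrel
  | k + 1, p, q, hp, hrel, h => by
    obtain ⟨s, h1, h2⟩ := h
    exact Rel.runs (h1.ok hp) (Run.map hp hrel h1).2 h2

theorem Runs.perm : ∀ {k : ℕ} {S S' : St α}, Ok lam e f S → Runs lam k S S' →
    (S'.P ++ S'.Q).Perm (S.P ++ S.Q)
  | 0, S, S', _, h => by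
    obtain rfl : S = S' := h
    exact List.Perm.refl _
  | k + 1, S, S', hS, h => by
    obtain ⟨S₁, ⟨b, j, h1⟩, h2⟩ := h
    obtain ⟨h3, h4⟩ := hS.exec h1
    exact (Runs.perm h3 h2).trans h4

/-- The naming of a D-state. -/
theorem DS.map {lam' : β → β} {e' f' : β} {d : St β} {φ : β → α} (hd : DS lam' e' f' d)
    (hrel : Rel lam' lam d φ) (hok : Ok lam e f (d.map φ)) (he : φ e' = e) (hf : φ f' = f) :
    DS lam e f (d.map φ) := by
  obtain ⟨A, hA⟩ := hd.top
  obtain ⟨B, hB⟩ := hd.bot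
  obtain ⟨x, hx, hx'⟩ := hd.tt
  obtain ⟨z, hz, hz'⟩ := hd.bb
  refine ⟨hok, ⟨A.map φ, ?_⟩, ⟨B.map φ, ?_⟩, ⟨φ x, List.mem_map_of_mem hx, ?_⟩,
    ⟨φ z, List.mem_map_of_mem hz, ?_⟩⟩
  · simp only [St.map, hA, List.map_append, List.map_cons, List.map_nil, he]
    rw [hrel.2 d.m hd.ok.pm]
  · simp only [St.map, hB, List.map_append, List.map_cons, List.map_nil, hf]
  · rw [← hrel.2 x (List.mem_append_left _ hx)]
    exact List.mem_map_of_mem hx'
  · rw [← hrel.2 z (List.mem_append_right _ hz)]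
    exact List.mem_map_of_mem hz'

/-! ### Far blocks are never created -/

theorem Irr.swap {S : St α} (hS : Ok lam e f S) (h : Irr lam e f S) :
    Irr lam f e (S.swap lam) := by
  intro P₁ E Q₁ F h1 h2 h3 h4
  have h5 : ∀ z, z ∈ F ++ E ↔ z ∈ E ++ F := fun z => by
    simp only [List.mem_append]; tauto
  have h6 := h Q₁ F P₁ E h2 h1 (fun x hx => (h5 _).2 (h3 x ((h5 x).1 hx))) (fun hm => h4 (by
    have h7 := (h5 _).1 hm
    exact h3 _ h7))
  simp only [List.append_eq_nil_iff] at h6 ⊢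
  exact ⟨h6.2, h6.1⟩

/-- Removing `v` from a word with a given end. -/
theorem remove_ins {m v x : α} {l L E : List α} (hn : (insL m [v] l).Nodup) (hm : m ∈ l)
    (hv : v ∉ l) (h : insL m [v] l = L ++ E ++ [x]) (hvE : v ∉ E) (hvx : v ≠ x) :
    ∃ L', l = L' ++ E ++ [x] ∧ m ∉ E := by
  obtain ⟨X, Y, rfl, hX⟩ := List.eq_append_cons_of_mem hm
  rw [insL_split [v] hX] at h hn
  have hvL : v ∈ L := by
    have : v ∈ L ++ E ++ [x] := by rw [← h]; simp
    simp only [List.mem_append, List.mem_singleton] at this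
    rcases this with (h1 | h1) | h1
    · exact h1
    · exact absurd h1 hvE
    · exact absurd h1 hvx
  obtain ⟨L1, L2, rfl⟩ := List.append_of_mem hvL
  have h1 : (X ++ [m]) ++ v :: Y = L1 ++ v :: (L2 ++ E ++ [x]) := by simpa using h
  have hn1 : ((X ++ [m]) ++ v :: Y).Nodup := by simpa using hn
  have h2 : X ++ [m] = L1 ∧ Y = L2 ++ E ++ [x] := by
    have hvX : v ∉ X ++ [m] := by
      intro h3
      rw [List.nodup_append] at hn1
      exact hn1.2.2 v h3 v (by simp) rfl
    have hvY : v ∉ Y := by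
      intro h3
      rw [List.nodup_append] at hn1
      exact (List.nodup_cons.1 hn1.2.1).1 h3
    have h3 := (List.append_cons_inj_of_notMem hvX hvY).1 h1
    exact ⟨h3.1, h3.2.2⟩
  obtain ⟨rfl, rfl⟩ := h2
  refine ⟨X ++ m :: L2, by simp, fun hmE => ?_⟩
  rw [List.nodup_append] at hn1
  exact hn1.2.2 m (by simp) m (by simp [hmE]) rfl

theorem Irr.tS {S S' : St α} (hS : Ok lam e f S) (h : Irr lam e f S) (ht : tS S = some S') :
    Irr lam e f S' := by
  have hS' := hS.tS ht
  obtain ⟨v, Q, h1, h2, h3, rfl⟩ := tS_eq_some.1 ht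
  have hn := hS.nd
  have hn' := hS'.nd
  rw [h1] at hn
  simp only [List.nodup_append] at hn hn'
  have hvP : v ∉ S.P := fun h => hn.2.2 _ h _ (by simp) rfl
  have hvQ : v ∉ Q := (List.nodup_cons.1 hn.2.1).1
  intro P₁ E Q₁ F h4 h5 h6 h7
  simp only at h4 h5 h7
  have hvE : v ∉ E := fun h => h7 (List.mem_append_left _ h)
  have hvF : v ∉ F := fun h => h7 (List.mem_append_right _ h)
  have hve : v ≠ e := by
    rintro rfl
    exact hvP (List.mem_of_getLast? hS.le)
  have hvf : v ≠ f := hS'.pf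
  have hmem := hS.pm
  rw [h1] at hmem
  simp only [List.mem_append, List.mem_cons] at hmem
  have key : (∃ L', S.P = L' ++ E ++ [e]) ∧ (∃ L', S.Q = L' ++ F ++ [f]) ∧ S.m ∉ E ++ F := by
    rcases hmem with hm | hm | hm
    · have hmQ : S.m ∉ Q := fun h => hn.2.2 _ hm _ (List.mem_cons_of_mem _ h) rfl
      rw [insL_not_mem [v] hmQ] at h5
      obtain ⟨L', h8, h9⟩ := remove_ins hn'.1 hm hvP h4 hvE hve
      refine ⟨⟨L', h8⟩, ⟨v :: Q₁, by rw [h1, h5]; simp⟩, ?_⟩
      rw [List.mem_append, not_or]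
      refine ⟨h9, fun h => hmQ ?_⟩
      rw [h5]; simp [h]
    · exact absurd hm.symm h2
    · have hmP : S.m ∉ S.P := fun h => hn.2.2 _ h _ (List.mem_cons_of_mem _ hm) rfl
      rw [insL_not_mem [v] hmP] at h4
      obtain ⟨L', h8, h9⟩ := remove_ins hn'.2.1 hm hvQ h5 hvF hvf
      refine ⟨⟨P₁, h4⟩, ⟨v :: L', by rw [h1, h8]; simp⟩, ?_⟩
      rw [List.mem_append, not_or]
      refine ⟨fun h => hmP ?_, h9⟩
      rw [h4]; simp [h]
  obtain ⟨⟨L, hL⟩, ⟨L', hL'⟩, hm⟩ := key
  exact h L E L' F hL hL' h6 hm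

theorem Irr.step {b : Bool} {S S' : St α} (hS : Ok lam e f S) (h : Irr lam e f S)
    (ht : step lam b S = some S') : Irr lam e f S' := by
  cases b with
  | true => exact Irr.tS hS h ht
  | false =>
    obtain ⟨R, h1, rfl⟩ := bS_iff.1 ht
    have h2 := Irr.tS hS.swap (Irr.swap hS h) h1
    exact Irr.swap (hS.swap.tS h1) h2

theorem Irr.exec : ∀ {w : List Bool} {S S' : St α}, Ok lam e f S → Irr lam e f S →
    exec lam w S = some S' → Irr lam e f S'
  | [], S, S', _, h, hw => by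
    obtain rfl : S = S' := by simpa [Star.exec] using hw
    exact h
  | b :: w, S, S', hS, h, hw => by
    rw [exec_cons, Option.bind_eq_some_iff] at hw
    obtain ⟨S₁, h1, h2⟩ := hw
    exact Irr.exec (hS.step h1) (Irr.step hS h h1) h2

theorem Irr.runs : ∀ {k : ℕ} {S S' : St α}, Ok lam e f S → Irr lam e f S →
    Runs lam k S S' → Irr lam e f S'
  | 0, S, S', _, h, hr => by
    obtain rfl : S = S' := hr
    exact h
  | k + 1, S, S', hS, h, hr => by
    obtain ⟨S₁, ⟨b, j, h1⟩, h2⟩ := hr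
    exact Irr.runs (hS.exec h1).1 (Irr.exec hS h h1) h2

/-! ### The general forms of N3b -/

/-- If the restriction to a closed set of tokens is joined with a D-state, then so is the state. -/
theorem n3b_of {S : St α} (hS : Ok lam e f S) (hirr : Irr lam e f S) {A : α → Bool}
    (hA : Cl lam e S A) {c : ℕ} {d : St α} (hd : DS lam e f d) (h1 : Runs lam c (S.res A) d)
    (h2 : Runs lam c d (S.res A)) :
    ∃ D, DS lam e f D ∧ (D.P ++ D.Q).Perm (S.P ++ S.Q) ∧
      Runs lam (c + 9 * (S.P ++ S.Q).length) S D ∧ Runs lam (c + 9 * (S.P ++ S.Q).length) D S :=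
  stage_all hS hirr _ ⟨hA, hd, Runs.perm (hS.res hA) h1, h1, h2⟩ (List.length_filter_le _ _)

/-- The same with a named pattern. -/
theorem n3b_pat {S : St α} (hS : Ok lam e f S) (hirr : Irr lam e f S) {A : α → Bool}
    (hA : Cl lam e S A) {lam' : β → β} {e' f' : β} {p d : St β} {φ : β → α}
    (hp : Ok lam' e' f' p) (hrel : Rel lam' lam p φ) (he : φ e' = e) (hf : φ f' = f)
    (hres : S.res A = p.map φ) {c : ℕ} (hd : DS lam' e' f' d) (h1 : Runs lam' c p d)
    (h2 : Runs lam' c d p) :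
    ∃ D, DS lam e f D ∧ (D.P ++ D.Q).Perm (S.P ++ S.Q) ∧
      Runs lam (c + 9 * (S.P ++ S.Q).length) S D ∧
      Runs lam (c + 9 * (S.P ++ S.Q).length) D S := by
  have hdok : Ok lam' e' f' d := hd.ok
  have hrel' := Rel.runs hp hrel h1
  have h3 := Runs.map hp hrel h1
  have h4 := Runs.map hdok hrel' h2
  rw [← hres] at h3 h4
  exact n3b_of hS hirr hA (hd.map hrel' (h3.ok (hS.res hA)) he hf) h3 h4

/-- A pattern which is joined with a state that contains one of the 17 patterns. -/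
theorem n3b_chain {S : St α} (hS : Ok lam e f S) (hirr : Irr lam e f S) {A : α → Bool}
    (hA : Cl lam e S A) {lam' : β → β} {e' f' : β} {p q : St β} {φ : β → α}
    (hp : Ok lam' e' f' p) (hpi : Irr lam' e' f' p) (hrel : Rel lam' lam p φ) (he : φ e' = e)
    (hf : φ f' = f) (hres : S.res A = p.map φ) {c : ℕ} (hq : Big4 lam' e' f' q)
    (h1 : Runs lam' c p q) (h2 : Runs lam' c q p) :
    ∃ D, DS lam e f D ∧ (D.P ++ D.Q).Perm (S.P ++ S.Q) ∧
      Runs lam (c + 9 + 9 * (p.P ++ p.Q).length + 9 * (S.P ++ S.Q).length) S D ∧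
      Runs lam (c + 9 + 9 * (p.P ++ p.Q).length + 9 * (S.P ++ S.Q).length) D S := by
  have hqok : Ok lam' e' f' q := h1.ok hp
  obtain ⟨d, hd, hdp, h3, h4⟩ := n3b hqok (Irr.runs hp hpi h1) hq
  rw [(Runs.perm hp h1).length_eq] at h3 h4
  have h5 := h1.trans h3
  have h6 := h4.trans h2
  have h7 : Runs lam' (c + 9 + 9 * (p.P ++ p.Q).length) p d := h5.mono (by omega)
  have h8 : Runs lam' (c + 9 + 9 * (p.P ++ p.Q).length) d p := h6.mono (by omega)
  exact n3b_pat hS hirr hA hp hrel he hf hres hd h7 h8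

end Pool.Agent.QuadEq.Star.N3b
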